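import Pool.Agent.Lib.SPP.FinB

/-!
# SPP.FinC: consequences: power saving for all `X` (with an exceptional modulus), for arbitrarily large `X`, and the
version with a power of the logarithm
-/

set_option autoImplicit false

open Finset Filter

namespace Pool.Agent.Lib.SPP

open Pool.Agent.HLB Pool.Agent.HLT Pool.Agent.HLR Pool.Agent.Lib.GMV

namespace FinCAux

open SqAux

lemma ABs_mono {X : ℕ} {E E' : ℝ} {P P' : ℕ → ℝ → Prop} (h : ABs X E P) (hE : E ≤ E')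
    (hP : ∀ n s, 0 < s → P n s → P' n s) : ABs X E' P' := by
  obtain ⟨F, h1, h2, h3⟩ := h
  refine ⟨F, h1, h2.trans hE, fun n hn hnF hsq => ?_⟩
  obtain ⟨s, hs, ht, hp⟩ := h3 n hn hnF hsq
  exact ⟨s, hs, ht, hP n s hs hp⟩

lemma HLs_mono {n X : ℕ} {s e e' E E' : ℝ} (hs : 0 < s) (h : HLs n X s e E) (he : e ≤ e') (hE : E ≤ E') :
    HLs n X s e' E' := by
  obtain ⟨h1, h2⟩ := h
  refine ⟨h1.trans ?_, fun M₁ M₂ h12 hM => (h2 M₁ M₂ h12 hM).trans ?_⟩
  · refine mul_le_mul_of_nonneg_right he ?_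
    exact mul_nonneg hs.le (div_nonneg (Real.sqrt_nonneg _) (Real.log_natCast_nonneg n))
  · refine add_le_add (mul_le_mul_of_nonneg_right he ?_) hE
    have : (M₁ : ℝ) ≤ M₂ := by exact_mod_cast h12
    exact div_nonneg (mul_nonneg hs.le (by linarith)) (Real.log_natCast_nonneg X)

/-- Siegel: the exceptional modulus is larger than any power of `log X`. -/
lemma sieg_mod (c : ℝ) (hc : 0 < c) (K : ℕ) : ∃ X0 : ℕ, ∀ X Q : ℕ, X0 ≤ X →
    Real.sqrt (Real.log X) ≤ Real.log Q → ∀ x β, IsExc c Q x β → Real.log X ^ K ≤ (md x : ℝ) := by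
  obtain ⟨Cs, hCs, hsieg⟩ := siegZ (1 / (2 * (K + 1 : ℕ))) (by positivity)
  have h2 : Tendsto (fun X : ℕ => Real.log (X : ℝ)) atTop atTop :=
    Real.tendsto_log_atTop.comp tendsto_natCast_atTop_atTop
  set D : ℝ := (Cs / c) ^ (2 * (K + 1)) with hD
  have hD0 : 0 < D := by positivity
  obtain ⟨X3, hX3⟩ := eventually_atTop.1 (h2.eventually_ge_atTop (max 1 (max (1 / D) (100 * c ^ 2 + 1))))
  refine ⟨X3, fun X Q hX hQ x β ⟨e1, e2, e3, e4, e5, e6⟩ => ?_⟩
  have f8 := hX3 X hX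
  set L : ℝ := Real.log X with hL
  have hL1 : 1 ≤ L := (le_max_left _ _).trans f8
  have hLD : 1 / D ≤ L := ((le_max_left _ _).trans (le_max_right _ _)).trans f8
  have hLc : 100 * c ^ 2 + 1 ≤ L := ((le_max_right _ _).trans (le_max_right _ _)).trans f8
  have hL0 : 0 < L := by linarith
  have hs1 : 1 ≤ Real.sqrt L := Real.one_le_sqrt.mpr hL1
  have hQlog : 0 < Real.log (Q : ℝ) := lt_of_lt_of_le (by linarith) hQ
  have hsl : Real.sqrt L * Real.sqrt L = L := Real.mul_self_sqrt hL0.le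
  have hb9 : 9 / 10 ≤ β := by
    have h11 : c / Real.log (Q : ℝ) ≤ 1 / 10 := by
      rw [div_le_iff₀ hQlog]
      have h12 : 10 * c ≤ Real.sqrt L := by
        by_contra hcon
        push Not at hcon
        nlinarith
      nlinarith
    linarith
  have h13 := hsieg x β (mem_Ch.1 e1).2 e2 e3 e4 hb9 e6
  have h14 : Cs * (md x : ℝ) ^ (-(1 / (2 * (K + 1 : ℕ)) : ℝ)) ≤ c / Real.sqrt L := by
    refine h13.trans ?_
    have h15 : c / Real.log (Q : ℝ) ≤ c / Real.sqrt L :=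
      div_le_div_of_nonneg_left hc.le (by linarith) hQ
    linarith
  have hq0 : (0 : ℝ) < md x := by exact_mod_cast md_pos x
  have h17 : Cs / c * Real.sqrt L ≤ (md x : ℝ) ^ ((1 / (2 * (K + 1 : ℕ)) : ℝ)) := by
    have hp : 0 < (md x : ℝ) ^ ((1 / (2 * (K + 1 : ℕ)) : ℝ)) := Real.rpow_pos_of_pos hq0 _
    rw [Real.rpow_neg hq0.le] at h14
    rw [le_div_iff₀ (by linarith : 0 < Real.sqrt L)] at h14
    rw [div_mul_eq_mul_div, div_le_iff₀ hc]
    have h18 := mul_le_mul_of_nonneg_right h14 hp.le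
    have e7 : Cs * ((md x : ℝ) ^ ((1 / (2 * (K + 1 : ℕ)) : ℝ)))⁻¹ * Real.sqrt L *
        (md x : ℝ) ^ ((1 / (2 * (K + 1 : ℕ)) : ℝ)) = Cs * Real.sqrt L := by
      field_simp
    rw [e7] at h18
    linarith
  have h19 : (Cs / c * Real.sqrt L) ^ (2 * (K + 1)) ≤
      ((md x : ℝ) ^ ((1 / (2 * (K + 1 : ℕ)) : ℝ))) ^ (2 * (K + 1)) :=
    pow_le_pow_left₀ (by positivity) h17 _
  have e8 : ((md x : ℝ) ^ ((1 / (2 * (K + 1 : ℕ)) : ℝ))) ^ (2 * (K + 1)) = md x := by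
    rw [← Real.rpow_natCast, ← Real.rpow_mul hq0.le]
    have : (1 / (2 * (K + 1 : ℕ)) : ℝ) * ((2 * (K + 1) : ℕ) : ℝ) = 1 := by
      push_cast
      have : (0 : ℝ) < (K : ℝ) + 1 := by positivity
      field_simp
    rw [this, Real.rpow_one]
  have e9 : (Cs / c * Real.sqrt L) ^ (2 * (K + 1)) = D * L ^ (K + 1) := by
    rw [mul_pow, ← hD, pow_mul (Real.sqrt L), _root_.sq, hsl]
  rw [e8, e9] at h19
  refine le_trans ?_ h19
  have h23 : 1 ≤ D * L := by
    rw [div_le_iff₀ hD0] at hLD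
    linarith
  have e10 : D * L ^ (K + 1) = (D * L) * L ^ K := by
    rw [pow_succ]
    ring
  rw [e10]
  have h25 : 0 ≤ L ^ K := by positivity
  nlinarith

end FinCAux

open FinCAux SqAux

/-- For every `X`: the theorem with `Q = ⌊X ^ κ⌋`. -/
theorem fin_all (c1 c : ℝ) (hZ : ZFree c1) (hc : 0 < c) (hcc : c < c1) :
    ∃ C : ℝ, 0 < C ∧ ∀ ε : ℝ, 0 < ε → ∀ κ0 : ℝ, 0 < κ0 → ∃ κ : ℝ, 0 < κ ∧ κ ≤ κ0 ∧
      ∃ X0 : ℕ, ∀ X : ℕ, X0 ≤ X →
      ∃ q : ℕ, ExMod c ⌊(X : ℝ) ^ κ⌋₊ q ∧ (⌊(X : ℝ) ^ κ⌋₊ : ℝ) ≤ (X : ℝ) ^ κ ∧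
        Real.sqrt (Real.log X) ≤ Real.log (⌊(X : ℝ) ^ κ⌋₊ : ℝ) ∧
        ABs X ((X : ℝ) ^ (1 - κ / 200)) fun n s => Real.sqrt X ≤ n ∧
          HLs n X s (ε + C * Gs q n) ((X : ℝ) ^ (1 / 2 - κ / 200)) := by
  obtain ⟨a, C, c2, ha, hC, hc2, X1, hcore⟩ := finB 1 c1 c hZ hc hcc
  refine ⟨C, hC, fun ε hε κ0 hκ0 => ?_⟩
  obtain ⟨κ, hκ, hκ2, hκe⟩ := Fin2Aux.small_exp a C (ε / 2) ha (half_pos hε) (min c2 κ0) (lt_min hc2 hκ0)
  refine ⟨κ, hκ, hκ2.trans (min_le_right _ _), ?_⟩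
  obtain ⟨X2, hX2⟩ := Fin2Aux.floor_pow_facts κ hκ 1
  have h2 : Tendsto (fun X : ℕ => Real.log (X : ℝ)) atTop atTop :=
    Real.tendsto_log_atTop.comp tendsto_natCast_atTop_atTop
  obtain ⟨X3, hX3⟩ := eventually_atTop.1 (h2.eventually_ge_atTop (max 1 (2 * C / ε)))
  refine ⟨max X1 (max X2 X3), fun X hX => ?_⟩
  obtain ⟨f1, f2, f3, f4, f5, f6, f7⟩ := hX2 X ((le_max_left _ _).trans ((le_max_right _ _).trans hX))
  have f8 := hX3 X ((le_max_right _ _).trans ((le_max_right _ _).trans hX))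
  have hL1 : 1 ≤ Real.log X := (le_max_left _ _).trans f8
  have hLC : 2 * C / ε ≤ Real.log X := (le_max_right _ _).trans f8
  have hX1 : (1 : ℝ) ≤ X := by exact_mod_cast f4
  have hX0 : (0 : ℝ) < X := by linarith
  set Q : ℕ := ⌊(X : ℝ) ^ κ⌋₊ with hQ
  have hQ0 : (0 : ℝ) < Q := by linarith
  have hle : (Q : ℝ) ≤ (X : ℝ) ^ c2 :=
    f2.trans (Real.rpow_le_rpow_of_exponent_le hX1 (hκ2.trans (min_le_left _ _)))
  obtain ⟨q, hq, hAB⟩ := hcore X Q ((le_max_left _ _).trans hX) f1 hle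
  have hpw : ∀ t : ℝ, 0 < t → (Q : ℝ) ^ (-(t / 5)) ≤ (X : ℝ) ^ (-(κ * t / 10)) := by
    intro t ht
    have h5 := Real.rpow_le_rpow (by positivity) f5 ht.le
    rw [← Real.rpow_mul hQ0.le, ← Real.rpow_mul hX0.le] at h5
    have e1 : -(1 / 5 : ℝ) * t = -(t / 5) := by ring
    have e2 : -(κ / 10) * t = -(κ * t / 10) := by ring
    rwa [e1, e2] at h5
  refine ⟨q, hq, f2, ?_, ABs_mono hAB ?_ ?_⟩
  · have := Real.log_le_log (Real.exp_pos _) f1
    rwa [Real.log_exp] at this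
  · have h6 := hpw (1 / 20) (by norm_num)
    have e1 : -((1 / 20 : ℝ) / 5) = -(1 / 100) := by norm_num
    have e2 : -(κ * (1 / 20) / 10) = -(κ / 200) := by ring
    rw [e1, e2] at h6
    calc (X : ℝ) * (Q : ℝ) ^ (-(1 / 100 : ℝ)) ≤ X * (X : ℝ) ^ (-(κ / 200)) :=
          mul_le_mul_of_nonneg_left h6 hX0.le
      _ = (X : ℝ) ^ (1 - κ / 200) := by
          rw [sub_eq_add_neg, Real.rpow_add hX0, Real.rpow_one]
  · rintro n s hs ⟨hn, hHL⟩
    refine ⟨hn, HLs_mono hs hHL ?_ ?_⟩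
    · have hEr := Fin2Aux.er_le ha hκ f6 f7
      have h7 : C * Er a X Q ≤ ε / 2 := (mul_le_mul_of_nonneg_left hEr hC.le).trans hκe
      have h8 : C * (1 / Real.log X ^ 1) ≤ ε / 2 := by
        rw [pow_one, mul_one_div, div_le_iff₀ (by linarith)]
        rw [div_le_iff₀ hε] at hLC
        linarith
      have : C * (Er a X Q + Gs q n + 1 / Real.log X ^ 1) =
          C * Er a X Q + C * (1 / Real.log X ^ 1) + C * Gs q n := by ring
      rw [this]
      linarith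
    · have h6 := hpw (1 / 14) (by norm_num)
      have e1 : -((1 / 14 : ℝ) / 5) = -(1 / 70) := by norm_num
      rw [e1] at h6
      have h7 : (X : ℝ) ^ (-(κ * (1 / 14) / 10)) ≤ (X : ℝ) ^ (-(κ / 200)) :=
        Real.rpow_le_rpow_of_exponent_le hX1 (by linarith)
      calc Real.sqrt X * (Q : ℝ) ^ (-(1 / 70 : ℝ)) ≤ Real.sqrt X * (X : ℝ) ^ (-(κ / 200)) :=
            mul_le_mul_of_nonneg_left (h6.trans h7) (Real.sqrt_nonneg _)
        _ = (X : ℝ) ^ (1 / 2 - κ / 200) := by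
            rw [sub_eq_add_neg, Real.rpow_add hX0, Real.sqrt_eq_rpow]

/-- Arbitrarily large `X`: no exceptional modulus. -/
theorem fin_inf (c1 : ℝ) (hZ : ZFree c1) (hc1 : 0 < c1) :
    ∀ ε : ℝ, 0 < ε → ∃ δ : ℝ, 0 < δ ∧ ∀ N : ℕ, ∃ X : ℕ, N ≤ X ∧
      ABs X ((X : ℝ) ^ (1 - δ)) fun n s => Real.sqrt X ≤ n ∧ HLs n X s ε ((X : ℝ) ^ (1 / 2 - δ)) := by
  intro ε hε
  obtain ⟨C, hC, h⟩ := fin_all c1 (c1 / 2) hZ (by linarith) (by linarith)
  obtain ⟨κ, hκ, -, X0, h3⟩ := h ε hε 1 one_pos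
  refine ⟨κ / 200, by positivity, fun N => ?_⟩
  obtain ⟨X, hX, hno⟩ := noExc c1 (c1 / 2) κ hZ (by linarith) (by linarith) hκ (max N X0)
  obtain ⟨q, hq, -, -, hAB⟩ := h3 X ((le_max_right _ _).trans hX)
  have hq0 : q = 0 := by
    rcases hq with ⟨h0, -⟩ | ⟨xe, β, he, -⟩
    · exact h0
    · exact absurd he (hno xe β)
  refine ⟨X, (le_max_left _ _).trans hX, ABs_mono hAB le_rfl ?_⟩
  rintro n s hs ⟨hn, hHL⟩
  refine ⟨hn, HLs_mono hs hHL ?_ le_rfl⟩
  have e : Gs q n = 0 := by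
    unfold Gs
    rw [if_pos hq0]
  rw [e, mul_zero, add_zero]

/-- All large `X`, with an exceptional modulus `q` which is `0` or larger than any power of `log X`. -/
theorem fin_mod (c1 : ℝ) (hZ : ZFree c1) (hc1 : 0 < c1) :
    ∀ ε : ℝ, 0 < ε → ∀ κ0 : ℝ, 0 < κ0 → ∃ δ : ℝ, 0 < δ ∧ ∃ K : ℕ, ∀ A : ℕ, ∃ X0 : ℕ, ∀ X : ℕ, X0 ≤ X →
      ∃ q : ℕ, (q : ℝ) ≤ (X : ℝ) ^ κ0 ∧ (q = 0 ∨ Real.log X ^ A ≤ q) ∧
        ABs X ((X : ℝ) ^ (1 - δ)) fun n s => (q ≠ 0 ∧ q < K * Nat.gcd q n) ∨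
          (Real.sqrt X ≤ n ∧ HLs n X s ε ((X : ℝ) ^ (1 / 2 - δ))) := by
  intro ε hε κ0 hκ0
  obtain ⟨C, hC, h⟩ := fin_all c1 (c1 / 2) hZ (by linarith) (by linarith)
  obtain ⟨κ, hκ, hκκ, X1, h3⟩ := h (ε / 2) (by linarith) κ0 hκ0
  have hlim : Tendsto (fun m : ℕ => C * (m : ℝ) ^ (-(1 / 2 : ℝ))) atTop (nhds (C * 0)) := by
    refine Tendsto.const_mul C ?_
    exact (tendsto_rpow_neg_atTop (by norm_num : (0 : ℝ) < 1 / 2)).comp tendsto_natCast_atTop_atTop
  rw [mul_zero] at hlim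
  obtain ⟨K, hK1, hK2⟩ := ((hlim.eventually (gt_mem_nhds (half_pos hε))).and
    (eventually_ge_atTop 1)).exists
  refine ⟨κ / 200, by positivity, K, fun A => ?_⟩
  obtain ⟨X2, hX2⟩ := sieg_mod (c1 / 2) (by linarith) A
  refine ⟨max X1 (max X2 1), fun X hX => ?_⟩
  obtain ⟨q, hq, hf2, hf3, hAB⟩ := h3 X ((le_max_left _ _).trans hX)
  have hXone : 1 ≤ X := (le_max_right _ _).trans ((le_max_right _ _).trans hX)
  have hX1 : (1 : ℝ) ≤ X := by exact_mod_cast hXone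
  have hq1 : (q : ℝ) ≤ (X : ℝ) ^ κ0 ∧ (q = 0 ∨ Real.log X ^ A ≤ q) := by
    rcases hq with ⟨h0, -⟩ | ⟨xe, β, he, hqe⟩
    · rw [h0]
      refine ⟨?_, Or.inl rfl⟩
      rw [Nat.cast_zero]
      positivity
    · refine ⟨?_, Or.inr ?_⟩
      · have h4 : q ≤ ⌊(X : ℝ) ^ κ⌋₊ := by
          rw [hqe]
          exact (mem_Ch.1 he.1).1
        have h5 : (q : ℝ) ≤ (⌊(X : ℝ) ^ κ⌋₊ : ℝ) := by exact_mod_cast h4
        exact h5.trans (hf2.trans (Real.rpow_le_rpow_of_exponent_le hX1 hκκ))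
      · rw [hqe]
        exact hX2 X _ ((le_max_left _ _).trans ((le_max_right _ _).trans hX)) hf3 xe β he
  refine ⟨q, hq1.1, hq1.2, ABs_mono hAB le_rfl ?_⟩
  rintro n s hs ⟨hn, hHL⟩
  by_cases hd : q ≠ 0 ∧ q < K * Nat.gcd q n
  · exact Or.inl hd
  · right
    refine ⟨hn, HLs_mono hs hHL ?_ le_rfl⟩
    have hG : C * Gs q n ≤ ε / 2 := by
      unfold Gs
      split_ifs with h0
      · rw [mul_zero]; linarith
      · have hle : K * Nat.gcd q n ≤ q := by
          by_contra hcon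
          push Not at hcon
          exact hd ⟨h0, hcon⟩
        have hgpos : 0 < Nat.gcd q n := Nat.gcd_pos_of_pos_left _ (Nat.pos_of_ne_zero h0)
        have hg0 : (0 : ℝ) < (Nat.gcd q n : ℝ) := by exact_mod_cast hgpos
        have hK0 : (0 : ℝ) < K := by exact_mod_cast hK2
        have h10 : (K : ℝ) ≤ (q : ℝ) / (Nat.gcd q n : ℝ) := by
          rw [le_div_iff₀ hg0]
          exact_mod_cast hle
        have h13 : ((q : ℝ) / (Nat.gcd q n : ℝ)) ^ (-(1 / 2 : ℝ)) ≤ (K : ℝ) ^ (-(1 / 2 : ℝ)) :=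
          Real.rpow_le_rpow_of_nonpos hK0 h10 (by norm_num)
        exact (mul_le_mul_of_nonneg_left h13 hC.le).trans hK1.le
    linarith

/-- All large `X`, integers without divisor in `(w, X ^ κ]`. -/
theorem fin_div (c1 : ℝ) (hZ : ZFree c1) (hc1 : 0 < c1) :
    ∀ ε : ℝ, 0 < ε → ∀ κ0 : ℝ, 0 < κ0 → ∀ w : ℕ, ∃ δ : ℝ, 0 < δ ∧ ∃ X0 : ℕ, ∀ X : ℕ, X0 ≤ X →
      ABs X ((X : ℝ) ^ (1 - δ)) fun n s => (∃ d : ℕ, d ∣ n ∧ w < d ∧ (d : ℝ) ≤ (X : ℝ) ^ κ0) ∨
          (Real.sqrt X ≤ n ∧ HLs n X s ε ((X : ℝ) ^ (1 / 2 - δ))) := by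
  intro ε hε κ0 hκ0 w
  obtain ⟨δ, hδ, K, h⟩ := fin_mod c1 hZ hc1 ε hε κ0 hκ0
  obtain ⟨X1, hX1⟩ := h 1
  have h2 : Tendsto (fun X : ℕ => Real.log (X : ℝ)) atTop atTop :=
    Real.tendsto_log_atTop.comp tendsto_natCast_atTop_atTop
  obtain ⟨X2, hX2⟩ := eventually_atTop.1 (h2.eventually_ge_atTop ((K * w : ℕ) : ℝ))
  refine ⟨δ, hδ, max X1 X2, fun X hX => ?_⟩
  obtain ⟨q, hq1, hq2, hAB⟩ := hX1 X ((le_max_left _ _).trans hX)
  have hL := hX2 X ((le_max_right _ _).trans hX)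
  refine ABs_mono hAB le_rfl ?_
  rintro n s hs (⟨h0, hlt⟩ | hgood)
  · left
    have h3 : ((K * w : ℕ) : ℝ) ≤ q := by
      rcases hq2 with h4 | h4
      · exact absurd h4 h0
      · rw [pow_one] at h4
        exact hL.trans h4
    have h3' : K * w ≤ q := by exact_mod_cast h3
    refine ⟨Nat.gcd q n, Nat.gcd_dvd_right _ _, ?_, ?_⟩
    · by_contra hcon
      push Not at hcon
      have := Nat.mul_le_mul_left K hcon
      omega
    · have h8' : Nat.gcd q n ≤ q := Nat.le_of_dvd (Nat.pos_of_ne_zero h0) (Nat.gcd_dvd_left _ _)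
      have h8 : ((Nat.gcd q n : ℕ) : ℝ) ≤ q := by exact_mod_cast h8'
      exact h8.trans hq1
  · exact Or.inr hgood

/-- The version with a power of the logarithm. -/
theorem fin_log (c1 : ℝ) (hZ : ZFree c1) (hc1 : 0 < c1) :
    ∀ (A B : ℕ) (κ0 : ℝ), 0 < κ0 → ∃ δ : ℝ, 0 < δ ∧ ∃ X0 : ℕ, ∀ X : ℕ, X0 ≤ X →
      ABs X (X * Real.exp (-(δ * Real.log X / Real.log (Real.log X)))) fun n s =>
        (∃ d : ℕ, d ∣ n ∧ Real.log X ^ B < d ∧ (d : ℝ) ≤ (X : ℝ) ^ κ0) ∨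
          (Real.sqrt X ≤ n ∧ HLs n X s (1 / Real.log X ^ A)
            (Real.sqrt X * Real.exp (-(δ * Real.log X / Real.log (Real.log X))))) := by
  intro A B κ0 hκ0
  obtain ⟨a, C, c2, ha, hC, hc2, X1, hcore⟩ :=
    finB (A + 1) c1 (c1 / 2) hZ (by linarith) (by linarith)
  set κ : ℝ := a / (A + 1) with hκd
  have hκ : 0 < κ := by positivity
  set K : ℕ := 2 * (A + 1) + B with hK
  obtain ⟨X2, hX2⟩ := Fin3Aux.ql_facts κ (min c2 κ0) hκ (lt_min hc2 hκ0)
  obtain ⟨X4, hX4⟩ := sieg_mod (c1 / 2) (by linarith) K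
  have h2 : Tendsto (fun X : ℕ => Real.log (X : ℝ)) atTop atTop :=
    Real.tendsto_log_atTop.comp tendsto_natCast_atTop_atTop
  obtain ⟨X3, hX3⟩ := eventually_atTop.1 (h2.eventually_ge_atTop (max 1 (3 * C)))
  refine ⟨κ / 200, by positivity, max X1 (max X2 (max X3 X4)), fun X hX => ?_⟩
  obtain ⟨f1, f2, f3, f4, f5, f6, f7⟩ := hX2 X ((le_max_left _ _).trans ((le_max_right _ _).trans hX))
  have f8 := hX3 X ((le_max_left _ _).trans ((le_max_right _ _).trans ((le_max_right _ _).trans hX)))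
  have f9 : X4 ≤ X := (le_max_right _ _).trans ((le_max_right _ _).trans ((le_max_right _ _).trans hX))
  set L : ℝ := Real.log X with hL
  have hL1 : 1 ≤ L := (le_max_left _ _).trans f8
  have hLC : 3 * C ≤ L := (le_max_right _ _).trans f8
  have hX16 : (16 : ℝ) ≤ X := by exact_mod_cast f3
  have hX1 : (1 : ℝ) ≤ X := by linarith
  have hX0 : (0 : ℝ) < X := by linarith
  have hL0 : 0 < L := by linarith
  have hs1 : 1 ≤ Real.sqrt L := Real.one_le_sqrt.mpr hL1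
  set Q : ℕ := Fin3Aux.QL κ X with hQ
  have hQlog : 0 < Real.log (Q : ℝ) := lt_of_lt_of_le (by linarith) f6
  have hQc2 : (Q : ℝ) ≤ (X : ℝ) ^ c2 :=
    f2.trans (Real.rpow_le_rpow_of_exponent_le hX1 (min_le_left _ _))
  have hQκ : (Q : ℝ) ≤ (X : ℝ) ^ κ0 :=
    f2.trans (Real.rpow_le_rpow_of_exponent_le hX1 (min_le_right _ _))
  have hQ0 : (0 : ℝ) < Q := lt_of_lt_of_le (Real.exp_pos _) f1
  obtain ⟨q, hq, hAB⟩ := hcore X Q ((le_max_left _ _).trans hX) f1 hQc2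
  set v : ℝ := L / Real.log L with hv
  have hv0 : 0 ≤ v := div_nonneg hL0.le (by linarith)
  have hpw : ∀ t : ℝ, 0 < t → (Q : ℝ) ^ (-(t / 5)) ≤ Real.exp (-(κ * t / 10 * v)) := by
    intro t ht
    have h5 := Real.rpow_le_rpow (by positivity) f5 ht.le
    rw [← Real.rpow_mul hQ0.le, ← Real.exp_mul] at h5
    have e1 : -(1 / 5 : ℝ) * t = -(t / 5) := by ring
    have e2 : -(κ / 10 * L / Real.log L) * t = -(κ * t / 10 * v) := by
      rw [hv]
      ring
    rwa [e1, e2] at h5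
  have eδ : -(κ / 200 * L / Real.log L) = -(κ / 200 * v) := by
    rw [hv]
    ring
  refine ABs_mono hAB ?_ ?_
  · have h6 := hpw (1 / 20) (by norm_num)
    have e1 : -((1 / 20 : ℝ) / 5) = -(1 / 100) := by norm_num
    have e2 : -(κ * (1 / 20) / 10 * v) = -(κ / 200 * v) := by ring
    rw [e1, e2] at h6
    rw [eδ]
    exact mul_le_mul_of_nonneg_left h6 hX0.le
  · rintro n s hs ⟨hn, hHL⟩
    by_cases hd : ∃ d : ℕ, d ∣ n ∧ L ^ B < d ∧ (d : ℝ) ≤ (X : ℝ) ^ κ0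
    · exact Or.inl hd
    · right
      refine ⟨hn, HLs_mono hs hHL ?_ ?_⟩
      · -- the exponential term
        have hEr : Er a X Q ≤ 1 / L ^ (A + 1) := by
          unfold Er
          have h8 : (A + 1 : ℝ) * Real.log L ≤ a * L / Real.log (Q : ℝ) := by
            rw [le_div_iff₀ hQlog]
            have hl0 : 0 < Real.log L := by linarith
            have h9 : Real.log (Q : ℝ) * Real.log L ≤ κ * L := by
              rw [le_div_iff₀ hl0] at f7
              exact f7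
            calc (A + 1 : ℝ) * Real.log L * Real.log (Q : ℝ)
                = (A + 1) * (Real.log (Q : ℝ) * Real.log L) := by ring
              _ ≤ (A + 1) * (κ * L) := mul_le_mul_of_nonneg_left h9 (by positivity)
              _ = a * L := by rw [hκd]; field_simp
          have h10 : Real.exp (-(a * L / Real.log (Q : ℝ))) ≤
              Real.exp (-((A + 1 : ℝ) * Real.log L)) := Real.exp_le_exp.mpr (by linarith)
          refine h10.trans (le_of_eq ?_)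
          rw [Real.exp_neg, mul_comm, Real.exp_mul, Real.exp_log hL0, one_div]
          congr 1
          rw [← Real.rpow_natCast]
          push_cast
          rfl
        have hG : Gs q n ≤ 1 / L ^ (A + 1) := by
          unfold Gs
          split_ifs with h0
          · positivity
          · rcases hq with ⟨h0', -⟩ | ⟨xe, β, he, hqe⟩
            · exact absurd h0' h0
            · have h16 : L ^ K ≤ (q : ℝ) := by
                rw [hqe]
                exact hX4 X Q f9 f6 xe β he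
              set g := Nat.gcd q n with hgd
              have hgpos : 0 < g := Nat.gcd_pos_of_pos_left _ (Nat.pos_of_ne_zero h0)
              have hg0 : (0 : ℝ) < g := by exact_mod_cast hgpos
              have hgw : (g : ℝ) ≤ L ^ B := by
                by_contra hcon
                refine hd ⟨g, Nat.gcd_dvd_right _ _, not_le.mp hcon, ?_⟩
                have h8' : g ≤ q := Nat.le_of_dvd (Nat.pos_of_ne_zero h0) (Nat.gcd_dvd_left _ _)
                have h8 : (g : ℝ) ≤ q := by exact_mod_cast h8'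
                have h9' : q ≤ Q := by
                  rw [hqe]
                  exact (mem_Ch.1 he.1).1
                have h9 : (q : ℝ) ≤ (Q : ℝ) := by exact_mod_cast h9'
                exact h8.trans (h9.trans hQκ)
              have h20 : L ^ (2 * (A + 1)) ≤ (q : ℝ) / (g : ℝ) := by
                rw [le_div_iff₀ hg0]
                calc L ^ (2 * (A + 1)) * g ≤ L ^ (2 * (A + 1)) * L ^ B :=
                      mul_le_mul_of_nonneg_left hgw (by positivity)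
                  _ = L ^ K := by rw [hK, pow_add]
                  _ ≤ q := h16
              have h27 : ((q : ℝ) / (g : ℝ)) ^ (-(1 / 2 : ℝ)) ≤ (L ^ (2 * (A + 1))) ^ (-(1 / 2 : ℝ)) :=
                Real.rpow_le_rpow_of_nonpos (by positivity) h20 (by norm_num)
              refine h27.trans (le_of_eq ?_)
              rw [Real.rpow_neg (by positivity), one_div, ← Real.rpow_natCast L (2 * (A + 1)),
                ← Real.rpow_mul hL0.le, ← Real.rpow_natCast L (A + 1)]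
              push_cast
              ring_nf
        have h29 : C * (Er a X Q + Gs q n + 1 / L ^ (A + 1)) ≤
            C * (1 / L ^ (A + 1) + 1 / L ^ (A + 1) + 1 / L ^ (A + 1)) :=
          mul_le_mul_of_nonneg_left (add_le_add (add_le_add hEr hG) le_rfl) hC.le
        refine h29.trans ?_
        have e11 : C * (1 / L ^ (A + 1) + 1 / L ^ (A + 1) + 1 / L ^ (A + 1)) =
            (3 * C) / L * (1 / L ^ A) := by
          rw [pow_succ]
          field_simp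
          ring
        rw [e11]
        have h30 : (3 * C) / L ≤ 1 := by
          rw [div_le_one hL0]
          exact hLC
        have h31 : 0 ≤ 1 / L ^ A := by positivity
        nlinarith
      · have h6 := hpw (1 / 14) (by norm_num)
        have e1 : -((1 / 14 : ℝ) / 5) = -(1 / 70) := by norm_num
        rw [e1] at h6
        rw [eδ]
        refine mul_le_mul_of_nonneg_left (h6.trans ?_) (Real.sqrt_nonneg _)
        apply Real.exp_le_exp.2
        nlinarith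

end Pool.Agent.Lib.SPP
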