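import Pool.Agent.Lib.SPP.Defs
import Pool.Agent.Lib.HLT.Fourier

/-!
# SPP.MSq: mean square over `n` of a sum over `n - m²` (1.5 h)

PROOF. Let `N = 8 X` and `F(ξ) = ft (4X) f (ξ/N) = ∑_{k<4X} f k ex(k ξ/N)`, `S(ξ) = ∑_{m ∈ I} ex(m² ξ/N)`, `h(n) = N^(-1) ∑_{ξ<N} F(ξ) S(ξ) ex(-n ξ/N)`.
By orthogonality `h(n) = ∑_{m ∈ I} ∑_{k<4X} f k 1[N ∣ k + m² - n]`; for `n ≤ 2X`, `k < 4X`, `m² ≤ 2X` we have `|k + m² - n| < N`, so the condition means
`k + m² = n`, and `h(n) = ∑_{m ∈ I, m² ≤ n} f(n - m²)` (`n - m² ≤ 2X < 4X`). Parseval: `∑_{n<N} |h(n)|² = N^(-1) ∑_ξ |F|²|S|²`. Now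
`∑_ξ |F|²|S|² ≤ A ∑_ξ |F| |S|² ≤ A (∑_ξ |F|²)^(1/2) (∑_ξ |S|⁴)^(1/2)`, `∑_ξ |F|² = N ∑_k |f k|² ≤ N B`,
`∑_ξ |S|⁴ = N #{(a,b,c,d) ∈ I⁴ : N ∣ a² + b² - c² - d²} ≤ N E4 M` (`|a² + b² - c² - d²| ≤ 4X < N`). (The file GMV/TeleSq.lean contains the same
kind of finite Fourier analysis: `sum_ex`, `one_slot`; copy what is useful.)
-/

set_option autoImplicit false

open Finset Filter

namespace Pool.Agent.Lib.SPP

open Pool.Agent.HLB Pool.Agent.HLT Pool.Agent.HLR Pool.Agent.Lib.GMV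

namespace MSqAux

private lemma ex_eq_one_iff {N : ℕ} (hN : 0 < N) (k : ℤ) : ex (k / N) = 1 ↔ (N : ℤ) ∣ k := by
  unfold ex
  rw [Complex.exp_eq_one_iff]
  have hN' : (N : ℂ) ≠ 0 := by exact_mod_cast hN.ne'
  have hpi : (2 * (Real.pi : ℂ) * Complex.I) ≠ 0 := Complex.two_pi_I_ne_zero
  constructor
  · rintro ⟨m, hm⟩
    refine ⟨m, ?_⟩
    have h1 : ((k : ℂ) / N) * (2 * (Real.pi : ℂ) * Complex.I) = m * (2 * (Real.pi : ℂ) * Complex.I) := by
      rw [← hm]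
      push_cast
      ring
    have h2 := mul_right_cancel₀ hpi h1
    rw [div_eq_iff hN'] at h2
    have h3 : ((k : ℤ) : ℂ) = ((N * m : ℤ) : ℂ) := by
      rw [h2]
      push_cast
      ring
    exact_mod_cast h3
  · rintro ⟨m, rfl⟩
    refine ⟨m, ?_⟩
    push_cast
    field_simp

private lemma sum_ex {N : ℕ} (hN : 0 < N) (k : ℤ) :
    ∑ ξ ∈ range N, ex (k * (ξ / N)) = if (N : ℤ) ∣ k then (N : ℂ) else 0 := by
  have h1 : ∀ ξ : ℕ, ex (k * (ξ / N)) = ex (k / N) ^ ξ := by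
    intro ξ
    rw [← ex_nat_mul]
    congr 1
    ring
  simp_rw [h1]
  split_ifs with h
  · rw [(ex_eq_one_iff hN k).2 h]
    simp
  · have hne : ex (k / N) ≠ 1 := fun h' => h ((ex_eq_one_iff hN k).1 h')
    rw [geom_sum_eq hne]
    have h2 : ex (k / N) ^ N = 1 := by
      rw [← ex_nat_mul]
      have h3 : ((N : ℝ) * ((k : ℝ) / N)) = ((k : ℤ) : ℝ) := by
        have : (N : ℝ) ≠ 0 := by exact_mod_cast hN.ne'
        field_simp
      rw [h3]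
      exact ex_int k
    rw [h2, sub_self, zero_div]

private lemma conj_ex (a : ℝ) : (starRingEnd ℂ) (ex a) = ex (-a) := (ex_neg a).symm

/-- Parseval on `range N`. -/
private lemma pars {N : ℕ} (hN : 0 < N) (b : ℕ → ℂ) :
    ∑ t ∈ range N, ‖∑ ξ ∈ range N, b ξ * ex (ξ * (t / N))‖ ^ 2 =
      N * ∑ ξ ∈ range N, ‖b ξ‖ ^ 2 := by
  have h0 := parseval N N le_rfl hN (fun n => b (n - 1))
  have h1 : ∀ u : ℕ → ℂ, ∑ n ∈ Icc 1 N, u n = ∑ n ∈ range N, u (n + 1) := by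
    intro u
    rw [Finset.sum_bij' (fun n _ => n - 1) (fun n _ => n + 1)]
    · intro n hn
      rw [Finset.mem_Icc] at hn
      rw [Finset.mem_range]
      omega
    · intro n hn
      rw [Finset.mem_range] at hn
      rw [Finset.mem_Icc]
      omega
    · intro n hn
      rw [Finset.mem_Icc] at hn
      omega
    · intro n _
      omega
    · intro n hn
      rw [Finset.mem_Icc] at hn
      have : n - 1 + 1 = n := by omega
      rw [this]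
  have h2 : ∀ u : ℕ → ℝ, ∑ n ∈ Icc 1 N, u n = ∑ n ∈ range N, u (n + 1) := by
    intro u
    have := h1 (fun n => (u n : ℂ))
    exact_mod_cast this
  rw [h2 (fun n => ‖b (n - 1)‖ ^ 2)] at h0
  simp only [Nat.add_sub_cancel] at h0
  rw [← h0]
  refine Finset.sum_congr rfl fun t _ => ?_
  rw [h1 (fun n => b (n - 1) * ex (n * (t / N)))]
  simp only [Nat.add_sub_cancel]
  have h3 : ∑ n ∈ range N, b n * ex (((n + 1 : ℕ) : ℝ) * (t / N)) =
      ex (t / N) * ∑ n ∈ range N, b n * ex (n * (t / N)) := by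
    rw [Finset.mul_sum]
    refine Finset.sum_congr rfl fun n _ => ?_
    have h4 : (((n + 1 : ℕ) : ℝ) * (t / N)) = t / N + n * (t / N) := by
      push_cast
      ring
    rw [h4, ex_add]
    ring
  rw [h3, norm_mul, norm_ex, one_mul]

/-- Parseval with the other sign. -/
private lemma pars' {N : ℕ} (hN : 0 < N) (b : ℕ → ℂ) :
    ∑ n ∈ range N, ‖(1 / (N : ℂ)) * ∑ ξ ∈ range N, b ξ * ex (-(n * (ξ / N)))‖ ^ 2 =
      (1 / (N : ℝ)) * ∑ ξ ∈ range N, ‖b ξ‖ ^ 2 := by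
  have hNr : (N : ℝ) ≠ 0 := by exact_mod_cast hN.ne'
  have h1 : ∀ n ∈ range N, ‖(1 / (N : ℂ)) * ∑ ξ ∈ range N, b ξ * ex (-(n * (ξ / N)))‖ ^ 2 =
      (1 / (N : ℝ)) ^ 2 * ‖∑ ξ ∈ range N, (starRingEnd ℂ) (b ξ) * ex (ξ * (n / N))‖ ^ 2 := by
    intro n _
    rw [norm_mul, mul_pow, norm_div, norm_one, Complex.norm_natCast]
    congr 2
    rw [← RCLike.norm_conj, map_sum]
    congr 1
    refine Finset.sum_congr rfl fun ξ _ => ?_
    rw [map_mul, conj_ex]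
    congr 2
    ring
  rw [Finset.sum_congr rfl h1, ← Finset.mul_sum, pars hN]
  simp_rw [RCLike.norm_conj]
  field_simp

/-- The squares of `I` and the fourth moment. -/
private lemma fourth {N M : ℕ} (hN : 0 < N) (hM : 2 * M ^ 2 < N) (I : Finset ℕ)
    (hI : I ⊆ range (M + 1)) :
    ∑ ξ ∈ range N, ‖∑ m ∈ I, ex (((m ^ 2 : ℕ) : ℝ) * (ξ / N))‖ ^ 4 ≤ N * (E4 M : ℝ) := by
  classical
  let R : ℕ → Finset (ℕ × ℕ) := fun v => (I ×ˢ I).filter fun p => p.1 ^ 2 + p.2 ^ 2 = v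
  have hlt : ∀ a ∈ I, a ^ 2 ≤ M ^ 2 := by
    intro a ha
    have := Finset.mem_range.1 (hI ha)
    exact Nat.pow_le_pow_left (by omega) 2
  have hmap : ∀ p ∈ I ×ˢ I, p.1 ^ 2 + p.2 ^ 2 ∈ range N := by
    intro p hp
    rw [Finset.mem_product] at hp
    have h1 := hlt _ hp.1
    have h2 := hlt _ hp.2
    rw [Finset.mem_range]
    omega
  have h1 : ∀ ξ : ℕ, (∑ m ∈ I, ex (((m ^ 2 : ℕ) : ℝ) * (ξ / N))) ^ 2 =
      ∑ v ∈ range N, ((R v).card : ℂ) * ex (v * (ξ / N)) := by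
    intro ξ
    rw [pow_two, Finset.sum_mul_sum, ← Finset.sum_product',
      ← Finset.sum_fiberwise_of_maps_to hmap]
    refine Finset.sum_congr rfl fun v _ => ?_
    rw [Finset.sum_congr rfl (g := fun _ => ex (v * (ξ / N)))]
    · rw [Finset.sum_const, nsmul_eq_mul]
    · intro p hp
      rw [Finset.mem_filter] at hp
      rw [← ex_add]
      congr 1
      rw [← hp.2]
      push_cast
      ring
  have h2 : ∀ ξ : ℕ, ‖∑ m ∈ I, ex (((m ^ 2 : ℕ) : ℝ) * (ξ / N))‖ ^ 4 =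
      ‖∑ v ∈ range N, ((R v).card : ℂ) * ex (v * (ξ / N))‖ ^ 2 := by
    intro ξ
    rw [← h1, norm_pow]
    ring
  rw [Finset.sum_congr rfl (fun ξ _ => h2 ξ)]
  have h3 := pars hN (fun v => ((R v).card : ℂ))
  have h4 : ∑ ξ ∈ range N, ‖∑ v ∈ range N, ((R v).card : ℂ) * ex (v * (ξ / N))‖ ^ 2 =
      N * ∑ v ∈ range N, ((R v).card : ℝ) ^ 2 := by
    have h5 : ∀ v : ℕ, ‖((R v).card : ℂ)‖ = ((R v).card : ℝ) := fun v => Complex.norm_natCast _
    rw [h3]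
    simp_rw [h5]
  rw [h4]
  refine mul_le_mul_of_nonneg_left ?_ (Nat.cast_nonneg _)
  have h6 : ∑ v ∈ range N, (R v).card ^ 2 ≤ E4 M := by
    unfold E4
    rw [Finset.card_eq_sum_card_fiberwise (f := fun t : ℕ × ℕ × ℕ × ℕ => t.1 ^ 2 + t.2.1 ^ 2) (t := range N)]
    · refine Finset.sum_le_sum fun v _ => ?_
      rw [pow_two, ← Finset.card_product]
      refine Finset.card_le_card_of_injOn (fun q => (q.1.1, q.1.2, q.2.1, q.2.2)) ?_ ?_
      · intro q hq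
        have hq' := Finset.mem_product.1 (Finset.mem_coe.1 hq)
        have q1 := Finset.mem_filter.1 hq'.1
        have q2 := Finset.mem_filter.1 hq'.2
        have q3 := Finset.mem_product.1 q1.1
        have q4 := Finset.mem_product.1 q2.1
        simp only [Finset.coe_filter, Set.mem_ofPred_eq, Finset.mem_filter, Finset.mem_product]
        exact ⟨⟨⟨hI q3.1, hI q3.2, hI q4.1, hI q4.2⟩, by rw [q1.2, q2.2]⟩, q1.2⟩
      · rintro ⟨⟨a, b⟩, ⟨c, d⟩⟩ _ ⟨⟨a', b'⟩, ⟨c', d'⟩⟩ _ h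
        simp only [Prod.mk.injEq] at h ⊢
        tauto
    · intro t ht
      have ht' := (Finset.mem_filter.1 (Finset.mem_coe.1 ht)).1
      simp only [Finset.mem_product, Finset.mem_range] at ht'
      have h7 : t.1 ^ 2 ≤ M ^ 2 := Nat.pow_le_pow_left (by omega) 2
      have h8 : t.2.1 ^ 2 ≤ M ^ 2 := Nat.pow_le_pow_left (by omega) 2
      simp only [Finset.coe_range, Set.mem_Iio]
      omega
  exact_mod_cast h6

/-- The formula for the sum. -/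
private lemma hform {X M : ℕ} (hX : 1 ≤ X) (hM : M ^ 2 ≤ 2 * X) (I : Finset ℕ)
    (hI : I ⊆ range (M + 1)) (f : ℕ → ℂ) {n : ℕ} (hn : n ≤ 2 * X) :
    (1 / ((8 * X : ℕ) : ℂ)) * ∑ ξ ∈ range (8 * X),
      ((∑ k ∈ range (4 * X), f k * ex (k * ((ξ : ℝ) / (8 * X : ℕ)))) *
        ∑ m ∈ I, ex (((m ^ 2 : ℕ) : ℝ) * ((ξ : ℝ) / (8 * X : ℕ)))) * ex (-(n * ((ξ : ℝ) / (8 * X : ℕ)))) =
      ∑ m ∈ I.filter (fun m => m ^ 2 ≤ n), f (n - m ^ 2) := by
  classical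
  set N := 8 * X with hNdef
  have hN : 0 < N := by omega
  have hN' : (N : ℂ) ≠ 0 := by exact_mod_cast hN.ne'
  have h1 : ∀ ξ ∈ range N,
      ((∑ k ∈ range (4 * X), f k * ex (k * ((ξ : ℝ) / N))) *
        ∑ m ∈ I, ex (((m ^ 2 : ℕ) : ℝ) * ((ξ : ℝ) / N))) * ex (-(n * ((ξ : ℝ) / N))) =
      ∑ m ∈ I, ∑ k ∈ range (4 * X), f k * ex ((((k : ℤ) + (m ^ 2 : ℕ) - n : ℤ) : ℝ) * (ξ / N)) := by
    intro ξ _
    rw [mul_comm (∑ k ∈ range (4 * X), f k * ex (k * ((ξ : ℝ) / N))), Finset.sum_mul_sum, Finset.sum_mul]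
    refine Finset.sum_congr rfl fun m _ => ?_
    rw [Finset.sum_mul]
    refine Finset.sum_congr rfl fun k _ => ?_
    have h2 : ex ((((k : ℤ) + (m ^ 2 : ℕ) - n : ℤ) : ℝ) * (ξ / N)) =
        ex (k * ((ξ : ℝ) / N)) * ex (((m ^ 2 : ℕ) : ℝ) * ((ξ : ℝ) / N)) * ex (-(n * ((ξ : ℝ) / N))) := by
      rw [← ex_add, ← ex_add]
      congr 1
      push_cast
      ring
    rw [h2]
    ring
  rw [Finset.sum_congr rfl h1, Finset.sum_comm]
  have h3 : ∀ m ∈ I, ∑ ξ ∈ range N, ∑ k ∈ range (4 * X),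
      f k * ex ((((k : ℤ) + (m ^ 2 : ℕ) - n : ℤ) : ℝ) * (ξ / N)) =
      (N : ℂ) * (if m ^ 2 ≤ n then f (n - m ^ 2) else 0) := by
    intro m hm
    have hmM : m ^ 2 ≤ M ^ 2 := by
      have := Finset.mem_range.1 (hI hm)
      exact Nat.pow_le_pow_left (by omega) 2
    rw [Finset.sum_comm]
    have h4 : ∀ k ∈ range (4 * X), ∑ ξ ∈ range N,
        f k * ex ((((k : ℤ) + (m ^ 2 : ℕ) - n : ℤ) : ℝ) * (ξ / N)) =
        if k + m ^ 2 = n then (N : ℂ) * f k else 0 := by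
      intro k hk
      rw [Finset.mem_range] at hk
      rw [← Finset.mul_sum, sum_ex hN]
      have h5 : (N : ℤ) ∣ ((k : ℤ) + (m ^ 2 : ℕ) - n) ↔ k + m ^ 2 = n := by
        constructor
        · intro hd
          have h6 := Int.eq_zero_of_dvd_of_natAbs_lt_natAbs hd (by
            rw [Int.natAbs_natCast]
            omega)
          omega
        · intro h
          have : ((k : ℤ) + (m ^ 2 : ℕ) - n) = 0 := by omega
          rw [this]
          exact dvd_zero _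
      by_cases hk' : k + m ^ 2 = n
      · rw [if_pos (h5.2 hk'), if_pos hk']
        ring
      · rw [if_neg (fun h => hk' (h5.1 h)), if_neg hk']
        ring
    rw [Finset.sum_congr rfl h4]
    by_cases hmn : m ^ 2 ≤ n
    · rw [if_pos hmn, Finset.sum_eq_single (n - m ^ 2)]
      · rw [if_pos (by omega)]
      · intro k _ hk
        rw [if_neg (by omega)]
      · intro h
        exact absurd (Finset.mem_range.2 (by omega)) h
    · rw [if_neg hmn, mul_zero]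
      refine Finset.sum_eq_zero fun k _ => ?_
      rw [if_neg (by omega)]
  rw [Finset.sum_congr rfl h3, ← Finset.mul_sum, ← mul_assoc, one_div, inv_mul_cancel₀ hN', one_mul,
    Finset.sum_filter]

end MSqAux

open MSqAux in
theorem msq (X M : ℕ) (hX : 1 ≤ X) (hM : M ^ 2 ≤ 2 * X) (I : Finset ℕ) (hI : I ⊆ range (M + 1))
    (f : ℕ → ℂ) (A B : ℝ) (hA : ∀ t, ‖ft (4 * X) f t‖ ≤ A)
    (hB : ∑ k ∈ range (4 * X), ‖f k‖ ^ 2 ≤ B) :
    ∑ n ∈ range (2 * X + 1), ‖∑ m ∈ I.filter (fun m => m ^ 2 ≤ n), f (n - m ^ 2)‖ ^ 2 ≤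
      A * Real.sqrt B * Real.sqrt (E4 M) := by
  classical
  set N := 8 * X with hNdef
  have hN : 0 < N := by omega
  have hNr : (N : ℝ) ≠ 0 := by exact_mod_cast hN.ne'
  have hNp : (0 : ℝ) < N := by exact_mod_cast hN
  have hA0 : 0 ≤ A := (norm_nonneg _).trans (hA 0)
  set F : ℕ → ℂ := fun ξ => ∑ k ∈ range (4 * X), f k * ex (k * ((ξ : ℝ) / N)) with hF
  set S : ℕ → ℂ := fun ξ => ∑ m ∈ I, ex (((m ^ 2 : ℕ) : ℝ) * ((ξ : ℝ) / N)) with hS
  have hFA : ∀ ξ, ‖F ξ‖ ≤ A := fun ξ => hA _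
  have h1 : ∑ n ∈ range (2 * X + 1), ‖∑ m ∈ I.filter (fun m => m ^ 2 ≤ n), f (n - m ^ 2)‖ ^ 2 ≤
      ∑ n ∈ range N, ‖(1 / (N : ℂ)) * ∑ ξ ∈ range N, (F ξ * S ξ) * ex (-(n * (ξ / N)))‖ ^ 2 := by
    rw [Finset.sum_congr rfl (fun n hn => by
      rw [← hform hX hM I hI f (n := n) (by rw [Finset.mem_range] at hn; omega)])]
    refine Finset.sum_le_sum_of_subset_of_nonneg ?_ (fun _ _ _ => sq_nonneg _)
    intro t ht
    rw [Finset.mem_range] at ht ⊢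
    omega
  rw [pars' hN] at h1
  have h2 : ∑ ξ ∈ range N, ‖F ξ‖ ^ 2 ≤ N * B := by
    have h3 := pars hN (fun k => if k < 4 * X then f k else 0)
    have h4 : ∀ ξ : ℕ, ∑ k ∈ range N, (if k < 4 * X then f k else 0) * ex (k * ((ξ : ℝ) / N)) = F ξ := by
      intro ξ
      rw [hF]
      have h5 : range (4 * X) ⊆ range N := Finset.range_subset_range.2 (by omega)
      rw [← Finset.sum_subset h5]
      · refine Finset.sum_congr rfl fun k hk => ?_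
        rw [if_pos (Finset.mem_range.1 hk)]
      · intro k _ hk
        rw [Finset.mem_range] at hk
        rw [if_neg hk, zero_mul]
    simp_rw [h4] at h3
    rw [h3]
    refine mul_le_mul_of_nonneg_left ?_ hNp.le
    refine le_trans (le_of_eq ?_) hB
    have h5 : range (4 * X) ⊆ range N := Finset.range_subset_range.2 (by omega)
    rw [← Finset.sum_subset h5]
    · refine Finset.sum_congr rfl fun k hk => ?_
      rw [if_pos (Finset.mem_range.1 hk)]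
    · intro k _ hk
      rw [Finset.mem_range] at hk
      rw [if_neg hk, norm_zero]
      norm_num
  have h6 : ∑ ξ ∈ range N, ‖S ξ‖ ^ 4 ≤ N * (E4 M : ℝ) := fourth hN (by omega) I hI
  have h7 : ∑ ξ ∈ range N, ‖F ξ * S ξ‖ ^ 2 ≤ A * ∑ ξ ∈ range N, ‖F ξ‖ * ‖S ξ‖ ^ 2 := by
    rw [Finset.mul_sum]
    refine Finset.sum_le_sum fun ξ _ => ?_
    rw [norm_mul, mul_pow, pow_two ‖F ξ‖, mul_assoc]
    exact mul_le_mul_of_nonneg_right (hFA ξ) (by positivity)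
  have h8 : ∑ ξ ∈ range N, ‖F ξ‖ * ‖S ξ‖ ^ 2 ≤
      Real.sqrt (∑ ξ ∈ range N, ‖F ξ‖ ^ 2) * Real.sqrt (∑ ξ ∈ range N, (‖S ξ‖ ^ 2) ^ 2) :=
    Real.sum_mul_le_sqrt_mul_sqrt _ _ _
  have h9 : Real.sqrt (∑ ξ ∈ range N, ‖F ξ‖ ^ 2) ≤ Real.sqrt (N * B) := Real.sqrt_le_sqrt h2
  have h10 : Real.sqrt (∑ ξ ∈ range N, (‖S ξ‖ ^ 2) ^ 2) ≤ Real.sqrt (N * (E4 M : ℝ)) := by
    refine Real.sqrt_le_sqrt ?_
    refine le_trans (le_of_eq ?_) h6
    refine Finset.sum_congr rfl fun ξ _ => ?_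
    ring
  have h11 : ∑ ξ ∈ range N, ‖F ξ‖ * ‖S ξ‖ ^ 2 ≤ N * (Real.sqrt B * Real.sqrt (E4 M)) := by
    refine h8.trans ((mul_le_mul h9 h10 (Real.sqrt_nonneg _) (Real.sqrt_nonneg _)).trans (le_of_eq ?_))
    rw [Real.sqrt_mul hNp.le, Real.sqrt_mul hNp.le]
    have h12 : Real.sqrt N * Real.sqrt N = N := Real.mul_self_sqrt hNp.le
    calc Real.sqrt N * Real.sqrt B * (Real.sqrt N * Real.sqrt (E4 M))
        = (Real.sqrt N * Real.sqrt N) * (Real.sqrt B * Real.sqrt (E4 M)) := by ring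
      _ = _ := by rw [h12]
  refine h1.trans ?_
  calc (1 / (N : ℝ)) * ∑ ξ ∈ range N, ‖F ξ * S ξ‖ ^ 2
      ≤ (1 / (N : ℝ)) * (A * (N * (Real.sqrt B * Real.sqrt (E4 M)))) :=
        mul_le_mul_of_nonneg_left (h7.trans (mul_le_mul_of_nonneg_left h11 hA0)) (by positivity)
    _ = A * Real.sqrt B * Real.sqrt (E4 M) := by
        field_simp

end Pool.Agent.Lib.SPP
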