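import Pool.Agent.Lib.SPP.Defs
import Pool.Agent.Lib.VM.C2Count

/-!
# SPP.Sq4: the fourth moment of the squares (1 h)

PROOF. `a² - c² = d² - b²`. Solutions with `a = c` have `b = d`: `(M+1)²`. For `h ≠ 0` let `ρ(h)` be the number of `(a, c)`, `0 ≤ a, c ≤ M`, `a² - c² = h`;
then `ρ(h) ≤ τ(|h|)` (`|a - c|` is a divisor of `|h|` and determines `a + c`, and the sign of `a - c` is that of `h`). The number of the other solutions is
`∑_{h ≠ 0} ρ(h)² ≤ ∑_{h≠0} ρ(h) τ(|h|) = 2 ∑_{c < a ≤ M} τ((a - c)(a + c)) ≤ 2 ∑_{u ≤ M, v ≤ 2M} τ(u) τ(v)` (`τ(uv) ≤ τ(u) τ(v)`, and `(a, c) ↦ (a - c, a + c)` is injective)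
`≤ 2 · M (1 + log M) · 2M (1 + log 2M)` (`∑_{u ≤ N} τ(u) = ∑_{d ≤ N} ⌊N/d⌋ ≤ N (1 + log N)`).
-/

set_option autoImplicit false

open Finset Filter

namespace Pool.Agent.Lib.SPP

namespace Sq4Aux

/-- The box. -/
def bx (M : ℕ) : Finset (ℕ × ℕ × ℕ × ℕ) :=
  (range (M + 1) ×ˢ range (M + 1) ×ˢ range (M + 1) ×ˢ range (M + 1)).filter
    (fun t => t.1 ^ 2 + t.2.1 ^ 2 = t.2.2.1 ^ 2 + t.2.2.2 ^ 2)

lemma mem_bx {M : ℕ} {t : ℕ × ℕ × ℕ × ℕ} : t ∈ bx M ↔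
    (t.1 ≤ M ∧ t.2.1 ≤ M ∧ t.2.2.1 ≤ M ∧ t.2.2.2 ≤ M) ∧
      t.1 ^ 2 + t.2.1 ^ 2 = t.2.2.1 ^ 2 + t.2.2.2 ^ 2 := by
  unfold bx
  simp only [mem_filter, mem_product, mem_range, Nat.lt_succ_iff]

/-- The target set. -/
def tg (M : ℕ) : Finset ((_ : ℕ × ℕ) × ℕ) :=
  (Ioc 0 M ×ˢ Ioc 0 (2 * M)).sigma fun p => (p.1 * p.2).divisors

lemma card_tg (M : ℕ) (hM : 1 ≤ M) :
    ((tg M).card : ℝ) ≤ 4 * (M : ℝ) ^ 2 * (1 + Real.log M) ^ 2 := by
  have h1 : (tg M).card ≤ (∑ u ∈ Ioc 0 M, u.divisors.card) * ∑ v ∈ Ioc 0 (2 * M), v.divisors.card := by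
    unfold tg
    rw [card_sigma, Finset.sum_mul_sum, ← Finset.sum_product']
    refine Finset.sum_le_sum fun p _ => ?_
    rw [Nat.divisors_mul]
    exact Finset.card_mul_le
  have h2 := Pool.Agent.VM.C2CountAux.sum_div_le M hM
  have h3 := Pool.Agent.VM.C2CountAux.sum_div_le (2 * M) (by omega)
  have hM1 : (1 : ℝ) ≤ M := by exact_mod_cast hM
  have hM0 : (0 : ℝ) < M := by linarith
  have hl : 0 ≤ Real.log M := Real.log_natCast_nonneg M
  have h4 : Real.log ((2 * M : ℕ) : ℝ) ≤ 1 + Real.log M := by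
    push_cast
    rw [Real.log_mul (by norm_num) hM0.ne']
    have := Real.log_two_lt_d9
    linarith
  have h5 : ((tg M).card : ℝ) ≤ (∑ u ∈ Ioc 0 M, (u.divisors.card : ℝ)) *
      ∑ v ∈ Ioc 0 (2 * M), (v.divisors.card : ℝ) := by
    exact_mod_cast h1
  have h6 : (∑ v ∈ Ioc 0 (2 * M), (v.divisors.card : ℝ)) ≤ 4 * M * (1 + Real.log M) := by
    refine h3.trans ?_
    have e : ((2 * M : ℕ) : ℝ) = 2 * M := by push_cast; ring
    rw [e] at h4 ⊢
    have h7 : 1 + Real.log (2 * (M : ℝ)) ≤ 2 * (1 + Real.log M) := by linarith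
    calc 2 * (M : ℝ) * (1 + Real.log (2 * M)) ≤ 2 * M * (2 * (1 + Real.log M)) :=
          mul_le_mul_of_nonneg_left h7 (by positivity)
      _ = _ := by ring
  calc ((tg M).card : ℝ) ≤ _ := h5
    _ ≤ (M * (1 + Real.log M)) * (4 * M * (1 + Real.log M)) :=
        mul_le_mul h2 h6 (Finset.sum_nonneg fun _ _ => Nat.cast_nonneg _) (by positivity)
    _ = _ := by ring

/-- The solutions with `c < a`. -/
lemma card_gt (M : ℕ) : ((bx M).filter (fun t => t.2.2.1 < t.1)).card ≤ (tg M).card := by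
  refine card_le_card_of_injOn
    (fun t => (⟨(t.1 - t.2.2.1, t.1 + t.2.2.1), t.2.2.2 - t.2.1⟩ : (_ : ℕ × ℕ) × ℕ)) ?_ ?_
  · rintro ⟨a, b, c, d⟩ ht
    rw [mem_coe, mem_filter, mem_bx] at ht
    obtain ⟨⟨⟨h1, h2, h3, h4⟩, h5⟩, h6⟩ := ht
    simp only at h1 h2 h3 h4 h5 h6
    have hbd : b < d := by
      by_contra hcon
      push Not at hcon
      have h7 : d ^ 2 ≤ b ^ 2 := Nat.pow_le_pow_left hcon 2
      have h8 : c ^ 2 < a ^ 2 := Nat.pow_lt_pow_left h6 (by norm_num)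
      omega
    obtain ⟨u, rfl⟩ := Nat.exists_eq_add_of_lt h6
    obtain ⟨w, rfl⟩ := Nat.exists_eq_add_of_lt hbd
    simp only [mem_coe]
    unfold tg
    rw [mem_sigma, mem_product, mem_Ioc, mem_Ioc]
    simp only
    refine ⟨⟨⟨by omega, by omega⟩, ⟨by omega, by omega⟩⟩, ?_⟩
    rw [Nat.mem_divisors]
    refine ⟨⟨b + w + 1 + b, ?_⟩, ?_⟩
    · rw [show c + u + 1 - c = u + 1 by omega, show b + w + 1 - b = w + 1 by omega]
      nlinarith
    · have : 0 < c + u + 1 - c := by omega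
      have : 0 < c + u + 1 + c := by omega
      positivity
  · rintro ⟨a, b, c, d⟩ ht ⟨a', b', c', d'⟩ ht' heq
    rw [mem_coe, mem_filter, mem_bx] at ht ht'
    obtain ⟨⟨-, h5⟩, h6⟩ := ht
    obtain ⟨⟨-, h5'⟩, h6'⟩ := ht'
    simp only at h5 h6 h5' h6'
    simp only [Sigma.mk.injEq, Prod.mk.injEq, heq_eq_eq] at heq
    obtain ⟨⟨e1, e2⟩, e3⟩ := heq
    have ea : a = a' := by omega
    have ec : c = c' := by omega
    subst ea
    subst ec
    have hbd : b < d := by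
      by_contra hcon
      push Not at hcon
      have h7 : d ^ 2 ≤ b ^ 2 := Nat.pow_le_pow_left hcon 2
      have h8 : c ^ 2 < a ^ 2 := Nat.pow_lt_pow_left h6 (by norm_num)
      omega
    have hbd' : b' < d' := by
      by_contra hcon
      push Not at hcon
      have h7 : d' ^ 2 ≤ b' ^ 2 := Nat.pow_le_pow_left hcon 2
      have h8 : c ^ 2 < a ^ 2 := Nat.pow_lt_pow_left h6 (by norm_num)
      omega
    obtain ⟨w, rfl⟩ := Nat.exists_eq_add_of_lt hbd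
    obtain ⟨w', rfl⟩ := Nat.exists_eq_add_of_lt hbd'
    have ew : w = w' := by omega
    subst ew
    have h9 : (w + 1) * b = (w + 1) * b' := by nlinarith
    have h10 : b = b' := Nat.eq_of_mul_eq_mul_left (by omega) h9
    subst h10
    rfl

/-- The solutions with `a < c`. -/
lemma card_lt (M : ℕ) : ((bx M).filter (fun t => t.1 < t.2.2.1)).card ≤
    ((bx M).filter (fun t => t.2.2.1 < t.1)).card := by
  refine card_le_card_of_injOn (fun t => (t.2.2.1, t.2.2.2, t.1, t.2.1)) ?_ ?_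
  · rintro ⟨a, b, c, d⟩ ht
    rw [mem_coe, mem_filter, mem_bx] at ht
    rw [mem_coe, mem_filter, mem_bx]
    obtain ⟨⟨⟨h1, h2, h3, h4⟩, h5⟩, h6⟩ := ht
    exact ⟨⟨⟨h3, h4, h1, h2⟩, h5.symm⟩, h6⟩
  · rintro ⟨a, b, c, d⟩ _ ⟨a', b', c', d'⟩ _ heq
    simp only [Prod.mk.injEq] at heq
    obtain ⟨rfl, rfl, rfl, rfl⟩ := heq
    rfl

/-- The solutions with `a = c`. -/
lemma card_eq (M : ℕ) : ((bx M).filter (fun t => t.1 = t.2.2.1)).card ≤ (M + 1) ^ 2 := by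
  have h : ((bx M).filter (fun t => t.1 = t.2.2.1)).card ≤
      (range (M + 1) ×ˢ range (M + 1)).card := by
    refine card_le_card_of_injOn (fun t => (t.1, t.2.1)) ?_ ?_
    · rintro ⟨a, b, c, d⟩ ht
      rw [mem_coe, mem_filter, mem_bx] at ht
      rw [mem_coe, mem_product, mem_range, mem_range]
      obtain ⟨⟨⟨h1, h2, h3, h4⟩, h5⟩, h6⟩ := ht
      simp only at h1 h2 ⊢
      omega
    · rintro ⟨a, b, c, d⟩ ht ⟨a', b', c', d'⟩ ht' heq
      rw [mem_coe, mem_filter, mem_bx] at ht ht'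
      obtain ⟨⟨-, h5⟩, h6⟩ := ht
      obtain ⟨⟨-, h5'⟩, h6'⟩ := ht'
      simp only at h5 h6 h5' h6'
      simp only [Prod.mk.injEq] at heq
      obtain ⟨rfl, rfl⟩ := heq
      subst h6
      subst h6'
      have h7 : d ^ 2 = d' ^ 2 := by omega
      have h8 : d = d' := Nat.pow_left_injective (by norm_num : (2 : ℕ) ≠ 0) h7
      rw [h8]
  rw [card_product, card_range] at h
  rw [_root_.sq]
  exact h

end Sq4Aux

open Sq4Aux in
theorem sq4 : ∃ C : ℝ, 0 < C ∧ ∀ M : ℕ, 1 ≤ M →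
    (E4 M : ℝ) ≤ C * (M : ℝ) ^ 2 * (1 + Real.log M) ^ 2 := by
  refine ⟨12, by norm_num, fun M hM => ?_⟩
  have h0 : E4 M ≤ ((bx M).filter (fun t => t.1 = t.2.2.1)).card +
      (((bx M).filter (fun t => t.2.2.1 < t.1)).card + ((bx M).filter (fun t => t.1 < t.2.2.1)).card) := by
    have e : E4 M = (bx M).card := rfl
    rw [e]
    refine le_trans (card_le_card (t := (bx M).filter (fun t => t.1 = t.2.2.1) ∪
      ((bx M).filter (fun t => t.2.2.1 < t.1) ∪ (bx M).filter (fun t => t.1 < t.2.2.1))) ?_)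
      ((card_union_le _ _).trans (Nat.add_le_add_left (card_union_le _ _) _))
    intro t ht
    rw [mem_union, mem_union, mem_filter, mem_filter, mem_filter]
    rcases lt_trichotomy t.1 t.2.2.1 with h | h | h
    · exact Or.inr (Or.inr ⟨ht, h⟩)
    · exact Or.inl ⟨ht, h⟩
    · exact Or.inr (Or.inl ⟨ht, h⟩)
  have h1 := card_eq M
  have h2 := card_gt M
  have h3 := card_lt M
  have h4 := card_tg M hM
  have hM1 : (1 : ℝ) ≤ M := by exact_mod_cast hM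
  have hl : 0 ≤ Real.log M := Real.log_natCast_nonneg M
  have h5 : E4 M ≤ (M + 1) ^ 2 + 2 * (tg M).card := by omega
  have h6 : (E4 M : ℝ) ≤ ((M : ℝ) + 1) ^ 2 + 2 * (tg M).card := by exact_mod_cast h5
  have h7 : ((M : ℝ) + 1) ^ 2 ≤ 4 * (M : ℝ) ^ 2 := by nlinarith
  have h8 : (M : ℝ) ^ 2 ≤ (M : ℝ) ^ 2 * (1 + Real.log M) ^ 2 := by
    have : 1 ≤ (1 + Real.log M) ^ 2 := by nlinarith
    nlinarith [sq_nonneg (M : ℝ)]
  calc (E4 M : ℝ) ≤ 4 * (M : ℝ) ^ 2 + 2 * (4 * (M : ℝ) ^ 2 * (1 + Real.log M) ^ 2) := by linarith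
    _ ≤ 4 * ((M : ℝ) ^ 2 * (1 + Real.log M) ^ 2) + 2 * (4 * (M : ℝ) ^ 2 * (1 + Real.log M) ^ 2) := by
        linarith
    _ = _ := by ring

end Pool.Agent.Lib.SPP
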