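import Pool.Agent.Lib.SPP.Defs

/-!
# SPP.Asy: the sum of `1/log(n - m²)` (0.7 h)

PROOF. Let `s = Nat.sqrt (n - 2)`, `L = log n`. Lower bound: every term is `≥ 1/L`, and `s + 1 ≥ √n - 1` (`(s+1)² > n - 2`), so the sum is `≥ (√n - 2)/L`. Upper bound: for `m ≤ (1 - η) √n` we have
`n - m² ≥ η n`, so the term is `≤ 1/(L - log(1/η))`; the `m` in `((1 - η) √n, √n]` with `n - m² ≥ √n` have terms `≤ 2/L` and are at most `η √n + 1` many; those with `n - m² < √n` satisfy
`(√n - m) √n ≤ n - m² < √n`, so at most two of them, terms `≤ 1/log 2`. Total `≤ √n/(L - log(1/η)) + 2(η √n + 1)/L + 3`. Choose `η = ε/8`, then `n` large.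
-/

set_option autoImplicit false

open Finset Filter

namespace Pool.Agent.Lib.SPP

namespace AsyAux

lemma ev_log (c : ℝ) : ∀ᶠ n : ℕ in atTop, c ≤ Real.log (n : ℝ) :=
  (Real.tendsto_log_atTop.comp tendsto_natCast_atTop_atTop).eventually_ge_atTop c

lemma ev_sqrt (δ : ℝ) (hδ : 0 < δ) :
    ∀ᶠ n : ℕ in atTop, 2 + 2 * Real.log (n : ℝ) ≤ δ * Real.sqrt n := by
  have h1 : ∀ᶠ x : ℝ in atTop, Real.log x ≤ (δ / 4) * Real.sqrt x := by
    have h := (isLittleO_log_rpow_atTop (r := 1 / 2) (by norm_num)).bound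
      (show 0 < δ / 4 by positivity)
    filter_upwards [h, eventually_ge_atTop (1 : ℝ)] with x hx hx1
    have h0 : 0 ≤ Real.log x := Real.log_nonneg hx1
    have h2 : 0 ≤ x ^ (1 / 2 : ℝ) := Real.rpow_nonneg (by linarith) _
    rw [Real.norm_of_nonneg h0, Real.norm_of_nonneg h2] at hx
    rwa [Real.sqrt_eq_rpow]
  have h2 : ∀ᶠ x : ℝ in atTop, 4 / δ ≤ Real.sqrt x :=
    Real.tendsto_sqrt_atTop.eventually_ge_atTop _
  have h3 := (tendsto_natCast_atTop_atTop (R := ℝ)).eventually (h1.and h2)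
  filter_upwards [h3] with n hn
  obtain ⟨ha, hb⟩ := hn
  have hc : 2 ≤ (δ / 2) * Real.sqrt n := by
    have : (δ / 2) * (4 / δ) ≤ (δ / 2) * Real.sqrt n :=
      mul_le_mul_of_nonneg_left hb (by positivity)
    have h4 : (δ / 2) * (4 / δ) = 2 := by field_simp; norm_num
    linarith
  nlinarith

/-- Facts on `s = Nat.sqrt (n - 2)`. -/
lemma s_facts (n : ℕ) (hn : 16 ≤ n) :
    (Nat.sqrt (n - 2)) ^ 2 + 2 ≤ n ∧ Real.sqrt n - 2 ≤ (Nat.sqrt (n - 2) : ℝ) ∧
      (Nat.sqrt (n - 2) : ℝ) ≤ Real.sqrt n := by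
  have h1 : (Nat.sqrt (n - 2)) ^ 2 ≤ n - 2 := Nat.sqrt_le' _
  have h2 : n - 2 < (Nat.sqrt (n - 2) + 1) ^ 2 := Nat.lt_succ_sqrt' _
  set s := Nat.sqrt (n - 2)
  have h3 : s ^ 2 + 2 ≤ n := by omega
  have h4 : n ≤ (s + 1) ^ 2 + 1 := by omega
  refine ⟨h3, ?_, ?_⟩
  · have h5 : (n : ℝ) ≤ ((s : ℝ) + 2) ^ 2 := by
      have : (n : ℝ) ≤ ((s : ℝ) + 1) ^ 2 + 1 := by exact_mod_cast h4
      nlinarith [Nat.cast_nonneg (α := ℝ) s]
    have h6 : Real.sqrt n ≤ (s : ℝ) + 2 := by
      rw [show (s : ℝ) + 2 = Real.sqrt (((s : ℝ) + 2) ^ 2) by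
        rw [Real.sqrt_sq]; positivity]
      exact Real.sqrt_le_sqrt h5
    linarith
  · apply Real.le_sqrt_of_sq_le
    have : ((s : ℝ)) ^ 2 + 2 ≤ n := by exact_mod_cast h3
    linarith

lemma cast_sub {n m s : ℕ} (hm : m ≤ s) (hs : s ^ 2 + 2 ≤ n) :
    ((n - m ^ 2 : ℕ) : ℝ) = (n : ℝ) - (m : ℝ) ^ 2 ∧ (2 : ℝ) ≤ (n : ℝ) - (m : ℝ) ^ 2 := by
  have h1 : m ^ 2 ≤ s ^ 2 := Nat.pow_le_pow_left hm 2
  have h2 : m ^ 2 + 2 ≤ n := by omega
  constructor
  · rw [Nat.cast_sub (by omega)]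
    push_cast
    ring
  · have : ((m : ℝ)) ^ 2 + 2 ≤ n := by exact_mod_cast h2
    linarith

/-- The lower bound. -/
lemma lower (n : ℕ) (hn : 16 ≤ n) :
    (Real.sqrt n - 2) / Real.log n ≤
      ∑ m ∈ Ioc 0 (Nat.sqrt (n - 2)), 1 / Real.log ((n - m ^ 2 : ℕ) : ℝ) := by
  obtain ⟨h1, h2, h3⟩ := s_facts n hn
  set s := Nat.sqrt (n - 2)
  have hL : 0 < Real.log n := Real.log_pos (by exact_mod_cast (by omega : 1 < n))
  have h4 : ∑ _m ∈ Ioc 0 s, 1 / Real.log (n : ℝ) ≤
      ∑ m ∈ Ioc 0 s, 1 / Real.log ((n - m ^ 2 : ℕ) : ℝ) := by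
    apply Finset.sum_le_sum
    intro m hm
    rw [Finset.mem_Ioc] at hm
    obtain ⟨h5, h6⟩ := cast_sub hm.2 h1
    rw [h5]
    apply one_div_le_one_div_of_le
    · exact Real.log_pos (by linarith)
    · apply Real.log_le_log (by linarith)
      nlinarith [sq_nonneg (m : ℝ)]
  rw [Finset.sum_const, Nat.card_Ioc, nsmul_eq_mul, Nat.sub_zero] at h4
  refine le_trans ?_ h4
  rw [mul_one_div]
  exact div_le_div_of_nonneg_right h2 hL.le

/-- The upper bound. -/
lemma upper (η : ℝ) (h0 : 0 < η) (h1 : η ≤ 1 / 2) (n : ℕ) (hn : 16 ≤ n)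
    (hpos : 0 < Real.log n + Real.log η) :
    ∑ m ∈ Ioc 0 (Nat.sqrt (n - 2)), 1 / Real.log ((n - m ^ 2 : ℕ) : ℝ) ≤
      Real.sqrt n * (1 / (Real.log n + Real.log η)) +
        (η * Real.sqrt n + 1) * (2 / Real.log n) + 2 := by
  obtain ⟨hs1, hs2, hs3⟩ := s_facts n hn
  set s := Nat.sqrt (n - 2) with hs
  have hn0 : (16 : ℝ) ≤ n := by exact_mod_cast hn
  have hL : 0 < Real.log n := Real.log_pos (by linarith)
  have hsq : Real.sqrt n * Real.sqrt n = n := Real.mul_self_sqrt (by linarith)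
  have hsq4 : 4 ≤ Real.sqrt n := by
    apply Real.le_sqrt_of_sq_le
    linarith
  have key : ∀ m ∈ Ioc 0 s, 1 / Real.log ((n - m ^ 2 : ℕ) : ℝ) ≤
      1 / (Real.log n + Real.log η) +
        (if (1 - η) * Real.sqrt n < m then 2 / Real.log n else 0) +
        (if m = s then 2 else 0) := by
    intro m hm
    rw [Finset.mem_Ioc] at hm
    obtain ⟨h5, h6⟩ := cast_sub hm.2 hs1
    rw [h5]
    have ha : 0 ≤ 1 / (Real.log n + Real.log η) := by positivity
    have hb : 0 ≤ (if (1 - η) * Real.sqrt n < m then 2 / Real.log n else 0) := by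
      split_ifs
      · positivity
      · exact le_rfl
    have hc : (0 : ℝ) ≤ (if m = s then 2 else 0) := by split_ifs <;> norm_num
    by_cases hms : m = s
    · rw [if_pos hms]
      have h7 : 1 / Real.log ((n : ℝ) - (m : ℝ) ^ 2) ≤ 2 := by
        have h8 : Real.log 2 ≤ Real.log ((n : ℝ) - (m : ℝ) ^ 2) :=
          Real.log_le_log (by norm_num) h6
        have h9 : (1 : ℝ) / 2 < Real.log 2 := by linarith [Real.log_two_gt_d9]
        rw [div_le_iff₀ (by linarith)]
        linarith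
      linarith
    · rw [if_neg hms]
      by_cases hbig : (1 - η) * Real.sqrt n < m
      · rw [if_pos hbig]
        -- `n - m² ≥ √n`
        have hm1 : m + 1 ≤ s := by omega
        have h7 : Real.sqrt n ≤ (n : ℝ) - (m : ℝ) ^ 2 := by
          have h8 : ((m : ℝ) + 1) ≤ Real.sqrt n := by
            have : ((m : ℝ) + 1) ≤ s := by exact_mod_cast hm1
            linarith
          have h9 : (m : ℝ) ≤ Real.sqrt n - 1 := by linarith
          nlinarith [Nat.cast_nonneg (α := ℝ) m]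
        have h8 : Real.log (Real.sqrt n) = Real.log n / 2 := Real.log_sqrt (by linarith)
        have h9 : Real.log n / 2 ≤ Real.log ((n : ℝ) - (m : ℝ) ^ 2) := by
          rw [← h8]
          exact Real.log_le_log (by linarith) h7
        have h10 : 1 / Real.log ((n : ℝ) - (m : ℝ) ^ 2) ≤ 1 / (Real.log n / 2) :=
          one_div_le_one_div_of_le (by linarith) h9
        have h11 : 1 / (Real.log n / 2) = 2 / Real.log n := by
          field_simp
        linarith
      · rw [if_neg hbig]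
        push Not at hbig
        have h7 : η * n ≤ (n : ℝ) - (m : ℝ) ^ 2 := by
          have h8 : (m : ℝ) ^ 2 ≤ ((1 - η) * Real.sqrt n) ^ 2 := by
            apply pow_le_pow_left₀ (Nat.cast_nonneg m) hbig
          have h9 : ((1 - η) * Real.sqrt n) ^ 2 = (1 - η) ^ 2 * n := by
            rw [mul_pow, Real.sq_sqrt (by linarith)]
          nlinarith
        have h8 : Real.log n + Real.log η ≤ Real.log ((n : ℝ) - (m : ℝ) ^ 2) := by
          rw [← Real.log_mul (by linarith) h0.ne', mul_comm]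
          exact Real.log_le_log (by positivity) h7
        have h9 : 1 / Real.log ((n : ℝ) - (m : ℝ) ^ 2) ≤ 1 / (Real.log n + Real.log η) :=
          one_div_le_one_div_of_le hpos h8
        linarith
  refine (Finset.sum_le_sum key).trans ?_
  rw [Finset.sum_add_distrib, Finset.sum_add_distrib]
  have hA : ∑ _m ∈ Ioc 0 s, 1 / (Real.log n + Real.log η) ≤
      Real.sqrt n * (1 / (Real.log n + Real.log η)) := by
    rw [Finset.sum_const, Nat.card_Ioc, nsmul_eq_mul, Nat.sub_zero]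
    exact mul_le_mul_of_nonneg_right hs3 (by positivity)
  have hB : ∑ m ∈ Ioc 0 s, (if (1 - η) * Real.sqrt n < (m : ℝ) then 2 / Real.log n else 0) ≤
      (η * Real.sqrt n + 1) * (2 / Real.log n) := by
    rw [← Finset.sum_filter, Finset.sum_const, nsmul_eq_mul]
    apply mul_le_mul_of_nonneg_right _ (by positivity)
    have hsub : (Ioc 0 s).filter (fun m : ℕ => (1 - η) * Real.sqrt n < (m : ℝ)) ⊆
        Ioc ⌊(1 - η) * Real.sqrt n⌋₊ s := by
      intro m hm
      rw [Finset.mem_filter, Finset.mem_Ioc] at hm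
      rw [Finset.mem_Ioc]
      refine ⟨?_, hm.1.2⟩
      rw [Nat.floor_lt (by
        apply mul_nonneg
        · linarith
        · linarith)]
      exact hm.2
    have hcard := Finset.card_le_card hsub
    rw [Nat.card_Ioc] at hcard
    have h12 : (1 - η) * Real.sqrt n < (⌊(1 - η) * Real.sqrt n⌋₊ : ℝ) + 1 := Nat.lt_floor_add_one _
    have h13 : (((Ioc 0 s).filter (fun m : ℕ => (1 - η) * Real.sqrt n < (m : ℝ))).card : ℝ) ≤
        ((s - ⌊(1 - η) * Real.sqrt n⌋₊ : ℕ) : ℝ) := by exact_mod_cast hcard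
    refine h13.trans ?_
    rcases le_total s ⌊(1 - η) * Real.sqrt n⌋₊ with hle | hle
    · rw [Nat.sub_eq_zero_of_le hle]
      have : 0 ≤ η * Real.sqrt n := by positivity
      push_cast
      linarith
    · rw [Nat.cast_sub hle]
      nlinarith
  have hC : ∑ m ∈ Ioc 0 s, (if m = s then (2 : ℝ) else 0) ≤ 2 := by
    rw [Finset.sum_ite_eq']
    split_ifs <;> norm_num
  linarith

end AsyAux

theorem asy (ε : ℝ) (hε : 0 < ε) : ∀ᶠ n : ℕ in atTop,
    |∑ m ∈ Ioc 0 (Nat.sqrt (n - 2)), 1 / Real.log ((n - m ^ 2 : ℕ) : ℝ) - Real.sqrt n / Real.log n| ≤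
      ε * (Real.sqrt n / Real.log n) := by
  set η : ℝ := min (ε / 8) (1 / 2) with hη
  have h0 : 0 < η := lt_min (by positivity) (by norm_num)
  have h1 : η ≤ 1 / 2 := min_le_right _ _
  have h2 : η ≤ ε / 8 := min_le_left _ _
  filter_upwards [AsyAux.ev_sqrt (ε / 2) (by positivity), eventually_ge_atTop 16,
    AsyAux.ev_log (1 - Real.log η), AsyAux.ev_log (-(1 + ε / 4) * Real.log η / (ε / 4)),
    AsyAux.ev_log 1] with n hA hn hB hC hD
  have hL : 0 < Real.log n := by linarith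
  have hpos : 0 < Real.log n + Real.log η := by linarith
  have hlo := AsyAux.lower n hn
  have hup := AsyAux.upper η h0 h1 n hn hpos
  set W := ∑ m ∈ Ioc 0 (Nat.sqrt (n - 2)), 1 / Real.log ((n - m ^ 2 : ℕ) : ℝ)
  set L := Real.log (n : ℝ)
  set R := Real.sqrt (n : ℝ)
  have hR : 0 ≤ R := Real.sqrt_nonneg _
  rw [abs_le]
  constructor
  · have h3 : (R - 2) / L = R / L - 2 / L := by ring
    have h4 : 2 / L ≤ ε * (R / L) := by
      rw [← mul_div_assoc]
      apply div_le_div_of_nonneg_right _ hL.le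
      nlinarith
    linarith
  · have h3 : 1 / (L + Real.log η) ≤ (1 + ε / 4) / L := by
      rw [div_le_div_iff₀ hpos hL]
      rw [div_le_iff₀ (by positivity)] at hC
      nlinarith
    have h4 : R * (1 / (L + Real.log η)) ≤ (1 + ε / 4) * (R / L) := by
      calc R * (1 / (L + Real.log η)) ≤ R * ((1 + ε / 4) / L) :=
            mul_le_mul_of_nonneg_left h3 hR
        _ = (1 + ε / 4) * (R / L) := by ring
    have h5 : (η * R + 1) * (2 / L) ≤ (ε / 4) * (R / L) + 2 / L := by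
      have : (η * R + 1) * (2 / L) = (2 * η) * (R / L) + 2 / L := by ring
      rw [this]
      have h6 : 0 ≤ R / L := by positivity
      nlinarith
    have h6 : 2 / L + 2 ≤ (ε / 2) * (R / L) := by
      have : 2 / L + 2 = (2 + 2 * L) / L := by field_simp
      rw [this, ← mul_div_assoc]
      exact div_le_div_of_nonneg_right hA hL.le
    linarith

end Pool.Agent.Lib.SPP
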