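import Pool.Agent.Lib.SPP.Mom

/-!
# SPP.Cheb: a dyadic rough sum is large for few `n` (1 h)

PROOF. `L = log X`, `k = ⌊L/(8 log(2T))⌋`. As `z ≤ T`, `T^100 ≤ X`: `k ≥ 1` (indeed `k ≥ 10` for large `X`), `k ≤ L`, and `k² ≤ √z` because `z ≥ L^B1/2 ≥ L^4` for
large `X`. `(2T)^(4k) ≤ exp(4k log 2T) ≤ exp(L/2) = X^(1/2)`; `T^k ≤ X^(1/8)`; as `log T ≥ (4/5) log(2T)` for `T ≥ 16` and `k ≥ L/(8 log 2T) - 1`:
`T^k ≥ exp(L/10)/T ≥ X^(1/10 - 1/100)`. Chebyshev with `moment` (`N = X`): the number of `n` is at most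
`T^(k/8) (X T^(-k/2) e^16 + X^(1/2)) ≤ e^16 X (T^k)^(-3/8) + X^(1/64 + 1/2) ≤ e^16 X^(1 - 27/800) + X^(33/64) ≤ X^(1 - 1/50)` for large `X`.
(The `2k`-th power of `T^(-1/16)` is `T^(-k/8)`.)
-/

set_option autoImplicit false

open Finset Filter

namespace Pool.Agent.Lib.SPP

open Pool.Agent.HLB Pool.Agent.HLT Pool.Agent.HLR Pool.Agent.Lib.GMV

theorem cheb (B1 : ℕ) (hB1 : 8 ≤ B1) : ∀ᶠ X : ℕ in atTop, ∀ T : ℕ, zA B1 X ≤ T → T ^ 100 ≤ X →
    ∀ P : Finset ℕ, (∀ p ∈ P, p.Prime ∧ zA B1 X < p) → ∀ SS : Finset (Finset ℕ),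
    (∀ S ∈ SS, S ⊆ P ∧ T < ∏ p ∈ S, p ∧ ∏ p ∈ S, p ≤ 2 * T) →
    (((Icc 1 X).filter (fun n => (T : ℝ) ^ (-(1 / 16 : ℝ)) < |∑ S ∈ SS, ∏ p ∈ S, gp p n|)).card : ℝ) ≤
      (X : ℝ) ^ (1 - 1 / 50 : ℝ) := by
  have hL : ∀ᶠ X : ℕ in atTop, (2000 : ℝ) ≤ Real.log X :=
    (Real.tendsto_log_atTop.comp tendsto_natCast_atTop_atTop).eventually_ge_atTop 2000
  filter_upwards [hL] with X hX T hzT hT100 P hP SS hSS
  obtain ⟨L, hLdef⟩ : ∃ L : ℝ, L = Real.log X := ⟨_, rfl⟩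
  rw [← hLdef] at hX
  have hX0 : (0 : ℝ) < X := by
    rcases Nat.eq_zero_or_pos X with h | h
    · rw [h] at hLdef
      simp at hLdef
      linarith
    · exact_mod_cast h
  have hXexp : (X : ℝ) = Real.exp L := by rw [hLdef, Real.exp_log hX0]
  -- the size of z
  have hz1 : L ^ 8 < (zA B1 X : ℝ) + 1 := by
    have h1 : L ^ 8 ≤ L ^ B1 := pow_le_pow_right₀ (by linarith) hB1
    have h2 : L ^ B1 < (zA B1 X : ℝ) + 1 := by
      unfold zA
      rw [← hLdef]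
      exact Nat.lt_floor_add_one _
    linarith
  have hL8 : (2000 : ℝ) ^ 7 * L ≤ L ^ 8 := by
    have : L ^ 8 = L ^ 7 * L := by ring
    rw [this]
    gcongr
  have hz2 : (2000 : ℝ) ≤ (zA B1 X : ℝ) := by nlinarith
  have hTz : (zA B1 X : ℝ) ≤ T := by exact_mod_cast hzT
  have hT16 : (16 : ℝ) ≤ T := by linarith
  have hT0 : (0 : ℝ) < T := by linarith
  obtain ⟨l, hl⟩ : ∃ l : ℝ, l = Real.log T := ⟨_, rfl⟩
  obtain ⟨c, hc⟩ : ∃ c : ℝ, c = Real.log 2 := ⟨_, rfl⟩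
  have hc0 : 0 < c := by rw [hc]; exact Real.log_pos (by norm_num)
  have hc1 : c ≤ 1 := by
    rw [hc]
    have := Real.log_two_lt_d9
    linarith
  have hl4 : 4 * c ≤ l := by
    rw [hl, hc]
    have h1 : Real.log (2 ^ 4 : ℝ) = 4 * Real.log 2 := by
      rw [Real.log_pow]; norm_num
    have h2 : Real.log (2 ^ 4 : ℝ) ≤ Real.log T := Real.log_le_log (by norm_num) (by linarith)
    linarith
  have hc2 : 1 / 2 ≤ c := by
    rw [hc]
    have := Real.log_two_gt_d9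
    linarith
  have hlL : 100 * l ≤ L := by
    have h1 : ((T : ℝ) ^ 100) ≤ X := by exact_mod_cast hT100
    have h2 := Real.log_le_log (by positivity) h1
    rw [Real.log_pow, ← hLdef, ← hl] at h2
    simpa using h2
  have hTexp : (T : ℝ) = Real.exp l := by rw [hl, Real.exp_log hT0]
  have h2T : ((2 * T : ℕ) : ℝ) = Real.exp (c + l) := by
    rw [Real.exp_add, ← hTexp, hc, Real.exp_log (by norm_num)]
    push_cast
    ring
  have hcl : 0 < c + l := by linarith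
  obtain ⟨k, hk⟩ : ∃ k : ℕ, k = ⌊L / (8 * (c + l))⌋₊ := ⟨_, rfl⟩
  have hk1 : (k : ℝ) * (8 * (c + l)) ≤ L := by
    have h1 : (k : ℝ) ≤ L / (8 * (c + l)) := by
      rw [hk]; exact Nat.floor_le (by positivity)
    rwa [le_div_iff₀ (by positivity)] at h1
  have hk2 : L < ((k : ℝ) + 1) * (8 * (c + l)) := by
    have h1 : L / (8 * (c + l)) < (k : ℝ) + 1 := by
      rw [hk]; exact Nat.lt_floor_add_one _
    rwa [div_lt_iff₀ (by positivity)] at h1
  have hk0 : (0 : ℝ) ≤ k := Nat.cast_nonneg k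
  have hkL : (k : ℝ) ≤ L := by nlinarith
  have hksq : (k : ℝ) ^ 2 ≤ Real.sqrt (zA B1 X) := by
    apply Real.le_sqrt_of_sq_le
    have h1 : ((k : ℝ) ^ 2) ^ 2 ≤ (L ^ 2) ^ 2 := by gcongr
    have h2 : (2000 : ℝ) ^ 4 * L ^ 4 ≤ L ^ 8 := by
      have : L ^ 8 = L ^ 4 * L ^ 4 := by ring
      rw [this]
      gcongr
    have h3 : (1 : ℝ) ≤ L ^ 4 := one_le_pow₀ (by linarith)
    nlinarith
  have hz2' : 2 ≤ zA B1 X := by
    have : (2 : ℝ) ≤ (zA B1 X : ℝ) := by linarith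
    exact_mod_cast this
  have hT1 : 1 ≤ T := by
    have : (1 : ℝ) ≤ (T : ℝ) := by linarith
    exact_mod_cast this
  have hm := moment P k (zA B1 X) T X hz2' hP hksq hT1 SS hSS
  -- Chebyshev
  obtain ⟨F, hF⟩ : ∃ F : ℕ → ℝ, F = fun n => ∑ S ∈ SS, ∏ p ∈ S, gp p n := ⟨_, rfl⟩
  have hFn : ∀ n, ∑ S ∈ SS, ∏ p ∈ S, gp p n = F n := fun n => by rw [hF]
  simp only [hFn] at hm ⊢
  have hcheb : (((Icc 1 X).filter (fun n => (T : ℝ) ^ (-(1 / 16 : ℝ)) < |F n|)).card : ℝ) *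
      ((T : ℝ) ^ (-(1 / 16 : ℝ))) ^ (2 * k) ≤ ∑ n ∈ Icc 1 X, F n ^ (2 * k) := by
    rw [← nsmul_eq_mul, ← Finset.sum_const]
    refine (Finset.sum_le_sum (fun n hn => ?_)).trans
      (Finset.sum_le_sum_of_subset_of_nonneg (Finset.filter_subset _ _) (fun n _ _ => ?_))
    · rw [Finset.mem_filter] at hn
      have h1 : F n ^ (2 * k) = |F n| ^ (2 * k) := by
        rw [pow_mul, pow_mul, sq_abs]
      rw [h1]
      exact pow_le_pow_left₀ (by positivity) hn.2.le _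
    · rw [pow_mul]
      positivity
  have e1 : ((T : ℝ) ^ (-(1 / 16 : ℝ))) ^ (2 * k) = Real.exp (-(k * l / 8)) := by
    rw [Real.rpow_def_of_pos hT0, ← hl, ← Real.exp_nat_mul]
    congr 1
    push_cast
    ring
  have e2 : (T : ℝ) ^ (-((k : ℝ) / 2)) = Real.exp (-(k * l / 2)) := by
    rw [Real.rpow_def_of_pos hT0, ← hl]
    congr 1
    ring
  have e3 : ((2 * T : ℕ) : ℝ) ^ (4 * k) = Real.exp (4 * k * (c + l)) := by
    rw [h2T, ← Real.exp_nat_mul]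
    congr 1
    push_cast
    ring
  rw [e1] at hcheb
  rw [e2, e3, hXexp, ← Real.exp_add, ← Real.exp_add] at hm
  have hfin : (((Icc 1 X).filter (fun n => (T : ℝ) ^ (-(1 / 16 : ℝ)) < |F n|)).card : ℝ) ≤
      Real.exp (L + -(k * l / 2) + 16 + k * l / 8) + Real.exp (4 * k * (c + l) + k * l / 8) := by
    have h1 := hcheb.trans hm
    have h2 : 0 < Real.exp (k * l / 8) := Real.exp_pos _
    have h3 := mul_le_mul_of_nonneg_right h1 h2.le
    rw [mul_assoc, ← Real.exp_add, add_mul, ← Real.exp_add, ← Real.exp_add] at h3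
    have h4 : -((k : ℝ) * l / 8) + k * l / 8 = 0 := by ring
    rw [h4, Real.exp_zero, mul_one] at h3
    exact h3
  refine hfin.trans ?_
  have hkl : 9 * L / 100 ≤ k * l := by
    -- `5 l ≥ 4 (c + l)`
    have h1 : 4 * (c + l) ≤ 5 * l := by linarith
    have h2 : L - 8 * (c + l) < k * (8 * (c + l)) := by linarith
    have h3 : (k : ℝ) * (8 * (c + l)) ≤ k * (10 * l) := by
      apply mul_le_mul_of_nonneg_left _ hk0
      linarith
    have h4 : 8 * (c + l) ≤ 10 * l := by linarith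
    linarith
  have hkl2 : (k : ℝ) * l ≤ k * (c + l) := mul_le_mul_of_nonneg_left (by linarith) hk0
  have hkc : (k : ℝ) * (c + l) ≤ L / 8 := by linarith
  rw [Real.rpow_def_of_pos hX0, ← hLdef]
  have f1 : Real.exp (L + -(k * l / 2) + 16 + k * l / 8) ≤ Real.exp (L * (1 - 1 / 50) - 1) := by
    apply Real.exp_le_exp.2
    linarith
  have f2 : Real.exp (4 * k * (c + l) + k * l / 8) ≤ Real.exp (L * (1 - 1 / 50) - 1) := by
    apply Real.exp_le_exp.2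
    linarith
  have f3 : Real.exp (L * (1 - 1 / 50)) = Real.exp 1 * Real.exp (L * (1 - 1 / 50) - 1) := by
    rw [← Real.exp_add]
    congr 1
    ring
  have f4 : (2 : ℝ) ≤ Real.exp 1 := by
    have := Real.add_one_le_exp (1 : ℝ)
    linarith
  rw [f3]
  have f5 : 0 < Real.exp (L * (1 - 1 / 50) - 1) := Real.exp_pos _
  nlinarith

end Pool.Agent.Lib.SPP
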