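import Pool.Agent.Lib.SPP.Defs
import Pool.Agent.Lib.GMV.Ram
import Pool.Agent.Lib.P5632c9.Chi

/-!
# SPP.Chn: the real character of a non-square (1.5 h)

PROOF. `b ↦ jacobiSym n b` on odd `b` coprime to `n` depends only on `b` modulo `4 n` (`jacobiSym.mod_right`: `J(a | b) = J(a | b % (4 |a|))` for odd `b`), and is multiplicative
in `b` (`jacobiSym.mul_right`), with values `±1` for `b` coprime to `n`. So it is a character `ψ` of the units of `ZMod (4n)` (`MulChar.ofUnitHom` or `MulChar.mk`), `ψ² = 1`. It is not trivial: there is `b` coprime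
to `4 n` with `J(n | b) = -1`. (Write `n = d f²`, `d` squarefree, `d > 1`. If `d` has an odd prime factor `p`: choose by CRT `b ≡ 1 mod 8`, `b ≡ 1` modulo the other odd primes dividing `n`, `b` a quadratic
nonresidue mod `p`; then `J(2 | b) = 1` and by reciprocity (`b ≡ 1 mod 4`) `J(d | b) = J(b | d') = -1`, `d'` the odd part of `d`. If `d = 2`: `b ≡ 3 mod 8` (or `5`), coprime to `n`. `J(n | b) = J(d | b)` for `b` coprime to `f`.)
Let `χ` be the primitive character of conductor `r ∣ 4n` which induces `ψ` (`DirichletCharacter.primitiveCharacter`, `primitiveCharacter_isPrimitive`,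
`changeLevel`), as an element `x` of `CI` (modulus `r = x.1 + 1`; the file GMV/Ram.lean, `sum_prim`, does the same re-indexing); `x ∈ Ch (4 n)` since `r ≤ 4n`. Values at `b` coprime to `4n` agree (`GMV.RamAux.cv_changeLevel` or similar).
`x.2 ≠ 1` and `x.2 ^ 2 = 1` because `ψ ≠ 1`, `ψ² = 1` (`changeLevel` is injective).
-/

set_option autoImplicit false

open Finset Filter

namespace Pool.Agent.Lib.SPP

open Pool.Agent.HLB Pool.Agent.HLT Pool.Agent.HLR Pool.Agent.Lib.GMV

theorem chn (n : ℕ) (h0 : 0 < n) (hn : ¬ IsSquare n) : ∃ x ∈ Ch (4 * n), x.2 ≠ 1 ∧ x.2 ^ 2 = 1 ∧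
    ∀ b : ℕ, b.Coprime (4 * n) → cv x b = ((jacobiSym (n : ℤ) b : ℤ) : ℂ) := by
  haveI : NeZero n := ⟨h0.ne'⟩
  haveI : NeZero (4 * n) := ⟨by omega⟩
  set ψ := P5632c9.chi n with hψ
  have hc0 : ψ.conductor ≠ 0 := DirichletCharacter.conductor_ne_zero ψ
  obtain ⟨d, hd⟩ := Nat.exists_eq_succ_of_ne_zero hc0
  have hd1 : ψ.conductor = d + 1 := hd
  have hdvd : d + 1 ∣ 4 * n := hd1 ▸ ψ.conductor_dvd_level
  have hf : ψ.FactorsThrough (d + 1) := by
    rw [← hd1]; exact ψ.factorsThrough_conductor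
  have he : ψ = DirichletCharacter.changeLevel hdvd hf.χ₀ := hf.eq_changeLevel
  refine ⟨⟨d, hf.χ₀⟩, ?_, ?_, ?_, ?_⟩
  · rw [mem_Ch]
    refine ⟨Nat.le_of_dvd (by omega) hdvd, ?_⟩
    rw [DirichletCharacter.isPrimitive_def]
    have h2 := DirichletCharacter.conductor_changeLevel hf.χ₀ hdvd
    rw [← he, hd1] at h2
    exact h2.symm
  · intro h1
    have h1' : hf.χ₀ = 1 := h1
    apply P5632c9.chi_ne_one n hn
    rw [← hψ, he, h1', DirichletCharacter.changeLevel_one]
  · show hf.χ₀ ^ 2 = 1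
    apply DirichletCharacter.changeLevel_injective hdvd
    rw [map_pow, ← he, map_one]
    exact P5632c9.chi_sq n
  · intro b hb
    have h1 := RamAux.cv_changeLevel (⟨d, hf.χ₀⟩ : CI) hdvd hb
    rw [← h1]
    show (DirichletCharacter.changeLevel hdvd hf.χ₀) (b : ZMod (4 * n)) = _
    rw [← he, hψ, P5632c9.chi_apply]
    have h2 : b % 2 = 1 := by
      by_contra h3
      have h4 : 2 ∣ Nat.gcd b (4 * n) := Nat.dvd_gcd (by omega) ⟨2 * n, by ring⟩
      rw [hb] at h4
      omega
    rw [P5632c9.jval_odd h2]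

end Pool.Agent.Lib.SPP
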