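import Pool.Agent.Lib.SPP.Chn

/-!
# SPP.Cnt: few integers belong to a given character (1 h)

PROOF. `sq_of_jac`: if `m` is not a square, `chn` gives a nontrivial character `x` with `cv x b = J(m | b)` for `b` coprime to `4m`; a nontrivial Dirichlet character takes a value `≠ 1` at some `b` coprime to
its modulus, and we may take `b` coprime to `4m`: `x.2 ≠ 1`, so by injectivity of `changeLevel` it is nontrivial on the units modulo `4m` (or repeat the choice of `b` in Chn: you may export from Chn the lemma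
`∃ b, b.Coprime (4 * n) ∧ jacobiSym n b = -1`). `b` is odd, and `J(m | b) = ∏ J(m | p)` over the prime factors `p` of `b`, none of which divides `2m`; so some `J(m | p) ≠ 1`, contradiction.
`cnt`: let `n₀`, `n` be in the set. For a prime `p ∤ 2 n n₀`: `J(n n₀ | p) = cv x p ^ 2`, and `cv x p = J(n | p) = ±1`, so it is `1`; hence `n n₀` is a square. Write
`n₀ = d f₀²`, `n = d' f²` with `d, d'` squarefree (`Nat.sq_mul_squarefree`); `d d'` is a square, so `d = d'`. So `n ↦ f` is injective with values in `[1, √X]`.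
-/

set_option autoImplicit false

open Finset Filter

namespace Pool.Agent.Lib.SPP

open Pool.Agent.HLB Pool.Agent.HLT Pool.Agent.HLR Pool.Agent.Lib.GMV

theorem sq_of_jac (m : ℕ) (hm : 0 < m)
    (h : ∀ p : ℕ, p.Prime → ¬ p ∣ 2 * m → jacobiSym (m : ℤ) p = 1) : IsSquare m := by
  by_contra hs
  obtain ⟨x, _, hx1, _, hx⟩ := chn m hm hs
  apply hx1
  refine MulChar.ext (fun u => ?_)
  rw [MulChar.one_apply_coe]
  obtain ⟨p, hpg, hp, hpe⟩ := Nat.forall_exists_prime_gt_and_eq_mod (q := x.1 + 1)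
    (a := (u : ZMod (x.1 + 1))) u.isUnit (4 * m)
  have hcop : p.Coprime (4 * m) := (Nat.Prime.coprime_iff_not_dvd hp).2
    (fun hd => absurd (Nat.le_of_dvd (by omega) hd) (by omega))
  have h1 := hx p hcop
  unfold cv at h1
  rw [hpe] at h1
  rw [h1, h p hp (fun hd => absurd (Nat.le_of_dvd (by omega) hd) (by omega))]
  simp

namespace CntAux

theorem sqf_eq {a b : ℕ} (ha : Squarefree a) (hb : Squarefree b) {c : ℕ} (h : a * b = c ^ 2) :
    a = b := by
  have ha0 : 0 < a := Nat.pos_of_ne_zero ha.ne_zero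
  have h1 : a ∣ c := by
    have h2 : a ∣ c ^ 2 := ⟨b, h.symm⟩
    exact (ha.dvd_pow_iff_dvd (by norm_num)).1 h2
  obtain ⟨k, rfl⟩ := h1
  have h3 : b = a * k ^ 2 := by
    have : a * b = a * (a * k ^ 2) := by rw [h]; ring
    exact Nat.eq_of_mul_eq_mul_left ha0 this
  have h4 : IsUnit k := hb k ⟨a, by rw [h3]; ring⟩
  have h5 : k = 1 := Nat.isUnit_iff.1 h4
  rw [h3, h5]
  ring

end CntAux

open scoped Classical in
theorem cnt (x : CI) (X : ℕ) :
    ((Icc 1 X).filter (fun n => ∀ p : ℕ, p.Prime → ¬ p ∣ 2 * n →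
      cv x p = ((jacobiSym (n : ℤ) p : ℤ) : ℂ))).card ≤ Nat.sqrt X := by
  rcases Finset.eq_empty_or_nonempty ((Icc 1 X).filter (fun n => ∀ p : ℕ, p.Prime → ¬ p ∣ 2 * n →
      cv x p = ((jacobiSym (n : ℤ) p : ℤ) : ℂ))) with h0 | ⟨n₀, hn₀⟩
  · rw [h0]
    simp
  rw [mem_filter, mem_Icc] at hn₀
  obtain ⟨a₀, b₀, e₀, sf₀⟩ := Nat.sq_mul_squarefree n₀
  have hb₀ : 0 < b₀ := by
    rcases Nat.eq_zero_or_pos b₀ with h | h
    · subst h
      simp at e₀
      omega
    · exact h
  have hsub : ((Icc 1 X).filter (fun n => ∀ p : ℕ, p.Prime → ¬ p ∣ 2 * n →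
      cv x p = ((jacobiSym (n : ℤ) p : ℤ) : ℂ))) ⊆
      (Icc 1 (Nat.sqrt X)).image (fun b => b ^ 2 * a₀) := by
    intro n hn
    rw [mem_filter, mem_Icc] at hn
    obtain ⟨a, b, e, sf⟩ := Nat.sq_mul_squarefree n
    have hb : 0 < b := by
      rcases Nat.eq_zero_or_pos b with h | h
      · subst h
        simp at e
        omega
      · exact h
    have hsq : IsSquare (n * n₀) := by
      refine sq_of_jac _ (Nat.mul_pos hn.1.1 hn₀.1.1) (fun p hp hd => ?_)
      have d1 : ¬ p ∣ 2 * n := fun h => hd (by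
        rw [← mul_assoc]
        exact Dvd.dvd.mul_right h _)
      have d2 : ¬ p ∣ 2 * n₀ := fun h => hd (by
        have : 2 * (n * n₀) = n * (2 * n₀) := by ring
        rw [this]
        exact Dvd.dvd.mul_left h _)
      have h1 := hn.2 p hp d1
      have h2 := hn₀.2 p hp d2
      have h3 : jacobiSym (n : ℤ) p = jacobiSym (n₀ : ℤ) p := by
        have := h1.symm.trans h2
        exact_mod_cast this
      have h4 : Int.gcd (n : ℤ) (p : ℤ) = 1 := by
        rw [Int.gcd_natCast_natCast]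
        refine Nat.Coprime.symm ((Nat.Prime.coprime_iff_not_dvd hp).2 (fun h => d1 ?_))
        exact Dvd.dvd.mul_left h _
      push_cast
      rw [jacobiSym.mul_left, ← h3]
      rcases jacobiSym.eq_one_or_neg_one h4 with h | h <;> rw [h] <;> norm_num
    obtain ⟨r, hr⟩ := hsq
    have h5 : (b * b₀) ^ 2 ∣ r ^ 2 := ⟨a * a₀, by
      rw [pow_two r, ← hr, ← e, ← e₀]
      ring⟩
    have h6 : b * b₀ ∣ r := (Nat.pow_dvd_pow_iff (by norm_num)).1 h5
    obtain ⟨c, hc⟩ := h6
    have h7 : a * a₀ = c ^ 2 := by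
      have h8 : (b * b₀) ^ 2 * (a * a₀) = (b * b₀) ^ 2 * c ^ 2 := by
        have : (b * b₀) ^ 2 * (a * a₀) = n * n₀ := by
          rw [← e, ← e₀]
          ring
        rw [this, hr, hc]
        ring
      exact Nat.eq_of_mul_eq_mul_left (by positivity) h8
    have h9 : a = a₀ := CntAux.sqf_eq sf sf₀ h7
    subst h9
    rw [mem_image]
    refine ⟨b, ?_, e⟩
    rw [mem_Icc]
    refine ⟨hb, ?_⟩
    rw [Nat.le_sqrt]
    have ha : 0 < a := Nat.pos_of_ne_zero sf.ne_zero
    calc b * b ≤ b ^ 2 * a := by nlinarith [Nat.zero_le (b * b)]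
      _ = n := e
      _ ≤ X := hn.1.2
  refine (Finset.card_le_card hsub).trans (Finset.card_image_le.trans ?_)
  simp

end Pool.Agent.Lib.SPP
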