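import Pool.Agent.Lib.SPP.Sq4
import Pool.Agent.Lib.SPP.MSq
import Pool.Agent.Lib.GMV.ProjW
import Pool.Agent.Lib.GMV.DiffL
import Pool.Agent.Lib.GMV.L2bd

/-!
# SPP.Diff: primes and model on `n - m²` for almost all `n` (1.5 h)

PROOF. `f = W - LL X Q (Q^B0)`. `‖ft (4X) f t‖ ≤ 4 X Q^(-2/5)` (`projW`, `diffL`; `Rg c` with `c ≤ 1/20`), `∑ ‖f‖² ≤ X (log X)^K` (`l2W`, `l2L`). `M = Nat.sqrt X`, `E4 M ≤ C X (log X)²`
(`sq4`). By `msq` for every `I ⊆ range (M+1)`: `∑_{n ≤ X} ‖∑_{m ∈ I, m² ≤ n} f(n - m²)‖² ≤ C X² Q^(-2/5) (log X)^K' ≤ X² Q^(-3/8)` for `X ≥ X0`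
(`log X ≤ 4 (log Q)²`, `Q → ∞` with `X`). Chebyshev: the number of `n ≤ X` with `‖..‖ > √X Q^(-1/10)` is at most `X Q^(-3/8 + 1/5) = X Q^(-7/40)`. Union over the at most
`(G+1)² ≤ 4 Q^(1/20)` intervals `I = Ioc (gd X G i) (gd X G j)`, `i ≤ j ≤ G` (`gd X G j ≤ √X`): `4 X Q^(-1/8) ≤ X Q^(-1/10)`. Here `b` only enters through `diffL`, `l2L`.
(`∃ F ⊆ Icc 1 X`: the union of the bad sets.)
-/

set_option autoImplicit false

open Finset Filter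

namespace Pool.Agent.Lib.SPP

open Pool.Agent.HLB Pool.Agent.HLT Pool.Agent.HLR Pool.Agent.Lib.GMV

namespace DiffAux

/-- Powers of the logarithm against `exp (a √log X)`. -/
lemma log_exp (D a : ℝ) (k : ℕ) (ha : 0 < a) : ∀ᶠ X : ℕ in atTop,
    D * Real.log X ^ k ≤ Real.exp (a * Real.sqrt (Real.log X)) := by
  have h1 : ∀ᶠ u : ℝ in atTop, (|D| + 1) * u ^ (2 * k) ≤ Real.exp (a * u) := by
    have h := (isLittleO_pow_exp_pos_mul_atTop (2 * k) ha).def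
      (show (0 : ℝ) < (|D| + 1)⁻¹ by positivity)
    filter_upwards [h, eventually_ge_atTop 0] with u hu hu0
    rw [Real.norm_of_nonneg (by positivity), Real.norm_of_nonneg (by positivity)] at hu
    rw [← le_inv_mul_iff₀ (by positivity)]
    exact hu
  have h2 : Tendsto (fun X : ℕ => Real.sqrt (Real.log X)) atTop atTop :=
    Real.tendsto_sqrt_atTop.comp (Real.tendsto_log_atTop.comp tendsto_natCast_atTop_atTop)
  filter_upwards [h2.eventually h1] with X hX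
  have h3 : 0 ≤ Real.log (X : ℝ) := Real.log_natCast_nonneg X
  have h4 : Real.sqrt (Real.log X) ^ (2 * k) = Real.log X ^ k := by
    rw [pow_mul, Real.sq_sqrt h3]
  rw [h4] at hX
  refine le_trans ?_ hX
  refine mul_le_mul_of_nonneg_right ?_ (by positivity)
  linarith [le_abs_self D]

lemma Q_pow {X Q : ℕ} (hQ : Real.exp (Real.sqrt (Real.log X) / 2) ≤ Q) {a : ℝ} (ha : 0 ≤ a) :
    Real.exp (a / 2 * Real.sqrt (Real.log X)) ≤ (Q : ℝ) ^ a := by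
  have h1 := Real.rpow_le_rpow (Real.exp_pos _).le hQ ha
  rw [← Real.exp_mul] at h1
  refine le_trans (le_of_eq ?_) h1
  congr 1
  ring

lemma gd_le {X G j : ℕ} (hG : 1 ≤ G) (hj : j ≤ G) : gd X G j ≤ Nat.sqrt X := by
  unfold gd
  exact Nat.div_le_of_le_mul (Nat.mul_le_mul_right _ hj)

lemma ft_sub (N : ℕ) (f g : ℕ → ℂ) (t : ℝ) : ft N (fun n => f n - g n) t = ft N f t - ft N g t := by
  unfold ft
  rw [← Finset.sum_sub_distrib]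
  exact Finset.sum_congr rfl fun n _ => sub_mul _ _ _

end DiffAux

open DiffAux

theorem diff (B0 : ℕ) (hB0 : 1 ≤ B0) (B : ℝ) : ∃ c : ℝ, 0 < c ∧ ∃ X0 : ℕ, ∀ X Q : ℕ, X0 ≤ X →
    Rg c X Q → ∀ b : CI → ℝ, (∀ x ∈ Ch Q, ∀ n, ‖Mc X Q x n‖ ≤ b x) → ∑ x ∈ Ch Q, b x ≤ B →
    ∀ G : ℕ, 1 ≤ G → (G : ℝ) ≤ (Q : ℝ) ^ (1 / 40 : ℝ) →
    ∃ F ⊆ Icc 1 X, (F.card : ℝ) ≤ X * (Q : ℝ) ^ (-(1 / 10 : ℝ)) ∧ ∀ n ∈ Icc 1 X, n ∉ F →
      ∀ i j : ℕ, i ≤ j → j ≤ G →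
      ‖∑ m ∈ (Ioc (gd X G i) (gd X G j)).filter (fun m => m ^ 2 ≤ n),
        ((W X Q (n - m ^ 2) : ℂ) - LL X Q (Q ^ B0) (n - m ^ 2))‖ ≤
        Real.sqrt X * (Q : ℝ) ^ (-(1 / 10 : ℝ)) := by
  classical
  obtain ⟨c1, hc1, X1, hdL⟩ := diffL B0 hB0 B
  obtain ⟨X2, hpW⟩ := projW
  obtain ⟨X3, hl2W⟩ := l2W
  obtain ⟨K, X4, hl2L⟩ := l2L B0 B
  obtain ⟨C, hC, hsq4⟩ := sq4
  obtain ⟨K', hK'⟩ : ∃ K', K' = K + 4 := ⟨_, rfl⟩
  obtain ⟨X5, hX5⟩ := eventually_atTop.1 ((log_exp (8 * Real.sqrt C) (1 / 80) (K' + 1) (by norm_num)).and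
    ((log_exp 4 (1 / 80) 0 (by norm_num)).and (log_exp 2 (1 / 2) 0 (by norm_num))))
  obtain ⟨X6, hX6⟩ := L2bdAux.log_ev 4
  refine ⟨min c1 (1 / 20), lt_min hc1 (by norm_num),
    max X1 (max X2 (max X3 (max X4 (max X5 (max X6 1))))), ?_⟩
  intro X Q hX hR b hb hB G hG hGQ
  simp only [max_le_iff] at hX
  obtain ⟨hX1, hX2, hX3, hX4, hX5', hX6', hX7⟩ := hX
  obtain ⟨e1, e2, e3⟩ := hX5 X hX5'
  obtain ⟨hL4, -⟩ := hX6 X hX6'
  have hXr : (1 : ℝ) ≤ X := by exact_mod_cast hX7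
  have hX0 : (0 : ℝ) < X := by linarith
  have hR1 : Rg c1 X Q := FreeYAux.Rg_mono (min_le_left _ _) hX7 hR
  have hR2 : Rg (1 / 20) X Q := FreeYAux.Rg_mono (min_le_right _ _) hX7 hR
  obtain ⟨L, hL⟩ : ∃ L, L = Real.log X := ⟨_, rfl⟩
  rw [← hL] at e1 e2 e3 hL4
  have hQlow := hR.1
  have hQ2 : (2 : ℝ) ≤ Q := by
    rw [pow_zero, mul_one] at e3
    refine e3.trans (le_trans (le_of_eq ?_) hQlow)
    rw [hL]
    congr 1
    ring
  have hQ2' : 2 ≤ Q := by exact_mod_cast hQ2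
  have hQ0 : (0 : ℝ) < Q := by linarith
  have hQ5 : Q ^ 5 ≤ X := by
    have h1 : ((Q : ℝ)) ^ 5 ≤ X := by
      calc (Q : ℝ) ^ 5 ≤ ((X : ℝ) ^ (1 / 20 : ℝ)) ^ 5 := pow_le_pow_left₀ hQ0.le hR2.2 5
        _ = (X : ℝ) ^ (1 / 4 : ℝ) := by
            rw [← Real.rpow_natCast, ← Real.rpow_mul hX0.le]
            norm_num
        _ ≤ (X : ℝ) ^ (1 : ℝ) := Real.rpow_le_rpow_of_exponent_le hXr (by norm_num)
        _ = X := Real.rpow_one _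
    exact_mod_cast h1
  -- the function
  obtain ⟨f, hf⟩ : ∃ f : ℕ → ℂ, f = fun n => (W X Q n : ℂ) - LL X Q (Q ^ B0) n := ⟨_, rfl⟩
  have hA : ∀ t, ‖ft (4 * X) f t‖ ≤ 4 * X * (Q : ℝ) ^ (-(2 / 5 : ℝ)) := by
    intro t
    have h1 : ft (4 * X) f t = ft (4 * X) (fun n => (W X Q n : ℂ) - LQ X Q n) t -
        ft (4 * X) (fun n => LL X Q (Q ^ B0) n - LQ X Q n) t := by
      rw [hf, ft_sub, ft_sub, ft_sub]
      ring
    rw [h1]
    have h2 := hpW X Q hX2 hR2 t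
    have h3 := hdL X Q hX1 hR1 b hb hB t
    calc _ ≤ 3 * X * (Q : ℝ) ^ (-(2 / 5 : ℝ)) + X * (Q : ℝ) ^ (-(2 / 5 : ℝ)) :=
          (norm_sub_le _ _).trans (add_le_add h2 h3)
      _ = _ := by ring
  have hBs : ∑ k ∈ range (4 * X), ‖f k‖ ^ 2 ≤ X * L ^ K' := by
    have h1 := hl2W X Q hX3
    have h2 := hl2L X Q hX4 hQ2' hQ5 b hb hB
    rw [← hL] at h1 h2
    have h3 : ∀ k ∈ range (4 * X), ‖f k‖ ^ 2 ≤ 2 * W X Q k ^ 2 + 2 * ‖LL X Q (Q ^ B0) k‖ ^ 2 := by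
      intro k _
      rw [hf]
      have h4 : ‖(W X Q k : ℂ) - LL X Q (Q ^ B0) k‖ ≤ |W X Q k| + ‖LL X Q (Q ^ B0) k‖ := by
        refine (norm_sub_le _ _).trans (le_of_eq ?_)
        rw [Complex.norm_real, Real.norm_eq_abs]
      have h5 : ‖(W X Q k : ℂ) - LL X Q (Q ^ B0) k‖ ^ 2 ≤ (|W X Q k| + ‖LL X Q (Q ^ B0) k‖) ^ 2 :=
        pow_le_pow_left₀ (norm_nonneg _) h4 2
      have h6 : |W X Q k| ^ 2 = W X Q k ^ 2 := sq_abs _
      nlinarith [sq_nonneg (|W X Q k| - ‖LL X Q (Q ^ B0) k‖)]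
    have hL1 : 1 ≤ L := by linarith
    have h7 : L ^ 3 ≤ L ^ (K + 3) := pow_le_pow_right₀ hL1 (by omega)
    have h8 : L ^ K ≤ L ^ (K + 3) := pow_le_pow_right₀ hL1 (by omega)
    have h9 : 4 * L ^ (K + 3) ≤ L ^ K' := by
      have e : L ^ K' = L * L ^ (K + 3) := by rw [hK', ← pow_succ']
      rw [e]
      exact mul_le_mul_of_nonneg_right hL4 (by positivity)
    calc ∑ k ∈ range (4 * X), ‖f k‖ ^ 2 ≤
          ∑ k ∈ range (4 * X), (2 * W X Q k ^ 2 + 2 * ‖LL X Q (Q ^ B0) k‖ ^ 2) := Finset.sum_le_sum h3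
      _ = 2 * ∑ k ∈ range (4 * X), W X Q k ^ 2 + 2 * ∑ k ∈ range (4 * X), ‖LL X Q (Q ^ B0) k‖ ^ 2 := by
          rw [Finset.sum_add_distrib, Finset.mul_sum, Finset.mul_sum]
      _ ≤ 2 * (X * L ^ 3) + 2 * (X * L ^ K) := by linarith
      _ = X * (2 * L ^ 3 + 2 * L ^ K) := by ring
      _ ≤ X * L ^ K' := mul_le_mul_of_nonneg_left (by linarith) hX0.le
  -- the fourth moment
  obtain ⟨M, hM⟩ : ∃ M, M = Nat.sqrt X := ⟨_, rfl⟩
  have hM1 : 1 ≤ M := by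
    rw [hM]
    exact Nat.le_sqrt.2 (by omega)
  have hMX : M ^ 2 ≤ X := by rw [hM, pow_two]; exact Nat.sqrt_le X
  have hMXr : (M : ℝ) ^ 2 ≤ X := by exact_mod_cast hMX
  have hE4 : Real.sqrt (E4 M) ≤ Real.sqrt C * Real.sqrt X * (2 * L) := by
    have h1 := hsq4 M hM1
    have hMr : (1 : ℝ) ≤ M := by exact_mod_cast hM1
    have hMleX : (M : ℝ) ≤ X := by
      have : (M : ℝ) ≤ (M : ℝ) ^ 2 := by nlinarith
      linarith
    have h2 : Real.log M ≤ L := by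
      rw [hL]
      exact Real.log_le_log (by linarith) hMleX
    have h3 : 0 ≤ Real.log (M : ℝ) := Real.log_natCast_nonneg M
    have h4 : (1 + Real.log M) ^ 2 ≤ (2 * L) ^ 2 := pow_le_pow_left₀ (by linarith) (by linarith) 2
    have h5 : (E4 M : ℝ) ≤ C * X * (2 * L) ^ 2 := by
      refine h1.trans ?_
      refine mul_le_mul (mul_le_mul_of_nonneg_left hMXr hC.le) h4 (by positivity) (by positivity)
    calc Real.sqrt (E4 M) ≤ Real.sqrt (C * X * (2 * L) ^ 2) := Real.sqrt_le_sqrt h5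
      _ = Real.sqrt C * Real.sqrt X * (2 * L) := by
          rw [Real.sqrt_mul (by positivity), Real.sqrt_mul hC.le, Real.sqrt_sq (by linarith)]
  -- the exponents
  have hq40 : Real.exp (1 / 80 * Real.sqrt L) ≤ (Q : ℝ) ^ (1 / 40 : ℝ) := by
    have h1 := Q_pow hQlow (show (0 : ℝ) ≤ 1 / 40 by norm_num)
    rw [← hL] at h1
    refine le_trans (le_of_eq ?_) h1
    congr 1
    ring
  have e1' : 8 * Real.sqrt C * L ^ (K' + 1) ≤ (Q : ℝ) ^ (1 / 40 : ℝ) := e1.trans hq40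
  have e2' : 4 ≤ (Q : ℝ) ^ (1 / 40 : ℝ) := by
    rw [pow_zero, mul_one] at e2
    exact e2.trans hq40
  -- the mean square
  have hms : ∀ I ⊆ range (M + 1),
      ∑ n ∈ Icc 1 X, ‖∑ m ∈ I.filter (fun m => m ^ 2 ≤ n), f (n - m ^ 2)‖ ^ 2 ≤
        (X : ℝ) ^ 2 * (Q : ℝ) ^ (-(3 / 8 : ℝ)) := by
    intro I hI
    have h1 := msq X M hX7 (by omega) I hI f _ _ hA hBs
    have h2 : ∑ n ∈ Icc 1 X, ‖∑ m ∈ I.filter (fun m => m ^ 2 ≤ n), f (n - m ^ 2)‖ ^ 2 ≤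
        ∑ n ∈ range (2 * X + 1), ‖∑ m ∈ I.filter (fun m => m ^ 2 ≤ n), f (n - m ^ 2)‖ ^ 2 := by
      refine Finset.sum_le_sum_of_subset_of_nonneg (fun n hn => ?_) (fun _ _ _ => by positivity)
      rw [Finset.mem_Icc] at hn
      rw [Finset.mem_range]
      omega
    refine h2.trans (h1.trans ?_)
    have hL1 : 1 ≤ L := by linarith
    have h3 : Real.sqrt (X * L ^ K') ≤ Real.sqrt X * L ^ K' := by
      rw [Real.sqrt_mul hX0.le]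
      refine mul_le_mul_of_nonneg_left ?_ (Real.sqrt_nonneg _)
      rw [Real.sqrt_le_left (by positivity)]
      have : 1 ≤ L ^ K' := one_le_pow₀ hL1
      nlinarith
    have h4 : 4 * X * (Q : ℝ) ^ (-(2 / 5 : ℝ)) * Real.sqrt (X * L ^ K') * Real.sqrt (E4 M) ≤
        4 * X * (Q : ℝ) ^ (-(2 / 5 : ℝ)) * (Real.sqrt X * L ^ K') * (Real.sqrt C * Real.sqrt X * (2 * L)) := by
      refine mul_le_mul (mul_le_mul_of_nonneg_left h3 (by positivity)) hE4 (Real.sqrt_nonneg _) (by positivity)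
    refine h4.trans ?_
    have h5 : 4 * X * (Q : ℝ) ^ (-(2 / 5 : ℝ)) * (Real.sqrt X * L ^ K') * (Real.sqrt C * Real.sqrt X * (2 * L)) =
        (X * (Real.sqrt X * Real.sqrt X)) * (Q : ℝ) ^ (-(2 / 5 : ℝ)) * (8 * Real.sqrt C * L ^ (K' + 1)) := by
      rw [pow_succ]
      ring
    rw [h5, Real.mul_self_sqrt hX0.le]
    have h6 : (X * X : ℝ) * (Q : ℝ) ^ (-(2 / 5 : ℝ)) * (8 * Real.sqrt C * L ^ (K' + 1)) ≤
        (X * X : ℝ) * (Q : ℝ) ^ (-(2 / 5 : ℝ)) * (Q : ℝ) ^ (1 / 40 : ℝ) :=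
      mul_le_mul_of_nonneg_left e1' (by positivity)
    refine h6.trans (le_of_eq ?_)
    rw [mul_assoc, ← Real.rpow_add hQ0, pow_two]
    norm_num
  -- the bad sets
  obtain ⟨bad, hbad⟩ : ∃ bad : ℕ × ℕ → Finset ℕ, bad = fun t => (Icc 1 X).filter (fun n =>
    Real.sqrt X * (Q : ℝ) ^ (-(1 / 10 : ℝ)) <
      ‖∑ m ∈ (Ioc (gd X G t.1) (gd X G t.2)).filter (fun m => m ^ 2 ≤ n), f (n - m ^ 2)‖) := ⟨_, rfl⟩
  have hbc : ∀ t : ℕ × ℕ, t.2 ≤ G → ((bad t).card : ℝ) ≤ X * (Q : ℝ) ^ (-(7 / 40 : ℝ)) := by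
    intro t ht
    have hI : Ioc (gd X G t.1) (gd X G t.2) ⊆ range (M + 1) := by
      intro m hm
      rw [Finset.mem_Ioc] at hm
      have := gd_le (X := X) hG ht
      rw [Finset.mem_range, hM]
      omega
    have h1 := hms _ hI
    have h2 : ((bad t).card : ℝ) * (X * (Q : ℝ) ^ (-(1 / 5 : ℝ))) ≤ (X : ℝ) ^ 2 * (Q : ℝ) ^ (-(3 / 8 : ℝ)) := by
      refine le_trans ?_ h1
      have h3 : ∑ n ∈ bad t, ‖∑ m ∈ (Ioc (gd X G t.1) (gd X G t.2)).filter (fun m => m ^ 2 ≤ n), f (n - m ^ 2)‖ ^ 2 ≤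
          ∑ n ∈ Icc 1 X, ‖∑ m ∈ (Ioc (gd X G t.1) (gd X G t.2)).filter (fun m => m ^ 2 ≤ n), f (n - m ^ 2)‖ ^ 2 := by
        refine Finset.sum_le_sum_of_subset_of_nonneg ?_ (fun _ _ _ => by positivity)
        rw [hbad]
        exact Finset.filter_subset _ _
      refine le_trans ?_ h3
      rw [← nsmul_eq_mul, ← Finset.sum_const]
      refine Finset.sum_le_sum fun n hn => ?_
      rw [hbad] at hn
      have h4 := (Finset.mem_filter.1 hn).2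
      have h5 : (Real.sqrt X * (Q : ℝ) ^ (-(1 / 10 : ℝ))) ^ 2 = X * (Q : ℝ) ^ (-(1 / 5 : ℝ)) := by
        rw [mul_pow, Real.sq_sqrt hX0.le, ← Real.rpow_natCast, ← Real.rpow_mul hQ0.le]
        norm_num
      rw [← h5]
      exact pow_le_pow_left₀ (by positivity) h4.le 2
    have h6 : (X : ℝ) ^ 2 * (Q : ℝ) ^ (-(3 / 8 : ℝ)) =
        (X * (Q : ℝ) ^ (-(7 / 40 : ℝ))) * (X * (Q : ℝ) ^ (-(1 / 5 : ℝ))) := by
      have : (Q : ℝ) ^ (-(3 / 8 : ℝ)) = (Q : ℝ) ^ (-(7 / 40 : ℝ)) * (Q : ℝ) ^ (-(1 / 5 : ℝ)) := by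
        rw [← Real.rpow_add hQ0]
        norm_num
      rw [this]
      ring
    rw [h6] at h2
    exact le_of_mul_le_mul_right h2 (by positivity)
  refine ⟨(range (G + 1) ×ˢ range (G + 1)).biUnion bad, ?_, ?_, ?_⟩
  · refine Finset.biUnion_subset.2 fun t _ => ?_
    rw [hbad]
    exact Finset.filter_subset _ _
  · have h1 : (((range (G + 1) ×ˢ range (G + 1)).biUnion bad).card : ℝ) ≤
        ∑ t ∈ range (G + 1) ×ˢ range (G + 1), ((bad t).card : ℝ) := by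
      exact_mod_cast Finset.card_biUnion_le
    have h2 : ∑ t ∈ range (G + 1) ×ˢ range (G + 1), ((bad t).card : ℝ) ≤
        ∑ _t ∈ range (G + 1) ×ˢ range (G + 1), X * (Q : ℝ) ^ (-(7 / 40 : ℝ)) := by
      refine Finset.sum_le_sum fun t ht => hbc t ?_
      have := (Finset.mem_range.1 (Finset.mem_product.1 ht).2)
      omega
    refine h1.trans (h2.trans ?_)
    rw [Finset.sum_const, nsmul_eq_mul, Finset.card_product, Finset.card_range]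
    have hGr : (1 : ℝ) ≤ G := by exact_mod_cast hG
    have h3 : (((G + 1) * (G + 1) : ℕ) : ℝ) ≤ 4 * (Q : ℝ) ^ (1 / 20 : ℝ) := by
      push_cast
      have h4 : (G : ℝ) * G ≤ (Q : ℝ) ^ (1 / 40 : ℝ) * (Q : ℝ) ^ (1 / 40 : ℝ) :=
        mul_le_mul hGQ hGQ (by linarith) (by positivity)
      rw [← Real.rpow_add hQ0] at h4
      have h5 : (Q : ℝ) ^ (1 / 40 + 1 / 40 : ℝ) = (Q : ℝ) ^ (1 / 20 : ℝ) := by norm_num
      rw [h5] at h4
      nlinarith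
    calc (((G + 1) * (G + 1) : ℕ) : ℝ) * (X * (Q : ℝ) ^ (-(7 / 40 : ℝ)))
        ≤ 4 * (Q : ℝ) ^ (1 / 20 : ℝ) * (X * (Q : ℝ) ^ (-(7 / 40 : ℝ))) :=
          mul_le_mul_of_nonneg_right h3 (by positivity)
      _ = 4 * (X * (Q : ℝ) ^ (-(1 / 8 : ℝ))) := by
          have : (Q : ℝ) ^ (-(1 / 8 : ℝ)) = (Q : ℝ) ^ (1 / 20 : ℝ) * (Q : ℝ) ^ (-(7 / 40 : ℝ)) := by
            rw [← Real.rpow_add hQ0]
            norm_num
          rw [this]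
          ring
      _ ≤ (Q : ℝ) ^ (1 / 40 : ℝ) * (X * (Q : ℝ) ^ (-(1 / 8 : ℝ))) :=
          mul_le_mul_of_nonneg_right e2' (by positivity)
      _ = X * (Q : ℝ) ^ (-(1 / 10 : ℝ)) := by
          have : (Q : ℝ) ^ (-(1 / 10 : ℝ)) = (Q : ℝ) ^ (1 / 40 : ℝ) * (Q : ℝ) ^ (-(1 / 8 : ℝ)) := by
            rw [← Real.rpow_add hQ0]
            norm_num
          rw [this]
          ring
  · intro n hn hnF i j hij hj
    by_contra hcon
    push Not at hcon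
    apply hnF
    rw [Finset.mem_biUnion]
    refine ⟨(i, j), ?_, ?_⟩
    · rw [Finset.mem_product, Finset.mem_range, Finset.mem_range]
      exact ⟨by omega, by omega⟩
    · rw [hbad, Finset.mem_filter]
      refine ⟨hn, ?_⟩
      rw [hf]
      exact hcon

end Pool.Agent.Lib.SPP
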