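import Pool.Agent.Lib.SPP.Defs
import Pool.Agent.Lib.GMV.PerMean
import Pool.Agent.Lib.GMV.RealSplit

/-!
# SPP.SqAux: congruences for `sq`, and periodicity of `wp p (sq p n m)`, `cv x (sq r n m)` in `m`
-/

set_option autoImplicit false

open Finset Filter

namespace Pool.Agent.Lib.SPP

open Pool.Agent.HLB Pool.Agent.HLT Pool.Agent.HLR Pool.Agent.Lib.GMV

namespace SqAux

lemma sq_add_sq {P : ℕ} (hP : 1 ≤ P) (n m : ℕ) : sq P n m + m ^ 2 = n + P * m ^ 2 := by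
  unfold sq
  obtain ⟨q, rfl⟩ : ∃ q, P = q + 1 := ⟨P - 1, by omega⟩
  rw [Nat.add_sub_cancel]
  ring

lemma sq_modEq {P : ℕ} (hP : 1 ≤ P) (n m : ℕ) : sq P n m + m ^ 2 ≡ n [MOD P] := by
  rw [sq_add_sq hP]
  unfold Nat.ModEq
  rw [Nat.add_mul_mod_self_left]

/-- `sq P n m ≡ sq p n m'` modulo `p` if `p ∣ P` and `m ≡ m'` modulo `p`. -/
lemma sq_congr {p P : ℕ} (hp : 1 ≤ p) (hP : 1 ≤ P) (h : p ∣ P) (n : ℕ) {m m' : ℕ} (hm : m ≡ m' [MOD p]) :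
    sq P n m ≡ sq p n m' [MOD p] := by
  have h1 : sq P n m + m ^ 2 ≡ n [MOD p] := (sq_modEq hP n m).of_dvd h
  have h2 : sq p n m' + m' ^ 2 ≡ n [MOD p] := sq_modEq hp n m'
  have h3 : m ^ 2 ≡ m' ^ 2 [MOD p] := hm.pow 2
  exact Nat.ModEq.add_right_cancel h3 (h1.trans h2.symm)

/-- `sq P n m ≡ n - m²` modulo `p` if `p ∣ P` and `m² ≤ n`. -/
lemma sq_sub {p P : ℕ} (hP : 1 ≤ P) (h : p ∣ P) {n m : ℕ} (hm : m ^ 2 ≤ n) :
    sq P n m ≡ n - m ^ 2 [MOD p] := by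
  have h1 : sq P n m + m ^ 2 ≡ n [MOD p] := (sq_modEq hP n m).of_dvd h
  have h2 : n = n - m ^ 2 + m ^ 2 := (Nat.sub_add_cancel hm).symm
  have h3 : sq P n m + m ^ 2 ≡ n - m ^ 2 + m ^ 2 [MOD p] := by
    rw [← h2]
    exact h1
  exact Nat.ModEq.add_right_cancel' _ h3

lemma wp_congr {p a b : ℕ} (h : a ≡ b [MOD p]) : wp p a = wp p b := by
  unfold wp
  have : p ∣ a ↔ p ∣ b := by
    rw [Nat.dvd_iff_mod_eq_zero, Nat.dvd_iff_mod_eq_zero, h]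
  simp only [this]

lemma wp_sq_periodic {p : ℕ} (hp : 1 ≤ p) (n m : ℕ) : wp p (sq p n (m + p)) = wp p (sq p n m) :=
  wp_congr (sq_congr hp hp dvd_rfl n (by unfold Nat.ModEq; rw [Nat.add_mod_right]))

lemma cv_sq_periodic (x : CI) (n m : ℕ) : cv x (sq (md x) n (m + md x)) = cv x (sq (md x) n m) :=
  RealSplitAux.cv_congr x (sq_congr (md_pos x) (md_pos x) dvd_rfl n
    (by unfold Nat.ModEq; rw [Nat.add_mod_right]))

lemma abs_wp_le {p : ℕ} (hp : p.Prime) (n : ℕ) : |wp p n| ≤ 1 := by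
  have h1 : (2 : ℝ) ≤ p := by exact_mod_cast hp.two_le
  unfold wp
  split_ifs
  · simp
  · rw [abs_of_nonneg (by apply div_nonneg zero_le_one; linarith)]
    rw [div_le_one (by linarith)]
    linarith

lemma wp_ge {p : ℕ} (hp : p.Prime) (n : ℕ) : 0 ≤ 1 + wp p n := by
  have := (abs_le.1 (abs_wp_le hp n)).1
  linarith

lemma Gs_nonneg (q n : ℕ) : 0 ≤ Gs q n := by
  unfold Gs
  split_ifs
  · exact le_rfl
  · positivity

lemma Gs_le_one (q n : ℕ) : Gs q n ≤ 1 := by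
  unfold Gs
  split_ifs with h
  · exact zero_le_one
  · have hq : 0 < q := Nat.pos_of_ne_zero h
    have h1 : 0 < Nat.gcd q n := Nat.gcd_pos_of_pos_left _ hq
    have h2 : Nat.gcd q n ≤ q := Nat.le_of_dvd hq (Nat.gcd_dvd_left _ _)
    have h3 : (0 : ℝ) < (Nat.gcd q n : ℝ) := by exact_mod_cast h1
    have h4 : ((Nat.gcd q n : ℕ) : ℝ) ≤ q := by exact_mod_cast h2
    refine Real.rpow_le_one_of_one_le_of_nonpos ?_ (by norm_num)
    rw [le_div_iff₀ h3]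
    linarith

end SqAux

end Pool.Agent.Lib.SPP
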