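import Pool.Agent.Lib.SPP.Loc
import Pool.Agent.Lib.SPP.SqAux
import Pool.Agent.Lib.GMV.PerMean
import Pool.Agent.Lib.GMV.VarM
import Pool.Agent.Lib.GMV.MainT

/-!
# SPP.MainS: the sum of the model over `n - m²` (1.5 h)

PROOF. By definition `LL X Q Y k = ∑_{x ∈ Ch Q} ∑_{S ∈ Sm Y (md x)} rho x conj(cv x k) ∏_{p ∈ S} wp p k · Mc X Q x k`. Fix `x`, `S`, put `r = md x`,
`f m = conj (cv x (sq r n m)) * ∏_{p ∈ S} wp p (sq p n m)`. For `m² ≤ n` we have `sq P n m = n + (P-1) m² ≡ n - m² (mod P)`, so `f m` is the corresponding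
factor at `k = n - m²` (`cv` depends on `k` mod `r`, `wp p` on `k` mod `p`). `f` has period `P = r ∏ S ≤ Q Y`, `‖f‖ ≤ 1` (`|wp| ≤ 1`), and by `av_prod` and `av_wp_sq`
`av P f = aX x n ∏_{p ∈ S} gp p n`. `per_mean` with `g m = Mc X Q x (n - m^2)` (natural subtraction), `G = b x`, `y = M₂` and `y = M₁`:
the variation over `m < y` (`y² ≤ n`) is at most `∑_k ‖Mc (k+1) - Mc k‖ ≤ 40 Q^5` (`var_cn`), since the intervals `[n - (m+1)², n - m²)` are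
disjoint. Difference of the two (`Ioc M₁ M₂ = Icc 1 M₂ \ Icc 1 M₁`): error `4 Q Y (b x + 40 Q^5)` for each `(x, S)`; `rho x ≤ r ≤ Q`, at most `Y` sets `S`
(`GMV.MainTAux.card_Sm` or similar in MainT), `∑ b ≤ B`, `|Ch Q| ≤ Q²` (`card_Ch`). Total `Q · Y · 4 Q Y (B + Q² 40 Q^5)`.
-/

set_option autoImplicit false

open Finset Filter

namespace Pool.Agent.Lib.SPP

open Pool.Agent.HLB Pool.Agent.HLT Pool.Agent.HLR Pool.Agent.Lib.GMV

namespace MainSAux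

open SqAux

/-- The total variation along `n - m²`. -/
lemma var_sq (h : ℕ → ℂ) (n y : ℕ) (hy : y ^ 2 ≤ n) :
    ∑ m ∈ range y, ‖h (n - (m + 1) ^ 2) - h (n - m ^ 2)‖ ≤
      ∑ k ∈ Ico (n - y ^ 2) n, ‖h (k + 1) - h k‖ := by
  induction y with
  | zero => simp
  | succ y ih =>
    have hy2 : y ^ 2 ≤ (y + 1) ^ 2 := Nat.pow_le_pow_left (by omega) 2
    rw [Finset.sum_range_succ]
    have h1 := ih (hy2.trans hy)
    have h2 : ‖h (n - (y + 1) ^ 2) - h (n - y ^ 2)‖ ≤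
        ∑ k ∈ Ico (n - (y + 1) ^ 2) (n - y ^ 2), ‖h (k + 1) - h k‖ := by
      have h3 := dist_le_Ico_sum_dist h (show n - (y + 1) ^ 2 ≤ n - y ^ 2 by omega)
      rw [dist_eq_norm] at h3
      refine h3.trans (le_of_eq ?_)
      refine Finset.sum_congr rfl fun k _ => ?_
      rw [dist_eq_norm, norm_sub_rev]
    have h4 := Finset.sum_Ico_consecutive (fun k => ‖h (k + 1) - h k‖)
      (show n - (y + 1) ^ 2 ≤ n - y ^ 2 by omega) (show n - y ^ 2 ≤ n by omega)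
    rw [← h4]
    linarith

/-- One character and one set of primes. -/
lemma one_term (X Q Y : ℕ) (hQ : 2 ≤ Q) (hX : Q ^ 5 ≤ X) (n M₁ M₂ : ℕ) (hn : n ≤ X)
    (hM : M₁ ≤ M₂) (hM2 : M₂ ^ 2 ≤ n) (x : CI) (hx : md x ≤ Q) (b : ℝ) (hb : ∀ n, ‖Mc X Q x n‖ ≤ b)
    (S : Finset ℕ) (hS : S ∈ Sm Y (md x)) :
    ‖∑ m ∈ Ioc M₁ M₂, ((starRingEnd ℂ) (cv x (n - m ^ 2)) * ((∏ p ∈ S, wp p (n - m ^ 2) : ℝ) : ℂ)) *
        Mc X Q x (n - m ^ 2) -
      (aX x n * ((∏ p ∈ S, gp p n : ℝ) : ℂ)) * ∑ m ∈ Ioc M₁ M₂, Mc X Q x (n - m ^ 2)‖ ≤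
      4 * ((Q : ℝ) * Y) * (b + 40 * (Q : ℝ) ^ 5) := by
  classical
  set r := md x with hr
  have hr0 : 1 ≤ r := md_pos x
  unfold Sm at hS
  rw [mem_filter, mem_powerset] at hS
  obtain ⟨hS1, hS2⟩ := hS
  have hSp : ∀ p ∈ S, p.Prime := fun p hp => by
    have := hS1 hp
    rw [mem_filter, Nat.mem_primesLE] at this
    exact this.1.2
  have hSr : ∀ p ∈ S, ¬ p ∣ r := fun p hp => by
    have := hS1 hp
    rw [mem_filter] at this
    exact this.2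
  set P := r * ∏ p ∈ S, p with hP
  have hrad0 : 1 ≤ ∏ p ∈ S, p := Finset.prod_pos fun p hp => (hSp p hp).pos
  have hP0 : 1 ≤ P := Nat.mul_pos hr0 hrad0
  have hPle : (P : ℝ) ≤ (Q : ℝ) * Y := by
    rw [hP]
    exact_mod_cast Nat.mul_le_mul hx hS2
  set f : ℕ → ℂ := fun m => (starRingEnd ℂ) (cv x (sq r n m)) * ∏ p ∈ S, ((wp p (sq p n m) : ℝ) : ℂ)
    with hf
  set g : ℕ → ℂ := fun m => Mc X Q x (n - m ^ 2) with hg
  have hfper : ∀ m, f (m + P) = f m := by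
    intro m
    simp only [hf]
    congr 1
    · rw [RealSplitAux.cv_congr x (sq_congr hr0 hr0 dvd_rfl n (show m + P ≡ m [MOD r] from ?_))]
      unfold Nat.ModEq
      rw [hP, Nat.add_mul_mod_self_left]
    · refine prod_congr rfl fun p hp => ?_
      rw [wp_congr (sq_congr (hSp p hp).one_lt.le (hSp p hp).one_lt.le dvd_rfl n
        (show m + P ≡ m [MOD p] from ?_))]
      obtain ⟨c, hc⟩ := Finset.dvd_prod_of_mem (fun p => p) hp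
      have hc' : ∏ p ∈ S, p = p * c := hc
      unfold Nat.ModEq
      rw [hP, hc', show m + r * (p * c) = m + p * (r * c) by ring, Nat.add_mul_mod_self_left]
  have hfn : ∀ m, ‖f m‖ ≤ 1 := by
    intro m
    simp only [hf]
    rw [norm_mul, RCLike.norm_conj, norm_prod]
    refine mul_le_one₀ (norm_cv_le _ _) (prod_nonneg fun _ _ => norm_nonneg _) ?_
    refine prod_le_one (fun _ _ => norm_nonneg _) fun p hp => ?_
    rw [Complex.norm_real]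
    exact abs_wp_le (hSp p hp) _
  have hav : av P f = aX x n * ((∏ p ∈ S, gp p n : ℝ) : ℂ) := by
    have h1 := av_prod S hSp r hr0
      (fun p hp => ((Nat.Prime.coprime_iff_not_dvd (hSp p hp)).2 (hSr p hp)).symm)
      (fun m => (starRingEnd ℂ) (cv x (sq r n m)))
      (fun m => by rw [hr, cv_sq_periodic]) (fun p m => ((wp p (sq p n m) : ℝ) : ℂ))
      (fun p hp m => by rw [wp_sq_periodic (hSp p hp).one_lt.le])
    rw [← hP] at h1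
    have h2 : av P f = av P (fun m => (starRingEnd ℂ) (cv x (sq r n m)) *
      ∏ p ∈ S, ((wp p (sq p n m) : ℝ) : ℂ)) := rfl
    rw [h2, h1]
    unfold aX
    rw [← hr]
    congr 1
    push_cast
    refine prod_congr rfl fun p hp => ?_
    exact av_wp_sq (hSp p hp) n
  have key : ∀ y, y ≤ M₂ → ‖∑ m ∈ Icc 1 y, f m * g m - av P f * ∑ m ∈ Icc 1 y, g m‖ ≤
      2 * P * 1 * (b + 40 * (Q : ℝ) ^ 5) := by
    intro y hy
    refine per_mean P hP0 f g 1 b _ hfper hfn y (fun m => hb _) ?_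
    have hy2 : y ^ 2 ≤ n := (Nat.pow_le_pow_left hy 2).trans hM2
    refine (var_sq (Mc X Q x) n y hy2).trans ?_
    refine le_trans ?_ (var_cn X Q hQ hX (cv x) (norm_cv_le x))
    refine Finset.sum_le_sum_of_subset_of_nonneg (fun k hk => ?_) (fun _ _ _ => norm_nonneg _)
    rw [mem_Ico] at hk
    rw [mem_range]
    omega
  have hsplit : ∀ F : ℕ → ℂ, ∑ m ∈ Ioc M₁ M₂, F m = ∑ m ∈ Icc 1 M₂, F m - ∑ m ∈ Icc 1 M₁, F m := by
    intro F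
    have h1 : Icc 1 M₂ = Icc 1 M₁ ∪ Ioc M₁ M₂ := by
      ext a
      simp only [mem_Icc, mem_union, mem_Ioc]
      omega
    have h2 : Disjoint (Icc 1 M₁) (Ioc M₁ M₂) := by
      rw [Finset.disjoint_left]
      intro a ha hb
      rw [mem_Icc] at ha
      rw [mem_Ioc] at hb
      omega
    rw [h1, Finset.sum_union h2]
    ring
  have hterm : ∑ m ∈ Ioc M₁ M₂, ((starRingEnd ℂ) (cv x (n - m ^ 2)) *
      ((∏ p ∈ S, wp p (n - m ^ 2) : ℝ) : ℂ)) * Mc X Q x (n - m ^ 2) = ∑ m ∈ Ioc M₁ M₂, f m * g m := by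
    refine sum_congr rfl fun m hm => ?_
    rw [mem_Ioc] at hm
    have hm2 : m ^ 2 ≤ n := (Nat.pow_le_pow_left hm.2 2).trans hM2
    simp only [hf, hg]
    congr 2
    · rw [RealSplitAux.cv_congr x (sq_sub hr0 (dvd_refl r) hm2)]
    · push_cast
      refine prod_congr rfl fun p hp => ?_
      rw [wp_congr (sq_sub (hSp p hp).one_lt.le (dvd_refl p) hm2)]
  rw [hterm, ← hav, hsplit, hsplit]
  have k2 := key M₂ le_rfl
  have k1 := key M₁ hM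
  have e : ∑ m ∈ Icc 1 M₂, f m * g m - ∑ m ∈ Icc 1 M₁, f m * g m -
      av P f * (∑ m ∈ Icc 1 M₂, Mc X Q x (n - m ^ 2) - ∑ m ∈ Icc 1 M₁, Mc X Q x (n - m ^ 2)) =
      (∑ m ∈ Icc 1 M₂, f m * g m - av P f * ∑ m ∈ Icc 1 M₂, g m) -
      (∑ m ∈ Icc 1 M₁, f m * g m - av P f * ∑ m ∈ Icc 1 M₁, g m) := by
    simp only [hg]
    ring
  rw [e]
  have hb0 : 0 ≤ b := (norm_nonneg _).trans (hb 0)
  have h5 : 0 ≤ b + 40 * (Q : ℝ) ^ 5 := by positivity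
  calc _ ≤ 2 * P * 1 * (b + 40 * (Q : ℝ) ^ 5) + 2 * P * 1 * (b + 40 * (Q : ℝ) ^ 5) :=
        (norm_sub_le _ _).trans (add_le_add k2 k1)
    _ = 4 * P * (b + 40 * (Q : ℝ) ^ 5) := by ring
    _ ≤ 4 * ((Q : ℝ) * Y) * (b + 40 * (Q : ℝ) ^ 5) := by
        refine mul_le_mul_of_nonneg_right ?_ h5
        linarith

end MainSAux

open MainSAux in
theorem main_sum (X Q Y : ℕ) (hQ : 2 ≤ Q) (hX : Q ^ 5 ≤ X) (hY : 1 ≤ Y) (b : CI → ℝ) (B : ℝ)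
    (hb : ∀ x ∈ Ch Q, ∀ n, ‖Mc X Q x n‖ ≤ b x) (hB : ∑ x ∈ Ch Q, b x ≤ B) (n M₁ M₂ : ℕ) (hn : n ≤ X)
    (hM : M₁ ≤ M₂) (hM2 : M₂ ^ 2 ≤ n) :
    ‖∑ m ∈ Ioc M₁ M₂, LL X Q Y (n - m ^ 2) -
      ∑ x ∈ Ch Q, (((rho x : ℂ) * aX x n) * (DG Y (md x) n : ℂ)) * ∑ m ∈ Ioc M₁ M₂, Mc X Q x (n - m ^ 2)‖ ≤
      4 * (Q : ℝ) ^ 2 * (Y : ℝ) ^ 2 * (B + 40 * (Q : ℝ) ^ 7) := by
  classical
  have h1 : ∑ m ∈ Ioc M₁ M₂, LL X Q Y (n - m ^ 2) = ∑ x ∈ Ch Q, ∑ S ∈ Sm Y (md x), (rho x : ℂ) *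
      ∑ m ∈ Ioc M₁ M₂, ((starRingEnd ℂ) (cv x (n - m ^ 2)) * ((∏ p ∈ S, wp p (n - m ^ 2) : ℝ) : ℂ)) *
        Mc X Q x (n - m ^ 2) := by
    unfold LL
    rw [Finset.sum_comm]
    refine sum_congr rfl fun x _ => ?_
    simp only [Finset.mul_sum]
    rw [Finset.sum_comm]
    refine sum_congr rfl fun m _ => ?_
    unfold DD
    rw [Complex.ofReal_sum, Finset.mul_sum]
    refine sum_congr rfl fun S _ => ?_
    ring
  have h2 : ∑ x ∈ Ch Q, (((rho x : ℂ) * aX x n) * (DG Y (md x) n : ℂ)) *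
      ∑ m ∈ Ioc M₁ M₂, Mc X Q x (n - m ^ 2) = ∑ x ∈ Ch Q, ∑ S ∈ Sm Y (md x), (rho x : ℂ) *
      ((aX x n * ((∏ p ∈ S, gp p n : ℝ) : ℂ)) * ∑ m ∈ Ioc M₁ M₂, Mc X Q x (n - m ^ 2)) := by
    refine sum_congr rfl fun x _ => ?_
    unfold DG
    generalize ∑ m ∈ Ioc M₁ M₂, Mc X Q x (n - m ^ 2) = G
    rw [Complex.ofReal_sum, Finset.mul_sum, Finset.sum_mul]
    refine sum_congr rfl fun S _ => ?_
    ring
  rw [h1, h2, ← Finset.sum_sub_distrib]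
  have hQ0 : (0 : ℝ) ≤ Q := Nat.cast_nonneg _
  have hY0 : (0 : ℝ) ≤ Y := Nat.cast_nonneg _
  have hrho : ∀ x ∈ Ch Q, 0 ≤ rho x ∧ rho x ≤ Q := by
    intro x hx
    have h3 := (mem_Ch.1 hx).1
    have h4 := md_pos x
    have h5 : (1 : ℝ) ≤ (md x).totient := by exact_mod_cast Nat.totient_pos.2 h4
    unfold rho
    refine ⟨by positivity, ?_⟩
    rw [div_le_iff₀ (by linarith)]
    have h6 : (md x : ℝ) ≤ Q := by exact_mod_cast h3
    nlinarith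
  calc _ ≤ ∑ x ∈ Ch Q, ‖∑ S ∈ Sm Y (md x), (rho x : ℂ) *
      ∑ m ∈ Ioc M₁ M₂, ((starRingEnd ℂ) (cv x (n - m ^ 2)) * ((∏ p ∈ S, wp p (n - m ^ 2) : ℝ) : ℂ)) *
        Mc X Q x (n - m ^ 2) - ∑ S ∈ Sm Y (md x), (rho x : ℂ) *
      ((aX x n * ((∏ p ∈ S, gp p n : ℝ) : ℂ)) * ∑ m ∈ Ioc M₁ M₂, Mc X Q x (n - m ^ 2))‖ :=
        norm_sum_le _ _
    _ ≤ ∑ x ∈ Ch Q, (Y * (Q * (4 * ((Q : ℝ) * Y) * (b x + 40 * (Q : ℝ) ^ 5)))) := by
        refine sum_le_sum fun x hx => ?_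
        have hb0 : 0 ≤ b x := (norm_nonneg _).trans (hb x hx 0)
        rw [← Finset.sum_sub_distrib]
        refine (norm_sum_le _ _).trans ?_
        have h3 : ∀ S ∈ Sm Y (md x), ‖(rho x : ℂ) *
            ∑ m ∈ Ioc M₁ M₂, ((starRingEnd ℂ) (cv x (n - m ^ 2)) *
              ((∏ p ∈ S, wp p (n - m ^ 2) : ℝ) : ℂ)) * Mc X Q x (n - m ^ 2) - (rho x : ℂ) *
            ((aX x n * ((∏ p ∈ S, gp p n : ℝ) : ℂ)) * ∑ m ∈ Ioc M₁ M₂, Mc X Q x (n - m ^ 2))‖ ≤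
            Q * (4 * ((Q : ℝ) * Y) * (b x + 40 * (Q : ℝ) ^ 5)) := by
          intro S hS
          rw [← mul_sub, norm_mul, Complex.norm_real, Real.norm_of_nonneg (hrho x hx).1]
          exact mul_le_mul (hrho x hx).2
            (one_term X Q Y hQ hX n M₁ M₂ hn hM hM2 x (mem_Ch.1 hx).1 (b x) (hb x hx) S hS)
            (norm_nonneg _) hQ0
        refine (Finset.sum_le_card_nsmul _ _ _ h3).trans ?_
        rw [nsmul_eq_mul]
        refine mul_le_mul_of_nonneg_right ?_ (by positivity)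
        exact_mod_cast MainTAux.card_Sm Y (md x)
    _ = 4 * (Q : ℝ) ^ 2 * (Y : ℝ) ^ 2 * (∑ x ∈ Ch Q, b x + ((Ch Q).card : ℝ) * (40 * (Q : ℝ) ^ 5)) := by
        rw [← Finset.mul_sum, ← Finset.mul_sum, ← Finset.mul_sum, Finset.sum_add_distrib,
          Finset.sum_const, nsmul_eq_mul]
        ring
    _ ≤ 4 * (Q : ℝ) ^ 2 * (Y : ℝ) ^ 2 * (B + 40 * (Q : ℝ) ^ 7) := by
        refine mul_le_mul_of_nonneg_left ?_ (by positivity)
        have h4 : ((Ch Q).card : ℝ) ≤ (Q : ℝ) ^ 2 := by exact_mod_cast MainTAux.card_Ch Q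
        have h5 : ((Ch Q).card : ℝ) * (40 * (Q : ℝ) ^ 5) ≤ (Q : ℝ) ^ 2 * (40 * (Q : ℝ) ^ 5) :=
          mul_le_mul_of_nonneg_right h4 (by positivity)
        have h6 : (Q : ℝ) ^ 2 * (40 * (Q : ℝ) ^ 5) = 40 * (Q : ℝ) ^ 7 := by ring
        linarith

end Pool.Agent.Lib.SPP
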