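import Pool.Agent.Lib.SPP.Cheb

/-!
# SPP.Rgh: all truncated rough sums are small for almost all `n` (1 h)

PROOF. `z = zA B1 X`, `z ≤ X`-small. For `1 ≤ r ≤ Y`, `j ≥ 0` with `2^j z ≤ Y` and `2^j z < u ≤ 2^(j+1) z`, `u ≤ Y`, let `SS(r,j,u)` be the sets `S` of primes in `(z, Y]`
not dividing `r` with `2^j z < ∏ S ≤ u`. `cheb` with `T = 2^j z` (`T^100 ≤ Y^100 ≤ X`) bounds the number of `n ≤ X` with `|∑_{SS}| > T^(-1/16)` by `X^(1 - 1/50)`. There are at most
`Y · (Y+1) · (Y+1) ≤ 4 Y^3 ≤ X^(1/110)` such triples (`j ≤ 2^j z ≤ Y`). Let `F` be the union, `|F| ≤ X^(1 - 1/100)`. For `n ∉ F`, `r`, `t ≤ Y`: if `t ≤ z` then `RS z Y r t` is empty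
(nonempty sets of primes `> z` have product `> z`); otherwise `RS z Y r t` is the disjoint union of the sets with `∏ S ∈ (2^j z, min(2^(j+1) z, t)]`, `2^j z < t`, and
`∑_j (2^j z)^(-1/16) ≤ z^(-1/16) / (1 - 2^(-1/16)) ≤ 30 z^(-1/16)` (`2^(-1/16) ≤ 1 - 1/30`, i.e. `(29/30)^16 ≥ 1/2`: true, `(29/30)^16 = 0.58`).
-/

set_option autoImplicit false

open Finset Filter

namespace Pool.Agent.Lib.SPP

open Pool.Agent.HLB Pool.Agent.HLT Pool.Agent.HLR Pool.Agent.Lib.GMV

namespace RghAux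

/-- The primes in `(z, Y]` not dividing `r`. -/
private noncomputable def rPP (z Y r : ℕ) : Finset ℕ :=
  (Nat.primesLE Y).filter fun p => z < p ∧ ¬ p ∣ r

/-- The sets with product in `(T, u]`. -/
private noncomputable def rDD (z Y r T u : ℕ) : Finset (Finset ℕ) :=
  ((rPP z Y r).powerset).filter fun S => T < ∏ p ∈ S, p ∧ ∏ p ∈ S, p ≤ u

/-- The bad `n` of one dyadic range. -/
private noncomputable def rBB (X z Y r T u : ℕ) : Finset ℕ :=
  (Icc 1 X).filter fun n => (T : ℝ) ^ (-(1 / 16 : ℝ)) < |∑ S ∈ rDD z Y r T u, ∏ p ∈ S, gp p n|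

private lemma pp_prime {z Y r p : ℕ} (h : p ∈ rPP z Y r) : p.Prime ∧ z < p := by
  unfold rPP at h
  rw [Finset.mem_filter, Nat.primesLE_eq_filter_range, Finset.mem_filter] at h
  exact ⟨h.1.2, h.2.1⟩

private lemma lt_prod {z Y r : ℕ} {S : Finset ℕ} (hS : S ⊆ rPP z Y r) (hne : S.Nonempty) :
    z < ∏ p ∈ S, p := by
  obtain ⟨q, hq⟩ := hne
  have h1 := pp_prime (hS hq)
  refine lt_of_lt_of_le h1.2 ?_
  exact Finset.single_le_prod' (f := fun p : ℕ => p) (fun p hp => (pp_prime (hS hp)).1.one_lt.le) hq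

private lemma rpow_le (J z : ℕ) :
    ((2 ^ J * z : ℕ) : ℝ) ^ (-(1 / 16 : ℝ)) ≤ (29 / 30 : ℝ) ^ J * (z : ℝ) ^ (-(1 / 16 : ℝ)) := by
  have h1 : (2 : ℝ) ^ (-(1 / 16 : ℝ)) ≤ 29 / 30 := by
    have h2 : ((2 : ℝ) ^ (-(1 / 16 : ℝ))) ^ 16 ≤ (29 / 30 : ℝ) ^ 16 := by
      rw [← Real.rpow_natCast, ← Real.rpow_mul (by norm_num)]
      norm_num
    exact le_of_pow_le_pow_left₀ (by norm_num) (by norm_num) h2
  have h3 : ((2 ^ J * z : ℕ) : ℝ) = (2 : ℝ) ^ J * (z : ℝ) := by push_cast; ring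
  rw [h3, Real.mul_rpow (by positivity) (Nat.cast_nonneg _)]
  refine mul_le_mul_of_nonneg_right ?_ (by positivity)
  rw [← Real.rpow_natCast, ← Real.rpow_mul (by norm_num), mul_comm, Real.rpow_mul (by norm_num), Real.rpow_natCast]
  exact pow_le_pow_left₀ (by positivity) h1 J

end RghAux

open RghAux in
theorem rgh (B1 : ℕ) (hB1 : 8 ≤ B1) : ∀ᶠ X : ℕ in atTop, ∀ Y : ℕ, Y ^ 400 ≤ X →
    ∃ F ⊆ Icc 1 X, (F.card : ℝ) ≤ (X : ℝ) ^ (1 - 1 / 100 : ℝ) ∧ ∀ n ∈ Icc 1 X, n ∉ F →
      Good (zA B1 X) Y n (30 * (zA B1 X : ℝ) ^ (-(1 / 16 : ℝ))) := by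
  have hL : ∀ᶠ X : ℕ in atTop, (2 : ℝ) ≤ Real.log X :=
    (Real.tendsto_log_atTop.comp tendsto_natCast_atTop_atTop).eventually_ge_atTop 2
  filter_upwards [cheb B1 hB1, hL, Filter.eventually_ge_atTop (4 ^ 400)] with X hch hX hX4 Y hY
  obtain ⟨z, hz⟩ : ∃ z : ℕ, z = zA B1 X := ⟨_, rfl⟩
  have hz1 : 1 ≤ z := by
    rw [hz]
    unfold zA
    apply Nat.le_floor
    rw [Nat.cast_one]
    exact one_le_pow₀ (by linarith)
  rw [← hz] at hch ⊢
  have hXpos : 0 < X := lt_of_lt_of_le (by positivity) hX4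
  have hXr : (0 : ℝ) < X := by exact_mod_cast hXpos
  have hX1 : (1 : ℝ) ≤ X := by exact_mod_cast hXpos
  -- the index set
  let I : Finset (ℕ × ℕ × ℕ) := (Icc 1 Y ×ˢ range (Y + 1) ×ˢ range (Y + 1)).filter
    fun q => 2 ^ q.2.1 * z ≤ Y ∧ q.2.2 ≤ 2 * (2 ^ q.2.1 * z)
  refine ⟨I.biUnion fun q => rBB X z Y q.1 (2 ^ q.2.1 * z) q.2.2, ?_, ?_, ?_⟩
  · intro n hn
    rw [Finset.mem_biUnion] at hn
    obtain ⟨q, _, hq⟩ := hn
    unfold rBB at hq
    exact (Finset.mem_filter.1 hq).1
  · have h1 : ∀ q ∈ I, ((rBB X z Y q.1 (2 ^ q.2.1 * z) q.2.2).card : ℝ) ≤ (X : ℝ) ^ (1 - 1 / 50 : ℝ) := by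
      intro q hq
      obtain ⟨_, hq1, hq2⟩ := Finset.mem_filter.1 hq
      refine hch (2 ^ q.2.1 * z) ?_ ?_ (rPP z Y q.1) (fun p hp => pp_prime hp) _ ?_
      · exact Nat.le_mul_of_pos_left z (by positivity)
      · have hYpos : 0 < Y := lt_of_lt_of_le (Nat.mul_pos (by positivity) hz1) hq1
        refine (Nat.pow_le_pow_left hq1 100).trans ((Nat.pow_le_pow_right hYpos (by norm_num)).trans hY)
      · intro S hS
        unfold rDD at hS
        rw [Finset.mem_filter, Finset.mem_powerset] at hS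
        exact ⟨hS.1, hS.2.1, hS.2.2.trans hq2⟩
    have h2 : (((I.biUnion fun q => rBB X z Y q.1 (2 ^ q.2.1 * z) q.2.2).card : ℕ) : ℝ) ≤
        (I.card : ℝ) * (X : ℝ) ^ (1 - 1 / 50 : ℝ) := by
      have h20 : (I.biUnion fun q => rBB X z Y q.1 (2 ^ q.2.1 * z) q.2.2).card ≤
          ∑ q ∈ I, (rBB X z Y q.1 (2 ^ q.2.1 * z) q.2.2).card := Finset.card_biUnion_le
      have h21 : (((I.biUnion fun q => rBB X z Y q.1 (2 ^ q.2.1 * z) q.2.2).card : ℕ) : ℝ) ≤
          ∑ q ∈ I, ((rBB X z Y q.1 (2 ^ q.2.1 * z) q.2.2).card : ℝ) := by exact_mod_cast h20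
      refine h21.trans ?_
      refine (Finset.sum_le_sum h1).trans ?_
      rw [Finset.sum_const, nsmul_eq_mul]
    have h3 : (I.card : ℝ) ≤ (X : ℝ) ^ (1 / 100 : ℝ) := by
      have h4 : I.card ≤ 4 * Y ^ 3 := by
        refine (Finset.card_filter_le _ _).trans ?_
        rw [Finset.card_product, Finset.card_product, Finset.card_range, Nat.card_Icc, Nat.add_sub_cancel]
        rcases Nat.eq_zero_or_pos Y with h | h
        · rw [h]
          norm_num
        · have h5 : Y + 1 ≤ 2 * Y := by omega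
          calc Y * ((Y + 1) * (Y + 1)) ≤ Y * ((2 * Y) * (2 * Y)) :=
                Nat.mul_le_mul_left _ (Nat.mul_le_mul h5 h5)
            _ = 4 * Y ^ 3 := by ring
      have h5 : (Y : ℝ) ≤ (X : ℝ) ^ (1 / 400 : ℝ) := by
        have h6 : ((Y : ℝ) ^ 400) ^ (1 / 400 : ℝ) ≤ (X : ℝ) ^ (1 / 400 : ℝ) :=
          Real.rpow_le_rpow (by positivity) (by exact_mod_cast hY) (by norm_num)
        rw [← Real.rpow_natCast, ← Real.rpow_mul (Nat.cast_nonneg _)] at h6
        norm_num at h6
        norm_num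
        exact h6
      have h7 : (4 : ℝ) ≤ (X : ℝ) ^ (1 / 400 : ℝ) := by
        have h6 : (((4 : ℝ)) ^ 400) ^ (1 / 400 : ℝ) ≤ (X : ℝ) ^ (1 / 400 : ℝ) :=
          Real.rpow_le_rpow (by positivity) (by exact_mod_cast hX4) (by norm_num)
        rw [← Real.rpow_natCast, ← Real.rpow_mul (by norm_num)] at h6
        norm_num at h6
        norm_num
        exact h6
      have h8 : (I.card : ℝ) ≤ 4 * (Y : ℝ) ^ 3 := by exact_mod_cast h4
      refine h8.trans ?_
      have h9 : (4 : ℝ) * (Y : ℝ) ^ 3 ≤ (X : ℝ) ^ (1 / 400 : ℝ) * ((X : ℝ) ^ (1 / 400 : ℝ)) ^ 3 :=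
        mul_le_mul h7 (pow_le_pow_left₀ (Nat.cast_nonneg _) h5 3) (by positivity) (by positivity)
      refine h9.trans (le_of_eq ?_)
      rw [← pow_succ', ← Real.rpow_natCast, ← Real.rpow_mul hXr.le]
      norm_num
    refine h2.trans ((mul_le_mul_of_nonneg_right h3 (by positivity)).trans (le_of_eq ?_))
    rw [← Real.rpow_add hXr]
    norm_num
  · intro n hn hnF r t hr hrY ht
    -- the partial sums
    let AA : ℕ → Finset (Finset ℕ) := fun J =>
      ((rPP z Y r).powerset).filter fun S => S.Nonempty ∧ ∏ p ∈ S, p ≤ t ∧ ∏ p ∈ S, p ≤ 2 ^ J * z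
    have hA : ∀ J : ℕ, |∑ S ∈ AA J, ∏ p ∈ S, gp p n| ≤
        30 * (1 - (29 / 30 : ℝ) ^ J) * (z : ℝ) ^ (-(1 / 16 : ℝ)) := by
      intro J
      induction J with
      | zero =>
        have h1 : AA 0 = ∅ := by
          rw [Finset.eq_empty_iff_forall_notMem]
          intro S hS
          obtain ⟨h1, h2, _, h3⟩ := Finset.mem_filter.1 hS
          have := lt_prod (Finset.mem_powerset.1 h1) h2
          rw [pow_zero, one_mul] at h3
          omega
        rw [h1, Finset.sum_empty, abs_zero]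
        norm_num
      | succ J ih =>
        have hzp : (0 : ℝ) ≤ (z : ℝ) ^ (-(1 / 16 : ℝ)) := by positivity
        have hstep : 30 * (1 - (29 / 30 : ℝ) ^ (J + 1)) * (z : ℝ) ^ (-(1 / 16 : ℝ)) =
            30 * (1 - (29 / 30 : ℝ) ^ J) * (z : ℝ) ^ (-(1 / 16 : ℝ)) +
              (29 / 30 : ℝ) ^ J * (z : ℝ) ^ (-(1 / 16 : ℝ)) := by
          rw [pow_succ]
          ring
        by_cases htJ : t ≤ 2 ^ J * z
        · have h1 : AA (J + 1) = AA J := by
            ext S
            simp only [AA, Finset.mem_filter]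
            have h2 : 2 ^ J * z ≤ 2 ^ (J + 1) * z := Nat.mul_le_mul_right _ (Nat.pow_le_pow_right (by norm_num) (by omega))
            constructor
            · rintro ⟨a, b, c, _⟩
              exact ⟨a, b, c, c.trans htJ⟩
            · rintro ⟨a, b, c, d⟩
              exact ⟨a, b, c, d.trans h2⟩
          rw [h1, hstep]
          have h3 : 0 ≤ (29 / 30 : ℝ) ^ J * (z : ℝ) ^ (-(1 / 16 : ℝ)) := by positivity
          linarith
        · push Not at htJ
          obtain ⟨T, hT⟩ : ∃ T : ℕ, T = 2 ^ J * z := ⟨_, rfl⟩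
          have hT1 : 1 ≤ T := by
            rw [hT]
            exact Nat.mul_pos (by positivity) hz1
          have h2T : 2 ^ (J + 1) * z = 2 * T := by
            rw [hT, pow_succ]
            ring
          have h1 : AA (J + 1) = AA J ∪ rDD z Y r T (min (2 * T) t) := by
            ext S
            simp only [AA, rDD, Finset.mem_union, Finset.mem_filter]
            rw [h2T, ← hT]
            constructor
            · rintro ⟨a, b, c, d⟩
              by_cases h : ∏ p ∈ S, p ≤ T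
              · exact Or.inl ⟨a, b, c, h⟩
              · exact Or.inr ⟨a, by omega, le_min d c⟩
            · rintro (⟨a, b, c, d⟩ | ⟨a, b, c⟩)
              · exact ⟨a, b, c, by omega⟩
              · refine ⟨a, ?_, c.trans (min_le_right _ _), c.trans (min_le_left _ _)⟩
                rw [Finset.nonempty_iff_ne_empty]
                rintro rfl
                rw [Finset.prod_empty] at b
                omega
          have h2 : Disjoint (AA J) (rDD z Y r T (min (2 * T) t)) := by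
            rw [Finset.disjoint_left]
            intro S hS hS'
            simp only [AA, Finset.mem_filter] at hS
            simp only [rDD, Finset.mem_filter] at hS'
            rw [← hT] at hS
            omega
          rw [h1, Finset.sum_union h2, hstep]
          have h3 : |∑ S ∈ rDD z Y r T (min (2 * T) t), ∏ p ∈ S, gp p n| ≤
              (29 / 30 : ℝ) ^ J * (z : ℝ) ^ (-(1 / 16 : ℝ)) := by
            refine le_trans ?_ (rpow_le J z)
            rw [← hT]
            by_contra hcon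
            push Not at hcon
            apply hnF
            rw [Finset.mem_biUnion]
            refine ⟨(r, J, min (2 * T) t), ?_, ?_⟩
            · simp only [I, Finset.mem_filter, Finset.mem_product, Finset.mem_Icc, Finset.mem_range]
              rw [← hT] at htJ ⊢
              have hJT : J < 2 ^ J := Nat.lt_two_pow_self
              have hJT' : 2 ^ J ≤ T := by
                rw [hT]
                exact Nat.le_mul_of_pos_right _ hz1
              refine ⟨⟨⟨hr, hrY⟩, by omega, ?_⟩, by omega, min_le_left _ _⟩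
              have := min_le_right (2 * T) t
              omega
            · unfold rBB
              rw [Finset.mem_filter, ← hT]
              exact ⟨hn, hcon⟩
          refine (abs_add_le _ _).trans ?_
          linarith
    have hfin : RS z Y r t = AA Y := by
      ext S
      simp only [RS, AA, rPP, Finset.mem_filter]
      constructor
      · rintro ⟨a, b, c⟩
        refine ⟨a, b, c, c.trans (ht.trans ?_)⟩
        have h1 : Y < 2 ^ Y := Nat.lt_two_pow_self
        have h2 : 2 ^ Y ≤ 2 ^ Y * z := Nat.le_mul_of_pos_right _ hz1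
        omega
      · rintro ⟨a, b, c, _⟩
        exact ⟨a, b, c⟩
    rw [hfin]
    refine (hA Y).trans ?_
    refine mul_le_mul_of_nonneg_right ?_ (by positivity)
    have : (0 : ℝ) ≤ (29 / 30 : ℝ) ^ Y := by positivity
    linarith

end Pool.Agent.Lib.SPP
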