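import Pool.Agent.Lib.SPP.Dom
import Pool.Agent.Lib.SPP.SqAux
import Pool.Agent.Lib.GMV.RealSplit
import Pool.Agent.Lib.GMV.ExcB
import Pool.Agent.Lib.P83e.Loc
import Mathlib.NumberTheory.JacobiSum.Basic

/-!
# SPP.ExcL: the local factor of a real character (1.5 h)

PROOF. `q = md x`. If `n = 0` then `Gs q n = 1` (`gcd(q, 0) = q`) and `dom` suffices. Let `n ≥ 1`, `G` = the odd primes `p ∣ q` with `p ∤ n`. `real_split` gives `M`, `g`
with `q = M ∏ G`, `cv x k = g k ∏_{p ∈ G} χ_p(k)` (`χ_p` the quadratic character), `g` of period `M`, `‖g‖ ≤ 1`. Moreover `g k = 0` if a prime `p ∣ M`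
divides `k`: take `k' ≡ k mod M`, `k' ≡ 1 mod p` for `p ∈ G` (CRT); then `0 = cv x k' = g k' ∏ χ_p(k') = g k`.
The mean over `m < q` of `conj cv x (sq q n m)` splits by `av_prod`: (mean of `conj g` over `m` mod `M`) times the means of `χ_p(n - m²)`,
`p ∈ G`. The first, multiplied by `∏_{p ∣ M} p/(p-1)`, is at most `∏_{p ∣ M} (1 + gp p n)` exactly as in `dom`. For `p ∈ G`: `∑_{m mod p} χ_p(n - m²) =
∑_t χ_p(n - t) (1 + χ_p(t)) = ∑_t χ_p(t) χ_p(n - t) = χ_p(n)^2 J(χ_p, χ_p) = -χ_p(-1)` (`jacobiSum_nontrivial_inv`; or substitute `t = n u`), so the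
mean has absolute value `1/p`, times `p/(p-1)`: `1/(p-1) = (1 + gp p n)/(p - 1 - (n/p)) ≤ (1 + gp p n)/(p-2)`. Hence
`‖rho x aX x n‖ ≤ gr q n ∏_{p ∈ G} 1/(p-2)`, and `1/(p-2) ≤ p^(-1/2)` for `p ≥ 5`, `1 ≤ √3 · 3^(-1/2)`: at most `gr q n √3 (∏ G)^(-1/2)`.
`q = 2^e m` with `e ≤ 3` (`real_two`), `m` odd squarefree (`real_odd`), so `q/gcd(q,n) ≤ 8 ∏ G`: at most `√24 (q/gcd(q,n))^(-1/2) gr q n`, `√24 ≤ 5`.
-/

set_option autoImplicit false

open Finset Filter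

namespace Pool.Agent.Lib.SPP

open Pool.Agent.HLB Pool.Agent.HLT Pool.Agent.HLR Pool.Agent.Lib.GMV

namespace ExcLAux

open SqAux

/-- The mean of the product. -/
lemma mean_prod (r n : ℕ) (hr0 : 1 ≤ r) :
    (∑ m ∈ range r, ∏ p ∈ r.primeFactors, (1 + wp p (sq p n m))) / r = gr r n := by
  have hP : ∀ p ∈ r.primeFactors, p.Prime := fun p hp => Nat.prime_of_mem_primeFactors hp
  set rad := ∏ p ∈ r.primeFactors, p with hrad
  have hradd : rad ∣ r := Nat.prod_primeFactors_dvd r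
  obtain ⟨m', hm'⟩ := hradd
  have hrad1 : 1 ≤ rad := Nat.pos_of_ne_zero fun h => by rw [h, zero_mul] at hm'; omega
  have hm1 : 1 ≤ m' := Nat.pos_of_ne_zero fun h => by rw [h, mul_zero] at hm'; omega
  set F : ℕ → ℂ := fun m => ∏ p ∈ r.primeFactors, ((1 + wp p (sq p n m) : ℝ) : ℂ) with hF
  have hFper : ∀ m, F (m + rad) = F m := by
    intro m
    refine prod_congr rfl fun p hp => ?_
    rw [wp_congr (sq_congr (hP p hp).one_lt.le (hP p hp).one_lt.le dvd_rfl n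
      (show m + rad ≡ m [MOD p] from ?_))]
    obtain ⟨c, hc⟩ := Finset.dvd_prod_of_mem (fun p => p) hp
    have hc' : rad = p * c := hc
    unfold Nat.ModEq
    rw [hc', Nat.add_mul_mod_self_left]
  have h3 : av r F = ∏ p ∈ r.primeFactors, ((1 + gp p n : ℝ) : ℂ) := by
    have h0 : av r F = av rad F := by
      conv_lhs => rw [hm']
      exact av_period rad m' hrad1 hm1 F hFper
    rw [h0]
    have h4 := av_prod r.primeFactors hP 1 le_rfl (fun p _ => Nat.coprime_one_left p) (fun _ => 1)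
      (fun _ => rfl) (fun p m => ((1 + wp p (sq p n m) : ℝ) : ℂ))
      (fun p hp m => by rw [wp_sq_periodic (hP p hp).one_lt.le])
    rw [one_mul] at h4
    have h5 : av rad F = av rad (fun m => 1 * ∏ p ∈ r.primeFactors, ((1 + wp p (sq p n m) : ℝ) : ℂ)) := by
      congr 1
      funext m
      rw [one_mul]
    rw [h5, h4]
    have h6 : av 1 (fun _ => (1 : ℂ)) = 1 := by
      unfold av
      simp
    rw [h6, one_mul]
    refine prod_congr rfl fun p hp => ?_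
    have hp0 : (p : ℂ) ≠ 0 := by exact_mod_cast (hP p hp).ne_zero
    have h7 : av p (fun m => ((1 + wp p (sq p n m) : ℝ) : ℂ)) =
        1 + av p (fun m => ((wp p (sq p n m) : ℝ) : ℂ)) := by
      unfold av
      push_cast
      rw [Finset.sum_add_distrib, add_div]
      congr 1
      simp [hp0]
    rw [h7, av_wp_sq (hP p hp)]
    push_cast
    ring
  have h8 : ((((∑ m ∈ range r, ∏ p ∈ r.primeFactors, (1 + wp p (sq p n m))) / r : ℝ)) : ℂ) =
      ((gr r n : ℝ) : ℂ) := by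
    have h9 : av r F = ((((∑ m ∈ range r, ∏ p ∈ r.primeFactors, (1 + wp p (sq p n m))) / r : ℝ)) : ℂ) := by
      unfold av
      simp only [hF]
      push_cast
      rfl
    rw [← h9, h3]
    unfold gr
    push_cast
    rfl
  exact_mod_cast h8

/-- The part of a character with the primes dividing `M`. -/
lemma local_M (M n : ℕ) (hM : 1 ≤ M) (g : ℕ → ℂ) (hg1 : ∀ k, ‖g k‖ ≤ 1)
    (hg0 : ∀ k p : ℕ, p.Prime → p ∣ M → p ∣ k → g k = 0) :
    (∏ p ∈ M.primeFactors, (1 - (p : ℝ)⁻¹)⁻¹) * ‖av M (fun m => (starRingEnd ℂ) (g (sq M n m)))‖ ≤ gr M n := by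
  have hP : ∀ p ∈ M.primeFactors, p.Prime := fun p hp => Nat.prime_of_mem_primeFactors hp
  have ht : ∀ p ∈ M.primeFactors, 0 ≤ (1 - (p : ℝ)⁻¹)⁻¹ := by
    intro p hp
    have hp1 : (1 : ℝ) ≤ p := by exact_mod_cast (hP p hp).one_lt.le
    have := inv_le_one_of_one_le₀ hp1
    exact inv_nonneg.2 (by linarith)
  obtain ⟨c, hc⟩ : ∃ c : ℝ, c = ∏ p ∈ M.primeFactors, (1 - (p : ℝ)⁻¹)⁻¹ := ⟨_, rfl⟩
  have hc0 : 0 ≤ c := by rw [hc]; exact prod_nonneg ht
  rw [← hc]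
  have h1 : c * ‖av M (fun m => (starRingEnd ℂ) (g (sq M n m)))‖ =
      ‖av M (fun m => (c : ℂ) * (starRingEnd ℂ) (g (sq M n m)))‖ := by
    unfold av
    rw [← Finset.mul_sum, mul_div_assoc, norm_mul, Complex.norm_real, Real.norm_of_nonneg hc0]
  rw [h1, ← mean_prod M n hM]
  refine norm_av_le M _ (fun m => ∏ p ∈ M.primeFactors, (1 + wp p (sq p n m))) (fun m => ?_)
  rw [norm_mul, RCLike.norm_conj, Complex.norm_real, Real.norm_of_nonneg hc0]
  have h2 : ∏ p ∈ M.primeFactors, (1 + wp p (sq p n m)) =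
      ∏ p ∈ M.primeFactors, (1 + wp p (sq M n m)) := by
    refine prod_congr rfl fun p hp => ?_
    rw [wp_congr (sq_congr (hP p hp).one_lt.le hM (Nat.dvd_of_mem_primeFactors hp) n (Nat.ModEq.refl m))]
  rw [h2]
  by_cases hh : ∃ p ∈ M.primeFactors, p ∣ sq M n m
  · obtain ⟨p, hp, hpd⟩ := hh
    rw [hg0 _ p (hP p hp) (Nat.dvd_of_mem_primeFactors hp) hpd, norm_zero, mul_zero]
    exact prod_nonneg fun p hp => wp_ge (hP p hp) _
  · push Not at hh
    have h3 : ∏ p ∈ M.primeFactors, (1 + wp p (sq M n m)) = c := by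
      rw [hc]
      refine prod_congr rfl fun p hp => ?_
      unfold wp
      rw [if_neg (hh p hp)]
      have hp1 : (1 : ℝ) < p := by exact_mod_cast (hP p hp).one_lt
      have h2 : (p : ℝ) - 1 ≠ 0 := by linarith
      have h3 : (p : ℝ) ≠ 0 := by linarith
      rw [show 1 - (p : ℝ)⁻¹ = ((p : ℝ) - 1) / p by field_simp, inv_div]
      field_simp
      ring
    rw [h3]
    exact mul_le_of_le_one_right hc0 (hg1 _)

/-- The mean of the quadratic character of `n - m²`. -/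
lemma char_mean {p : ℕ} (hp : p.Prime) (h2 : p ≠ 2) {n : ℕ} (hn : ¬ p ∣ n) :
    ‖av p (fun m => ExcBAux.ch p (sq p n m))‖ = 1 / p := by
  haveI := Fact.mk hp
  have hc : -((n : ℕ) : ZMod p) ≠ 0 := by
    rw [neg_ne_zero]
    intro h
    exact hn ((ZMod.natCast_eq_zero_iff n p).1 h)
  have h1 : ∀ m : ℕ, ((sq p n m : ℕ) : ZMod p) = (-1) * (-((n : ℕ) : ZMod p) + ((m : ℕ) : ZMod p) ^ 2) := by
    intro m
    unfold sq
    rw [Nat.cast_add, Nat.cast_mul, Nat.cast_sub hp.one_lt.le, ZMod.natCast_self, Nat.cast_pow]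
    push_cast
    ring
  have h3 : ∑ m ∈ range p, ((quadraticChar (ZMod p) ((sq p n m : ℕ) : ZMod p) : ℤ) : ℝ) =
      -((quadraticChar (ZMod p) (-1) : ℤ) : ℝ) := by
    have h4 : ∀ m ∈ range p, ((quadraticChar (ZMod p) ((sq p n m : ℕ) : ZMod p) : ℤ) : ℝ) =
        (fun z : ZMod p => ((quadraticChar (ZMod p) (-1) : ℤ) : ℝ) *
          ((quadraticChar (ZMod p) (-((n : ℕ) : ZMod p) + z ^ 2) : ℤ) : ℝ)) ((m : ℕ) : ZMod p) := by
      intro m _
      rw [h1, map_mul]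
      push_cast
      rfl
    rw [Finset.sum_congr rfl h4, P83e.LocAux.sum_rng (fun z : ZMod p => ((quadraticChar (ZMod p) (-1) : ℤ) : ℝ) *
          ((quadraticChar (ZMod p) (-((n : ℕ) : ZMod p) + z ^ 2) : ℤ) : ℝ)), ← Finset.mul_sum,
      P83e.LocAux.sum_rep h2 hc]
    ring
  have h5 : ∑ m ∈ range p, ExcBAux.ch p (sq p n m) =
      ((∑ m ∈ range p, ((quadraticChar (ZMod p) ((sq p n m : ℕ) : ZMod p) : ℤ) : ℝ) : ℝ) : ℂ) := by
    push_cast
    refine Finset.sum_congr rfl fun m _ => ?_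
    unfold ExcBAux.ch
    rw [dif_pos hp]
  have h6 : |((quadraticChar (ZMod p) (-1) : ℤ) : ℝ)| = 1 := by
    have hne : (-1 : ZMod p) ≠ 0 := neg_ne_zero.2 one_ne_zero
    rcases quadraticChar_dichotomy hne with h | h <;> rw [h] <;> norm_num
  unfold av
  rw [h5, h3, norm_div, Complex.norm_real, Complex.norm_natCast, Real.norm_eq_abs, abs_neg, h6]

lemma per_modEq {g : ℕ → ℂ} {M : ℕ} (hg : ∀ n, g (n + M) = g n) {a b : ℕ} (h : a ≡ b [MOD M]) : g a = g b := by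
  have h1 : Function.Periodic g M := hg
  rw [← h1.map_mod_nat a, ← h1.map_mod_nat b]
  exact congrArg g h

/-- One local factor. -/
lemma one_fac {p : ℕ} (hp : p.Prime) (h3 : 3 ≤ p) {n : ℕ} (hn : ¬ p ∣ n) :
    (1 - (p : ℝ)⁻¹)⁻¹ * ‖av p (fun m => ExcBAux.ch p (sq p n m))‖ ≤
      (1 + gp p n) * ((if p = 3 then Real.sqrt 3 else 1) * (p : ℝ) ^ (-(1 / 2 : ℝ))) := by
  rw [char_mean hp (by omega) hn]
  have hp3 : (3 : ℝ) ≤ p := by exact_mod_cast h3
  have hp0 : (0 : ℝ) < p := by linarith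
  have e1 : (1 - (p : ℝ)⁻¹)⁻¹ * (1 / p) = 1 / ((p : ℝ) - 1) := by
    have h4 : (p : ℝ) - 1 ≠ 0 := by linarith
    rw [show 1 - (p : ℝ)⁻¹ = ((p : ℝ) - 1) / p by field_simp, inv_div]
    field_simp
  rw [e1]
  have h5 : ((p : ℝ) - 2) / (p - 1) ≤ 1 + gp p n := by
    have h6 := (abs_le.1 (abs_gp_le hp n)).1
    have h7 : ((p : ℝ) - 2) / (p - 1) = 1 - 1 / ((p : ℝ) - 1) := by
      have h4 : (p : ℝ) - 1 ≠ 0 := by linarith
      field_simp
      ring
    rw [h7]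
    linarith
  have h8 : Real.sqrt p ≤ (p - 2) * (if p = 3 then Real.sqrt 3 else 1) := by
    split_ifs with h
    · subst h
      norm_num
    · have hp4 : p ≠ 4 := fun h => by rw [h] at hp; exact absurd hp (by norm_num)
      have hp5 : (5 : ℝ) ≤ p := by exact_mod_cast (show 5 ≤ p by omega)
      rw [mul_one]
      refine Real.sqrt_le_iff.2 ⟨by linarith, ?_⟩
      nlinarith
  have h9 : (p : ℝ) ^ (-(1 / 2 : ℝ)) = (Real.sqrt p)⁻¹ := by
    rw [Real.rpow_neg hp0.le, Real.sqrt_eq_rpow]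
  rw [h9]
  have hs : 0 < Real.sqrt p := Real.sqrt_pos.2 hp0
  obtain ⟨c, hc⟩ : ∃ c : ℝ, c = if p = 3 then Real.sqrt 3 else 1 := ⟨_, rfl⟩
  rw [← hc] at h8 ⊢
  have hc0 : 0 ≤ c := by rw [hc]; split_ifs <;> positivity
  have h10 : 1 / ((p : ℝ) - 1) ≤ ((p : ℝ) - 2) / (p - 1) * (c * (Real.sqrt p)⁻¹) := by
    rw [div_mul_eq_mul_div]
    refine div_le_div_of_nonneg_right ?_ (by linarith)
    rw [← mul_assoc, ← div_eq_mul_inv, le_div_iff₀ hs, one_mul]
    exact h8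
  exact h10.trans (mul_le_mul_of_nonneg_right h5 (by positivity))

end ExcLAux

open ExcLAux SqAux in
theorem exc_loc (x : CI) (hx : x.2.IsPrimitive) (h2 : x.2 ^ 2 = 1) (n : ℕ) :
    ‖(rho x : ℂ) * aX x n‖ ≤ 5 * Gs (md x) n * gr (md x) n := by
  classical
  obtain ⟨q, hq⟩ : ∃ q, q = md x := ⟨_, rfl⟩
  have hq0 : 0 < q := hq ▸ md_pos x
  obtain ⟨G, hG⟩ : ∃ G, G = q.primeFactors.filter (fun p => ¬ p = 2 ∧ ¬ p ∣ n) := ⟨_, rfl⟩
  have hGm : ∀ p ∈ G, p.Prime ∧ 3 ≤ p ∧ p ∣ md x := by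
    intro p hp
    rw [hG] at hp
    obtain ⟨h3, h4, -⟩ := Finset.mem_filter.1 hp
    obtain ⟨h5, h6, -⟩ := Nat.mem_primeFactors.1 h3
    have := h5.two_le
    exact ⟨h5, by omega, hq ▸ h6⟩
  have hGn : ∀ p ∈ G, ¬ p ∣ n := by
    intro p hp
    rw [hG] at hp
    exact (Finset.mem_filter.1 hp).2.2
  have hGp : ∀ p ∈ G, p.Prime := fun p hp => (hGm p hp).1
  obtain ⟨M, g, hMq, hcop, hgper, hg1, hcv⟩ := real_split x hx h2 G hGm
  rw [← hq] at hMq
  have hPG : 0 < ∏ p ∈ G, p := Finset.prod_pos fun p hp => (hGp p hp).pos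
  have hM1 : 1 ≤ M := by
    rcases Nat.eq_zero_or_pos M with h | h
    · rw [h, zero_mul] at hMq
      omega
    · exact h
  have hMd : M ∣ q := ⟨_, hMq⟩
  -- `g` vanishes
  have hg0 : ∀ k p : ℕ, p.Prime → p ∣ M → p ∣ k → g k = 0 := by
    intro k p hp hpM hpk
    have hco : M.Coprime (∏ p ∈ G, p) := Nat.Coprime.prod_right fun p hp => hcop p hp
    obtain ⟨k', h3, h4⟩ := Nat.chineseRemainder hco k 1
    have h5 : cv x k' = 0 := by
      apply RealSplitAux.cv_zero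
      intro hcc
      have h6 : p ∣ k' := (Nat.ModEq.dvd_iff h3 hpM).2 hpk
      have h7 : p ∣ Nat.gcd k' (md x) := Nat.dvd_gcd h6 (hq ▸ hpM.trans hMd)
      rw [hcc] at h7
      exact hp.one_lt.ne' (Nat.dvd_one.1 h7)
    rw [hcv k'] at h5
    have h8 : ∏ p ∈ G, ((if hp : p.Prime then
        (haveI := Fact.mk hp; quadraticChar (ZMod p) (k' : ZMod p)) else 0 : ℤ) : ℂ) = 1 := by
      refine Finset.prod_eq_one fun p hp => ?_
      rw [dif_pos (hGp p hp)]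
      haveI := Fact.mk (hGp p hp)
      have h9 : ((k' : ℕ) : ZMod p) = 1 := by
        have h10 : k' ≡ 1 [MOD p] := h4.of_dvd (Finset.dvd_prod_of_mem (fun p => p) hp)
        have := (ZMod.natCast_eq_natCast_iff k' 1 p).2 h10
        simpa using this
      rw [h9, map_one, Int.cast_one]
    rw [h8, mul_one] at h5
    rw [← h5]
    exact per_modEq hgper h3.symm
  -- the factorisation of the mean
  have hav : aX x n = av M (fun m => (starRingEnd ℂ) (g (sq M n m))) *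
      ∏ p ∈ G, av p (fun m => ExcBAux.ch p (sq p n m)) := by
    have h3 := av_prod G hGp M hM1 hcop (fun m => (starRingEnd ℂ) (g (sq M n m)))
      (fun m => by
        show (starRingEnd ℂ) (g (sq M n (m + M))) = (starRingEnd ℂ) (g (sq M n m))
        rw [per_modEq hgper (sq_congr hM1 hM1 dvd_rfl n (show m + M ≡ m [MOD M] by
          unfold Nat.ModEq; rw [Nat.add_mod_right]))])
      (fun p m => ExcBAux.ch p (sq p n m))
      (fun p hp m => by
        show ExcBAux.ch p (sq p n (m + p)) = ExcBAux.ch p (sq p n m)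
        exact per_modEq (ExcBAux.ch_periodic p) (sq_congr (hGp p hp).one_lt.le (hGp p hp).one_lt.le dvd_rfl n
          (show m + p ≡ m [MOD p] by unfold Nat.ModEq; rw [Nat.add_mod_right])))
    rw [← h3, ← hMq]
    unfold aX
    rw [← hq]
    congr 1
    funext m
    rw [hcv, map_mul, map_prod]
    congr 1
    · rw [per_modEq hgper (sq_congr hM1 hq0 hMd n (Nat.ModEq.refl m))]
    · refine prod_congr rfl fun p hp => ?_
      have h4 : (starRingEnd ℂ) (ExcBAux.ch p (sq q n m)) = ExcBAux.ch p (sq p n m) := by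
        rw [ExcBAux.conj_ch]
        exact per_modEq (ExcBAux.ch_periodic p) (sq_congr (hGp p hp).one_lt.le hq0
          (hq ▸ (hGm p hp).2.2) n (Nat.ModEq.refl m))
      exact h4
  -- the factors
  have hpf : q.primeFactors = M.primeFactors ∪ G := by
    rw [hMq, Nat.primeFactors_mul (by omega) hPG.ne', Nat.primeFactors_prod hGp]
  have hdis : Disjoint M.primeFactors G := by
    rw [Finset.disjoint_left]
    intro p hp hpG
    have h3 := hcop p hpG
    have h4 : p ∣ Nat.gcd M p := Nat.dvd_gcd (Nat.dvd_of_mem_primeFactors hp) dvd_rfl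
    rw [h3] at h4
    exact (hGp p hpG).one_lt.ne' (Nat.dvd_one.1 h4)
  have hrho : rho x = (∏ p ∈ M.primeFactors, (1 - (p : ℝ)⁻¹)⁻¹) * ∏ p ∈ G, (1 - (p : ℝ)⁻¹)⁻¹ := by
    unfold rho
    rw [RamAux.quot_totient (md_pos x).ne', ← hq, hpf, Finset.prod_union hdis]
  have hrho0 : 0 ≤ rho x := by unfold rho; positivity
  have hgr : gr q n = gr M n * ∏ p ∈ G, (1 + gp p n) := by
    unfold gr
    rw [hpf, Finset.prod_union hdis]
  have hA := local_M M n hM1 g hg1 hg0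
  have hB : ∏ p ∈ G, ((1 - (p : ℝ)⁻¹)⁻¹ * ‖av p (fun m => ExcBAux.ch p (sq p n m))‖) ≤
      ∏ p ∈ G, ((1 + gp p n) * ((if p = 3 then Real.sqrt 3 else 1) * (p : ℝ) ^ (-(1 / 2 : ℝ)))) := by
    refine Finset.prod_le_prod (fun p hp => ?_) (fun p hp => one_fac (hGp p hp) (hGm p hp).2.1 (hGn p hp))
    have hp1 : (1 : ℝ) ≤ p := by exact_mod_cast (hGp p hp).one_lt.le
    have := inv_le_one_of_one_le₀ hp1
    exact mul_nonneg (inv_nonneg.2 (by linarith)) (norm_nonneg _)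
  -- the arithmetic
  have hgcd0 : 0 < Nat.gcd q n := Nat.gcd_pos_of_pos_left _ hq0
  have hqle : (q : ℝ) / (Nat.gcd q n : ℝ) ≤ 8 * ∏ p ∈ G, (p : ℝ) := by
    rw [div_le_iff₀ (by exact_mod_cast hgcd0)]
    have h1 := ExcBAux.md_le x hx h2
    rw [← hq] at h1
    have h2 : ∏ p ∈ q.primeFactors.filter (fun p => ¬ p = 2), p =
        (∏ p ∈ G, p) * ∏ p ∈ q.primeFactors.filter (fun p => ¬ p = 2 ∧ p ∣ n), p := by
      rw [hG, ← Finset.filter_filter, ← Finset.filter_filter, mul_comm]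
      exact (Finset.prod_filter_mul_prod_filter_not _ _ _).symm
    have h3 : ∏ p ∈ q.primeFactors.filter (fun p => ¬ p = 2 ∧ p ∣ n), p ≤
        Nat.gcd q n := by
      refine Nat.le_of_dvd hgcd0 ?_
      refine Finset.prod_primes_dvd _ (fun p hp => ?_) (fun p hp => ?_)
      · exact (Nat.mem_primeFactors.1 (Finset.mem_filter.1 hp).1).1.prime
      · obtain ⟨h4, -, h5⟩ := Finset.mem_filter.1 hp
        exact Nat.dvd_gcd (Nat.mem_primeFactors.1 h4).2.1 h5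
    have h4 : q ≤ 8 * (∏ p ∈ G, p) * Nat.gcd q n := by
      calc q ≤ 8 * ((∏ p ∈ G, p) *
            ∏ p ∈ q.primeFactors.filter (fun p => ¬ p = 2 ∧ p ∣ n), p) := by
              rw [← h2]; exact h1
        _ ≤ 8 * ((∏ p ∈ G, p) * Nat.gcd q n) :=
              Nat.mul_le_mul_left _ (Nat.mul_le_mul_left _ h3)
        _ = 8 * (∏ p ∈ G, p) * Nat.gcd q n := by ring
    have h5 : (q : ℝ) ≤ ((8 * (∏ p ∈ G, p) * Nat.gcd q n : ℕ) : ℝ) := Nat.cast_le.2 h4
    rw [Nat.cast_mul, Nat.cast_mul, Nat.cast_prod] at h5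
    exact h5
  have hD0 : (0 : ℝ) < ∏ p ∈ G, (p : ℝ) :=
    Finset.prod_pos fun p hp => Nat.cast_pos.2 (hGp p hp).pos
  have hGq : (∏ p ∈ G, (p : ℝ)) ^ (-(1 / 2 : ℝ)) ≤ Real.sqrt 8 * Gs q n := by
    unfold Gs
    rw [if_neg hq0.ne']
    have h1 : (8 * ∏ p ∈ G, (p : ℝ)) ^ (-(1 / 2 : ℝ)) ≤
        ((q : ℝ) / (Nat.gcd q n : ℝ)) ^ (-(1 / 2 : ℝ)) :=
      Real.rpow_le_rpow_of_nonpos (div_pos (by exact_mod_cast hq0) (by exact_mod_cast hgcd0))
        hqle (by norm_num)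
    rw [Real.mul_rpow (by norm_num) hD0.le] at h1
    have h2 : (8 : ℝ) ^ (-(1 / 2 : ℝ)) = (Real.sqrt 8)⁻¹ := by
      rw [Real.rpow_neg (by norm_num), Real.sqrt_eq_rpow]
    rw [h2] at h1
    have h3 : 0 < Real.sqrt 8 := Real.sqrt_pos.2 (by norm_num)
    rw [inv_mul_le_iff₀ h3] at h1
    exact h1
  have hc3 : ∏ p ∈ G, (if p = 3 then Real.sqrt 3 else 1 : ℝ) ≤ Real.sqrt 3 := by
    have h1 : (1 : ℝ) ≤ Real.sqrt 3 := by
      rw [show (1 : ℝ) = Real.sqrt 1 by simp]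
      exact Real.sqrt_le_sqrt (by norm_num)
    rw [Finset.prod_ite_eq']
    split_ifs
    · exact le_rfl
    · exact h1
  have hgM0 : 0 ≤ gr M n := Finset.prod_nonneg fun p hp => one_add_gp_nonneg (Nat.prime_of_mem_primeFactors hp) n
  have hgG0 : 0 ≤ ∏ p ∈ G, (1 + gp p n) := Finset.prod_nonneg fun p hp => one_add_gp_nonneg (hGp p hp) n
  have hGs0 := Gs_nonneg q n
  have hBr : ∏ p ∈ G, ((1 + gp p n) * ((if p = 3 then Real.sqrt 3 else 1) * (p : ℝ) ^ (-(1 / 2 : ℝ)))) ≤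
      (∏ p ∈ G, (1 + gp p n)) * (5 * Gs q n) := by
    rw [Finset.prod_mul_distrib, Finset.prod_mul_distrib]
    refine mul_le_mul_of_nonneg_left ?_ hgG0
    rw [Real.finsetProd_rpow G (fun p => (p : ℝ)) (fun p _ => Nat.cast_nonneg p)]
    have h1 : (∏ p ∈ G, (if p = 3 then Real.sqrt 3 else 1 : ℝ)) * (∏ p ∈ G, (p : ℝ)) ^ (-(1 / 2 : ℝ)) ≤
        Real.sqrt 3 * (Real.sqrt 8 * Gs q n) :=
      mul_le_mul hc3 hGq (by positivity) (by positivity)
    have h3 : Real.sqrt 3 * Real.sqrt 8 ≤ 5 := by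
      rw [← Real.sqrt_mul (by norm_num)]
      exact Real.sqrt_le_iff.2 ⟨by norm_num, by norm_num⟩
    calc _ ≤ Real.sqrt 3 * (Real.sqrt 8 * Gs q n) := h1
      _ = Real.sqrt 3 * Real.sqrt 8 * Gs q n := by ring
      _ ≤ 5 * Gs q n := mul_le_mul_of_nonneg_right h3 hGs0
  rw [norm_mul, Complex.norm_real, Real.norm_of_nonneg hrho0, hav, norm_mul, norm_prod, hrho, ← hq, hgr]
  calc (∏ p ∈ M.primeFactors, (1 - (p : ℝ)⁻¹)⁻¹) * (∏ p ∈ G, (1 - (p : ℝ)⁻¹)⁻¹) *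
        (‖av M (fun m => (starRingEnd ℂ) (g (sq M n m)))‖ * ∏ p ∈ G, ‖av p (fun m => ExcBAux.ch p (sq p n m))‖)
      = ((∏ p ∈ M.primeFactors, (1 - (p : ℝ)⁻¹)⁻¹) * ‖av M (fun m => (starRingEnd ℂ) (g (sq M n m)))‖) *
        ∏ p ∈ G, ((1 - (p : ℝ)⁻¹)⁻¹ * ‖av p (fun m => ExcBAux.ch p (sq p n m))‖) := by
        rw [Finset.prod_mul_distrib]
        ring
    _ ≤ gr M n * ((∏ p ∈ G, (1 + gp p n)) * (5 * Gs q n)) := by
        refine mul_le_mul hA (hB.trans hBr) ?_ hgM0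
        refine Finset.prod_nonneg fun p hp => ?_
        have hp1 : (1 : ℝ) ≤ p := by exact_mod_cast (hGp p hp).one_lt.le
        have := inv_le_one_of_one_le₀ hp1
        exact mul_nonneg (inv_nonneg.2 (by linarith)) (norm_nonneg _)
    _ = 5 * Gs q n * (gr M n * ∏ p ∈ G, (1 + gp p n)) := by ring

end Pool.Agent.Lib.SPP
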