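import Pool.Agent.Lib.SPP.Loc
import Pool.Agent.Lib.GMV.L2bd

/-!
# SPP.Ser: the truncated series and the product (1.5 h)

PROOF. `Sm Y r` = sets `S` of primes `≤ Y`, not dividing `r`, `∏ S ≤ Y`. Write `S = S₁ ∪ S₂`, `S₁` the primes `≤ z`, `S₂` those `> z` (`z ≤ Y`; if `Y < z` the statement is still covered:
the hypotheses force `z ≤ Y` for large `X`, since `Y = Q^(8 B1) ≥ exp(4 √log X)` and `z ≤ (log X)^B1`). Then
`DG Y r n = ∑_{S₁, ∏ S₁ ≤ Y} g(S₁) (1 + ∑_{S₂ ∈ RS z Y r (Y / ∏ S₁)} g(S₂))`, `g(S) = ∏_{p ∈ S} gp p n` (`∏ S₁ ∏ S₂ ≤ Y` iff `∏ S₂ ≤ Y / ∏ S₁`, natural division).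
Error 1: `∑_{S₁} |g(S₁)| δ ≤ δ ∏_{p ≤ z} (1 + 1/(p-1)) = δ (DZ z)^(-1)`. Error 2: `∑_{S₁} g(S₁)` over ALL sets of primes `≤ z` not dividing `r` is `SS z r n`
(`Finset.prod_one_add`/`Finset.prod_add`), the tail `∏ S₁ > Y` is by Rankin at most `Y^(-θ) ∏_{p ≤ z} (1 + p^θ/(p-1))`, `θ = 1/(4 B1)`:
`p^θ ≤ z^θ ≤ (log X)^(1/4)`, `∑_{p ≤ z} 1/(p-1) ≤ ∑_{2 ≤ m ≤ z} 2/m ≤ 2 (1 + log z)`, so at most `Y^(-θ) exp(2 (log X)^(1/4) (1 + log z))`, and `Y^(-θ) = Q^(-2)`,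
`Q ≥ exp(√(log X)/2)`, so it is `≤ Q^(-1)` for large `X`.
-/

set_option autoImplicit false

open Finset Filter

namespace Pool.Agent.Lib.SPP

open Pool.Agent.HLB Pool.Agent.HLT Pool.Agent.HLR Pool.Agent.Lib.GMV

namespace SerAux

/-- Sum over the subsets of a disjoint union. -/
lemma sum_union {A B : Finset ℕ} (h : Disjoint A B) (F : Finset ℕ → ℝ) :
    ∑ S ∈ (A ∪ B).powerset, F S = ∑ S₁ ∈ A.powerset, ∑ S₂ ∈ B.powerset, F (S₁ ∪ S₂) := by
  rw [← Finset.sum_product']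
  refine Finset.sum_nbij' (fun S => (S ∩ A, S ∩ B)) (fun q => q.1 ∪ q.2) ?_ ?_ ?_ ?_ ?_
  · intro S _
    exact Finset.mem_product.2 ⟨Finset.mem_powerset.2 Finset.inter_subset_right,
      Finset.mem_powerset.2 Finset.inter_subset_right⟩
  · intro q hq
    have h1 := Finset.mem_product.1 hq
    exact Finset.mem_powerset.2 (Finset.union_subset_union (Finset.mem_powerset.1 h1.1)
      (Finset.mem_powerset.1 h1.2))
  · intro S hS
    rw [← Finset.inter_union_distrib_left]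
    exact Finset.inter_eq_left.2 (Finset.mem_powerset.1 hS)
  · intro q hq
    have h1 := Finset.mem_product.1 hq
    have h2 := Finset.mem_powerset.1 h1.1
    have h3 := Finset.mem_powerset.1 h1.2
    ext x
    · simp only [Finset.mem_inter, Finset.mem_union]
      constructor
      · rintro ⟨h4 | h4, h5⟩
        · exact h4
        · exact absurd (h3 h4) (Finset.disjoint_left.1 h h5)
      · intro h4
        exact ⟨Or.inl h4, h2 h4⟩
    · simp only [Finset.mem_inter, Finset.mem_union]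
      constructor
      · rintro ⟨h4 | h4, h5⟩
        · exact absurd h5 (Finset.disjoint_left.1 h (h2 h4))
        · exact h4
      · intro h4
        exact ⟨Or.inr h4, h3 h4⟩
  · intro S hS
    rw [← Finset.inter_union_distrib_left, Finset.inter_eq_left.2 (Finset.mem_powerset.1 hS)]

/-- The primes `≤ z` not dividing `r`. -/
def PA (z r : ℕ) : Finset ℕ := (Nat.primesLE z).filter fun p => ¬ p ∣ r

/-- The primes in `(z, Y]` not dividing `r`. -/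
def PB (z Y r : ℕ) : Finset ℕ := (Nat.primesLE Y).filter fun p => z < p ∧ ¬ p ∣ r

lemma disj (z Y r : ℕ) : Disjoint (PA z r) (PB z Y r) := by
  rw [Finset.disjoint_left]
  intro p h1 h2
  unfold PA at h1
  unfold PB at h2
  rw [Finset.mem_filter, Nat.mem_primesLE] at h1 h2
  omega

lemma union_eq {z Y : ℕ} (h : z ≤ Y) (r : ℕ) :
    (Nat.primesLE Y).filter (fun p => ¬ p ∣ r) = PA z r ∪ PB z Y r := by
  ext p
  unfold PA PB
  simp only [Finset.mem_union, Finset.mem_filter, Nat.mem_primesLE]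
  constructor
  · rintro ⟨⟨h1, h2⟩, h3⟩
    by_cases h4 : p ≤ z
    · exact Or.inl ⟨⟨h4, h2⟩, h3⟩
    · exact Or.inr ⟨⟨h1, h2⟩, by omega, h3⟩
  · rintro (⟨⟨h1, h2⟩, h3⟩ | ⟨⟨h1, h2⟩, h3, h4⟩)
    · exact ⟨⟨by omega, h2⟩, h3⟩
    · exact ⟨⟨h1, h2⟩, h4⟩

lemma prime_PA {z r p : ℕ} (h : p ∈ PA z r) : p.Prime := by
  unfold PA at h
  rw [Finset.mem_filter, Nat.mem_primesLE] at h
  exact h.1.2

lemma prod_pos {z r : ℕ} {S : Finset ℕ} (h : S ∈ (PA z r).powerset) : 0 < ∏ p ∈ S, p :=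
  Finset.prod_pos fun p hp => (prime_PA (Finset.mem_powerset.1 h hp)).pos

/-- The inner sum. -/
lemma inner {z Y r n : ℕ} {S₁ : Finset ℕ} (h1 : S₁ ∈ (PA z r).powerset) :
    ∑ S₂ ∈ (PB z Y r).powerset, (if ∏ p ∈ S₁ ∪ S₂, p ≤ Y then ∏ p ∈ S₁ ∪ S₂, gp p n else 0) =
      if ∏ p ∈ S₁, p ≤ Y then (∏ p ∈ S₁, gp p n) *
        (1 + ∑ S₂ ∈ RS z Y r (Y / ∏ p ∈ S₁, p), ∏ p ∈ S₂, gp p n) else 0 := by
  have hP := prod_pos h1
  have hd : ∀ S₂ ∈ (PB z Y r).powerset, Disjoint S₁ S₂ := fun S₂ h2 =>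
    Finset.disjoint_of_subset_left (Finset.mem_powerset.1 h1)
      (Finset.disjoint_of_subset_right (Finset.mem_powerset.1 h2) (disj z Y r))
  have e1 : ∑ S₂ ∈ (PB z Y r).powerset, (if ∏ p ∈ S₁ ∪ S₂, p ≤ Y then ∏ p ∈ S₁ ∪ S₂, gp p n else 0) =
      ∑ S₂ ∈ (PB z Y r).powerset, (if ∏ p ∈ S₂, p ≤ Y / ∏ p ∈ S₁, p then
        (∏ p ∈ S₁, gp p n) * ∏ p ∈ S₂, gp p n else 0) := by
    refine Finset.sum_congr rfl fun S₂ h2 => ?_
    rw [Finset.prod_union (hd S₂ h2), Finset.prod_union (hd S₂ h2)]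
    have : (∏ p ∈ S₁, p) * ∏ p ∈ S₂, p ≤ Y ↔ ∏ p ∈ S₂, p ≤ Y / ∏ p ∈ S₁, p := by
      rw [Nat.le_div_iff_mul_le hP, mul_comm]
    simp only [this]
  rw [e1, ← Finset.sum_filter, ← Finset.mul_sum]
  split_ifs with hY
  · congr 1
    have h3 : (PB z Y r).powerset.filter (fun S₂ => ∏ p ∈ S₂, p ≤ Y / ∏ p ∈ S₁, p) =
        insert ∅ (RS z Y r (Y / ∏ p ∈ S₁, p)) := by
      ext S
      unfold RS PB
      simp only [Finset.mem_insert, Finset.mem_filter]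
      constructor
      · rintro ⟨h4, h5⟩
        rcases Finset.eq_empty_or_nonempty S with h6 | h6
        · exact Or.inl h6
        · exact Or.inr ⟨h4, h6, h5⟩
      · rintro (h4 | ⟨h4, h5, h6⟩)
        · subst h4
          refine ⟨Finset.mem_powerset.2 (Finset.empty_subset _), ?_⟩
          rw [Finset.prod_empty, Nat.le_div_iff_mul_le hP, one_mul]
          exact hY
        · exact ⟨h4, h6⟩
    rw [h3, Finset.sum_insert, Finset.prod_empty]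
    unfold RS
    simp only [Finset.mem_filter, Finset.not_nonempty_empty, false_and, and_false, not_false_iff]
  · have h3 : (PB z Y r).powerset.filter (fun S₂ => ∏ p ∈ S₂, p ≤ Y / ∏ p ∈ S₁, p) = ∅ := by
      rw [Finset.filter_eq_empty_iff]
      intro S h4 h5
      rw [Nat.div_eq_of_lt (by omega)] at h5
      have h6 : 0 < ∏ p ∈ S, p := by
        refine Finset.prod_pos fun p hp => ?_
        have h7 := Finset.mem_powerset.1 h4 hp
        unfold PB at h7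
        rw [Finset.mem_filter, Nat.mem_primesLE] at h7
        exact h7.1.2.pos
      omega
    rw [h3, Finset.sum_empty, mul_zero]

/-- The splitting of the truncated series. -/
lemma dg_eq {z Y : ℕ} (h : z ≤ Y) (r n : ℕ) :
    DG Y r n = ∑ S₁ ∈ (PA z r).powerset, if ∏ p ∈ S₁, p ≤ Y then (∏ p ∈ S₁, gp p n) *
        (1 + ∑ S₂ ∈ RS z Y r (Y / ∏ p ∈ S₁, p), ∏ p ∈ S₂, gp p n) else 0 := by
  unfold DG Sm
  rw [Finset.sum_filter, union_eq h r, sum_union (disj z Y r)]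
  exact Finset.sum_congr rfl fun S₁ h1 => inner h1

lemma ss_eq (z r n : ℕ) : SS z r n = ∑ S₁ ∈ (PA z r).powerset, ∏ p ∈ S₁, gp p n := by
  unfold SS
  rw [Finset.prod_one_add]
  rfl

lemma one_add_inv {p : ℕ} (hp : p.Prime) : 1 + 1 / ((p : ℝ) - 1) = (1 - 1 / (p : ℝ))⁻¹ := by
  have h2 : (2 : ℝ) ≤ p := by exact_mod_cast hp.two_le
  have h3 : (p : ℝ) - 1 ≠ 0 := by linarith
  have h4 : (p : ℝ) ≠ 0 := by linarith
  have h5 : (1 : ℝ) - 1 / p ≠ 0 := by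
    rw [one_sub_div h4]
    exact div_ne_zero h3 h4
  refine eq_inv_of_mul_eq_one_left ?_
  field_simp
  ring

lemma prod_sub_ge {A B : Finset ℕ} (h : A ⊆ B) (f : ℕ → ℝ) (hf : ∀ p ∈ B, 1 ≤ f p) :
    ∏ p ∈ A, f p ≤ ∏ p ∈ B, f p := by
  rw [← Finset.prod_sdiff h]
  have h1 : (1 : ℝ) ≤ ∏ p ∈ B \ A, f p := by
    calc (1 : ℝ) = ∏ p ∈ B \ A, (1 : ℝ) := Finset.prod_const_one.symm
      _ ≤ ∏ p ∈ B \ A, f p := Finset.prod_le_prod (fun _ _ => zero_le_one)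
          fun p hp => hf p (Finset.sdiff_subset hp)
  have h2 : 0 ≤ ∏ p ∈ A, f p := Finset.prod_nonneg fun p hp => zero_le_one.trans (hf p (h hp))
  nlinarith

lemma prod_sub_le {A B : Finset ℕ} (h : A ⊆ B) (f : ℕ → ℝ) (h0 : ∀ p ∈ B, 0 ≤ f p) (hf : ∀ p ∈ B, f p ≤ 1) :
    ∏ p ∈ B, f p ≤ ∏ p ∈ A, f p := by
  rw [← Finset.prod_sdiff h]
  have h1 : ∏ p ∈ B \ A, f p ≤ 1 := Finset.prod_le_one (fun p hp => h0 p (Finset.sdiff_subset hp))
    fun p hp => hf p (Finset.sdiff_subset hp)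
  have h2 : 0 ≤ ∏ p ∈ A, f p := Finset.prod_nonneg fun p hp => h0 p (h hp)
  have h3 : 0 ≤ ∏ p ∈ B \ A, f p := Finset.prod_nonneg fun p hp => h0 p (Finset.sdiff_subset hp)
  nlinarith

/-- Products over a part of the primes. -/
lemma prod_le (z r : ℕ) : ∏ p ∈ PA z r, (1 + 1 / ((p : ℝ) - 1)) ≤ (DZ z)⁻¹ := by
  unfold DZ
  rw [← Finset.prod_inv_distrib]
  calc ∏ p ∈ PA z r, (1 + 1 / ((p : ℝ) - 1)) = ∏ p ∈ PA z r, (1 - 1 / (p : ℝ))⁻¹ :=
        Finset.prod_congr rfl fun p hp => one_add_inv (prime_PA hp)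
    _ ≤ ∏ p ∈ Nat.primesLE z, (1 - 1 / (p : ℝ))⁻¹ :=
        prod_sub_ge (Finset.filter_subset _ _) _ fun p hp => L2bdAux.inv_nonneg' hp

lemma abs_prod (S : Finset ℕ) (n : ℕ) : |∏ p ∈ S, gp p n| = ∏ p ∈ S, |gp p n| :=
  Finset.abs_prod _ _

/-- Sum of the absolute values over all sets. -/
lemma sum_abs (z r n : ℕ) : ∑ S₁ ∈ (PA z r).powerset, |∏ p ∈ S₁, gp p n| ≤ (DZ z)⁻¹ := by
  refine le_trans (le_of_eq ?_) (le_trans (?_ : ∏ p ∈ PA z r, (1 + |gp p n|) ≤ _) (prod_le z r))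
  · rw [Finset.prod_one_add]
    exact Finset.sum_congr rfl fun S _ => abs_prod S n
  · refine Finset.prod_le_prod (fun p _ => by positivity) fun p hp => ?_
    have := abs_gp_le (prime_PA hp) n
    linarith

/-- Rankin. -/
lemma rankin (z r n Y : ℕ) (hY : 1 ≤ Y) (θ W : ℝ) (hθ : 0 ≤ θ) (hW0 : 0 ≤ W)
    (hW : ∀ p ∈ PA z r, (p : ℝ) ^ θ ≤ W) :
    ∑ S₁ ∈ (PA z r).powerset, (if ∏ p ∈ S₁, p ≤ Y then 0 else |∏ p ∈ S₁, gp p n|) ≤
      (Y : ℝ) ^ (-θ) * Real.exp (W * (2 * ∑ p ∈ Nat.primesLE z, 1 / (p : ℝ))) := by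
  have hY0 : (0 : ℝ) < Y := by exact_mod_cast hY
  have hY' : 0 < (Y : ℝ) ^ (-θ) := Real.rpow_pos_of_pos hY0 _
  have h1 : ∀ S₁ ∈ (PA z r).powerset, (if ∏ p ∈ S₁, p ≤ Y then 0 else |∏ p ∈ S₁, gp p n|) ≤
      (Y : ℝ) ^ (-θ) * ∏ p ∈ S₁, ((p : ℝ) ^ θ * |gp p n|) := by
    intro S hS
    have h2 : 0 ≤ ∏ p ∈ S, ((p : ℝ) ^ θ * |gp p n|) :=
      Finset.prod_nonneg fun p _ => mul_nonneg (Real.rpow_nonneg (Nat.cast_nonneg p) _) (abs_nonneg _)
    split_ifs with h3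
    · positivity
    · rw [abs_prod, Finset.prod_mul_distrib, ← mul_assoc]
      refine le_mul_of_one_le_left (Finset.prod_nonneg fun p _ => abs_nonneg _) ?_
      rw [Real.finsetProd_rpow _ _ (fun p _ => Nat.cast_nonneg p), ← Nat.cast_prod]
      rw [Real.rpow_neg hY0.le, ← div_eq_inv_mul, one_le_div (Real.rpow_pos_of_pos hY0 _)]
      exact Real.rpow_le_rpow hY0.le (by exact_mod_cast (not_le.1 h3).le) hθ
  refine (Finset.sum_le_sum h1).trans ?_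
  rw [← Finset.mul_sum, ← Finset.prod_one_add]
  refine mul_le_mul_of_nonneg_left ?_ hY'.le
  have h4 : ∏ p ∈ PA z r, (1 + (p : ℝ) ^ θ * |gp p n|) ≤ Real.exp (∑ p ∈ PA z r, W * (2 * (1 / (p : ℝ)))) := by
    rw [Real.exp_sum]
    refine Finset.prod_le_prod (fun p _ => by positivity) fun p hp => ?_
    have h5 := hW p hp
    have h6 := abs_gp_le (prime_PA hp) n
    have h7 : (2 : ℝ) ≤ p := by exact_mod_cast (prime_PA hp).two_le
    have h8 : 1 / ((p : ℝ) - 1) ≤ 2 * (1 / (p : ℝ)) := by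
      rw [mul_one_div, div_le_div_iff₀ (by linarith) (by linarith)]
      linarith
    have h9 : (p : ℝ) ^ θ * |gp p n| ≤ W * (2 * (1 / (p : ℝ))) :=
      mul_le_mul h5 (h6.trans h8) (abs_nonneg _) ((Real.rpow_nonneg (Nat.cast_nonneg p) _).trans h5)
    have := Real.add_one_le_exp (W * (2 * (1 / (p : ℝ))))
    linarith
  refine h4.trans (Real.exp_le_exp.2 ?_)
  rw [← Finset.mul_sum, ← Finset.mul_sum]
  refine mul_le_mul_of_nonneg_left (mul_le_mul_of_nonneg_left ?_ (by norm_num)) hW0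
  exact Finset.sum_le_sum_of_subset_of_nonneg (Finset.filter_subset _ _) fun p _ _ => by positivity

/-- The main comparison. -/
lemma compare {z Y r n : ℕ} {δ : ℝ} (hz : z ≤ Y) (hr : 1 ≤ r) (hrY : r ≤ Y) (h0 : 0 ≤ δ) (hG : Good z Y n δ) :
    |DG Y r n - SS z r n| ≤ δ * (DZ z)⁻¹ +
      ∑ S₁ ∈ (PA z r).powerset, (if ∏ p ∈ S₁, p ≤ Y then 0 else |∏ p ∈ S₁, gp p n|) := by
  rw [dg_eq hz, ss_eq, ← Finset.sum_sub_distrib]
  refine (Finset.abs_sum_le_sum_abs _ _).trans ?_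
  have h1 : ∀ S₁ ∈ (PA z r).powerset, |(if ∏ p ∈ S₁, p ≤ Y then (∏ p ∈ S₁, gp p n) *
        (1 + ∑ S₂ ∈ RS z Y r (Y / ∏ p ∈ S₁, p), ∏ p ∈ S₂, gp p n) else 0) - ∏ p ∈ S₁, gp p n| ≤
      δ * |∏ p ∈ S₁, gp p n| + (if ∏ p ∈ S₁, p ≤ Y then 0 else |∏ p ∈ S₁, gp p n|) := by
    intro S hS
    split_ifs with h2
    · have h3 : (∏ p ∈ S, gp p n) * (1 + ∑ S₂ ∈ RS z Y r (Y / ∏ p ∈ S, p), ∏ p ∈ S₂, gp p n) -
          ∏ p ∈ S, gp p n = (∑ S₂ ∈ RS z Y r (Y / ∏ p ∈ S, p), ∏ p ∈ S₂, gp p n) * ∏ p ∈ S, gp p n := by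
        ring
      rw [h3, abs_mul, add_zero]
      exact mul_le_mul_of_nonneg_right (hG r _ hr hrY (Nat.div_le_self _ _)) (abs_nonneg _)
    · rw [zero_sub, abs_neg]
      have : 0 ≤ δ * |∏ p ∈ S, gp p n| := mul_nonneg h0 (abs_nonneg _)
      linarith
  refine (Finset.sum_le_sum h1).trans ?_
  rw [Finset.sum_add_distrib, ← Finset.mul_sum]
  have := mul_le_mul_of_nonneg_left (sum_abs z r n) h0
  linarith

lemma zA_le (B1 X : ℕ) (hL : 0 ≤ Real.log X) : (zA B1 X : ℝ) ≤ Real.log X ^ B1 := by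
  unfold zA
  exact Nat.floor_le (pow_nonneg hL _)

lemma log_le_pow8 {L Q : ℝ} (hL : 0 ≤ L) (hQ : Real.exp (Real.sqrt L / 2) ≤ Q) : L ≤ Q ^ 8 := by
  have h1 : Real.sqrt L / 2 ≤ Real.exp (Real.sqrt L / 2) := by
    have := Real.add_one_le_exp (Real.sqrt L / 2)
    linarith
  have h2 : (1 : ℝ) ≤ Real.exp (Real.sqrt L / 2) := Real.one_le_exp (by positivity)
  have h3 : 0 ≤ Real.sqrt L / 2 := by positivity
  have h4 : Real.sqrt L ≤ Q ^ 4 := by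
    have h5 : Real.sqrt L / 2 * 4 ≤ Real.exp (Real.sqrt L / 2 * 4) := by
      have := Real.add_one_le_exp (Real.sqrt L / 2 * 4)
      linarith
    have h6 : Real.exp (Real.sqrt L / 2 * 4) = Real.exp (Real.sqrt L / 2) ^ 4 := by
      rw [mul_comm, ← Real.exp_nat_mul]
      norm_num
    have h7 : Real.exp (Real.sqrt L / 2) ^ 4 ≤ Q ^ 4 := pow_le_pow_left₀ (by positivity) hQ 4
    rw [h6] at h5
    have h8 : 0 ≤ Real.sqrt L := Real.sqrt_nonneg L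
    linarith
  calc L = Real.sqrt L ^ 2 := (Real.sq_sqrt hL).symm
    _ ≤ (Q ^ 4) ^ 2 := pow_le_pow_left₀ (Real.sqrt_nonneg L) h4 2
    _ = Q ^ 8 := by ring

end SerAux

open SerAux

theorem ser (B1 : ℕ) (hB1 : 1 ≤ B1) : ∃ X0 : ℕ, ∀ X Q : ℕ, X0 ≤ X →
    Real.exp (Real.sqrt (Real.log X) / 2) ≤ Q → ∀ (r n : ℕ) (δ : ℝ), 1 ≤ r → r ≤ Q ^ (8 * B1) → 0 ≤ δ →
    Good (zA B1 X) (Q ^ (8 * B1)) n δ →
    |DG (Q ^ (8 * B1)) r n - SS (zA B1 X) r n| ≤ δ * (DZ (zA B1 X))⁻¹ + (Q : ℝ)⁻¹ := by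
  obtain ⟨X0, hX0⟩ := L2bdAux.log_ev ((36 * (1 + 8 * (B1 : ℝ))) ^ 8)
  refine ⟨X0, fun X Q hX hQ r n δ hr hrY h0 hG => ?_⟩
  obtain ⟨hL, -⟩ := hX0 X hX
  have hB : (1 : ℝ) ≤ B1 := by exact_mod_cast hB1
  have hc : (1 : ℝ) ≤ 36 * (1 + 8 * (B1 : ℝ)) := by linarith
  have hL1 : 1 ≤ Real.log X := (one_le_pow₀ hc).trans hL
  have hL0 : 0 ≤ Real.log X := by linarith
  have hQ1 : (1 : ℝ) ≤ Q := (Real.one_le_exp (by positivity)).trans hQ
  have hQ0 : (0 : ℝ) < Q := by linarith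
  have hzL := zA_le B1 X hL0
  have hzY : zA B1 X ≤ Q ^ (8 * B1) := by
    have h1 : (zA B1 X : ℝ) ≤ ((Q : ℝ) ^ 8) ^ B1 :=
      hzL.trans (pow_le_pow_left₀ hL0 (log_le_pow8 hL0 hQ) B1)
    rw [← pow_mul] at h1
    exact_mod_cast h1
  refine (compare hzY hr hrY h0 hG).trans ?_
  have hY : 1 ≤ Q ^ (8 * B1) := by
    have : 1 ≤ Q := by exact_mod_cast hQ1
    exact Nat.one_le_pow _ _ this
  have hBne : (B1 : ℝ) ≠ 0 := by linarith
  have hW : ∀ p ∈ PA (zA B1 X) r, (p : ℝ) ^ (1 / (4 * (B1 : ℝ))) ≤ Real.log X ^ (1 / 4 : ℝ) := by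
    intro p hp
    unfold PA at hp
    rw [Finset.mem_filter, Nat.mem_primesLE] at hp
    have h1 : (p : ℝ) ≤ Real.log X ^ B1 := le_trans (by exact_mod_cast hp.1.1) hzL
    calc (p : ℝ) ^ (1 / (4 * (B1 : ℝ))) ≤ (Real.log X ^ B1) ^ (1 / (4 * (B1 : ℝ))) :=
          Real.rpow_le_rpow (Nat.cast_nonneg p) h1 (by positivity)
      _ = Real.log X ^ (1 / 4 : ℝ) := by
          rw [← Real.rpow_natCast, ← Real.rpow_mul hL0]
          congr 1
          field_simp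
  have h2 := rankin (zA B1 X) r n (Q ^ (8 * B1)) hY (1 / (4 * (B1 : ℝ))) (Real.log X ^ (1 / 4 : ℝ))
    (by positivity) (Real.rpow_nonneg hL0 _) hW
  have h3 : ((Q ^ (8 * B1) : ℕ) : ℝ) ^ (-(1 / (4 * (B1 : ℝ)))) = ((Q : ℝ) ^ 2)⁻¹ := by
    push_cast
    rw [← Real.rpow_natCast (Q : ℝ) (8 * B1), ← Real.rpow_mul hQ0.le]
    have : ((8 * B1 : ℕ) : ℝ) * (-(1 / (4 * (B1 : ℝ)))) = -((2 : ℕ) : ℝ) := by
      push_cast
      field_simp
      norm_num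
    rw [this, Real.rpow_neg hQ0.le, Real.rpow_natCast]
  have h4 : Real.exp (Real.log X ^ (1 / 4 : ℝ) * (2 * ∑ p ∈ Nat.primesLE (zA B1 X), 1 / (p : ℝ))) ≤ Q := by
    refine le_trans (Real.exp_le_exp.2 ?_) hQ
    have h5 := Pool.Agent.Lib.Pabc2.mertens (zA B1 X)
    have h6 : 0 ≤ Real.log (zA B1 X : ℝ) := Real.log_natCast_nonneg _
    have h7 : Real.log (1 + Real.log (zA B1 X : ℝ)) ≤ Real.log (zA B1 X : ℝ) := by
      have := Real.log_le_sub_one_of_pos (by linarith : 0 < 1 + Real.log (zA B1 X : ℝ))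
      linarith
    have h8 : Real.log (zA B1 X : ℝ) ≤ B1 * Real.log (Real.log X) := by
      rcases Nat.eq_zero_or_pos (zA B1 X) with hz | hz
      · rw [hz, Nat.cast_zero, Real.log_zero]
        exact mul_nonneg (by linarith) (Real.log_nonneg hL1)
      · rw [← Real.log_pow]
        exact Real.log_le_log (by exact_mod_cast hz) hzL
    set u : ℝ := Real.log X ^ (1 / 8 : ℝ) with hu
    have hu2 : Real.log X ^ (1 / 4 : ℝ) = u ^ 2 := by
      rw [hu, ← Real.rpow_natCast, ← Real.rpow_mul hL0]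
      norm_num
    have hu4 : Real.sqrt (Real.log X) = u ^ 4 := by
      rw [Real.sqrt_eq_rpow, hu, ← Real.rpow_natCast, ← Real.rpow_mul hL0]
      norm_num
    have h9 : Real.log (Real.log X) ≤ 8 * u := by
      have := Real.log_le_rpow_div hL0 (by norm_num : (0 : ℝ) < 1 / 8)
      rw [← hu] at this
      linarith
    have h10 : 36 * (1 + 8 * (B1 : ℝ)) ≤ u := by
      have h11 : ((36 * (1 + 8 * (B1 : ℝ))) ^ 8) ^ (1 / 8 : ℝ) ≤ Real.log X ^ (1 / 8 : ℝ) :=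
        Real.rpow_le_rpow (by positivity) hL (by norm_num)
      rw [← Real.rpow_natCast, ← Real.rpow_mul (by linarith)] at h11
      norm_num at h11
      rw [hu]
      linarith
    rw [hu2, hu4]
    have hu0 : 1 ≤ u := hc.trans h10
    have h12 : ∑ p ∈ Nat.primesLE (zA B1 X), 1 / (p : ℝ) ≤ 9 * (1 + 8 * (B1 : ℝ)) * u := by
      have h13 : (B1 : ℝ) * Real.log (Real.log X) ≤ B1 * (8 * u) :=
        mul_le_mul_of_nonneg_left h9 (by linarith)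
      nlinarith
    have h14 : ∑ p ∈ Nat.primesLE (zA B1 X), 1 / (p : ℝ) ≤ u ^ 2 / 4 := by
      refine h12.trans ?_
      nlinarith
    have hu3 : 0 ≤ u ^ 2 := by positivity
    calc u ^ 2 * (2 * ∑ p ∈ Nat.primesLE (zA B1 X), 1 / (p : ℝ)) ≤ u ^ 2 * (2 * (u ^ 2 / 4)) :=
          mul_le_mul_of_nonneg_left (by linarith) hu3
      _ = u ^ 4 / 2 := by ring
  rw [h3] at h2
  have h5 : ((Q : ℝ) ^ 2)⁻¹ * Real.exp (Real.log X ^ (1 / 4 : ℝ) *
      (2 * ∑ p ∈ Nat.primesLE (zA B1 X), 1 / (p : ℝ))) ≤ (Q : ℝ)⁻¹ := by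
    calc ((Q : ℝ) ^ 2)⁻¹ * Real.exp (Real.log X ^ (1 / 4 : ℝ) *
          (2 * ∑ p ∈ Nat.primesLE (zA B1 X), 1 / (p : ℝ))) ≤ ((Q : ℝ) ^ 2)⁻¹ * Q :=
          mul_le_mul_of_nonneg_left h4 (by positivity)
      _ = (Q : ℝ)⁻¹ := by
          field_simp
  linarith

/-- Crude bounds of the product. -/
theorem ss_bounds (z r n : ℕ) : DZ z ^ 2 ≤ SS z r n ∧ SS z r n ≤ (DZ z)⁻¹ := by
  constructor
  · unfold DZ
    rw [← Finset.prod_pow]
    have h0 : ∀ p ∈ Nat.primesLE z, (0 : ℝ) ≤ (1 - 1 / (p : ℝ)) ∧ 1 - 1 / (p : ℝ) ≤ 1 := by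
      intro p hp
      rw [Nat.mem_primesLE] at hp
      have h2 : (2 : ℝ) ≤ p := by exact_mod_cast hp.2.two_le
      have h3 : 1 / (p : ℝ) ≤ 1 := by
        rw [div_le_one (by linarith)]
        linarith
      have h4 : 0 ≤ 1 / (p : ℝ) := by positivity
      exact ⟨by linarith, by linarith⟩
    refine (prod_sub_le (A := PA z r) (Finset.filter_subset _ _) (fun p => (1 - 1 / (p : ℝ)) ^ 2)
      (fun p _ => by positivity) fun p hp => pow_le_one₀ (h0 p hp).1 (h0 p hp).2).trans ?_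
    unfold SS
    refine Finset.prod_le_prod (fun p _ => by positivity) fun p hp => ?_
    have hpp : p.Prime := prime_PA hp
    by_cases h2 : p = 2
    · subst h2
      unfold gp
      rw [if_pos rfl]
      norm_num
    · have h3 : (3 : ℝ) ≤ p := by
        have h4 := hpp.two_le
        have : 3 ≤ p := by omega
        exact_mod_cast this
      have h5 := (abs_le.1 (abs_gp_le hpp n)).1
      have h6 : (1 - 1 / (p : ℝ)) ^ 2 ≤ 1 - 1 / ((p : ℝ) - 1) := by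
        rw [one_sub_div (by linarith), one_sub_div (by linarith), div_pow,
          div_le_div_iff₀ (by positivity) (by linarith)]
        nlinarith
      linarith
  · refine (Finset.prod_le_prod (fun p hp => one_add_gp_nonneg (prime_PA hp) n) fun p hp => ?_).trans (prod_le z r)
    have := (abs_le.1 (abs_gp_le (prime_PA hp) n)).2
    linarith

end Pool.Agent.Lib.SPP
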