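import Pool.Agent.Lib.SPP.SqAux
import Pool.Agent.Lib.SPP.Ser
import Pool.Agent.Lib.SPP.ExcL

/-!
# SPP.Tx: the main term coefficients (1.5 h)

Let `z = zA B1 X`, `Y = Q^(8 B1)`, `δ = 30 z^(-1/16)`, `L = log X`, `D = (DZ z)^(-1)`; `D ≤ e^10 (1 + log z)^9` (`GMV.L2bdAux.inv_DZ`), `log z ≤ B1 log L`, so `D^4 ≤ L^(1/8)` for large `X`.
`z ≥ L^B1/2`, so `δ ≤ 60 L^(-B1/16) ≤ 60 L^(-(A+4))`. `Q^(-1) ≤ exp(-√L/2) ≤ L^(-(A+4))`. So by `ser`: `|DG Y r n - SS z r n| ≤ err := L^(-(A+3))` for `r ≤ Q`.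
(2) `r = 1`: `SS z 1 n ≥ D^(-2) ≥ L^(-1)`, so `err ≤ SS z 1 n L^(-A)`. `rho one = 1`, `aX one n = 1` (character modulo `1`).
(1) `r = md x ≤ Q`: `dom`: `‖rho x aX x n‖ ≤ gr r n`. `gr r n ≤ ∏_{p ∣ r} p/(p-1) ≤ e^10 (1 + L)^9`?? too large against `err`; use instead: `gr r n · SS z r n ≤ SS z 1 n · ∏_{p ∣ r, p > z} (1 + gp p n)`
and `∏_{p ∣ r, p > z} (1 + 1/(p-1)) ≤ (1 + 1/z)^(2 L) ≤ e^(2L/z) ≤ 2` (`r` has at most `log₂ r ≤ 2 L` prime factors, `r ≤ X`); and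
`gr r n ≤ ∏_{p ∣ r, p ≤ z} (1 + gp p n) · 2 ≤ 2 D`. So `‖..‖ |DG Y r n| ≤ 2 SS z 1 n + 2 D err ≤ 4 SS z 1 n`.
(3) `exc_loc` instead of `dom`: `5 Gs gr r n (SS z r n + err) ≤ 5 Gs · 4 SS z 1 n`.
-/

set_option autoImplicit false

open Finset Filter

namespace Pool.Agent.Lib.SPP

open Pool.Agent.HLB Pool.Agent.HLT Pool.Agent.HLR Pool.Agent.Lib.GMV

namespace TxAux

lemma fac_le {p : ℕ} (hp : p.Prime) (n : ℕ) : 1 + gp p n ≤ (1 - 1 / (p : ℝ))⁻¹ := by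
  have h1 := (abs_le.1 (abs_gp_le hp n)).2
  have hp1 : (2 : ℝ) ≤ p := by exact_mod_cast hp.two_le
  have h2 : (1 - 1 / (p : ℝ))⁻¹ = 1 + 1 / ((p : ℝ) - 1) := by
    have h3 : (p : ℝ) ≠ 0 := by linarith
    have h4 : (p : ℝ) - 1 ≠ 0 := by linarith
    rw [show 1 - 1 / (p : ℝ) = ((p : ℝ) - 1) / p by field_simp, inv_div]
    field_simp
    ring
  rw [h2]
  linarith

lemma prod_le_D (z n : ℕ) (P : ℕ → Prop) [DecidablePred P] :
    ∏ p ∈ (Nat.primesLE z).filter P, (1 + gp p n) ≤ (DZ z)⁻¹ := by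
  unfold DZ
  rw [← Finset.prod_inv_distrib]
  calc ∏ p ∈ (Nat.primesLE z).filter P, (1 + gp p n)
      ≤ ∏ p ∈ (Nat.primesLE z).filter P, (1 - 1 / (p : ℝ))⁻¹ := by
        refine Finset.prod_le_prod (fun p hp => ?_) (fun p hp => ?_)
        · exact one_add_gp_nonneg ((Nat.mem_primesLE.1 (mem_filter.1 hp).1).2) n
        · exact fac_le ((Nat.mem_primesLE.1 (mem_filter.1 hp).1).2) n
    _ ≤ ∏ p ∈ Nat.primesLE z, (1 - 1 / (p : ℝ))⁻¹ := by
        refine Finset.prod_le_prod_of_subset_of_one_le (filter_subset _ _) (fun p hp => ?_)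
          (fun p hp _ => L2bdAux.inv_nonneg' hp)
        have := L2bdAux.inv_nonneg' (mem_filter.1 hp).1
        linarith

/-- the large prime factors -/
noncomputable def bg (z r n : ℕ) : ℝ := ∏ p ∈ r.primeFactors.filter (fun p => z < p), (1 + gp p n)

lemma bg_nonneg (z r n : ℕ) : 0 ≤ bg z r n :=
  Finset.prod_nonneg fun _ hp => one_add_gp_nonneg (Nat.prime_of_mem_primeFactors (mem_filter.1 hp).1) n

lemma small_eq {z r : ℕ} (hr : r ≠ 0) :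
    r.primeFactors.filter (fun p => ¬ z < p) = (Nat.primesLE z).filter (fun p => p ∣ r) := by
  ext p
  rw [mem_filter, mem_filter, Nat.mem_primeFactors, Nat.mem_primesLE]
  constructor
  · rintro ⟨⟨h1, h2, _⟩, h3⟩
    exact ⟨⟨not_lt.1 h3, h1⟩, h2⟩
  · rintro ⟨⟨h1, h2⟩, h3⟩
    exact ⟨⟨h2, h3, hr⟩, not_lt.2 h1⟩

lemma gr_eq {z r : ℕ} (hr : r ≠ 0) (n : ℕ) :
    gr r n = bg z r n * ∏ p ∈ (Nat.primesLE z).filter (fun p => p ∣ r), (1 + gp p n) := by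
  unfold gr bg
  rw [← small_eq hr, Finset.prod_filter_mul_prod_filter_not]

lemma ss_one (z n : ℕ) : SS z 1 n = ∏ p ∈ Nat.primesLE z, (1 + gp p n) := by
  unfold SS
  rw [Finset.filter_true_of_mem]
  intro p hp h
  exact (Nat.mem_primesLE.1 hp).2.one_lt.ne' (Nat.dvd_one.1 h)

lemma gr_mul_SS {z r : ℕ} (hr : r ≠ 0) (n : ℕ) : gr r n * SS z r n = bg z r n * SS z 1 n := by
  rw [gr_eq hr, ss_one, mul_assoc]
  congr 1
  unfold SS
  rw [Finset.prod_filter_mul_prod_filter_not]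

lemma two_pow_card_le {r : ℕ} (hr : r ≠ 0) : 2 ^ r.primeFactors.card ≤ r := by
  have h1 : ∏ p ∈ r.primeFactors, 2 ≤ ∏ p ∈ r.primeFactors, p :=
    Finset.prod_le_prod' fun p hp => (Nat.prime_of_mem_primeFactors hp).two_le
  rw [Finset.prod_const] at h1
  exact h1.trans (Nat.le_of_dvd (Nat.pos_of_ne_zero hr) (Nat.prod_primeFactors_dvd r))

lemma card_le {r X : ℕ} (hr : r ≠ 0) (hrX : r ≤ X) : (r.primeFactors.card : ℝ) ≤ 2 * Real.log X := by
  have h1 : ((2 : ℕ) ^ r.primeFactors.card : ℕ) ≤ X := (two_pow_card_le hr).trans hrX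
  have h2 : ((2 : ℝ) ^ r.primeFactors.card) ≤ X := by exact_mod_cast h1
  have h3 := Real.log_le_log (by positivity) h2
  rw [Real.log_pow] at h3
  have h4 : (1 : ℝ) / 2 ≤ Real.log 2 := by linarith [Real.log_two_gt_d9]
  have h5 : (0 : ℝ) ≤ r.primeFactors.card := Nat.cast_nonneg _
  nlinarith

lemma bg_le {z r X n : ℕ} (hr : r ≠ 0) (hrX : r ≤ X) (hz : 1 ≤ z)
    (hL : 2 * Real.log X ≤ z * Real.log 2) : bg z r n ≤ 2 := by
  have hz0 : (0 : ℝ) < z := by exact_mod_cast hz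
  have h1 : bg z r n ≤ (1 + 1 / (z : ℝ)) ^ r.primeFactors.card := by
    unfold bg
    calc ∏ p ∈ r.primeFactors.filter (fun p => z < p), (1 + gp p n)
        ≤ ∏ p ∈ r.primeFactors.filter (fun p => z < p), (1 + 1 / (z : ℝ)) := by
          refine Finset.prod_le_prod (fun p hp => ?_) (fun p hp => ?_)
          · exact one_add_gp_nonneg (Nat.prime_of_mem_primeFactors (mem_filter.1 hp).1) n
          · have hp1 := (mem_filter.1 hp).2
            have h2 := (abs_le.1 (abs_gp_le (Nat.prime_of_mem_primeFactors (mem_filter.1 hp).1) n)).2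
            have h3 : (z : ℝ) ≤ (p : ℝ) - 1 := by
              have : (z : ℝ) + 1 ≤ p := by exact_mod_cast hp1
              linarith
            have h4 : 1 / ((p : ℝ) - 1) ≤ 1 / (z : ℝ) := one_div_le_one_div_of_le hz0 h3
            linarith
      _ = (1 + 1 / (z : ℝ)) ^ (r.primeFactors.filter (fun p => z < p)).card := Finset.prod_const _
      _ ≤ (1 + 1 / (z : ℝ)) ^ r.primeFactors.card := by
          refine pow_le_pow_right₀ ?_ (card_le_card (filter_subset _ _))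
          have : 0 ≤ 1 / (z : ℝ) := by positivity
          linarith
  refine h1.trans ?_
  have h5 : 1 + 1 / (z : ℝ) ≤ Real.exp (1 / z) := by
    have := Real.add_one_le_exp (1 / (z : ℝ))
    linarith
  have h6 : (1 + 1 / (z : ℝ)) ^ r.primeFactors.card ≤ Real.exp (1 / z) ^ r.primeFactors.card :=
    pow_le_pow_left₀ (by positivity) h5 _
  refine h6.trans ?_
  rw [← Real.exp_nat_mul]
  have h7 : (r.primeFactors.card : ℝ) * (1 / z) ≤ Real.log 2 := by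
    rw [mul_one_div, div_le_iff₀ hz0]
    have := card_le hr hrX
    linarith
  calc Real.exp ((r.primeFactors.card : ℝ) * (1 / z)) ≤ Real.exp (Real.log 2) := Real.exp_le_exp.2 h7
    _ = 2 := Real.exp_log (by norm_num)

/-- The algebra. -/
lemma core {z r n X : ℕ} {DGv err : ℝ} (hr : r ≠ 0) (hrX : r ≤ X) (hz : 1 ≤ z)
    (hL : 2 * Real.log X ≤ z * Real.log 2) (h : |DGv - SS z r n| ≤ err)
    (herr : err * (DZ z)⁻¹ ^ 3 ≤ 1) : gr r n * |DGv| ≤ 4 * SS z 1 n := by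
  set D := (DZ z)⁻¹ with hD
  have hD0 : 0 < D := inv_pos.2 (DZ_pos z)
  have hb := bg_le (n := n) hr hrX hz hL
  have hb0 := bg_nonneg z r n
  have herr0 : 0 ≤ err := (abs_nonneg _).trans h
  have hgr0 : 0 ≤ gr r n := Finset.prod_nonneg fun p hp =>
    one_add_gp_nonneg (Nat.prime_of_mem_primeFactors hp) n
  have hS0 : ∀ r, 0 ≤ SS z r n := fun r => Finset.prod_nonneg fun p hp =>
    one_add_gp_nonneg (Nat.mem_primesLE.1 (mem_filter.1 hp).1).2 n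
  have h1 : gr r n ≤ 2 * D := by
    rw [gr_eq (z := z) hr]
    exact mul_le_mul hb (prod_le_D z n _) (Finset.prod_nonneg fun p hp =>
      one_add_gp_nonneg (Nat.mem_primesLE.1 (mem_filter.1 hp).1).2 n) (by norm_num)
  have h2 : |DGv| ≤ SS z r n + err := by
    have h3 := abs_sub_abs_le_abs_sub DGv (SS z r n)
    rw [abs_of_nonneg (hS0 r)] at h3
    linarith
  have h4 : gr r n * |DGv| ≤ gr r n * SS z r n + gr r n * err := by
    rw [← mul_add]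
    exact mul_le_mul_of_nonneg_left h2 hgr0
  have h5 : gr r n * SS z r n ≤ 2 * SS z 1 n := by
    rw [gr_mul_SS hr]
    exact mul_le_mul_of_nonneg_right hb (hS0 1)
  have h6 : gr r n * err ≤ 2 * D * err := mul_le_mul_of_nonneg_right h1 herr0
  have h7 : D * err ≤ SS z 1 n := by
    have h8 := (ss_bounds z 1 n).1
    have h9 : DZ z ^ 2 = D⁻¹ ^ 2 := by rw [hD, inv_inv]
    rw [h9] at h8
    refine le_trans ?_ h8
    rw [inv_pow, ← one_div, le_div_iff₀ (by positivity)]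
    calc D * err * D ^ 2 = err * D ^ 3 := by ring
      _ ≤ 1 := herr
  nlinarith

/-- `(1 + K log L)^36 = o(L)`. -/
lemma ev_log (K C : ℝ) (hK : 0 ≤ K) (hC : 0 ≤ C) :
    ∀ᶠ L : ℝ in atTop, C * (1 + K * Real.log L) ^ 36 ≤ L := by
  have h1 := (Real.isLittleO_pow_log_id_atTop (n := 36)).def
    (show (0 : ℝ) < 1 / ((C + 1) * (1 + K) ^ 36) by positivity)
  filter_upwards [h1, eventually_ge_atTop (Real.exp 1), eventually_ge_atTop 0] with L h2 h3 h4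
  have hl : 1 ≤ Real.log L := by
    rw [Real.le_log_iff_exp_le (lt_of_lt_of_le (Real.exp_pos 1) h3)]
    exact h3
  simp only [id, Real.norm_eq_abs] at h2
  rw [abs_of_nonneg (by positivity), abs_of_nonneg h4] at h2
  have h5 : (1 + K * Real.log L) ^ 36 ≤ ((1 + K) * Real.log L) ^ 36 := by
    refine pow_le_pow_left₀ (by positivity) ?_ _
    nlinarith
  rw [mul_pow] at h5
  have h6 : 0 < (C + 1) * (1 + K) ^ 36 := by positivity
  calc C * (1 + K * Real.log L) ^ 36 ≤ (C + 1) * ((1 + K) ^ 36 * Real.log L ^ 36) := by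
        refine mul_le_mul (by linarith) h5 (by positivity) (by linarith)
    _ = (C + 1) * (1 + K) ^ 36 * Real.log L ^ 36 := by ring
    _ ≤ (C + 1) * (1 + K) ^ 36 * (1 / ((C + 1) * (1 + K) ^ 36) * L) :=
        mul_le_mul_of_nonneg_left h2 h6.le
    _ = L := by
        rw [← mul_assoc, mul_one_div_cancel h6.ne', one_mul]

lemma ev_exp (m : ℕ) : ∀ᶠ L : ℝ in atTop, L ^ m * Real.exp (-(Real.sqrt L / 2)) ≤ 1 := by
  have h1 := Real.tendsto_pow_mul_exp_neg_atTop_nhds_zero (2 * m)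
  have h2 : Tendsto (fun L : ℝ => Real.sqrt L / 2) atTop atTop :=
    Real.tendsto_sqrt_atTop.atTop_div_const (by norm_num)
  have h3 := (h1.comp h2).eventually (gt_mem_nhds (show (0 : ℝ) < 1 / 4 ^ m by positivity))
  filter_upwards [h3, eventually_ge_atTop 0] with L h4 h5
  simp only [Function.comp] at h4
  have h6 : L = 4 * (Real.sqrt L / 2) ^ 2 := by
    rw [div_pow, Real.sq_sqrt h5]
    ring
  have h7 : L ^ m = 4 ^ m * (Real.sqrt L / 2) ^ (2 * m) := by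
    conv_lhs => rw [h6]
    rw [mul_pow, ← pow_mul]
  rw [h7, mul_assoc]
  have h8 : (0 : ℝ) < 4 ^ m := by positivity
  rw [lt_div_iff₀ h8] at h4
  linarith

lemma ev (A B1 : ℕ) (hB1 : 16 * (A + 4) ≤ B1) : ∃ X0 : ℕ, ∀ X Q : ℕ, X0 ≤ X →
    Real.exp (Real.sqrt (Real.log X) / 2) ≤ Q →
    1 ≤ zA B1 X ∧ 1 ≤ Real.log X ∧ 2 * Real.log X ≤ zA B1 X * Real.log 2 ∧ 1 ≤ Q ∧
    (30 * (zA B1 X : ℝ) ^ (-(1 / 16 : ℝ)) * (DZ (zA B1 X))⁻¹ + (Q : ℝ)⁻¹) *
      (DZ (zA B1 X))⁻¹ ^ 3 * Real.log X ^ A ≤ 1 := by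
  have hlog : Tendsto (fun X : ℕ => Real.log (X : ℝ)) atTop atTop :=
    Real.tendsto_log_atTop.comp tendsto_natCast_atTop_atTop
  have e1 := hlog.eventually (ev_log B1 (61 * Real.exp 10 ^ 4) (Nat.cast_nonneg _) (by positivity))
  have e2 := hlog.eventually (ev_exp (A + 4))
  have e3 := hlog.eventually (eventually_ge_atTop (8 : ℝ))
  obtain ⟨X0, hX0⟩ := eventually_atTop.1 (e1.and (e2.and e3))
  refine ⟨X0, fun X Q hX hQ => ?_⟩
  obtain ⟨h1, h2, h3⟩ := hX0 X hX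
  set L := Real.log X with hL
  set z := zA B1 X with hz
  have hB1' : 1 ≤ B1 := by omega
  have hL1 : 1 ≤ L := by linarith
  have hLB : L ^ (16 * (A + 4)) ≤ L ^ B1 := pow_le_pow_right₀ hL1 hB1
  have hL64 : L ^ 2 ≤ L ^ B1 := pow_le_pow_right₀ hL1 (by omega)
  have hzl : L ^ B1 / 2 ≤ z := by
    have h4 := Nat.sub_one_lt_floor (L ^ B1)
    have h5 : ((⌊L ^ B1⌋₊ : ℕ) : ℝ) = z := by rw [hz]; rfl
    rw [h5] at h4
    nlinarith
  have hzu : (z : ℝ) ≤ L ^ B1 := by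
    have h4 := Nat.floor_le (show (0 : ℝ) ≤ L ^ B1 by positivity)
    have h5 : ((⌊L ^ B1⌋₊ : ℕ) : ℝ) = z := by rw [hz]; rfl
    rwa [h5] at h4
  have hz1 : (1 : ℝ) ≤ z := by nlinarith
  have hz0 : (0 : ℝ) < z := by linarith
  have hQ0 : (0 : ℝ) < Q := lt_of_lt_of_le (Real.exp_pos _) hQ
  have hQi : (Q : ℝ)⁻¹ ≤ Real.exp (-(Real.sqrt L / 2)) := by
    rw [Real.exp_neg]
    exact inv_anti₀ (Real.exp_pos _) hQ
  set D := (DZ z)⁻¹ with hD
  have hD0 : 0 < D := inv_pos.2 (DZ_pos z)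
  have hDu : D ≤ Real.exp 10 * (1 + B1 * Real.log L) ^ 9 := by
    refine (L2bdAux.inv_DZ z).trans ?_
    have h6 : Real.log z ≤ B1 * Real.log L := by
      rw [← Real.log_pow]
      exact Real.log_le_log hz0 hzu
    have h7 : 0 ≤ Real.log (z : ℝ) := Real.log_natCast_nonneg z
    gcongr
  have hD1 : 1 ≤ D := by
    have := prod_le_D z 0 (fun _ => False)
    simpa using this
  have hD4 : 61 * D ^ 4 ≤ L := by
    have h8 : D ^ 4 ≤ (Real.exp 10 * (1 + B1 * Real.log L) ^ 9) ^ 4 := pow_le_pow_left₀ hD0.le hDu 4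
    have h9 : (Real.exp 10 * (1 + B1 * Real.log L) ^ 9) ^ 4 =
        Real.exp 10 ^ 4 * (1 + B1 * Real.log L) ^ 36 := by
      rw [mul_pow, ← pow_mul]
    rw [h9] at h8
    nlinarith
  have hzr : (z : ℝ) ^ (-(1 / 16 : ℝ)) * L ^ (A + 4) ≤ 2 := by
    have h10 : (L ^ (A + 4) / 2) ^ 16 ≤ z := by
      refine le_trans ?_ hzl
      rw [div_pow, ← pow_mul, mul_comm (A + 4) 16]
      have h11 : (0 : ℝ) ≤ L ^ (16 * (A + 4)) := by positivity
      have h12 : L ^ (16 * (A + 4)) / 2 ^ 16 ≤ L ^ (16 * (A + 4)) / 2 := by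
        refine div_le_div_of_nonneg_left h11 (by norm_num) (by norm_num)
      linarith
    have h13 : L ^ (A + 4) / 2 ≤ (z : ℝ) ^ (1 / 16 : ℝ) := by
      have h14 := Real.rpow_le_rpow (by positivity) h10 (show (0 : ℝ) ≤ 1 / 16 by norm_num)
      have h15 : ((L ^ (A + 4) / 2) ^ 16) ^ (1 / 16 : ℝ) = L ^ (A + 4) / 2 := by
        rw [← Real.rpow_natCast, ← Real.rpow_mul (by positivity)]
        norm_num
      rwa [h15] at h14
    have h16 : 0 < (z : ℝ) ^ (1 / 16 : ℝ) := Real.rpow_pos_of_pos hz0 _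
    rw [Real.rpow_neg hz0.le, inv_mul_le_iff₀ h16]
    linarith
  have hz16 : 0 ≤ (z : ℝ) ^ (-(1 / 16 : ℝ)) := by positivity
  refine ⟨by exact_mod_cast hz1, hL1, ?_, by exact_mod_cast hQ0, ?_⟩
  · have h17 : (1 : ℝ) / 2 ≤ Real.log 2 := by linarith [Real.log_two_gt_d9]
    nlinarith
  · have hL3 : (1 : ℝ) ≤ L ^ 3 := one_le_pow₀ hL1
    have hLA : 0 < L ^ A := by positivity
    -- the two parts, multiplied by `L ^ (A + 4)`
    have h18 : (30 * (z : ℝ) ^ (-(1 / 16 : ℝ)) * D + (Q : ℝ)⁻¹) * L ^ (A + 4) ≤ 61 * D := by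
      have h19 : (Q : ℝ)⁻¹ * L ^ (A + 4) ≤ 1 := by
        refine le_trans (mul_le_mul_of_nonneg_right hQi (by positivity)) ?_
        rw [mul_comm]
        exact h2
      have h20 : 30 * (z : ℝ) ^ (-(1 / 16 : ℝ)) * D * L ^ (A + 4) ≤ 60 * D := by
        have : 30 * (z : ℝ) ^ (-(1 / 16 : ℝ)) * D * L ^ (A + 4) =
            30 * D * ((z : ℝ) ^ (-(1 / 16 : ℝ)) * L ^ (A + 4)) := by ring
        rw [this]
        nlinarith
      rw [add_mul]
      linarith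
    have h21 : (30 * (z : ℝ) ^ (-(1 / 16 : ℝ)) * D + (Q : ℝ)⁻¹) * D ^ 3 * L ^ A * L ^ 4 ≤ L := by
      calc (30 * (z : ℝ) ^ (-(1 / 16 : ℝ)) * D + (Q : ℝ)⁻¹) * D ^ 3 * L ^ A * L ^ 4
          = ((30 * (z : ℝ) ^ (-(1 / 16 : ℝ)) * D + (Q : ℝ)⁻¹) * L ^ (A + 4)) * D ^ 3 := by
            rw [pow_add]; ring
        _ ≤ 61 * D * D ^ 3 := mul_le_mul_of_nonneg_right h18 (by positivity)
        _ = 61 * D ^ 4 := by ring
        _ ≤ L := hD4
    have h22 : L ≤ 1 * L ^ 4 := by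
      rw [one_mul]
      calc L = L ^ 1 := (pow_one L).symm
        _ ≤ L ^ 4 := pow_le_pow_right₀ hL1 (by norm_num)
    have h23 : (0 : ℝ) < L ^ 4 := by positivity
    exact le_of_mul_le_mul_right (h21.trans h22) h23

lemma rho_one' : rho one = 1 := by
  unfold rho md one
  simp

lemma aX_one (n : ℕ) : aX one n = 1 := by
  unfold aX
  have h : md one = 1 := rfl
  rw [h]
  unfold av
  rw [Finset.sum_range_one, Nat.cast_one, div_one]
  unfold cv one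
  have hsub : Subsingleton (ZMod (0 + 1)) := inferInstanceAs (Subsingleton (ZMod 1))
  have h2 : IsUnit ((sq 1 n 0 : ℕ) : ZMod (0 + 1)) := isUnit_of_subsingleton _
  rw [MulChar.one_apply h2, map_one]

end TxAux

open TxAux

theorem tx (A B1 : ℕ) (hB1 : 16 * (A + 4) ≤ B1) : ∃ X0 : ℕ, ∀ X Q : ℕ, X0 ≤ X → Q ≤ X →
    Real.exp (Real.sqrt (Real.log X) / 2) ≤ Q → ∀ n : ℕ,
    Good (zA B1 X) (Q ^ (8 * B1)) n (30 * (zA B1 X : ℝ) ^ (-(1 / 16 : ℝ))) →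
    (∀ x ∈ Ch Q, ‖((rho x : ℂ) * aX x n) * (DG (Q ^ (8 * B1)) (md x) n : ℂ)‖ ≤ 4 * SS (zA B1 X) 1 n) ∧
    ‖((rho one : ℂ) * aX one n) * (DG (Q ^ (8 * B1)) (md one) n : ℂ) - (SS (zA B1 X) 1 n : ℂ)‖ ≤
      SS (zA B1 X) 1 n / Real.log X ^ A ∧
    ∀ x ∈ Ch Q, x.2 ^ 2 = 1 → ‖((rho x : ℂ) * aX x n) * (DG (Q ^ (8 * B1)) (md x) n : ℂ)‖ ≤
      20 * Gs (md x) n * SS (zA B1 X) 1 n := by
  obtain ⟨X1, hX1⟩ := ser B1 (by omega)
  obtain ⟨X2, hX2⟩ := ev A B1 hB1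
  refine ⟨max X1 X2, fun X Q hX hQX hQ n hG => ?_⟩
  have hs := hX1 X Q ((le_max_left _ _).trans hX) hQ
  obtain ⟨hz, hL1, hzL, hQ1, herr⟩ := hX2 X Q ((le_max_right _ _).trans hX) hQ
  set z := zA B1 X with hzdef
  set L := Real.log X with hL
  set Y := Q ^ (8 * B1) with hY
  set δ := 30 * (z : ℝ) ^ (-(1 / 16 : ℝ)) with hδ
  set D := (DZ z)⁻¹ with hD
  have hδ0 : 0 ≤ δ := by rw [hδ]; positivity
  have hD0 : 0 < D := inv_pos.2 (DZ_pos z)
  have hLA : 1 ≤ L ^ A := one_le_pow₀ hL1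
  have hQY : Q ≤ Y := by
    rw [hY]
    exact Nat.le_self_pow (by omega) Q
  have herr0 : 0 ≤ (δ * D + (Q : ℝ)⁻¹) * D ^ 3 := by positivity
  have herr1 : (δ * D + (Q : ℝ)⁻¹) * D ^ 3 ≤ 1 := by
    calc (δ * D + (Q : ℝ)⁻¹) * D ^ 3 = (δ * D + (Q : ℝ)⁻¹) * D ^ 3 * 1 := (mul_one _).symm
      _ ≤ (δ * D + (Q : ℝ)⁻¹) * D ^ 3 * L ^ A := mul_le_mul_of_nonneg_left hLA herr0
      _ ≤ 1 := herr
  have hcore : ∀ x ∈ Ch Q, gr (md x) n * |DG Y (md x) n| ≤ 4 * SS z 1 n := by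
    intro x hx
    have h1 : md x ≤ Q := (mem_Ch.1 hx).1
    exact core (md_pos x).ne' (h1.trans hQX) hz hzL (hs (md x) n δ (md_pos x) (h1.trans hQY) hδ0 hG) herr1
  have hS0 : 0 ≤ SS z 1 n := Finset.prod_nonneg fun p hp =>
    one_add_gp_nonneg (Nat.mem_primesLE.1 (mem_filter.1 hp).1).2 n
  refine ⟨fun x hx => ?_, ?_, fun x hx hx2 => ?_⟩
  · rw [norm_mul, Complex.norm_real, Real.norm_eq_abs]
    exact (mul_le_mul_of_nonneg_right (dom x n) (abs_nonneg _)).trans (hcore x hx)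
  · rw [rho_one', aX_one, Complex.ofReal_one, one_mul, one_mul, ← Complex.ofReal_sub, Complex.norm_real,
      Real.norm_eq_abs]
    have h1 : md one = 1 := rfl
    rw [h1]
    refine (hs 1 n δ le_rfl (hQ1.trans hQY) hδ0 hG).trans ?_
    rw [le_div_iff₀ (by positivity)]
    have h2 := (ss_bounds z 1 n).1
    refine le_trans ?_ h2
    have h3 : DZ z ^ 2 = 1 / D ^ 2 := by rw [hD, inv_pow, one_div, inv_inv]
    rw [h3, le_div_iff₀ (by positivity)]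
    have hD1 : 1 ≤ D := by
      have := prod_le_D z 0 (fun _ => False)
      simpa using this
    have h4 : 0 ≤ (δ * D + (Q : ℝ)⁻¹) * L ^ A * D ^ 2 := by positivity
    calc (δ * D + (Q : ℝ)⁻¹) * L ^ A * D ^ 2 ≤ (δ * D + (Q : ℝ)⁻¹) * L ^ A * D ^ 2 * D := by
          nlinarith
      _ = (δ * D + (Q : ℝ)⁻¹) * D ^ 3 * L ^ A := by ring
      _ ≤ 1 := herr
  · rw [norm_mul, Complex.norm_real, Real.norm_eq_abs]
    have h1 := exc_loc x (mem_Ch.1 hx).2 hx2 n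
    have hG0 : 0 ≤ Gs (md x) n := SqAux.Gs_nonneg _ _
    calc ‖(rho x : ℂ) * aX x n‖ * |DG Y (md x) n| ≤ 5 * Gs (md x) n * gr (md x) n * |DG Y (md x) n| :=
          mul_le_mul_of_nonneg_right h1 (abs_nonneg _)
      _ = 5 * Gs (md x) n * (gr (md x) n * |DG Y (md x) n|) := by ring
      _ ≤ 5 * Gs (md x) n * (4 * SS z 1 n) := mul_le_mul_of_nonneg_left (hcore x hx) (by positivity)
      _ = 20 * Gs (md x) n * SS z 1 n := by ring

end Pool.Agent.Lib.SPP
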