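import Pool.Agent.Lib.SPP.SqAux
import Pool.Agent.Lib.SPP.Diff
import Pool.Agent.Lib.SPP.MainS
import Pool.Agent.Lib.SPP.Rgh
import Pool.Agent.Lib.SPP.Tx

/-!
# SPP.CoreG: the sum over `n - m²` of the weighted primes, intervals with end points in a grid (1.5 h)

PROOF. `Y = Q^(8 B1)`, `z = zA B1 X`. `F` = union of the sets of `diff` (`B0 = 8 B1`) and `rgh` (`Y^400 ≤ X` if `c ≤ 1/(3200 B1)`): at most `X Q^(-1/10) + X^(99/100) ≤ X Q^(-1/20)`. Let `n ∉ F`,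
`s = Nat.sqrt n`, `u = gd X G i`, `v = gd X G j`, `M₁ = min u s`, `M₂ = min v s`; `{m ∈ (u,v] : m² ≤ n} = (M₁, M₂]`. So up to `√X Q^(-1/10)` the sum of `W` is `∑_{m ∈ (M₁,M₂]} LL(n - m²)`, and by
`main_sum` (error `4 Q² Y² (B + 40 Q^7) ≤ √X/Q` if `c` is small) it is `∑_{x ∈ Ch Q} T_x ∑_m Mc X Q x (n - m²)`, `T_x = rho x aX x n DG Y (md x) n`, bounded in `tx`. Put `S = SS z 1 n`, `Λ = M₂ - M₁`.
`x ∉ M`: at most `∑ 4 S b x Λ ≤ 4 S E Λ`. `x = one`: `|T_one - S| ≤ S (log X)^(-A)`, `‖∑ Mc‖ ≤ B Λ`; `‖Mc one (k) - 1‖ ≤ E` for `k = n - m²` with `3X ≤ k Q` (`k Q + X ≤ 2 X Q` holds as `k ≤ X`, `Q ≥ 1`), the `m ≤ s` with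
`(n - m²) Q < 3 X` are at most `√(3X/Q) + 1` (if `m₁` is the least, `(√n - m₁)² ≤ n - m₁² < 3X/Q`), each of them costs at most `B + 1`. `x = xe` (only if `q ≠ 0`, `q = md xe`): `20 Gs q n S · B Λ`.
Total: `S Λ (4 E + B (log X)^(-A) + E + 20 B Gs) + √X Q^(-1/10) + √X/Q + S (B+1)(√(3X/Q) + 2)`, and `S ≤ (DZ z)^(-1) ≤ Q^(1/20)`-small. (`b x ≥ 0`, so `B ≥ 0`.)
-/

set_option autoImplicit false

open Finset Filter

namespace Pool.Agent.Lib.SPP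

open Pool.Agent.HLB Pool.Agent.HLT Pool.Agent.HLR Pool.Agent.Lib.GMV

namespace CoreGAux

/-- Splitting an interval by a decreasing predicate. -/
lemma split (P : ℕ → Prop) (hP : ∀ m m' : ℕ, m ≤ m' → P m' → P m) (M₁ M₂ : ℕ) (h : M₁ ≤ M₂) :
    ∃ M' : ℕ, M₁ ≤ M' ∧ M' ≤ M₂ ∧ (∀ m, M₁ < m → m ≤ M' → P m) ∧ (∀ m, M' < m → m ≤ M₂ → ¬ P m) := by
  classical
  by_cases hh : ∃ m, M₁ < m ∧ m ≤ M₂ ∧ ¬ P m
  · obtain ⟨m0, hm0⟩ : ∃ m0, m0 = Nat.find hh := ⟨_, rfl⟩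
    obtain ⟨h1, h2, h3⟩ := Nat.find_spec hh
    rw [← hm0] at h1 h2 h3
    refine ⟨m0 - 1, by omega, by omega, fun m hm hm' => ?_, fun m hm hm' hPm => h3 (hP m0 m (by omega) hPm)⟩
    by_contra hc
    exact Nat.find_min hh (m := m) (by omega) ⟨hm, by omega, hc⟩
  · push Not at hh
    exact ⟨M₂, h, le_rfl, fun m hm hm' => hh m hm hm', fun m hm hm' => by omega⟩

/-- The number of the integers `m ≤ √n` with `n - m² < 4X/Q`. -/
lemma late {X Q n M' M₂ : ℕ} (hQ : 1 ≤ Q) (hQX : Q ≤ X) (h2 : M₂ ^ 2 ≤ n) (hM : M' ≤ M₂)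
    (h : M' < M₂ → ((n - (M' + 1) ^ 2 : ℕ) : ℝ) * Q < 4 * X) :
    ((M₂ - M' : ℕ) : ℝ) ≤ 3 * Real.sqrt (X / Q) := by
  have hQr : (1 : ℝ) ≤ Q := by exact_mod_cast hQ
  have hXQ : (1 : ℝ) ≤ (X : ℝ) / Q := by
    rw [le_div_iff₀ (by linarith), one_mul]
    exact_mod_cast hQX
  have hs1 : 1 ≤ Real.sqrt (X / Q) := by
    rw [show (1 : ℝ) = Real.sqrt 1 by simp]
    exact Real.sqrt_le_sqrt hXQ
  rcases Nat.lt_or_ge M' M₂ with hlt | hge
  · have h3 := h hlt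
    have h4 : (M' + 1) ^ 2 ≤ n := (Nat.pow_le_pow_left (by omega) 2).trans h2
    rw [Nat.cast_sub h4] at h3
    push_cast at h3
    have h5 : (n : ℝ) - ((M' : ℝ) + 1) ^ 2 < 4 * (X / Q) := by
      rw [← mul_div_assoc, lt_div_iff₀ (by linarith)]
      exact h3
    have h6 : (M₂ : ℝ) ^ 2 ≤ n := by exact_mod_cast h2
    have h7 : ((M' : ℝ) + 1) ≤ M₂ := by exact_mod_cast hlt
    have hM'0 : (0 : ℝ) ≤ M' := Nat.cast_nonneg _
    have h8 : ((M₂ : ℝ) - (M' + 1)) ^ 2 ≤ 4 * (X / Q) := by nlinarith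
    have h9 : (M₂ : ℝ) - (M' + 1) ≤ 2 * Real.sqrt (X / Q) := by
      have h10 : Real.sqrt (4 * (X / Q)) = 2 * Real.sqrt (X / Q) := by
        rw [Real.sqrt_mul (by norm_num)]
        congr 1
        rw [show (4 : ℝ) = 2 ^ 2 by norm_num, Real.sqrt_sq (by norm_num)]
      rw [← h10]
      exact Real.le_sqrt_of_sq_le h8
    rw [Nat.cast_sub hM]
    linarith
  · have : M₂ - M' = 0 := by omega
    rw [this, Nat.cast_zero]
    linarith

/-- The interval. -/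
lemma filt {a b n : ℕ} : (Ioc a b).filter (fun m => m ^ 2 ≤ n) =
    Ioc (min a (Nat.sqrt n)) (min b (Nat.sqrt n)) := by
  ext m
  rw [Finset.mem_filter, Finset.mem_Ioc, Finset.mem_Ioc, ← Nat.le_sqrt']
  omega

/-- The size of the singular series. -/
lemma ss_le (B1 X n : ℕ) (hL : 1 ≤ Real.log X) :
    SS (zA B1 X) 1 n ≤ Real.exp 10 * (1 + B1) ^ 9 * Real.log X ^ 9 := by
  refine (ss_bounds _ _ _).2.trans ((L2bdAux.inv_DZ _).trans ?_)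
  have h1 : (0 : ℝ) ≤ Real.log (zA B1 X : ℝ) := Real.log_natCast_nonneg _
  have h2 : Real.log (zA B1 X : ℝ) ≤ B1 * Real.log X := by
    have h3 : ((zA B1 X : ℕ) : ℝ) ≤ Real.log X ^ B1 := by
      unfold zA
      exact Nat.floor_le (by positivity)
    rcases Nat.eq_zero_or_pos (zA B1 X) with h | h
    · rw [h, Nat.cast_zero, Real.log_zero]
      positivity
    · have h4 : Real.log (zA B1 X : ℝ) ≤ Real.log (Real.log X ^ B1) :=
        Real.log_le_log (by exact_mod_cast h) h3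
      rw [Real.log_pow] at h4
      refine h4.trans (mul_le_mul_of_nonneg_left ?_ (Nat.cast_nonneg _))
      have := Real.log_le_sub_one_of_pos (show 0 < Real.log X by linarith)
      linarith
  have h5 : 1 + Real.log (zA B1 X : ℝ) ≤ (1 + B1) * Real.log X := by
    nlinarith
  rw [mul_assoc, ← mul_pow]
  exact mul_le_mul_of_nonneg_left (pow_le_pow_left₀ (by linarith) h5 9) (Real.exp_pos _).le

end CoreGAux

open CoreGAux DiffAux SqAux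

open scoped Classical in
theorem coreG (A B1 : ℕ) (hB1 : 16 * (A + 4) ≤ B1) (B : ℝ) : ∃ c C : ℝ, 0 < c ∧ 0 < C ∧ ∃ X0 : ℕ,
    ∀ X Q : ℕ, X0 ≤ X → Rg c X Q → ∀ b : CI → ℝ, (∀ x ∈ Ch Q, ∀ n, ‖Mc X Q x n‖ ≤ b x) →
    ∑ x ∈ Ch Q, b x ≤ B → ∀ (M : Finset CI) (q : ℕ) (E : ℝ), Kept Q M q →
    ∑ x ∈ Ch Q \ M, b x ≤ E →
    (∀ n : ℕ, 3 * X ≤ n * Q → n * Q + X ≤ 2 * X * Q → ‖Mc X Q one n - 1‖ ≤ E) →
    ∀ G : ℕ, 1 ≤ G → (G : ℝ) ≤ (Q : ℝ) ^ (1 / 40 : ℝ) →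
    ∃ F ⊆ Icc 1 X, (F.card : ℝ) ≤ X * (Q : ℝ) ^ (-(1 / 20 : ℝ)) ∧ ∀ n ∈ Icc 1 X, n ∉ F →
      ∀ i j : ℕ, i ≤ j → j ≤ G →
      |∑ m ∈ Ioc (min (gd X G i) (Nat.sqrt n)) (min (gd X G j) (Nat.sqrt n)), W X Q (n - m ^ 2) -
        SS (zA B1 X) 1 n * ((min (gd X G j) (Nat.sqrt n) : ℕ) - (min (gd X G i) (Nat.sqrt n) : ℕ) : ℝ)| ≤
      C * SS (zA B1 X) 1 n * ((min (gd X G j) (Nat.sqrt n) : ℕ) - (min (gd X G i) (Nat.sqrt n) : ℕ) : ℝ) *
        (E + Gs q n + 1 / Real.log X ^ A) + 2 * Real.sqrt X * (Q : ℝ) ^ (-(1 / 10 : ℝ)) := by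
  have hB1' : 64 ≤ B1 := by omega
  obtain ⟨c1, hc1, X1, hdiff⟩ := diff (8 * B1) (by omega) B
  obtain ⟨X2, hrgh⟩ := eventually_atTop.1 (rgh B1 (by omega))
  obtain ⟨X3, htx⟩ := tx A B1 hB1
  obtain ⟨D, hD⟩ : ∃ D : ℝ, D = 1 + 3 * (|B| + 1) * (Real.exp 10 * (1 + B1) ^ 9) := ⟨_, rfl⟩
  obtain ⟨X5, hX5⟩ := eventually_atTop.1 ((log_exp D (1 / 5) 9 (by norm_num)).and
    ((log_exp 2 (1 / 40) 0 (by norm_num)).and ((log_exp 2 (1 / 2) 0 (by norm_num)).and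
      (log_exp (4 * (|B| + 40)) (1 / 2) 0 (by norm_num)))))
  obtain ⟨X6, hX6⟩ := L2bdAux.log_ev 1
  have hB1r : (64 : ℝ) ≤ B1 := by exact_mod_cast hB1'
  obtain ⟨c2, hc2⟩ : ∃ c2 : ℝ, c2 = 1 / (3200 * B1) := ⟨_, rfl⟩
  have hc20 : 0 < c2 := by rw [hc2]; positivity
  refine ⟨min c1 c2, 20 * (|B| + 1), lt_min hc1 hc20, by positivity,
    max X1 (max X2 (max X3 (max X5 (max X6 1)))), ?_⟩
  intro X Q hX hR b hb hB M q E hK hE hone G hG hGQ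
  simp only [max_le_iff] at hX
  obtain ⟨hX1, hX2, hX3, hX5', hX6', hX7⟩ := hX
  obtain ⟨e1, e2, e3, e4⟩ := hX5 X hX5'
  obtain ⟨hL1, -⟩ := hX6 X hX6'
  have hXr : (1 : ℝ) ≤ X := by exact_mod_cast hX7
  have hX0 : (0 : ℝ) < X := by linarith
  have hR1 : Rg c1 X Q := FreeYAux.Rg_mono (min_le_left _ _) hX7 hR
  have hR2 : Rg c2 X Q := FreeYAux.Rg_mono (min_le_right _ _) hX7 hR
  have hQlow := hR.1
  have hq12 : Real.exp (1 / 2 * Real.sqrt (Real.log X)) ≤ (Q : ℝ) := by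
    refine le_trans (le_of_eq ?_) hQlow
    congr 1
    ring
  have hQ2 : (2 : ℝ) ≤ Q := by
    rw [pow_zero, mul_one] at e3
    exact e3.trans hq12
  have hQ2' : 2 ≤ Q := by exact_mod_cast hQ2
  have hQ0 : (0 : ℝ) < Q := by linarith
  have hQ1 : (1 : ℝ) ≤ Q := by linarith
  have hQB : 4 * (|B| + 40) ≤ Q := by
    rw [pow_zero, mul_one] at e4
    exact e4.trans hq12
  have hq20 : 2 ≤ (Q : ℝ) ^ (1 / 20 : ℝ) := by
    rw [pow_zero, mul_one] at e2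
    have h1 := Q_pow hQlow (show (0 : ℝ) ≤ 1 / 20 by norm_num)
    have h2 : (1 : ℝ) / 20 / 2 = 1 / 40 := by norm_num
    rw [h2] at h1
    exact e2.trans h1
  have hq25 : D * Real.log X ^ 9 ≤ (Q : ℝ) ^ (2 / 5 : ℝ) := by
    have h1 := Q_pow hQlow (show (0 : ℝ) ≤ 2 / 5 by norm_num)
    have h2 : (2 : ℝ) / 5 / 2 = 1 / 5 := by norm_num
    rw [h2] at h1
    exact e1.trans h1
  -- powers of `Q` against `X`
  have hQpow : ∀ k : ℕ, ∀ a : ℝ, (k : ℝ) * c2 ≤ a → (Q : ℝ) ^ k ≤ (X : ℝ) ^ a := by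
    intro k a hk
    calc (Q : ℝ) ^ k ≤ ((X : ℝ) ^ c2) ^ k := pow_le_pow_left₀ hQ0.le hR2.2 k
      _ = (X : ℝ) ^ ((k : ℝ) * c2) := by
          rw [← Real.rpow_natCast, ← Real.rpow_mul hX0.le, mul_comm]
      _ ≤ (X : ℝ) ^ a := Real.rpow_le_rpow_of_exponent_le hXr hk
  have hkc : ∀ k : ℕ, ∀ a : ℝ, (k : ℝ) ≤ a * (3200 * B1) → (k : ℝ) * c2 ≤ a := by
    intro k a hk
    rw [hc2, mul_one_div, div_le_iff₀ (by positivity)]
    exact hk
  have hQ5 : Q ^ 5 ≤ X := by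
    have h1 := hQpow 5 1 (hkc 5 1 (by push_cast; linarith))
    rw [Real.rpow_one] at h1
    exact_mod_cast h1
  have hQX : Q ≤ X := (Nat.le_self_pow (by norm_num) Q).trans hQ5
  obtain ⟨Y, hY⟩ : ∃ Y, Y = Q ^ (8 * B1) := ⟨_, rfl⟩
  have hY400 : Y ^ 400 ≤ X := by
    have h1 := hQpow (3200 * B1) 1 (hkc _ 1 (by push_cast; linarith))
    rw [Real.rpow_one] at h1
    have h2 : Y ^ 400 = Q ^ (3200 * B1) := by
      rw [hY, ← pow_mul]
      congr 1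
      ring
    rw [h2]
    exact_mod_cast h1
  have hY1 : 1 ≤ Y := by
    rw [hY]
    exact Nat.one_le_pow _ _ (by omega)
  have hb0 : ∀ x ∈ Ch Q, 0 ≤ b x := fun x hx => (norm_nonneg _).trans (hb x hx 0)
  have hB0 : 0 ≤ B := (Finset.sum_nonneg hb0).trans hB
  have hbB : ∀ x ∈ Ch Q, b x ≤ B := fun x hx => (Finset.single_le_sum hb0 hx).trans hB
  have hE0 : 0 ≤ E := (Finset.sum_nonneg fun x hx => hb0 x (Finset.mem_sdiff.1 hx).1).trans hE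
  have habsB : |B| = B := abs_of_nonneg hB0
  rw [habsB] at hD hQB ⊢
  -- the exceptional set
  obtain ⟨F1, hF1s, hF1c, hF1⟩ := hdiff X Q hX1 hR1 b hb hB G hG hGQ
  obtain ⟨F2, hF2s, hF2c, hF2⟩ := hrgh X hX2 Y hY400
  refine ⟨F1 ∪ F2, Finset.union_subset hF1s hF2s, ?_, ?_⟩
  · have h1 : ((F1 ∪ F2).card : ℝ) ≤ F1.card + F2.card := by exact_mod_cast Finset.card_union_le _ _
    have h2 : (X : ℝ) ^ (1 - 1 / 100 : ℝ) ≤ X * (Q : ℝ) ^ (-(1 / 10 : ℝ)) := by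
      have h3 : (Q : ℝ) ^ (1 / 10 : ℝ) ≤ (X : ℝ) ^ (1 / 100 : ℝ) := by
        have h4 := hQpow 1 (1 / 10) (hkc 1 (1 / 10) (by push_cast; linarith))
        rw [pow_one] at h4
        have h5 := Real.rpow_le_rpow hQ0.le h4 (show (0 : ℝ) ≤ 1 / 10 by norm_num)
        rw [← Real.rpow_mul hX0.le] at h5
        norm_num at h5 ⊢
        exact h5
      rw [show (1 - 1 / 100 : ℝ) = 1 + -(1 / 100) by norm_num, Real.rpow_add hX0, Real.rpow_one]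
      refine mul_le_mul_of_nonneg_left ?_ hX0.le
      rw [Real.rpow_neg hX0.le, Real.rpow_neg hQ0.le]
      exact inv_anti₀ (by positivity) h3
    have h6 : 2 * (Q : ℝ) ^ (-(1 / 10 : ℝ)) ≤ (Q : ℝ) ^ (-(1 / 20 : ℝ)) := by
      calc 2 * (Q : ℝ) ^ (-(1 / 10 : ℝ)) ≤ (Q : ℝ) ^ (1 / 20 : ℝ) * (Q : ℝ) ^ (-(1 / 10 : ℝ)) :=
            mul_le_mul_of_nonneg_right hq20 (by positivity)
        _ = (Q : ℝ) ^ (-(1 / 20 : ℝ)) := by
            rw [← Real.rpow_add hQ0]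
            norm_num
    have h7 := mul_le_mul_of_nonneg_left h6 hX0.le
    linarith
  intro n hn hnF i j hij hj
  rw [Finset.mem_union, not_or] at hnF
  rw [Finset.mem_Icc] at hn
  have hG1 := hF1 n (Finset.mem_Icc.2 hn) hnF.1 i j hij hj
  rw [filt] at hG1
  have hgood := hF2 n (Finset.mem_Icc.2 hn) hnF.2
  rw [hY] at hgood
  obtain ⟨t1, t2, t3⟩ := htx X Q hX3 hQX hQlow n hgood
  rw [← hY] at t1 t2 t3
  have hS0 : 0 ≤ SS (zA B1 X) 1 n := (by positivity : (0 : ℝ) ≤ DZ (zA B1 X) ^ 2).trans (ss_bounds _ _ _).1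
  have hSle := ss_le B1 X n hL1
  obtain ⟨S, hS⟩ : ∃ S, S = SS (zA B1 X) 1 n := ⟨_, rfl⟩
  rw [← hS] at hS0 hSle t1 t2 t3 ⊢
  have hgdm : gd X G i ≤ gd X G j := by
    unfold gd
    exact Nat.div_le_div_right (Nat.mul_le_mul_right _ hij)
  obtain ⟨u, hu⟩ : ∃ u, u = min (gd X G i) (Nat.sqrt n) := ⟨_, rfl⟩
  obtain ⟨v, hv⟩ : ∃ v, v = min (gd X G j) (Nat.sqrt n) := ⟨_, rfl⟩
  have huv : u ≤ v := by omega
  have hvs : v ≤ Nat.sqrt n := by omega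
  have hv2 : v ^ 2 ≤ n := Nat.le_sqrt'.1 hvs
  rw [← hu, ← hv] at hG1 ⊢
  have hms := main_sum X Q Y hQ2' hQ5 hY1 b B hb hB n u v hn.2 huv hv2
  obtain ⟨T, hT⟩ : ∃ T : CI → ℂ, T = fun x => ((rho x : ℂ) * aX x n) * (DG Y (md x) n : ℂ) := ⟨_, rfl⟩
  obtain ⟨R, hRd⟩ : ∃ R : CI → ℂ, R = fun x => ∑ m ∈ Ioc u v, Mc X Q x (n - m ^ 2) := ⟨_, rfl⟩
  have hms' : ‖∑ m ∈ Ioc u v, LL X Q Y (n - m ^ 2) - ∑ x ∈ Ch Q, T x * R x‖ ≤
      4 * (Q : ℝ) ^ 2 * (Y : ℝ) ^ 2 * (B + 40 * (Q : ℝ) ^ 7) := by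
    rw [hT, hRd]
    exact hms
  have tt1 : ∀ x ∈ Ch Q, ‖T x‖ ≤ 4 * S := by rw [hT]; exact t1
  have tt2 : ‖T one - (S : ℂ)‖ ≤ S / Real.log X ^ A := by rw [hT]; exact t2
  have tt3 : ∀ x ∈ Ch Q, x.2 ^ 2 = 1 → ‖T x‖ ≤ 20 * Gs (md x) n * S := by rw [hT]; exact t3
  obtain ⟨Λ, hΛ⟩ : ∃ Λ : ℝ, Λ = (v : ℝ) - u := ⟨_, rfl⟩
  have hΛc : ((Ioc u v).card : ℝ) = Λ := by
    rw [Nat.card_Ioc, Nat.cast_sub huv, hΛ]
  have hΛ0 : 0 ≤ Λ := by rw [← hΛc]; exact Nat.cast_nonneg _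
  have hRb : ∀ x ∈ Ch Q, ‖R x‖ ≤ b x * Λ := by
    intro x hx
    rw [hRd]
    refine (norm_sum_le _ _).trans ((Finset.sum_le_sum fun m _ => hb x hx (n - m ^ 2)).trans ?_)
    rw [Finset.sum_const, nsmul_eq_mul, hΛc, mul_comm]
  have hone1 : one ∈ Ch Q := one_mem_Ch (by omega)
  -- the trivial character
  have hRone : ‖R one - (Λ : ℂ)‖ ≤ E * Λ + 3 * Real.sqrt (X / Q) * (B + 1) := by
    obtain ⟨P, hP⟩ : ∃ P : ℕ → Prop, P = fun m => 3 * X ≤ (n - m ^ 2) * Q := ⟨_, rfl⟩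
    have hPm : ∀ m m' : ℕ, m ≤ m' → P m' → P m := by
      intro m m' hmm
      rw [hP]
      intro h2
      have h3 : m ^ 2 ≤ m' ^ 2 := Nat.pow_le_pow_left hmm 2
      exact le_trans h2 (Nat.mul_le_mul_right _ (Nat.sub_le_sub_left h3 n))
    obtain ⟨M', hM1, hM2, hearly, hlate⟩ := split P hPm u v huv
    have h1 : R one - (Λ : ℂ) = ∑ m ∈ Ioc u v, (Mc X Q one (n - m ^ 2) - 1) := by
      rw [Finset.sum_sub_distrib, hRd, Finset.sum_const, nsmul_eq_mul, mul_one, ← hΛc]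
      push_cast
      ring
    rw [h1, ← Finset.sum_Ioc_consecutive _ hM1 hM2]
    refine (norm_add_le _ _).trans (add_le_add ?_ ?_)
    · refine (norm_sum_le _ _).trans ?_
      have h2 : ∀ m ∈ Ioc u M', ‖Mc X Q one (n - m ^ 2) - 1‖ ≤ E := by
        intro m hm
        rw [Finset.mem_Ioc] at hm
        have h3 := hearly m hm.1 hm.2
        rw [hP] at h3
        refine hone _ h3 ?_
        have h4 : (n - m ^ 2) * Q ≤ X * Q := Nat.mul_le_mul_right _ ((Nat.sub_le _ _).trans hn.2)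
        have h5 : X ≤ X * Q := Nat.le_mul_of_pos_right _ (by omega)
        calc (n - m ^ 2) * Q + X ≤ X * Q + X * Q := add_le_add h4 h5
          _ = 2 * X * Q := by ring
      refine (Finset.sum_le_sum h2).trans ?_
      rw [Finset.sum_const, nsmul_eq_mul, mul_comm, Nat.card_Ioc, Nat.cast_sub hM1]
      refine mul_le_mul_of_nonneg_left ?_ hE0
      have : (M' : ℝ) ≤ v := by exact_mod_cast hM2
      rw [hΛ]
      linarith
    · refine (norm_sum_le _ _).trans ?_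
      have h2 : ∀ m ∈ Ioc M' v, ‖Mc X Q one (n - m ^ 2) - 1‖ ≤ B + 1 := by
        intro m _
        refine (norm_sub_le _ _).trans ?_
        rw [norm_one]
        have := (hb one hone1 (n - m ^ 2)).trans (hbB one hone1)
        linarith
      refine (Finset.sum_le_sum h2).trans ?_
      rw [Finset.sum_const, nsmul_eq_mul, Nat.card_Ioc]
      refine mul_le_mul_of_nonneg_right ?_ (by linarith)
      refine late (n := n) (by omega) hQX hv2 hM2 fun hlt => ?_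
      have h3 := hlate (M' + 1) (by omega) (by omega)
      rw [hP] at h3
      have h4 : (n - (M' + 1) ^ 2) * Q < 3 * X := not_le.1 h3
      have h5 : (((n - (M' + 1) ^ 2) * Q : ℕ) : ℝ) < ((3 * X : ℕ) : ℝ) := by exact_mod_cast h4
      push_cast [Nat.cast_mul] at h5
      rw [← Nat.cast_mul] at *
      push_cast at h5 ⊢
      linarith
  have hTone : ‖T one * R one - (S : ℂ) * (Λ : ℂ)‖ ≤
      S / Real.log X ^ A * (B * Λ) + S * (E * Λ + 3 * Real.sqrt (X / Q) * (B + 1)) := by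
    have h1 : T one * R one - (S : ℂ) * (Λ : ℂ) = (T one - S) * R one + S * (R one - Λ) := by ring
    rw [h1]
    refine (norm_add_le _ _).trans (add_le_add ?_ ?_)
    · rw [norm_mul]
      refine mul_le_mul tt2 ?_ (norm_nonneg _) (by positivity)
      exact (hRb one hone1).trans (mul_le_mul_of_nonneg_right (hbB one hone1) hΛ0)
    · rw [norm_mul, Complex.norm_real, Real.norm_of_nonneg hS0]
      exact mul_le_mul_of_nonneg_left hRone hS0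
  have hGs0 := Gs_nonneg q n
  -- the kept characters
  have hkept : M ⊆ Ch Q ∧ ‖∑ x ∈ M, T x * R x - (S : ℂ) * (Λ : ℂ)‖ ≤
      S / Real.log X ^ A * (B * Λ) + S * (E * Λ + 3 * Real.sqrt (X / Q) * (B + 1)) +
        20 * Gs q n * S * (B * Λ) := by
    rcases hK with ⟨hM, -⟩ | ⟨xe, hxe, hxe1, hxe2, hM, hq⟩
    · refine ⟨by rw [hM, Finset.singleton_subset_iff]; exact hone1, ?_⟩
      rw [hM, Finset.sum_singleton]
      have : 0 ≤ 20 * Gs q n * S * (B * Λ) := by positivity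
      linarith
    · have hne : one ≠ xe := by
        intro h
        rw [← h] at hxe1
        exact hxe1 rfl
      refine ⟨?_, ?_⟩
      · rw [hM]
        intro x hx
        rw [Finset.mem_insert, Finset.mem_singleton] at hx
        rcases hx with rfl | rfl
        · exact hone1
        · exact hxe
      · rw [hM, Finset.sum_pair hne]
        have h1 : T one * R one + T xe * R xe - (S : ℂ) * (Λ : ℂ) =
            (T one * R one - (S : ℂ) * (Λ : ℂ)) + T xe * R xe := by ring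
        rw [h1]
        refine (norm_add_le _ _).trans (add_le_add hTone ?_)
        rw [norm_mul]
        have h2 := tt3 xe hxe hxe2
        rw [← hq] at h2
        refine mul_le_mul h2 ?_ (norm_nonneg _) (by positivity)
        exact (hRb xe hxe).trans (mul_le_mul_of_nonneg_right (hbB xe hxe) hΛ0)
  -- the other characters
  have hother : ‖∑ x ∈ Ch Q \ M, T x * R x‖ ≤ 4 * S * (E * Λ) := by
    refine (norm_sum_le _ _).trans ?_
    have h1 : ∀ x ∈ Ch Q \ M, ‖T x * R x‖ ≤ 4 * S * (b x * Λ) := by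
      intro x hx
      have hx' := (Finset.mem_sdiff.1 hx).1
      rw [norm_mul]
      exact mul_le_mul (tt1 x hx') (hRb x hx') (norm_nonneg _) (by positivity)
    refine (Finset.sum_le_sum h1).trans ?_
    rw [← Finset.mul_sum, ← Finset.sum_mul]
    exact mul_le_mul_of_nonneg_left (mul_le_mul_of_nonneg_right hE hΛ0) (by positivity)
  have hall : ‖∑ x ∈ Ch Q, T x * R x - (S : ℂ) * (Λ : ℂ)‖ ≤
      4 * S * (E * Λ) + (S / Real.log X ^ A * (B * Λ) + S * (E * Λ + 3 * Real.sqrt (X / Q) * (B + 1)) +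
        20 * Gs q n * S * (B * Λ)) := by
    rw [← Finset.sum_sdiff hkept.1, add_sub_assoc]
    exact (norm_add_le _ _).trans (add_le_add hother hkept.2)
  -- the error of `main_sum`
  have herr : 4 * (Q : ℝ) ^ 2 * (Y : ℝ) ^ 2 * (B + 40 * (Q : ℝ) ^ 7) ≤ Real.sqrt X / Q := by
    have h1 : B + 40 * (Q : ℝ) ^ 7 ≤ (B + 40) * (Q : ℝ) ^ 7 := by
      have : 1 ≤ (Q : ℝ) ^ 7 := one_le_pow₀ hQ1
      nlinarith
    rw [le_div_iff₀ hQ0]
    have hYr : (Y : ℝ) = (Q : ℝ) ^ (8 * B1) := by rw [hY]; push_cast; rfl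
    calc 4 * (Q : ℝ) ^ 2 * (Y : ℝ) ^ 2 * (B + 40 * (Q : ℝ) ^ 7) * Q
        ≤ 4 * (Q : ℝ) ^ 2 * (Y : ℝ) ^ 2 * ((B + 40) * (Q : ℝ) ^ 7) * Q :=
          mul_le_mul_of_nonneg_right (mul_le_mul_of_nonneg_left h1 (by positivity)) hQ0.le
      _ = (4 * (B + 40)) * (Q : ℝ) ^ (10 + 16 * B1) := by
          rw [hYr]
          ring
      _ ≤ Q * (Q : ℝ) ^ (10 + 16 * B1) := mul_le_mul_of_nonneg_right hQB (by positivity)
      _ = (Q : ℝ) ^ (11 + 16 * B1) := by ring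
      _ ≤ (X : ℝ) ^ (1 / 2 : ℝ) := hQpow _ _ (hkc _ _ (by push_cast; linarith))
      _ = Real.sqrt X := by rw [Real.sqrt_eq_rpow]
  -- the total
  have hW : ((∑ m ∈ Ioc u v, W X Q (n - m ^ 2) - S * Λ : ℝ) : ℂ) =
      (∑ m ∈ Ioc u v, ((W X Q (n - m ^ 2) : ℂ) - LL X Q Y (n - m ^ 2))) +
      (∑ m ∈ Ioc u v, LL X Q Y (n - m ^ 2) - ∑ x ∈ Ch Q, T x * R x) +
      (∑ x ∈ Ch Q, T x * R x - (S : ℂ) * (Λ : ℂ)) := by
    rw [Finset.sum_sub_distrib]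
    push_cast
    ring
  rw [← hY] at hG1
  have htot : |∑ m ∈ Ioc u v, W X Q (n - m ^ 2) - S * Λ| ≤
      Real.sqrt X * (Q : ℝ) ^ (-(1 / 10 : ℝ)) + Real.sqrt X / Q +
      (4 * S * (E * Λ) + (S / Real.log X ^ A * (B * Λ) + S * (E * Λ + 3 * Real.sqrt (X / Q) * (B + 1)) +
        20 * Gs q n * S * (B * Λ))) := by
    rw [← Real.norm_eq_abs, ← Complex.norm_real, hW]
    refine (norm_add_le _ _).trans (add_le_add ((norm_add_le _ _).trans (add_le_add hG1 ?_)) hall)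
    exact hms'.trans herr
  rw [← hΛ]
  refine htot.trans ?_
  -- the small terms
  have hsm : Real.sqrt X / Q + S * (3 * Real.sqrt (X / Q) * (B + 1)) ≤
      Real.sqrt X * (Q : ℝ) ^ (-(1 / 10 : ℝ)) := by
    have h1 : Real.sqrt (X / Q) = Real.sqrt X * (Q : ℝ) ^ (-(1 / 2 : ℝ)) := by
      rw [Real.sqrt_div hX0.le, Real.rpow_neg hQ0.le, ← Real.sqrt_eq_rpow, div_eq_mul_inv]
    have h2 : Real.sqrt X / Q ≤ Real.sqrt X * (Q : ℝ) ^ (-(1 / 2 : ℝ)) := by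
      rw [div_eq_mul_inv]
      refine mul_le_mul_of_nonneg_left ?_ (Real.sqrt_nonneg _)
      rw [← Real.rpow_neg_one]
      exact Real.rpow_le_rpow_of_exponent_le hQ1 (by norm_num)
    have hL9 : 1 ≤ Real.log X ^ 9 := one_le_pow₀ hL1
    have h3 : 1 + 3 * (B + 1) * S ≤ (Q : ℝ) ^ (2 / 5 : ℝ) := by
      refine le_trans ?_ hq25
      rw [hD]
      have h4 : 3 * (B + 1) * S ≤ 3 * (B + 1) * (Real.exp 10 * (1 + B1) ^ 9 * Real.log X ^ 9) :=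
        mul_le_mul_of_nonneg_left hSle (by positivity)
      nlinarith
    rw [h1]
    calc Real.sqrt X / Q + S * (3 * (Real.sqrt X * (Q : ℝ) ^ (-(1 / 2 : ℝ))) * (B + 1))
        ≤ Real.sqrt X * (Q : ℝ) ^ (-(1 / 2 : ℝ)) + S * (3 * (Real.sqrt X * (Q : ℝ) ^ (-(1 / 2 : ℝ))) * (B + 1)) := by
          linarith
      _ = Real.sqrt X * (Q : ℝ) ^ (-(1 / 2 : ℝ)) * (1 + 3 * (B + 1) * S) := by ring
      _ ≤ Real.sqrt X * (Q : ℝ) ^ (-(1 / 2 : ℝ)) * (Q : ℝ) ^ (2 / 5 : ℝ) :=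
          mul_le_mul_of_nonneg_left h3 (by positivity)
      _ = Real.sqrt X * (Q : ℝ) ^ (-(1 / 10 : ℝ)) := by
          rw [mul_assoc, ← Real.rpow_add hQ0]
          norm_num
  -- the main terms
  obtain ⟨w, hw⟩ : ∃ w : ℝ, w = 1 / Real.log X ^ A := ⟨_, rfl⟩
  have hw0 : 0 ≤ w := by rw [hw]; positivity
  have hSw : S / Real.log X ^ A = S * w := by rw [hw]; ring
  rw [hSw, ← hw]
  have hSL : 0 ≤ S * Λ := mul_nonneg hS0 hΛ0
  have m1 : 0 ≤ S * Λ * E := mul_nonneg hSL hE0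
  have m2 : 0 ≤ S * Λ * w := mul_nonneg hSL hw0
  have m3 : 0 ≤ S * Λ * Gs q n := mul_nonneg hSL hGs0
  have m4 : 0 ≤ S * Λ * E * B := mul_nonneg m1 hB0
  have m5 : 0 ≤ S * Λ * w * B := mul_nonneg m2 hB0
  nlinarith

end Pool.Agent.Lib.SPP
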