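import Pool.Agent.Lib.SPP.SqAux
import Pool.Agent.Lib.SPP.CoreG

/-!
# SPP.CoreW: the sum over `n - m²` of the weighted primes, all intervals (1 h)

PROOF. `G = ⌊Q^(1/40)⌋`, `F` from `coreG`. Given `M₁ ≤ M₂`, `M₂² ≤ n` (so `M₂ ≤ s = Nat.sqrt n ≤ Nat.sqrt X = gd X G G`). The grid points `gd X G j` have gaps at most `h = √X/G + 1`. Let `i` be the largest
index with `gd X G i ≤ M₁` and `j` the largest with `gd X G j ≤ M₂`. As `W ≥ 0`, the sum over `(M₁, M₂]` is at most the sum over `(min (gd i) s, min (gd (j+1)) s]` (if `j = G` over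
`(min (gd i) s, s]`, `gd G = Nat.sqrt X ≥ s`), and at least the sum over `(min (gd (i+1)) s, min (gd j) s]` if `i + 1 ≤ j`, at least `0` otherwise (then `M₂ - M₁ ≤ 2h`).
The lengths differ from `M₂ - M₁` by at most `2h`. With `S = SS (zA B1 X) 1 n` and `R = E + Gs q n + (log X)^(-A)` the error is at most `C S (M₂ - M₁ + 2h) R + 2 √X Q^(-1/10) + 2 h S`. Here
`h ≤ 4 √X Q^(-1/40)` (`G ≥ Q^(1/40)/2`, `1 ≤ √X Q^(-1/40)`), `S ≤ (DZ z)^(-1) ≤ log X` and `Gs ≤ 1`, `(log X)^(-A) ≤ 1`; `E ≤ E0` is assumed bounded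
(`E ≤ B` may be assumed: hypothesis `hE1`). So the total is at most `C S (M₂ - M₁) R + C' (log X) √X Q^(-1/40) ≤ .. + √X Q^(-1/50)` for large `X`.
-/

set_option autoImplicit false

open Finset Filter

namespace Pool.Agent.Lib.SPP

open Pool.Agent.HLB Pool.Agent.HLT Pool.Agent.HLR Pool.Agent.Lib.GMV

namespace CoreWAux

lemma gd_zero (X G : ℕ) : gd X G 0 = 0 := by
  unfold gd
  simp

lemma gd_top (X : ℕ) {G : ℕ} (hG : 1 ≤ G) : gd X G G = Nat.sqrt X := by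
  unfold gd
  exact Nat.mul_div_cancel_left _ hG

lemma gd_mono (X G : ℕ) : Monotone (gd X G) := by
  intro i j hij
  unfold gd
  exact Nat.div_le_div_right (Nat.mul_le_mul_right _ hij)

lemma gd_gap (X : ℕ) {G : ℕ} (hG : 1 ≤ G) (i : ℕ) :
    (gd X G (i + 1) : ℝ) - gd X G i ≤ (Nat.sqrt X : ℝ) / G + 1 := by
  have hG0 : (0 : ℝ) < G := by exact_mod_cast hG
  have h1 : (gd X G (i + 1) : ℝ) ≤ ((i + 1 : ℕ) * Nat.sqrt X : ℕ) / (G : ℝ) := by
    unfold gd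
    exact Nat.cast_div_le
  have h2 : ((i * Nat.sqrt X : ℕ) : ℝ) / (G : ℝ) < gd X G i + 1 := by
    rw [div_lt_iff₀ hG0]
    unfold gd
    have h3 := Nat.lt_div_mul_add (a := i * Nat.sqrt X) hG
    have h4 : i * Nat.sqrt X < (i * Nat.sqrt X / G + 1) * G := by
      rw [Nat.add_mul, one_mul]
      exact h3
    exact_mod_cast h4
  have h3 : (((i + 1 : ℕ) * Nat.sqrt X : ℕ) : ℝ) / (G : ℝ) =
      ((i * Nat.sqrt X : ℕ) : ℝ) / (G : ℝ) + (Nat.sqrt X : ℝ) / G := by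
    push_cast
    ring
  linarith

/-- The grid cell of a point. -/
lemma cell (X : ℕ) {G : ℕ} (hG : 1 ≤ G) (M : ℕ) (hM : M ≤ Nat.sqrt X) :
    ∃ i i' : ℕ, i = Nat.findGreatest (fun j => gd X G j ≤ M) G ∧ i ≤ i' ∧ i' ≤ i + 1 ∧ i' ≤ G ∧
      gd X G i ≤ M ∧ M ≤ gd X G i' := by
  set i := Nat.findGreatest (fun j => gd X G j ≤ M) G with hi
  have h0 : gd X G i ≤ M :=
    Nat.findGreatest_spec (P := fun j => gd X G j ≤ M) (m := 0) (Nat.zero_le _) (by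
      show gd X G 0 ≤ M
      rw [gd_zero]
      exact Nat.zero_le _)
  have hiG : i ≤ G := Nat.findGreatest_le _
  rcases Nat.lt_or_ge i G with h | h
  · refine ⟨i, i + 1, rfl, Nat.le_succ _, le_rfl, h, h0, ?_⟩
    have := Nat.findGreatest_is_greatest (P := fun j => gd X G j ≤ M) (n := G) (k := i + 1) (by
      rw [← hi]
      exact Nat.lt_succ_self _) h
    exact (not_le.1 this).le
  · refine ⟨i, i, rfl, le_rfl, Nat.le_succ _, hiG, h0, ?_⟩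
    have h1 : i = G := le_antisymm hiG h
    rw [h1, gd_top X hG]
    exact hM

/-- Enclosing by grid intervals. -/
lemma enclose (X G : ℕ) (hG : 1 ≤ G) (s : ℕ) (hs : s ≤ Nat.sqrt X) (w : ℕ → ℝ) (hw : ∀ m, 0 ≤ w m)
    (S K D h : ℝ) (hS : 0 ≤ S) (hK : 0 ≤ K) (hD : 0 ≤ D) (hh : (Nat.sqrt X : ℝ) / G + 1 ≤ h)
    (hmain : ∀ i j : ℕ, i ≤ j → j ≤ G →
      |∑ m ∈ Ioc (min (gd X G i) s) (min (gd X G j) s), w m -
        S * ((min (gd X G j) s : ℕ) - (min (gd X G i) s : ℕ) : ℝ)| ≤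
      K * ((min (gd X G j) s : ℕ) - (min (gd X G i) s : ℕ) : ℝ) + D)
    (M₁ M₂ : ℕ) (h12 : M₁ ≤ M₂) (h2 : M₂ ≤ s) :
    |∑ m ∈ Ioc M₁ M₂, w m - S * ((M₂ : ℝ) - M₁)| ≤ K * ((M₂ : ℝ) - M₁) + 2 * h * (S + K) + D := by
  obtain ⟨i, i', hi, hii', hi'i, hi'G, hi1, hi2⟩ := cell X hG M₁ (h12.trans (h2.trans hs))
  obtain ⟨j, j', hj, hjj', hj'j, hj'G, hj1, hj2⟩ := cell X hG M₂ (h2.trans hs)
  have hij : i ≤ j := by
    rw [hi, hj]
    exact Nat.findGreatest_mono_left (fun k hk => le_trans hk h12) G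
  have hjG : j ≤ G := hjj'.trans hj'G
  have hiG : i ≤ G := hij.trans hjG
  have h1s : M₁ ≤ s := h12.trans h2
  -- gaps
  have gap : ∀ a a' : ℕ, a ≤ a' → a' ≤ a + 1 →
      ((min (gd X G a') s : ℕ) : ℝ) - (min (gd X G a) s : ℕ) ≤ h := by
    intro a a' haa' ha'
    have g1 : (gd X G a' : ℝ) ≤ gd X G (a + 1) := by exact_mod_cast gd_mono X G ha'
    have g2 := gd_gap X hG a
    have g3 : (gd X G a : ℝ) ≤ gd X G a' := by exact_mod_cast gd_mono X G haa'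
    have g4 : min (gd X G a') s + gd X G a ≤ min (gd X G a) s + gd X G a' := by
      have := gd_mono X G haa'
      omega
    have g5 : ((min (gd X G a') s : ℕ) : ℝ) + gd X G a ≤ (min (gd X G a) s : ℕ) + gd X G a' := by
      exact_mod_cast g4
    linarith
  have gi := gap i i' hii' hi'i
  have gj := gap j j' hjj' hj'j
  -- real versions of the order of the end points
  have a1 : min (gd X G i) s ≤ M₁ := (min_le_left _ _).trans hi1
  have a2 : M₁ ≤ min (gd X G i') s := le_min hi2 h1s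
  have a3 : min (gd X G j) s ≤ M₂ := (min_le_left _ _).trans hj1
  have a4 : M₂ ≤ min (gd X G j') s := le_min hj2 h2
  have b1 : ((min (gd X G i) s : ℕ) : ℝ) ≤ M₁ := by exact_mod_cast a1
  have b2 : (M₁ : ℝ) ≤ (min (gd X G i') s : ℕ) := by exact_mod_cast a2
  have b3 : ((min (gd X G j) s : ℕ) : ℝ) ≤ M₂ := by exact_mod_cast a3
  have b4 : (M₂ : ℝ) ≤ (min (gd X G j') s : ℕ) := by exact_mod_cast a4
  have b5 : (M₁ : ℝ) ≤ M₂ := by exact_mod_cast h12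
  have hh0 : 0 ≤ h := by
    have : (0 : ℝ) ≤ (Nat.sqrt X : ℝ) / G := by positivity
    linarith
  rw [abs_le]
  constructor
  · -- lower bound
    rcases Nat.lt_or_ge j i' with hlt | hge
    · -- same cell
      have c1 : i' = j + 1 ∨ i' ≤ j + 1 := Or.inr (hi'i.trans (by omega))
      have c2 : (M₂ : ℝ) - M₁ ≤ 2 * h := by
        have c3 : i' ≤ i + 1 := hi'i
        have c4 : i = j := by omega
        subst c4
        linarith
      have c5 : 0 ≤ ∑ m ∈ Ioc M₁ M₂, w m := sum_nonneg fun m _ => hw m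
      have c6 : S * ((M₂ : ℝ) - M₁) ≤ S * (2 * h) := mul_le_mul_of_nonneg_left c2 hS
      have c7 : 0 ≤ K * ((M₂ : ℝ) - M₁) := mul_nonneg hK (by linarith)
      have c8 : 0 ≤ h * K := mul_nonneg hh0 hK
      nlinarith
    · have m1 := (abs_le.1 (hmain i' j hge hjG)).1
      have c1 : ∑ m ∈ Ioc (min (gd X G i') s) (min (gd X G j) s), w m ≤ ∑ m ∈ Ioc M₁ M₂, w m :=
        sum_le_sum_of_subset_of_nonneg (Ioc_subset_Ioc a2 a3) fun m _ _ => hw m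
      have c2 : ((min (gd X G j) s : ℕ) : ℝ) - (min (gd X G i') s : ℕ) ≤ (M₂ : ℝ) - M₁ := by linarith
      have c3 : K * (((min (gd X G j) s : ℕ) : ℝ) - (min (gd X G i') s : ℕ)) ≤ K * ((M₂ : ℝ) - M₁) :=
        mul_le_mul_of_nonneg_left c2 hK
      have c4 : (M₂ : ℝ) - M₁ - 2 * h ≤ ((min (gd X G j) s : ℕ) : ℝ) - (min (gd X G i') s : ℕ) := by
        linarith
      have c5 : S * ((M₂ : ℝ) - M₁ - 2 * h) ≤ S * (((min (gd X G j) s : ℕ) : ℝ) - (min (gd X G i') s : ℕ)) :=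
        mul_le_mul_of_nonneg_left c4 hS
      have c8 : 0 ≤ h * K := mul_nonneg hh0 hK
      nlinarith
  · -- upper bound
    have m1 := (abs_le.1 (hmain i j' (hij.trans hjj') hj'G)).2
    have c1 : ∑ m ∈ Ioc M₁ M₂, w m ≤ ∑ m ∈ Ioc (min (gd X G i) s) (min (gd X G j') s), w m :=
      sum_le_sum_of_subset_of_nonneg (Ioc_subset_Ioc a1 a4) fun m _ _ => hw m
    have c2 : ((min (gd X G j') s : ℕ) : ℝ) - (min (gd X G i) s : ℕ) ≤ (M₂ : ℝ) - M₁ + 2 * h := by linarith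
    have c3 : (S + K) * (((min (gd X G j') s : ℕ) : ℝ) - (min (gd X G i) s : ℕ)) ≤
        (S + K) * ((M₂ : ℝ) - M₁ + 2 * h) :=
      mul_le_mul_of_nonneg_left c2 (add_nonneg hS hK)
    nlinarith

end CoreWAux

open scoped Classical in
theorem coreW (A B1 : ℕ) (hB1 : 16 * (A + 4) ≤ B1) (B : ℝ) : ∃ c C : ℝ, 0 < c ∧ 0 < C ∧ ∃ X0 : ℕ,
    ∀ X Q : ℕ, X0 ≤ X → Rg c X Q → ∀ b : CI → ℝ, (∀ x ∈ Ch Q, ∀ n, ‖Mc X Q x n‖ ≤ b x) →
    ∑ x ∈ Ch Q, b x ≤ B → ∀ (M : Finset CI) (q : ℕ) (E : ℝ), Kept Q M q →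
    ∑ x ∈ Ch Q \ M, b x ≤ E → E ≤ B →
    (∀ n : ℕ, 3 * X ≤ n * Q → n * Q + X ≤ 2 * X * Q → ‖Mc X Q one n - 1‖ ≤ E) →
    ∃ F ⊆ Icc 1 X, (F.card : ℝ) ≤ X * (Q : ℝ) ^ (-(1 / 20 : ℝ)) ∧ ∀ n ∈ Icc 1 X, n ∉ F →
      ∀ M₁ M₂ : ℕ, M₁ ≤ M₂ → M₂ ^ 2 ≤ n →
      |∑ m ∈ Ioc M₁ M₂, W X Q (n - m ^ 2) - SS (zA B1 X) 1 n * ((M₂ : ℝ) - M₁)| ≤
      C * SS (zA B1 X) 1 n * ((M₂ : ℝ) - M₁) * (E + Gs q n + 1 / Real.log X ^ A) +
        Real.sqrt X * (Q : ℝ) ^ (-(1 / 50 : ℝ)) := by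
  obtain ⟨c0, C0, hc0, hC0, X0, hcore⟩ := coreG A B1 hB1 B
  set K : ℝ := 6 * (1 + C0 * (|B| + 2)) + 2 with hK
  have hK0 : 0 < K := by positivity
  -- `K log X ≤ exp (√(log X) / 400)` for large `X`
  have hev1 : ∀ᶠ X : ℕ in atTop, K * Real.log X ≤ Real.exp (Real.sqrt (Real.log X) / 400) := by
    have h1 : Tendsto (fun X : ℕ => Real.sqrt (Real.log X) / 400) atTop atTop :=
      (Real.tendsto_sqrt_atTop.comp (Real.tendsto_log_atTop.comp tendsto_natCast_atTop_atTop)).atTop_div_const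
        (by norm_num)
    have h2 := (Real.tendsto_exp_div_pow_atTop 2).comp h1
    have h3 := h2.eventually_ge_atTop (K * 160000)
    have h4 := h1.eventually_gt_atTop 0
    filter_upwards [h3, h4, eventually_ge_atTop 3] with X h3 h4 h5
    have hl : 0 ≤ Real.log X := Real.log_natCast_nonneg X
    simp only [Function.comp_apply] at h3
    rw [le_div_iff₀ (by positivity)] at h3
    refine le_trans (le_of_eq ?_) h3
    rw [div_pow, Real.sq_sqrt hl]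
    ring
  have hev2 : ∀ᶠ X : ℕ in atTop, (DZ (zA B1 X))⁻¹ ≤ Real.log X := DZ_inv_le B1
  obtain ⟨X1, hX1⟩ := eventually_atTop.1 (hev1.and (hev2.and (eventually_ge_atTop 3)))
  refine ⟨min c0 1, C0, lt_min hc0 one_pos, hC0, max X0 X1, ?_⟩
  intro X Q hX hRg b hb hbB M q E hKept hE hEB hM1
  obtain ⟨hk1, hk2, hk3⟩ := hX1 X ((le_max_right _ _).trans hX)
  have hX3 : (3 : ℝ) ≤ X := by exact_mod_cast hk3
  have hXpos : (0 : ℝ) < X := by linarith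
  have hRg0 : Rg c0 X Q := ⟨hRg.1, hRg.2.trans (Real.rpow_le_rpow_of_exponent_le (by linarith) (min_le_left _ _))⟩
  have hQX : (Q : ℝ) ≤ X := by
    refine hRg.2.trans ?_
    calc (X : ℝ) ^ (min c0 1) ≤ (X : ℝ) ^ (1 : ℝ) := Real.rpow_le_rpow_of_exponent_le (by linarith) (min_le_right _ _)
      _ = X := Real.rpow_one _
  have hQ1' : (1 : ℝ) ≤ Q := (Real.one_le_exp (by positivity)).trans hRg.1
  have hQ1 : 1 ≤ Q := by exact_mod_cast hQ1'
  have hQ0 : (0 : ℝ) < Q := by linarith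
  set G : ℕ := ⌊(Q : ℝ) ^ (1 / 40 : ℝ)⌋₊ with hGdef
  have hq40 : (1 : ℝ) ≤ (Q : ℝ) ^ (1 / 40 : ℝ) := Real.one_le_rpow hQ1' (by norm_num)
  have hG1 : 1 ≤ G := Nat.le_floor (by exact_mod_cast hq40)
  have hGle : (G : ℝ) ≤ (Q : ℝ) ^ (1 / 40 : ℝ) := Nat.floor_le (by linarith)
  have hGge : (Q : ℝ) ^ (1 / 40 : ℝ) / 2 ≤ G := by
    have h1 : (Q : ℝ) ^ (1 / 40 : ℝ) < G + 1 := Nat.lt_floor_add_one _
    have h2 : (1 : ℝ) ≤ G := by exact_mod_cast hG1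
    linarith
  obtain ⟨F, hF1, hF2, hF3⟩ := hcore X Q ((le_max_left _ _).trans hX) hRg0 b hb hbB M q E hKept hE hM1 G hG1 hGle
  refine ⟨F, hF1, hF2, ?_⟩
  intro n hn hnF M₁ M₂ h12 h2n
  have hnX : n ≤ X := (mem_Icc.1 hn).2
  set s := Nat.sqrt n with hs
  have hsX : s ≤ Nat.sqrt X := Nat.sqrt_le_sqrt hnX
  have h2s : M₂ ≤ s := by
    rw [hs, Nat.le_sqrt']
    exact h2n
  set S := SS (zA B1 X) 1 n with hSdef
  have hSb := ss_bounds (zA B1 X) 1 n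
  have hS0 : 0 ≤ S := (sq_nonneg _).trans hSb.1
  have hSlog : S ≤ Real.log X := hSb.2.trans hk2
  have hb0 : ∀ x ∈ Ch Q, 0 ≤ b x := fun x hx => (norm_nonneg _).trans (hb x hx 0)
  have hE0 : 0 ≤ E := (sum_nonneg fun x hx => hb0 x (mem_sdiff.1 hx).1).trans hE
  have hlog1 : 1 ≤ Real.log X := by
    rw [Real.le_log_iff_exp_le hXpos]
    have := Real.exp_one_lt_d9
    linarith
  set R := E + Gs q n + 1 / Real.log X ^ A with hR
  have hLA : 1 / Real.log X ^ A ≤ 1 := by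
    rw [div_le_one (by positivity)]
    exact one_le_pow₀ hlog1
  have hLA0 : 0 ≤ 1 / Real.log X ^ A := by positivity
  have hR0 : 0 ≤ R := by
    have := SqAux.Gs_nonneg q n
    rw [hR]
    linarith
  have hR1 : R ≤ |B| + 2 := by
    have h1 := SqAux.Gs_le_one q n
    have h2 := le_abs_self B
    rw [hR]
    linarith
  set sx := Real.sqrt X with hsx
  have hsx0 : 0 < sx := Real.sqrt_pos.2 hXpos
  set qm := (Q : ℝ) ^ (-(1 / 40 : ℝ)) with hqm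
  have hqm0 : 0 < qm := Real.rpow_pos_of_pos hQ0 _
  have hsxq : 1 ≤ sx * qm := by
    have h1 : (Q : ℝ) ^ (1 / 40 : ℝ) ≤ sx := by
      rw [hsx, Real.sqrt_eq_rpow]
      calc (Q : ℝ) ^ (1 / 40 : ℝ) ≤ (Q : ℝ) ^ (1 / 2 : ℝ) :=
            Real.rpow_le_rpow_of_exponent_le hQ1' (by norm_num)
        _ ≤ (X : ℝ) ^ (1 / 2 : ℝ) := Real.rpow_le_rpow hQ0.le hQX (by norm_num)
    rw [hqm, Real.rpow_neg hQ0.le, ← div_eq_mul_inv, one_le_div (by linarith)]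
    exact h1
  have hh : (Nat.sqrt X : ℝ) / G + 1 ≤ 3 * (sx * qm) := by
    have h1 : (Nat.sqrt X : ℝ) ≤ sx := Real.nat_sqrt_le_real_sqrt
    have h2 : (Nat.sqrt X : ℝ) / G ≤ sx / ((Q : ℝ) ^ (1 / 40 : ℝ) / 2) :=
      div_le_div₀ hsx0.le h1 (by linarith) hGge
    have h3 : sx / ((Q : ℝ) ^ (1 / 40 : ℝ) / 2) = 2 * (sx * qm) := by
      rw [hqm, Real.rpow_neg hQ0.le]
      field_simp
    linarith
  have hq10 : (Q : ℝ) ^ (-(1 / 10 : ℝ)) ≤ qm :=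
    Real.rpow_le_rpow_of_exponent_le hQ1' (by norm_num)
  have hq10' : (0 : ℝ) < (Q : ℝ) ^ (-(1 / 10 : ℝ)) := Real.rpow_pos_of_pos hQ0 _
  have henc := CoreWAux.enclose X G hG1 s hsX (fun m => W X Q (n - m ^ 2)) (fun m => W_nonneg _ _ _)
    S (C0 * S * R) (2 * sx * (Q : ℝ) ^ (-(1 / 10 : ℝ))) (3 * (sx * qm)) hS0
    (by positivity) (by positivity) hh
    (fun i j hij hj => by
      have := hF3 n hn hnF i j hij hj
      refine this.trans (le_of_eq ?_)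
      rw [hR]
      ring) M₁ M₂ h12 h2s
  refine henc.trans ?_
  -- the final numerical estimate
  have f1 : 2 * (3 * (sx * qm)) * (S + C0 * S * R) + 2 * sx * (Q : ℝ) ^ (-(1 / 10 : ℝ)) ≤
      K * Real.log X * (sx * qm) := by
    have g1 : S + C0 * S * R ≤ Real.log X * (1 + C0 * (|B| + 2)) := by
      have e1 : C0 * R ≤ C0 * (|B| + 2) := mul_le_mul_of_nonneg_left hR1 hC0.le
      have e2 : S * (1 + C0 * R) ≤ Real.log X * (1 + C0 * (|B| + 2)) :=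
        mul_le_mul hSlog (by linarith) (by positivity) (by linarith)
      calc S + C0 * S * R = S * (1 + C0 * R) := by ring
        _ ≤ _ := e2
    have g2 : 2 * (3 * (sx * qm)) * (S + C0 * S * R) ≤
        2 * (3 * (sx * qm)) * (Real.log X * (1 + C0 * (|B| + 2))) :=
      mul_le_mul_of_nonneg_left g1 (by positivity)
    have g3 : 2 * sx * (Q : ℝ) ^ (-(1 / 10 : ℝ)) ≤ 2 * sx * qm :=
      mul_le_mul_of_nonneg_left hq10 (by positivity)
    have g4 : 2 * sx * qm ≤ 2 * sx * qm * Real.log X := le_mul_of_one_le_right (by positivity) hlog1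
    have g5 : K * Real.log X * (sx * qm) =
        2 * (3 * (sx * qm)) * (Real.log X * (1 + C0 * (|B| + 2))) + 2 * sx * qm * Real.log X := by
      rw [hK]
      ring
    linarith
  have f2 : K * Real.log X * (sx * qm) ≤ sx * (Q : ℝ) ^ (-(1 / 50 : ℝ)) := by
    have g1 : K * Real.log X ≤ (Q : ℝ) ^ (1 / 200 : ℝ) := by
      refine hk1.trans ?_
      calc Real.exp (Real.sqrt (Real.log X) / 400)
          = (Real.exp (Real.sqrt (Real.log X) / 2)) ^ (1 / 200 : ℝ) := by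
            rw [← Real.exp_mul]
            congr 1
            ring
        _ ≤ (Q : ℝ) ^ (1 / 200 : ℝ) := Real.rpow_le_rpow (Real.exp_pos _).le hRg.1 (by norm_num)
    have g2 : (Q : ℝ) ^ (1 / 200 : ℝ) * qm = (Q : ℝ) ^ (-(1 / 50 : ℝ)) := by
      rw [hqm, ← Real.rpow_add hQ0]
      norm_num
    calc K * Real.log X * (sx * qm) ≤ (Q : ℝ) ^ (1 / 200 : ℝ) * (sx * qm) :=
          mul_le_mul_of_nonneg_right g1 (by positivity)
      _ = sx * ((Q : ℝ) ^ (1 / 200 : ℝ) * qm) := by ring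
      _ = _ := by rw [g2]
  have f3 : C0 * S * R * ((M₂ : ℝ) - M₁) = C0 * S * ((M₂ : ℝ) - M₁) * R := by ring
  rw [f3]
  linarith

end Pool.Agent.Lib.SPP
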