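import Pool.Agent.Lib.SPP.SqAux
import Pool.Agent.Lib.SPP.CoreW

/-!
# SPP.CoreP: from the weighted primes to primes (1.5 h)

PROOF. (Deterministic, for one `n`.) Put `S = SS ..≥ 0`, `s = S`, `e(Λ) = C S Λ R + κ` the error of the hypothesis `h`. Call `m` early if `2 X ≤ (n - m²) Q`. For early `m` we have `vw X Q (n - m²) = 1` (as `n - m² ≤ n ≤ X ≤ 2X`), so
`W X Q (n - m²) = lp (n - m²)` and `1_prime(n - m²) = W · ω(m)`, `ω(m) = 1/log(n - m²) ≤ 1/log(2X/Q) ≤ 2/log X` (`Q² ≤ X`). The early `m` form an initial segment `m ≤ m*`. The `m` with `m² ≤ n` which are not early are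
at most `√(2X/Q) + 1 ≤ 3 √(X/Q)` (if `m₁` is the least, `(√n - m₁)² ≤ n - m₁² < 2X/Q`); they contribute at most that many to the count and at most `S · 3 √(X/Q)/log 2` to the main term (`n - m² ≥ 2`).
For the early part `(M₁, M']`, `M' = min(M₂, m*)`: `ω` is nondecreasing with values in `[0, 2/log X]`; summation by parts:
`|∑ ω(m) (W(n - m²) - S)| ≤ 2 (2/log X) sup_{M ≤ M'} |∑_{(M₁, M]} (W(n - m²) - S)| ≤ (4/log X) e(M₂ - M₁)`.
Total: `(4/log X)(C S (M₂ - M₁) R + κ) + 3 √(X/Q) (1 + 2 S)`.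
-/

set_option autoImplicit false

open Finset Filter

namespace Pool.Agent.Lib.SPP

open Pool.Agent.HLB Pool.Agent.HLT Pool.Agent.HLR Pool.Agent.Lib.GMV

namespace CorePAux

/-- Splitting an interval by a decreasing predicate. -/
lemma split (P : ℕ → Prop) (hP : ∀ m m' : ℕ, m ≤ m' → P m' → P m) (M₁ M₂ : ℕ) (h : M₁ ≤ M₂) :
    ∃ M' : ℕ, M₁ ≤ M' ∧ M' ≤ M₂ ∧ (∀ m, M₁ < m → m ≤ M' → P m) ∧ (∀ m, M' < m → m ≤ M₂ → ¬ P m) := by
  classical
  by_cases hh : ∃ m, M₁ < m ∧ m ≤ M₂ ∧ ¬ P m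
  · obtain ⟨m0, hm0⟩ : ∃ m0, m0 = Nat.find hh := ⟨_, rfl⟩
    obtain ⟨h1, h2, h3⟩ := Nat.find_spec hh
    rw [← hm0] at h1 h2 h3
    refine ⟨m0 - 1, by omega, by omega, fun m hm hm' => ?_, fun m hm hm' hPm => h3 (hP m0 m (by omega) hPm)⟩
    by_contra hc
    exact Nat.find_min hh (m := m) (by omega) ⟨hm, by omega, hc⟩
  · push Not at hh
    exact ⟨M₂, h, le_rfl, fun m hm hm' => hh m hm hm', fun m hm hm' => by omega⟩

/-- Summation by parts. -/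
lemma abel (a w : ℕ → ℝ) (M₁ : ℕ) (E : ℝ) (hE : 0 ≤ E) (hw0 : 0 ≤ w M₁) (M : ℕ) (hM : M₁ ≤ M)
    (hw : ∀ m, M₁ ≤ m → m < M → w m ≤ w (m + 1))
    (hA : ∀ m, M₁ ≤ m → m ≤ M → |∑ j ∈ Ioc M₁ m, a j| ≤ E) :
    |∑ j ∈ Ioc M₁ M, w j * a j| ≤ 2 * w M * E := by
  have key : ∀ m, M₁ ≤ m → m ≤ M →
      |∑ j ∈ Ioc M₁ m, w j * a j - w m * ∑ j ∈ Ioc M₁ m, a j| ≤ w m * E ∧ 0 ≤ w m := by
    intro m hm
    induction m, hm using Nat.le_induction with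
    | base =>
      intro _
      simp only [Finset.Ioc_self, Finset.sum_empty, mul_zero, sub_zero, abs_zero]
      exact ⟨mul_nonneg hw0 hE, hw0⟩
    | succ m hm ih =>
      intro hmM
      obtain ⟨h1, h2⟩ := ih (by omega)
      have h3 := hw m hm (by omega)
      refine ⟨?_, by linarith⟩
      rw [Finset.sum_Ioc_succ_top (by omega), Finset.sum_Ioc_succ_top (by omega)]
      have h4 : ∑ j ∈ Ioc M₁ m, w j * a j + w (m + 1) * a (m + 1) -
          w (m + 1) * (∑ j ∈ Ioc M₁ m, a j + a (m + 1)) =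
          (∑ j ∈ Ioc M₁ m, w j * a j - w m * ∑ j ∈ Ioc M₁ m, a j) -
            (w (m + 1) - w m) * ∑ j ∈ Ioc M₁ m, a j := by ring
      rw [h4]
      refine (abs_sub _ _).trans ?_
      have h5 : |(w (m + 1) - w m) * ∑ j ∈ Ioc M₁ m, a j| ≤ (w (m + 1) - w m) * E := by
        rw [abs_mul, abs_of_nonneg (by linarith)]
        exact mul_le_mul_of_nonneg_left (hA m hm (by omega)) (by linarith)
      linarith
  obtain ⟨h1, h2⟩ := key M hM le_rfl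
  have h3 := hA M hM le_rfl
  have h4 : |w M * ∑ j ∈ Ioc M₁ M, a j| ≤ w M * E := by
    rw [abs_mul, abs_of_nonneg h2]
    exact mul_le_mul_of_nonneg_left h3 h2
  have h5 : ∑ j ∈ Ioc M₁ M, w j * a j = (∑ j ∈ Ioc M₁ M, w j * a j - w M * ∑ j ∈ Ioc M₁ M, a j) +
      w M * ∑ j ∈ Ioc M₁ M, a j := by ring
  rw [h5]
  refine (abs_add_le _ _).trans ?_
  linarith

/-- The number of the integers `m ≤ √n` with `n - m² < 2X/Q`. -/
lemma late {X Q n M' M₂ : ℕ} (hQ : 1 ≤ Q) (hQX : Q ≤ X) (h2 : M₂ ^ 2 ≤ n) (hM : M' ≤ M₂)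
    (h : M' < M₂ → ((n - (M' + 1) ^ 2 : ℕ) : ℝ) * Q < 2 * X) :
    ((M₂ - M' : ℕ) : ℝ) ≤ 3 * Real.sqrt (X / Q) := by
  have hQr : (1 : ℝ) ≤ Q := by exact_mod_cast hQ
  have hXQ : (1 : ℝ) ≤ (X : ℝ) / Q := by
    rw [le_div_iff₀ (by linarith), one_mul]
    exact_mod_cast hQX
  have hs1 : 1 ≤ Real.sqrt (X / Q) := by
    rw [show (1 : ℝ) = Real.sqrt 1 by simp]
    exact Real.sqrt_le_sqrt hXQ
  rcases Nat.lt_or_ge M' M₂ with hlt | hge
  · have h3 := h hlt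
    have h4 : (M' + 1) ^ 2 ≤ n := (Nat.pow_le_pow_left (by omega) 2).trans h2
    rw [Nat.cast_sub h4] at h3
    push_cast at h3
    have h5 : (n : ℝ) - ((M' : ℝ) + 1) ^ 2 < 2 * (X / Q) := by
      rw [← mul_div_assoc, lt_div_iff₀ (by linarith)]
      exact h3
    have h6 : (M₂ : ℝ) ^ 2 ≤ n := by exact_mod_cast h2
    have h7 : ((M' : ℝ) + 1) ≤ M₂ := by exact_mod_cast hlt
    have hM'0 : (0 : ℝ) ≤ M' := Nat.cast_nonneg _
    -- `(M₂ - (M'+1))² ≤ M₂² - (M'+1)²`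
    have h8 : ((M₂ : ℝ) - (M' + 1)) ^ 2 ≤ 4 * (X / Q) := by nlinarith
    have h9 : (M₂ : ℝ) - (M' + 1) ≤ 2 * Real.sqrt (X / Q) := by
      have h10 : Real.sqrt (4 * (X / Q)) = 2 * Real.sqrt (X / Q) := by
        rw [Real.sqrt_mul (by norm_num)]
        congr 1
        rw [show (4 : ℝ) = 2 ^ 2 by norm_num, Real.sqrt_sq (by norm_num)]
      rw [← h10]
      exact Real.le_sqrt_of_sq_le h8
    rw [Nat.cast_sub hM]
    linarith
  · have : M₂ - M' = 0 := by omega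
    rw [this, Nat.cast_zero]
    linarith

end CorePAux

open CorePAux in
theorem coreP (X Q n : ℕ) (S D κ : ℝ) (hX : 100 ≤ X) (hQ : 2 ≤ Q) (hQX : Q ^ 2 ≤ X) (hn1 : 1 ≤ n) (hn : n ≤ X)
    (hS : 0 ≤ S) (hD : 0 ≤ D) (hκ : 0 ≤ κ)
    (h : ∀ M₁ M₂ : ℕ, M₁ ≤ M₂ → M₂ ^ 2 ≤ n →
      |∑ m ∈ Ioc M₁ M₂, W X Q (n - m ^ 2) - S * ((M₂ : ℝ) - M₁)| ≤ D * ((M₂ : ℝ) - M₁) + κ) :
    ∀ M₁ M₂ : ℕ, M₁ ≤ M₂ → M₂ ^ 2 + 2 ≤ n →
      |(((Ioc M₁ M₂).filter (fun m => (n - m ^ 2).Prime)).card : ℝ) -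
        S * ∑ m ∈ Ioc M₁ M₂, 1 / Real.log ((n - m ^ 2 : ℕ) : ℝ)| ≤
      4 / Real.log X * (D * ((M₂ : ℝ) - M₁) + κ) + 6 * Real.sqrt (X / Q) * (1 + S) := by
  intro M₁ M₂ hM hMn
  have hXr : (100 : ℝ) ≤ X := by exact_mod_cast hX
  have hX0 : (0 : ℝ) < X := by linarith
  have hQr : (2 : ℝ) ≤ Q := by exact_mod_cast hQ
  have hQ0 : (0 : ℝ) < Q := by linarith
  have hQXr : (Q : ℝ) ^ 2 ≤ X := by exact_mod_cast hQX
  have hQleX : Q ≤ X := (Nat.le_self_pow (by norm_num) Q).trans hQX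
  obtain ⟨L, hL⟩ : ∃ L, L = Real.log X := ⟨_, rfl⟩
  have hL0 : 0 < L := by
    rw [hL]
    exact Real.log_pos (by linarith)
  rw [← hL]
  obtain ⟨P, hP⟩ : ∃ P : ℕ → Prop, P = fun m => m ^ 2 ≤ n ∧ 2 * (X : ℝ) ≤ ((n - m ^ 2 : ℕ) : ℝ) * Q := ⟨_, rfl⟩
  have hPm : ∀ m m' : ℕ, m ≤ m' → P m' → P m := by
    intro m m' hmm
    rw [hP]
    rintro ⟨h1, h2⟩
    have h3 : m ^ 2 ≤ m' ^ 2 := Nat.pow_le_pow_left hmm 2
    refine ⟨h3.trans h1, h2.trans (mul_le_mul_of_nonneg_right ?_ hQ0.le)⟩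
    exact_mod_cast Nat.sub_le_sub_left h3 n
  obtain ⟨M', hM1, hM2, hearly, hlate⟩ := split P hPm M₁ M₂ hM
  have hsq : ∀ m ≤ M₂, m ^ 2 + 2 ≤ n := by
    intro m hm
    have := Nat.pow_le_pow_left hm 2
    omega
  have hge2 : ∀ m ≤ M₂, 2 ≤ n - m ^ 2 := by
    intro m hm
    have := hsq m hm
    omega
  -- the weight
  obtain ⟨w, hw⟩ : ∃ w : ℕ → ℝ, w = fun m => 1 / Real.log ((n - m ^ 2 : ℕ) : ℝ) := ⟨_, rfl⟩
  have hlog2 : ∀ m ≤ M₂, Real.log 2 ≤ Real.log ((n - m ^ 2 : ℕ) : ℝ) := by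
    intro m hm
    refine Real.log_le_log (by norm_num) ?_
    exact_mod_cast hge2 m hm
  have hl2 : (1 / 2 : ℝ) ≤ Real.log 2 := by
    have := Real.log_two_gt_d9
    linarith
  have hw0 : ∀ m ≤ M₂, 0 ≤ w m := by
    intro m hm
    rw [hw]
    have := hlog2 m hm
    exact div_nonneg zero_le_one (by linarith)
  have hw2 : ∀ m ≤ M₂, w m ≤ 2 := by
    intro m hm
    rw [hw]
    have h1 := hlog2 m hm
    show 1 / Real.log ((n - m ^ 2 : ℕ) : ℝ) ≤ 2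
    rw [div_le_iff₀ (by linarith)]
    linarith
  have hwmono : ∀ m, m + 1 ≤ M₂ → w m ≤ w (m + 1) := by
    intro m hm
    rw [hw]
    show 1 / Real.log ((n - m ^ 2 : ℕ) : ℝ) ≤ 1 / Real.log ((n - (m + 1) ^ 2 : ℕ) : ℝ)
    have h1 := hlog2 (m + 1) hm
    refine one_div_le_one_div_of_le (by linarith) (Real.log_le_log ?_ ?_)
    · have := hge2 (m + 1) hm
      exact_mod_cast (by omega : 0 < n - (m + 1) ^ 2)
    · have : m ^ 2 ≤ (m + 1) ^ 2 := Nat.pow_le_pow_left (by omega) 2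
      exact_mod_cast Nat.sub_le_sub_left this n
  -- the indicator
  obtain ⟨c, hc⟩ : ∃ c : ℕ → ℝ, c = fun m => if (n - m ^ 2).Prime then (1 : ℝ) else 0 := ⟨_, rfl⟩
  have hcard : (((Ioc M₁ M₂).filter (fun m => (n - m ^ 2).Prime)).card : ℝ) = ∑ m ∈ Ioc M₁ M₂, c m := by
    rw [hc, Finset.sum_boole]
  have hc0 : ∀ m, 0 ≤ c m := by
    intro m
    rw [hc]
    show (0 : ℝ) ≤ if (n - m ^ 2).Prime then (1 : ℝ) else 0
    split_ifs <;> norm_num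
  have hc1 : ∀ m, c m ≤ 1 := by
    intro m
    rw [hc]
    show (if (n - m ^ 2).Prime then (1 : ℝ) else 0) ≤ 1
    split_ifs <;> norm_num
  -- early terms
  have hcw : ∀ m, P m → m ≤ M₂ → c m = w m * W X Q (n - m ^ 2) := by
    intro m hm hmM
    rw [hP] at hm
    obtain ⟨-, h2⟩ := hm
    have h3 : vw X Q ((n - m ^ 2 : ℕ) : ℝ) = 1 := by
      unfold vw
      have h4 : 2 ≤ ((n - m ^ 2 : ℕ) : ℝ) * Q / X := by
        rw [le_div_iff₀ hX0]
        exact h2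
      have h5 : ((n - m ^ 2 : ℕ) : ℝ) * Q / X ≤ Q := by
        rw [div_le_iff₀ hX0, mul_comm]
        refine mul_le_mul_of_nonneg_left ?_ hQ0.le
        exact_mod_cast (Nat.sub_le _ _).trans hn
      rw [min_eq_left (a := (1 : ℝ)) (le_min (by linarith) (by linarith)), max_eq_right zero_le_one]
    unfold W
    rw [h3, one_mul, hc, hw]
    show (if (n - m ^ 2).Prime then (1 : ℝ) else 0) = 1 / Real.log ((n - m ^ 2 : ℕ) : ℝ) * HLT.lp (n - m ^ 2)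
    unfold HLT.lp
    have h6 := hlog2 m hmM
    split_ifs with hp
    · rw [one_div, inv_mul_cancel₀ (by linarith)]
    · rw [mul_zero]
  have hsplit : ∀ g : ℕ → ℝ, ∑ m ∈ Ioc M₁ M₂, g m = ∑ m ∈ Ioc M₁ M', g m + ∑ m ∈ Ioc M' M₂, g m := by
    intro g
    exact (Finset.sum_Ioc_consecutive g hM1 hM2).symm
  obtain ⟨E, hE⟩ : ∃ E, E = D * ((M₂ : ℝ) - M₁) + κ := ⟨_, rfl⟩
  have hMr : (M₁ : ℝ) ≤ M₂ := by exact_mod_cast hM
  have hE0 : 0 ≤ E := by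
    rw [hE]
    have := mul_nonneg hD (sub_nonneg.2 hMr)
    linarith
  rw [← hE]
  -- the early part
  have hA : ∀ m, M₁ ≤ m → m ≤ M' → |∑ j ∈ Ioc M₁ m, (W X Q (n - j ^ 2) - S)| ≤ E := by
    intro m hm hm'
    have h1 := h M₁ m hm (by have := hsq m (hm'.trans hM2); omega)
    have h2 : ∑ j ∈ Ioc M₁ m, (W X Q (n - j ^ 2) - S) =
        ∑ j ∈ Ioc M₁ m, W X Q (n - j ^ 2) - S * ((m : ℝ) - M₁) := by
      rw [Finset.sum_sub_distrib, Finset.sum_const, Nat.card_Ioc, nsmul_eq_mul, Nat.cast_sub hm]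
      ring
    rw [h2]
    refine h1.trans ?_
    rw [hE]
    have h3 : (m : ℝ) ≤ M₂ := by exact_mod_cast hm'.trans hM2
    have h4 : D * ((m : ℝ) - M₁) ≤ D * ((M₂ : ℝ) - M₁) := mul_le_mul_of_nonneg_left (by linarith) hD
    linarith
  have hmain : |∑ m ∈ Ioc M₁ M', (c m - S * w m)| ≤ 4 / L * E := by
    have h1 : ∑ m ∈ Ioc M₁ M', (c m - S * w m) = ∑ m ∈ Ioc M₁ M', w m * (W X Q (n - m ^ 2) - S) := by
      refine Finset.sum_congr rfl fun m hm => ?_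
      rw [Finset.mem_Ioc] at hm
      rw [hcw m (hearly m hm.1 hm.2) (hm.2.trans hM2)]
      ring
    rw [h1]
    rcases Nat.eq_or_lt_of_le hM1 with heq | hlt
    · rw [← heq, Finset.Ioc_self, Finset.sum_empty, abs_zero]
      positivity
    · have h2 := abel (fun m => W X Q (n - m ^ 2) - S) w M₁ E hE0 (hw0 M₁ hM) M' hM1
        (fun m hm hm' => hwmono m (by omega)) hA
      refine h2.trans ?_
      have h3 := hearly M' hlt le_rfl
      rw [hP] at h3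
      obtain ⟨-, h4⟩ := h3
      have h5 : Real.sqrt X ≤ ((n - M' ^ 2 : ℕ) : ℝ) := by
        have h6 : Real.sqrt X * Q ≤ X := by
          have h7 : (Q : ℝ) ≤ Real.sqrt X := Real.le_sqrt_of_sq_le hQXr
          calc Real.sqrt X * Q ≤ Real.sqrt X * Real.sqrt X := mul_le_mul_of_nonneg_left h7 (Real.sqrt_nonneg _)
            _ = X := Real.mul_self_sqrt hX0.le
        have h8 : Real.sqrt X * Q ≤ ((n - M' ^ 2 : ℕ) : ℝ) * Q := by linarith
        exact le_of_mul_le_mul_right h8 hQ0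
      have h9 : L / 2 ≤ Real.log ((n - M' ^ 2 : ℕ) : ℝ) := by
        have h10 : Real.log (Real.sqrt X) = L / 2 := by rw [Real.log_sqrt hX0.le, hL]
        rw [← h10]
        exact Real.log_le_log (Real.sqrt_pos.2 hX0) h5
      have h11 : w M' ≤ 2 / L := by
        rw [hw]
        show 1 / Real.log ((n - M' ^ 2 : ℕ) : ℝ) ≤ 2 / L
        rw [div_le_div_iff₀ (by linarith) hL0]
        linarith
      calc 2 * w M' * E ≤ 2 * (2 / L) * E :=
            mul_le_mul_of_nonneg_right (mul_le_mul_of_nonneg_left h11 (by norm_num)) hE0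
        _ = 4 / L * E := by ring
  -- the late part
  have hN2 : ((M₂ - M' : ℕ) : ℝ) ≤ 3 * Real.sqrt (X / Q) := by
    refine late (n := n) (by omega) hQleX (by omega) hM2 fun hlt => ?_
    have h1 := hlate (M' + 1) (by omega) (by omega)
    rw [hP] at h1
    have h2 := hsq (M' + 1) (by omega)
    by_contra hcon
    push Not at hcon
    exact h1 ⟨by omega, hcon⟩
  have hlatep : |∑ m ∈ Ioc M' M₂, (c m - S * w m)| ≤ 6 * Real.sqrt (X / Q) * (1 + S) := by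
    have h1 : ∀ m ∈ Ioc M' M₂, |c m - S * w m| ≤ 1 + 2 * S := by
      intro m hm
      rw [Finset.mem_Ioc] at hm
      have a1 := hc0 m
      have a2 := hc1 m
      have a3 := mul_nonneg hS (hw0 m hm.2)
      have a4 := mul_le_mul_of_nonneg_left (hw2 m hm.2) hS
      rw [abs_le]
      constructor <;> linarith
    refine (Finset.abs_sum_le_sum_abs _ _).trans ((Finset.sum_le_sum h1).trans ?_)
    rw [Finset.sum_const, Nat.card_Ioc, nsmul_eq_mul]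
    have h2 : ((M₂ - M' : ℕ) : ℝ) * (1 + 2 * S) ≤ 3 * Real.sqrt (X / Q) * (1 + 2 * S) :=
      mul_le_mul_of_nonneg_right hN2 (by linarith)
    have h3 := Real.sqrt_nonneg ((X : ℝ) / Q)
    nlinarith
  have htot : (((Ioc M₁ M₂).filter (fun m => (n - m ^ 2).Prime)).card : ℝ) -
      S * ∑ m ∈ Ioc M₁ M₂, 1 / Real.log ((n - m ^ 2 : ℕ) : ℝ) =
      ∑ m ∈ Ioc M₁ M', (c m - S * w m) + ∑ m ∈ Ioc M' M₂, (c m - S * w m) := by
    rw [← hsplit, hcard, Finset.sum_sub_distrib, Finset.mul_sum, hw]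
  rw [htot]
  exact (abs_add_le _ _).trans (add_le_add hmain hlatep)

end Pool.Agent.Lib.SPP
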