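import Pool.Agent.Lib.GMV.FreeY
import Pool.Agent.Lib.GMV.SumB

/-!
# SPP: integers as a square plus a prime, power saving exceptional set

Paper: /team-store/83819a_SPP.md.  The model `LL X Q Y` of the primes (with characters of conductor at most `Q` and
truncation `Y`) is the one of the library GMV. Here it is used on the sequence `n - m²`.
-/

set_option autoImplicit false

open Finset Filter

namespace Pool.Agent.Lib.SPP

open Pool.Agent.HLB Pool.Agent.HLT Pool.Agent.HLR Pool.Agent.Lib.GMV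

/-- `-(n/p)/(p-1)` for odd `p` and `0` for `p = 2`: the mean of `wp p (n - m²)` over `m` modulo `p`. -/
noncomputable def gp (p n : ℕ) : ℝ :=
  if p = 2 then 0 else -(jacobiSym (n : ℤ) p : ℝ) / ((p : ℝ) - 1)

/-- A natural number congruent to `n - m²` modulo `P`. -/
def sq (P n m : ℕ) : ℕ := n + (P - 1) * m ^ 2

/-- The mean of `conj χ (n - m²)` over `m` modulo the conductor. -/
noncomputable def aX (x : CI) (n : ℕ) : ℂ :=
  av (md x) fun m => (starRingEnd ℂ) (cv x (sq (md x) n m))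

/-- The truncated series. -/
noncomputable def DG (Y r n : ℕ) : ℝ := ∑ S ∈ Sm Y r, ∏ p ∈ S, gp p n

/-- The product of `1 + gp p n` over the primes `p ≤ z` not dividing `r`. -/
noncomputable def SS (z r n : ℕ) : ℝ :=
  ∏ p ∈ (Nat.primesLE z).filter (fun p => ¬ p ∣ r), (1 + gp p n)

/-- The product of `1 + gp p n` over the primes dividing `r`. -/
noncomputable def gr (r n : ℕ) : ℝ := ∏ p ∈ r.primeFactors, (1 + gp p n)

/-- `(q / gcd(q, n)) ^ (-1/2)`, and `0` if `q = 0`. -/
noncomputable def Gs (q n : ℕ) : ℝ :=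
  if q = 0 then 0 else ((q : ℝ) / (Nat.gcd q n : ℝ)) ^ (-(1 / 2 : ℝ))

/-- The nonempty sets of primes in `(z, Y]` not dividing `r` with product at most `t`. -/
noncomputable def RS (z Y r t : ℕ) : Finset (Finset ℕ) :=
  (((Nat.primesLE Y).filter fun p => z < p ∧ ¬ p ∣ r).powerset).filter
    fun S => S.Nonempty ∧ ∏ p ∈ S, p ≤ t

/-- The number of solutions of `a² + b² = c² + d²` in `[0, M]`. -/
def E4 (M : ℕ) : ℕ :=
  ((range (M + 1) ×ˢ range (M + 1) ×ˢ range (M + 1) ×ˢ range (M + 1)).filter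
    (fun t => t.1 ^ 2 + t.2.1 ^ 2 = t.2.2.1 ^ 2 + t.2.2.2 ^ 2)).card

/-- The grid of `G + 1` points in `[0, √X]`. -/
def gd (X G j : ℕ) : ℕ := j * Nat.sqrt X / G

/-- All the truncated rough sums at `n` are small. -/
def Good (z Y n : ℕ) (δ : ℝ) : Prop :=
  ∀ r t : ℕ, 1 ≤ r → r ≤ Y → t ≤ Y → |∑ S ∈ RS z Y r t, ∏ p ∈ S, gp p n| ≤ δ

end Pool.Agent.Lib.SPP
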