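import Pool.Agent.Lib.SPP.Loc
import Pool.Agent.Lib.SPP.SqAux
import Pool.Agent.Lib.GMV.Ram

/-!
# SPP.Dom: pointwise domination (1 h)

PROOF. Let `r = md x`. `‖cv x k‖ ≤ 1` and `cv x k = 0` if a prime `p ∣ r` divides `k`, and `rho x = r/φ(r) = ∏_{p ∣ r} p/(p-1)`. So
`‖rho x * conj (cv x k)‖ ≤ ∏_{p ∣ r} (1 + wp p k)`, because `1 + wp p k = p/(p-1)` if `p ∤ k` and `0` if `p ∣ k`. Take the mean over `k = sq r n m`, `m < r`
(`norm_av_le`): `wp p (sq r n m) = wp p (sq p n m)` for `p ∣ r` (both arguments are `≡ n - m² mod p`), the product is periodic modulo `∏_{p ∣ r} p`, a divisor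
of `r` (`av_period`), and by `av_prod` (with `M = 1`) and `av_wp_sq` the mean is `∏_{p ∣ r} (1 + gp p n) = gr r n`.
-/

set_option autoImplicit false

open Finset Filter

namespace Pool.Agent.Lib.SPP

open Pool.Agent.HLB Pool.Agent.HLT Pool.Agent.HLR Pool.Agent.Lib.GMV

open SqAux in
/-- The pointwise bound. -/
lemma DomAux.pt (x : CI) (k : ℕ) : rho x * ‖cv x k‖ ≤ ∏ p ∈ (md x).primeFactors, (1 + wp p k) := by
  by_cases h : k.Coprime (md x)
  · have h1 : ∏ p ∈ (md x).primeFactors, (1 + wp p k) = rho x := by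
      unfold rho
      rw [RamAux.quot_totient (md_pos x).ne']
      refine prod_congr rfl fun p hp => ?_
      have hp' := Nat.prime_of_mem_primeFactors hp
      have hpd := Nat.dvd_of_mem_primeFactors hp
      have hk : ¬ p ∣ k := fun hh => by
        have := Nat.dvd_gcd hh hpd
        rw [h] at this
        exact hp'.one_lt.ne' (Nat.dvd_one.1 this)
      unfold wp
      rw [if_neg hk]
      have hp1 : (1 : ℝ) < p := by exact_mod_cast hp'.one_lt
      have h2 : (p : ℝ) - 1 ≠ 0 := by linarith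
      have h3 : (p : ℝ) ≠ 0 := by linarith
      rw [show 1 - (p : ℝ)⁻¹ = ((p : ℝ) - 1) / p by field_simp, inv_div]
      field_simp
      ring
    rw [h1]
    have h2 : 0 ≤ rho x := by unfold rho; positivity
    exact mul_le_of_le_one_right h2 (norm_cv_le x k)
  · rw [RealSplitAux.cv_zero x h, norm_zero, mul_zero]
    exact prod_nonneg fun p hp => wp_ge (Nat.prime_of_mem_primeFactors hp) k

open SqAux in
theorem dom (x : CI) (n : ℕ) : ‖(rho x : ℂ) * aX x n‖ ≤ gr (md x) n := by
  set r := md x with hr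
  have hr0 : 1 ≤ r := md_pos x
  have hP : ∀ p ∈ r.primeFactors, p.Prime := fun p hp => Nat.prime_of_mem_primeFactors hp
  have hrho : 0 ≤ rho x := by unfold rho; positivity
  have h1 : (rho x : ℂ) * aX x n = av r (fun m => (rho x : ℂ) * (starRingEnd ℂ) (cv x (sq r n m))) := by
    unfold aX av
    rw [← Finset.mul_sum, mul_div_assoc]
  rw [h1]
  have h2 := norm_av_le r (fun m => (rho x : ℂ) * (starRingEnd ℂ) (cv x (sq r n m)))
    (fun m => ∏ p ∈ r.primeFactors, (1 + wp p (sq p n m))) (fun m => by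
      rw [norm_mul, RCLike.norm_conj, Complex.norm_real, Real.norm_of_nonneg hrho]
      refine (DomAux.pt x _).trans (le_of_eq ?_)
      refine prod_congr rfl fun p hp => ?_
      rw [wp_congr (sq_congr (hP p hp).one_lt.le hr0 (Nat.dvd_of_mem_primeFactors hp) n (Nat.ModEq.refl m))])
  refine h2.trans (le_of_eq ?_)
  -- the mean of the product
  set rad := ∏ p ∈ r.primeFactors, p with hrad
  have hradd : rad ∣ r := Nat.prod_primeFactors_dvd r
  obtain ⟨m', hm'⟩ := hradd
  have hrad1 : 1 ≤ rad := Nat.pos_of_ne_zero fun h => by rw [h, zero_mul] at hm'; omega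
  have hm1 : 1 ≤ m' := Nat.pos_of_ne_zero fun h => by rw [h, mul_zero] at hm'; omega
  set F : ℕ → ℂ := fun m => ∏ p ∈ r.primeFactors, ((1 + wp p (sq p n m) : ℝ) : ℂ) with hF
  have hFper : ∀ m, F (m + rad) = F m := by
    intro m
    refine prod_congr rfl fun p hp => ?_
    rw [wp_congr (sq_congr (hP p hp).one_lt.le (hP p hp).one_lt.le dvd_rfl n
      (show m + rad ≡ m [MOD p] from ?_))]
    obtain ⟨c, hc⟩ := Finset.dvd_prod_of_mem (fun p => p) hp
    have hc' : rad = p * c := hc
    unfold Nat.ModEq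
    rw [hc', Nat.add_mul_mod_self_left]
  have h3 : av r F = ∏ p ∈ r.primeFactors, ((1 + gp p n : ℝ) : ℂ) := by
    have h0 : av r F = av rad F := by
      conv_lhs => rw [hm']
      exact av_period rad m' hrad1 hm1 F hFper
    rw [h0]
    have h4 := av_prod r.primeFactors hP 1 le_rfl (fun p _ => Nat.coprime_one_left p) (fun _ => 1)
      (fun _ => rfl) (fun p m => ((1 + wp p (sq p n m) : ℝ) : ℂ))
      (fun p hp m => by rw [wp_sq_periodic (hP p hp).one_lt.le])
    rw [one_mul] at h4
    have h5 : av rad F = av rad (fun m => 1 * ∏ p ∈ r.primeFactors, ((1 + wp p (sq p n m) : ℝ) : ℂ)) := by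
      congr 1
      funext m
      rw [one_mul]
    rw [h5, h4]
    have h6 : av 1 (fun _ => (1 : ℂ)) = 1 := by
      unfold av
      simp
    rw [h6, one_mul]
    refine prod_congr rfl fun p hp => ?_
    have hp0 : (p : ℂ) ≠ 0 := by exact_mod_cast (hP p hp).ne_zero
    have h7 : av p (fun m => ((1 + wp p (sq p n m) : ℝ) : ℂ)) =
        1 + av p (fun m => ((wp p (sq p n m) : ℝ) : ℂ)) := by
      unfold av
      push_cast
      rw [Finset.sum_add_distrib, add_div]
      congr 1
      simp [hp0]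
    rw [h7, av_wp_sq (hP p hp)]
    push_cast
    ring
  have h8 : ((((∑ m ∈ range r, ∏ p ∈ r.primeFactors, (1 + wp p (sq p n m))) / r : ℝ)) : ℂ) =
      ((gr r n : ℝ) : ℂ) := by
    have h9 : av r F = ((((∑ m ∈ range r, ∏ p ∈ r.primeFactors, (1 + wp p (sq p n m))) / r : ℝ)) : ℂ) := by
      unfold av
      simp only [hF]
      push_cast
      rfl
    rw [← h9, h3]
    unfold gr
    push_cast
    rfl
  exact_mod_cast h8

end Pool.Agent.Lib.SPP
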