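import Pool.Agent.Lib.SPP.Defs
import Pool.Agent.Lib.GMV.Comb

/-!
# SPP.Even: tuples of sets in which every prime occurs an even number of times (1 h)

PROOF. By `GMV.tensor` (with `Fin (2k)`) the sum is `∏_{p ∈ P} ∑_{I ⊆ Fin (2k), |I| even} x_p^|I|`, `x_p = 2 p^(-3/4) < 1` (`p ≥ 3`, `2 · 3^(-3/4) = 0.877..`).
`∑_{|I| even} x^|I| = ((1+x)^(2k) + (1-x)^(2k))/2 ≤ (e^(2kx) + e^(-2kx))/2 = cosh(2kx) ≤ exp((2kx)²/2) = exp(8 k² p^(-3/2))`
(`Real.cosh_le_exp_half_sq`; the even part of the binomial sum: `Finset.sum_powerset...`, or `∑_I x^|I| = (1+x)^(2k)`, `∑_I (-x)^|I| = (1-x)^(2k)`, `Finset.prod_add` /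
`Finset.prod_one_add`). `∑_{p ∈ P} p^(-3/2) ≤ ∑_{m > z} m^(-3/2) ≤ 2/√z` (telescoping: `m^(-3/2) ≤ 2/√(m-1) - 2/√m`).
Total `exp(16 k²/√z) ≤ exp 16`.
-/

set_option autoImplicit false

open Finset Filter

namespace Pool.Agent.Lib.SPP

open Pool.Agent.HLB Pool.Agent.HLT Pool.Agent.HLR Pool.Agent.Lib.GMV

namespace EvenAux

/-- The square of the weight. -/
theorem sq_weight {p : ℕ} (hp : 1 ≤ p) :
    (2 * (p : ℝ) ^ (-(3 / 4 : ℝ))) ^ 2 = 4 * (1 / Real.sqrt p ^ 3) := by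
  have hp0 : (0 : ℝ) < p := by exact_mod_cast hp
  have e1 : Real.sqrt p ^ 3 = (p : ℝ) ^ (3 / 2 : ℝ) := by
    rw [Real.sqrt_eq_rpow, ← Real.rpow_natCast, ← Real.rpow_mul hp0.le]
    norm_num
  have e2 : ((p : ℝ) ^ (-(3 / 4 : ℝ))) ^ 2 = (p : ℝ) ^ (-(3 / 2 : ℝ)) := by
    rw [← Real.rpow_natCast, ← Real.rpow_mul hp0.le]
    norm_num
  rw [mul_pow, e2, e1, Real.rpow_neg hp0.le]
  norm_num

/-- The weight is at most one. -/
theorem weight_le {p : ℕ} (hp : 3 ≤ p) : 2 * (p : ℝ) ^ (-(3 / 4 : ℝ)) ≤ 1 := by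
  have hp3 : (3 : ℝ) ≤ p := by exact_mod_cast hp
  have hp0 : (0 : ℝ) < p := by linarith
  have h1 : (2 : ℝ) ≤ (p : ℝ) ^ (3 / 4 : ℝ) := by
    by_contra hcon
    push Not at hcon
    have h2 : ((p : ℝ) ^ (3 / 4 : ℝ)) ^ 4 < 2 ^ 4 :=
      pow_lt_pow_left₀ hcon (Real.rpow_nonneg hp0.le _) (by norm_num)
    have h3 : ((p : ℝ) ^ (3 / 4 : ℝ)) ^ 4 = (p : ℝ) ^ 3 := by
      rw [← Real.rpow_natCast, ← Real.rpow_mul hp0.le, ← Real.rpow_natCast]
      norm_num
    rw [h3] at h2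
    have h4 : (3 : ℝ) ^ 3 ≤ (p : ℝ) ^ 3 := pow_le_pow_left₀ (by norm_num) hp3 3
    norm_num at h2 h4
    linarith
  rw [Real.rpow_neg hp0.le, ← div_eq_mul_inv, div_le_one (by linarith)]
  exact h1

/-- The even part of the binomial sum. -/
theorem even_sum (k : ℕ) (x : ℝ) (hx0 : 0 ≤ x) (hx1 : x ≤ 1) :
    ∑ I : Finset (Fin (2 * k)), (if Even I.card then x ^ I.card else 0) ≤
      Real.exp (2 * (k : ℝ) ^ 2 * x ^ 2) := by
  have h1 : ∑ I : Finset (Fin (2 * k)), x ^ I.card = (1 + x) ^ (2 * k) := by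
    have h := Fintype.sum_pow_mul_eq_add_pow (Fin (2 * k)) x 1
    simp only [one_pow, mul_one, Fintype.card_fin] at h
    rw [h, add_comm]
  have h2 : ∑ I : Finset (Fin (2 * k)), (-x) ^ I.card = (1 - x) ^ (2 * k) := by
    have h := Fintype.sum_pow_mul_eq_add_pow (Fin (2 * k)) (-x) 1
    simp only [one_pow, mul_one, Fintype.card_fin] at h
    rw [h]
    congr 1
    ring
  have h3 : ∑ I : Finset (Fin (2 * k)), (if Even I.card then x ^ I.card else 0) =
      ((1 + x) ^ (2 * k) + (1 - x) ^ (2 * k)) / 2 := by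
    rw [← h1, ← h2, ← Finset.sum_add_distrib, Finset.sum_div]
    refine Finset.sum_congr rfl fun I _ => ?_
    by_cases h : Even I.card
    · rw [if_pos h, h.neg_pow]
      ring
    · rw [if_neg h, (Nat.not_even_iff_odd.mp h).neg_pow]
      ring
  have h4 : (1 + x) ^ (2 * k) ≤ Real.exp (((2 * k : ℕ) : ℝ) * x) := by
    rw [Real.exp_nat_mul]
    apply pow_le_pow_left₀ (by linarith)
    have := Real.add_one_le_exp x
    linarith
  have h5 : (1 - x) ^ (2 * k) ≤ Real.exp (-(((2 * k : ℕ) : ℝ) * x)) := by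
    rw [← mul_neg, Real.exp_nat_mul]
    apply pow_le_pow_left₀ (by linarith)
    have := Real.add_one_le_exp (-x)
    linarith
  have h6 := Real.cosh_le_exp_half_sq (((2 * k : ℕ) : ℝ) * x)
  rw [Real.cosh_eq] at h6
  have h7 : (((2 * k : ℕ) : ℝ) * x) ^ 2 / 2 = 2 * (k : ℝ) ^ 2 * x ^ 2 := by
    push_cast
    ring
  rw [h7] at h6
  rw [h3]
  linarith

/-- The telescoping sum. -/
theorem tele (z : ℕ) (hz : 1 ≤ z) (N : ℕ) (hN : z ≤ N) :
    ∑ m ∈ Ioc z N, 1 / Real.sqrt m ^ 3 ≤ 2 / Real.sqrt z - 2 / Real.sqrt N := by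
  induction N, hN using Nat.le_induction with
  | base => simp
  | succ N hN ih =>
    rw [Finset.sum_Ioc_succ_top (by omega)]
    have hN0 : (0 : ℝ) < N := by exact_mod_cast (by omega : 0 < N)
    set a := Real.sqrt N with ha
    set b := Real.sqrt ((N + 1 : ℕ) : ℝ) with hb
    have ha0 : 0 < a := Real.sqrt_pos.2 hN0
    have hab : a ≤ b := Real.sqrt_le_sqrt (by push_cast; linarith)
    have hb0 : 0 < b := by linarith
    have ha2 : a ^ 2 = N := Real.sq_sqrt hN0.le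
    have hb2 : b ^ 2 = N + 1 := by
      rw [hb, Real.sq_sqrt (Nat.cast_nonneg _)]
      push_cast
      ring
    have key : 1 / b ^ 3 ≤ 2 / a - 2 / b := by
      have h1 : 2 / a - 2 / b = 2 / (a * b * (a + b)) := by
        have h2 : (b - a) * (a + b) = 1 := by nlinarith
        have hs : a + b ≠ 0 := by positivity
        rw [div_sub_div _ _ ha0.ne' hb0.ne', div_eq_div_iff (by positivity) (by positivity)]
        have h3 : (2 * b - a * 2) * (a * b * (a + b)) = 2 * (a * b) * ((b - a) * (a + b)) := by ring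
        rw [h3, h2]
        ring
      rw [h1, div_le_div_iff₀ (by positivity) (by positivity)]
      have h4 : a * b * (a + b) ≤ b * b * (b + b) := by
        apply mul_le_mul _ (by linarith) (by positivity) (by positivity)
        exact mul_le_mul_of_nonneg_right hab hb0.le
      nlinarith
    linarith

end EvenAux

open EvenAux

theorem even_bound (P : Finset ℕ) (k z : ℕ) (hz : 2 ≤ z) (hP : ∀ p ∈ P, z < p)
    (hk : (k : ℝ) ^ 2 ≤ Real.sqrt z) :
    ∑ S ∈ Fintype.piFinset (fun _ : Fin (2 * k) => P.powerset),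
      ∏ p ∈ P, (if Even (univ.filter fun i => p ∈ S i).card then
        (2 * (p : ℝ) ^ (-(3 / 4 : ℝ))) ^ (univ.filter fun i => p ∈ S i).card else 0) ≤ Real.exp 16 := by
  rw [tensor P (fun p I => if Even I.card then (2 * (p : ℝ) ^ (-(3 / 4 : ℝ))) ^ I.card else 0)]
  have h1 : ∀ p ∈ P, ∑ I : Finset (Fin (2 * k)),
      (if Even I.card then (2 * (p : ℝ) ^ (-(3 / 4 : ℝ))) ^ I.card else 0) ≤
      Real.exp (8 * (k : ℝ) ^ 2 * (1 / Real.sqrt p ^ 3)) := by
    intro p hp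
    have hpz := hP p hp
    have h := even_sum k (2 * (p : ℝ) ^ (-(3 / 4 : ℝ))) (by positivity) (weight_le (by omega))
    rw [sq_weight (by omega)] at h
    refine h.trans (le_of_eq ?_)
    congr 1
    ring
  have h2 : ∏ p ∈ P, ∑ I : Finset (Fin (2 * k)),
      (if Even I.card then (2 * (p : ℝ) ^ (-(3 / 4 : ℝ))) ^ I.card else 0) ≤
      ∏ p ∈ P, Real.exp (8 * (k : ℝ) ^ 2 * (1 / Real.sqrt p ^ 3)) := by
    refine Finset.prod_le_prod (fun p _ => ?_) h1
    refine Finset.sum_nonneg fun I _ => ?_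
    split
    · positivity
    · exact le_rfl
  refine h2.trans ?_
  rw [← Real.exp_sum, ← Finset.mul_sum]
  apply Real.exp_le_exp.2
  have h3 : ∑ p ∈ P, 1 / Real.sqrt p ^ 3 ≤ 2 / Real.sqrt z := by
    set N := max z (P.sup id) with hN
    have hsub : P ⊆ Ioc z N := by
      intro p hp
      rw [mem_Ioc]
      exact ⟨hP p hp, le_max_of_le_right (Finset.le_sup (f := id) hp)⟩
    have h4 : ∑ p ∈ P, 1 / Real.sqrt p ^ 3 ≤ ∑ m ∈ Ioc z N, 1 / Real.sqrt m ^ 3 :=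
      Finset.sum_le_sum_of_subset_of_nonneg hsub fun m _ _ => by positivity
    have h5 := tele z (by omega) N (le_max_left _ _)
    have h6 : 0 ≤ 2 / Real.sqrt N := by positivity
    linarith
  have hz0 : (0 : ℝ) < Real.sqrt z := by
    apply Real.sqrt_pos.2
    exact_mod_cast (by omega : 0 < z)
  have h7 : 8 * (k : ℝ) ^ 2 * ∑ p ∈ P, 1 / Real.sqrt p ^ 3 ≤ 8 * (k : ℝ) ^ 2 * (2 / Real.sqrt z) :=
    mul_le_mul_of_nonneg_left h3 (by positivity)
  have h8 : 8 * (k : ℝ) ^ 2 * (2 / Real.sqrt z) ≤ 16 := by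
    rw [← mul_div_assoc, div_le_iff₀ hz0]
    nlinarith
  linarith

end Pool.Agent.Lib.SPP
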