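import Pool.Agent.Lib.SPP.Defs

/-!
# SPP.Loc: local means (1 h)

PROOF. `abs_gp_le`: the Jacobi symbol is `-1, 0` or `1` (for `p = 2`: `0 ≤ 1`). `gp_periodic`: `jacobiSym.mod_left`. `one_add_gp_nonneg`: `p = 2` trivial, `p ≥ 3`:
`|gp| ≤ 1/2`. `gp_odd_mean`: for `p = 2` trivial (`gp = 0`, `j ≥ 1`); for odd `p`: `jacobiSym n p = legendreSym p n = quadraticChar (ZMod p) n`, an odd power of the
values `-1, 0, 1` is the value itself, and `∑ quadraticChar = 0` (`quadraticChar_sum_zero`).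
`av_wp_sq`: `p ∣ n + (p-1) m²` iff `m² = n` in `ZMod p`; the number `ν` of such `m < p` is `1 + (n/p)` for odd `p` (`legendreSym.card_sqrts` or
`quadraticChar_card_sqrts`; the library has `SQP.card_sqr`, copy if useful), and `1` for `p = 2`. The mean is
`(-ν + (p - ν)/(p-1))/p = (1 - ν)/(p - 1)`.
-/

set_option autoImplicit false

open Finset Filter

namespace Pool.Agent.Lib.SPP

open Pool.Agent.HLB Pool.Agent.HLT Pool.Agent.HLR Pool.Agent.Lib.GMV

namespace LocAux

/-- the solutions of `m² = n` modulo `p` -/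
def rt (n p : ℕ) : Finset ℕ := (range p).filter (fun m => m ^ 2 % p = n % p)

lemma card_rt (n : ℕ) {p : ℕ} (hp : p.Prime) (h2 : p ≠ 2) :
    ((rt n p).card : ℤ) = jacobiSym (n : ℤ) p + 1 := by
  have : Fact p.Prime := ⟨hp⟩
  have h1 := legendreSym.card_sqrts p h2 (n : ℤ)
  rw [jacobiSym.legendreSym.to_jacobiSym] at h1
  rw [← h1]
  congr 1
  refine Finset.card_bij (fun r _ => (r : ZMod p)) ?_ ?_ ?_
  · intro r hr
    have h3 := (Finset.mem_filter.mp hr).2
    rw [Set.mem_toFinset, Set.mem_ofPred_eq]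
    push_cast
    have h4 : ((r ^ 2 : ℕ) : ZMod p) = ((n : ℕ) : ZMod p) := (ZMod.natCast_eq_natCast_iff' _ _ _).mpr h3
    push_cast at h4
    exact h4
  · intro a ha b hb hab
    have h3 := Finset.mem_range.mp (Finset.mem_filter.mp ha).1
    have h4 := Finset.mem_range.mp (Finset.mem_filter.mp hb).1
    have h5 := (ZMod.natCast_eq_natCast_iff' _ _ _).mp hab
    rwa [Nat.mod_eq_of_lt h3, Nat.mod_eq_of_lt h4] at h5
  · intro y hy
    rw [Set.mem_toFinset, Set.mem_ofPred_eq] at hy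
    refine ⟨y.val, ?_, ZMod.natCast_zmod_val y⟩
    refine Finset.mem_filter.mpr ⟨Finset.mem_range.mpr (ZMod.val_lt y), ?_⟩
    rw [← ZMod.natCast_eq_natCast_iff']
    push_cast
    rw [ZMod.natCast_zmod_val, hy]
    push_cast
    rfl

lemma card_rt_two (n : ℕ) : (rt n 2).card = 1 := by
  have h : n % 2 = 0 ∨ n % 2 = 1 := by omega
  rcases h with h | h
  · unfold rt
    rw [h]
    decide
  · unfold rt
    rw [h]
    decide

/-- The number of roots. -/
lemma card_rt_gp (n : ℕ) {p : ℕ} (hp : p.Prime) :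
    ((rt n p).card : ℝ) = 1 - gp p n * ((p : ℝ) - 1) := by
  unfold gp
  split_ifs with h2
  · subst h2
    rw [card_rt_two]
    norm_num
  · have h1 := card_rt n hp h2
    have h3 : ((rt n p).card : ℝ) = (jacobiSym (n : ℤ) p : ℝ) + 1 := by exact_mod_cast h1
    rw [h3]
    have hp1 : (1 : ℝ) < p := by exact_mod_cast hp.one_lt
    have : (p : ℝ) - 1 ≠ 0 := by linarith
    field_simp
    ring

lemma dvd_sq {p : ℕ} (hp : p.Prime) (n m : ℕ) : p ∣ sq p n m ↔ m ^ 2 % p = n % p := by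
  have hp1 := hp.one_lt
  unfold sq
  have e : n + (p - 1) * m ^ 2 + m ^ 2 = n + p * m ^ 2 := by
    obtain ⟨q, rfl⟩ : ∃ q, p = q + 1 := ⟨p - 1, by omega⟩
    rw [Nat.add_sub_cancel]
    ring
  constructor
  · intro h
    have h1 : (n + (p - 1) * m ^ 2 + m ^ 2) % p = m ^ 2 % p := by
      obtain ⟨c, hc⟩ := h
      rw [hc, Nat.mul_add_mod]
    rw [e, Nat.add_mul_mod_self_left] at h1
    exact h1.symm
  · intro h
    have h1 : (n + (p - 1) * m ^ 2 + m ^ 2) ≡ m ^ 2 [MOD p] := by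
      rw [e]
      unfold Nat.ModEq
      rw [Nat.add_mul_mod_self_left]
      exact h.symm
    have h2 : (n + (p - 1) * m ^ 2) + m ^ 2 ≡ 0 + m ^ 2 [MOD p] := by
      rw [zero_add]
      exact h1
    have h3 := Nat.ModEq.add_right_cancel' _ h2
    exact (Nat.modEq_zero_iff_dvd).1 h3

end LocAux

open LocAux

theorem abs_gp_le {p : ℕ} (hp : p.Prime) (n : ℕ) : |gp p n| ≤ 1 / ((p : ℝ) - 1) := by
  have hp1 : (1 : ℝ) < p := by exact_mod_cast hp.one_lt
  have hp0 : 0 < (p : ℝ) - 1 := by linarith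
  unfold gp
  split_ifs with h2
  · rw [abs_zero]
    positivity
  · rw [abs_div, abs_neg, abs_of_pos hp0]
    refine div_le_div_of_nonneg_right ?_ hp0.le
    rcases jacobiSym.trichotomy (n : ℤ) p with h | h | h <;> rw [h] <;> simp

theorem gp_periodic {p : ℕ} (hp : p.Prime) (n : ℕ) : gp p (n + p) = gp p n := by
  unfold gp
  have h : jacobiSym ((n + p : ℕ) : ℤ) p = jacobiSym (n : ℤ) p := by
    rw [jacobiSym.mod_left, jacobiSym.mod_left (n : ℤ)]
    push_cast
    rw [Int.add_emod_right]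
  rw [h]

theorem one_add_gp_nonneg {p : ℕ} (hp : p.Prime) (n : ℕ) : 0 ≤ 1 + gp p n := by
  have h1 := (abs_le.1 (abs_gp_le hp n)).1
  have hp1 : (2 : ℝ) ≤ p := by exact_mod_cast hp.two_le
  have h2 : 1 / ((p : ℝ) - 1) ≤ 1 := by
    rw [div_le_one (by linarith)]
    linarith
  linarith

theorem gp_odd_mean {p : ℕ} (hp : p.Prime) (j : ℕ) (hj : Odd j) : ∑ n ∈ range p, gp p n ^ j = 0 := by
  have hf : Fact p.Prime := ⟨hp⟩
  by_cases h2 : p = 2
  · have : ∀ n, gp p n = 0 := fun n => by unfold gp; rw [if_pos h2]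
    refine Finset.sum_eq_zero fun n _ => ?_
    rw [this, zero_pow hj.pos.ne']
  have h1 : ∀ n, gp p n ^ j = (-1 / ((p : ℝ) - 1)) ^ j * (jacobiSym (n : ℤ) p : ℝ) := by
    intro n
    have h3 : gp p n = (-1 / ((p : ℝ) - 1)) * (jacobiSym (n : ℤ) p : ℝ) := by
      unfold gp
      rw [if_neg h2]
      ring
    rw [h3, mul_pow]
    congr 1
    rcases jacobiSym.trichotomy (n : ℤ) p with h | h | h
    · rw [h]
      simp [zero_pow hj.pos.ne']
    · rw [h]
      simp
    · rw [h]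
      push_cast
      exact hj.neg_one_pow
  rw [Finset.sum_congr rfl fun n _ => h1 n, ← Finset.mul_sum]
  have h4 : ∑ n ∈ range p, (jacobiSym (n : ℤ) p : ℝ) = 0 := by
    have h5 : ∑ n ∈ range p, jacobiSym (n : ℤ) p = 0 := by
      have h6 : ∀ n ∈ range p, jacobiSym (n : ℤ) p = quadraticChar (ZMod p) ((n : ℕ) : ZMod p) := by
        intro n _
        rw [← jacobiSym.legendreSym.to_jacobiSym]
        unfold legendreSym
        push_cast
        rfl
      rw [Finset.sum_congr rfl h6]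
      have h7 : ∑ n ∈ range p, quadraticChar (ZMod p) ((n : ℕ) : ZMod p) =
          ∑ a : ZMod p, quadraticChar (ZMod p) a := by
        refine Finset.sum_bij (fun n _ => ((n : ℕ) : ZMod p)) (fun _ _ => Finset.mem_univ _) ?_ ?_
          (fun _ _ => rfl)
        · intro a ha b hb hab
          have h8 := (ZMod.natCast_eq_natCast_iff' _ _ _).mp hab
          rwa [Nat.mod_eq_of_lt (Finset.mem_range.1 ha), Nat.mod_eq_of_lt (Finset.mem_range.1 hb)] at h8
        · intro y _
          exact ⟨y.val, Finset.mem_range.2 (ZMod.val_lt y), ZMod.natCast_zmod_val y⟩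
      rw [h7]
      refine quadraticChar_sum_zero ?_
      rw [ZMod.ringChar_zmod_n]
      exact h2
    exact_mod_cast h5
  rw [h4, mul_zero]

theorem av_wp_sq {p : ℕ} (hp : p.Prime) (n : ℕ) :
    av p (fun m => ((wp p (sq p n m) : ℝ) : ℂ)) = (gp p n : ℂ) := by
  have hp1 : (1 : ℝ) < p := by exact_mod_cast hp.one_lt
  have hp0 : (p : ℝ) - 1 ≠ 0 := by linarith
  have hpp : (p : ℝ) ≠ 0 := by linarith
  have h1 : ∑ m ∈ range p, wp p (sq p n m) = gp p n * p := by
    have h2 : ∀ m ∈ range p, wp p (sq p n m) =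
        1 / ((p : ℝ) - 1) - (if m ^ 2 % p = n % p then 1 + 1 / ((p : ℝ) - 1) else 0) := by
      intro m _
      unfold wp
      by_cases h : m ^ 2 % p = n % p
      · rw [if_pos ((dvd_sq hp n m).2 h), if_pos h]
        ring
      · rw [if_neg (fun hc => h ((dvd_sq hp n m).1 hc)), if_neg h, sub_zero]
    rw [Finset.sum_congr rfl h2, Finset.sum_sub_distrib, Finset.sum_const, Finset.card_range,
      nsmul_eq_mul, ← Finset.sum_filter, Finset.sum_const, nsmul_eq_mul]
    have h3 := card_rt_gp n hp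
    unfold rt at h3
    rw [h3]
    field_simp
    ring
  unfold av
  have h4 : ∑ m ∈ range p, ((wp p (sq p n m) : ℝ) : ℂ) = ((gp p n * p : ℝ) : ℂ) := by
    rw [← h1]
    push_cast
    rfl
  rw [h4]
  push_cast
  have : (p : ℂ) ≠ 0 := by exact_mod_cast hp.ne_zero
  field_simp

end Pool.Agent.Lib.SPP
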