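import Pool.Agent.Lib.SPP.TailX
import Pool.Agent.Lib.SPP.Cnt
import Pool.Agent.Lib.SPP.Loc

/-!
# SPP.SerX: the full singular series for almost all `n` (1.5 h)

PROOF. `D = 4X`, `tailX (A + 2)`, `Bad ⊆ Ch D`. For a non-square `n ≤ X` let `x_n ∈ Ch (4n) ⊆ Ch D` be the character of `chn`. `F` = the non-squares `n ≤ X` with `x_n ∈ Bad` (choose one `x_n` for each `n`): by `cnt`
(`chn` for primes `b = p ∤ 2n`) at most `|Bad| √X ≤ (4X)^(1/4) X^(1/2) ≤ X^(7/8)`.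
Let `n ∉ F`. For `N ≥ z`: `SS N 1 n = SS z 1 n ∏_{z<p≤N} (1 + gp p n)`, `gp p n = -J(n|p)/(p-1)` (`p > z ≥ 2` odd). `∑_{z<p≤N} J(n|p)/p = Re ∑_{z<p≤N} cv x_n p/p - (terms with p ∣ n, where J = 0)`,
the terms with `p ∣ n`, `p > z` are at most `2 log X` many (`n ≤ X`), each `≤ 1/z`: a finite sum, at most `2 log X/z`. So `T(N) = ∑_{z<p≤N} J(n|p)/p` converges, limit at most `(log D)^(-A-2) + 2 log X/z`.
`log(1 + gp p n) = -J/p + O(2/p²)` for `p ≥ 3` (`|log(1+u) - u| ≤ u²` for `|u| ≤ 1/2`, `|J/(p-1) - J/p| ≤ 2/p²`...), so `∑_{z<p≤N} (log(1 + gp) + J/p)` converges absolutely, sum at most `10/z`.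
Hence `log (SS N 1 n/SS z 1 n)` converges to some `ℓ`, `|ℓ| ≤ (log X)^(-A-1)` (`z ≥ (log X)^B`, `B ≥ A + 3`), `s = SS z 1 n e^ℓ > 0`, `|SS z 1 n - s| = s |e^(-ℓ) - 1| ≤ 2 |ℓ| s ≤ s (log X)^(-A)`.
(`(log D)^B0' ≤ z` from `(log X)^B ≤ z` with `B ≥ B0 + 1`, as `log(4X) ≤ 2 log X`.)
-/

set_option autoImplicit false

open Finset Filter

namespace Pool.Agent.Lib.SPP

open Pool.Agent.HLB Pool.Agent.HLT Pool.Agent.HLR Pool.Agent.Lib.GMV

namespace SerXAux

lemma Ch_mono {Q R : ℕ} (h : Q ≤ R) : Ch Q ⊆ Ch R := by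
  intro x hx
  unfold Ch at hx ⊢
  rw [Finset.mem_sigma] at hx ⊢
  exact ⟨Finset.mem_range.2 (lt_of_lt_of_le (Finset.mem_range.1 hx.1) h), hx.2⟩

lemma norm_cv_le (x : CI) (n : ℕ) : ‖cv x n‖ ≤ 1 := DirichletCharacter.norm_le_one _ _

lemma card_pf (n : ℕ) (hn : 0 < n) : (n.primeFactors.card : ℝ) ≤ 2 * Real.log n := by
  have h1 : 2 ^ n.primeFactors.card ≤ n := by
    calc 2 ^ n.primeFactors.card ≤ ∏ p ∈ n.primeFactors, p :=
          Finset.pow_card_le_prod _ _ _ (fun p hp => (Nat.prime_of_mem_primeFactors hp).two_le)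
      _ ≤ n := Nat.le_of_dvd hn (Nat.prod_primeFactors_dvd n)
  have h2 : ((2 : ℝ) ^ n.primeFactors.card) ≤ n := by exact_mod_cast h1
  have h3 := Real.log_le_log (by positivity) h2
  rw [Real.log_pow] at h3
  have h4 : (1 / 2 : ℝ) ≤ Real.log 2 := by
    have := Real.log_two_gt_d9
    linarith
  have h5 : (0 : ℝ) ≤ n.primeFactors.card := by positivity
  nlinarith

lemma jac_zero {n p : ℕ} (hp : p.Prime) (h : p ∣ n) : jacobiSym (n : ℤ) p = 0 := by
  have : NeZero p := ⟨hp.ne_zero⟩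
  rw [jacobiSym.eq_zero_iff_not_coprime, Int.gcd_natCast_natCast]
  intro h1
  have h2 : p ∣ Nat.gcd n p := Nat.dvd_gcd h dvd_rfl
  rw [h1] at h2
  exact hp.one_lt.ne' (Nat.dvd_one.1 h2)

lemma conv1 (n : ℕ) (hn : 0 < n) (x : CI) (z : ℕ) (hz : 2 ≤ z) (l : ℂ)
    (hx : ∀ b : ℕ, b.Coprime (4 * n) → cv x b = ((jacobiSym (n : ℤ) b : ℤ) : ℂ))
    (hl : Tendsto (fun N : ℕ => ∑ p ∈ (Ioc z N).filter Nat.Prime, cv x p / (p : ℂ)) atTop (nhds l)) :
    ∃ t : ℝ, |t| ≤ ‖l‖ + 2 * Real.log n / z ∧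
      Tendsto (fun N : ℕ => ∑ p ∈ (Ioc z N).filter Nat.Prime, (jacobiSym (n : ℤ) p : ℝ) / (p : ℝ))
        atTop (nhds t) := by
  set c : ℂ := ∑ p ∈ n.primeFactors.filter (fun p => z < p), cv x p / (p : ℂ) with hc
  have hcn : ‖c‖ ≤ 2 * Real.log n / z := by
    have hz0 : (0 : ℝ) < z := by exact_mod_cast (by omega : 0 < z)
    calc ‖c‖ ≤ ∑ p ∈ n.primeFactors.filter (fun p => z < p), ‖cv x p / (p : ℂ)‖ := norm_sum_le _ _
      _ ≤ ∑ p ∈ n.primeFactors.filter (fun p => z < p), 1 / (z : ℝ) := by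
          refine Finset.sum_le_sum fun p hp => ?_
          have hzp : z < p := (Finset.mem_filter.1 hp).2
          have hzp' : (z : ℝ) ≤ p := by exact_mod_cast hzp.le
          rw [norm_div, Complex.norm_natCast]
          have h1 := norm_cv_le x p
          have hp0 : (0 : ℝ) < p := lt_of_lt_of_le hz0 hzp'
          calc ‖cv x p‖ / (p : ℝ) ≤ 1 / (p : ℝ) := div_le_div_of_nonneg_right h1 hp0.le
            _ ≤ 1 / (z : ℝ) := one_div_le_one_div_of_le hz0 hzp'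
      _ = ((n.primeFactors.filter (fun p => z < p)).card : ℝ) / z := by
          rw [Finset.sum_const, nsmul_eq_mul]
          ring
      _ ≤ (n.primeFactors.card : ℝ) / z := by
          refine div_le_div_of_nonneg_right ?_ hz0.le
          exact_mod_cast Finset.card_le_card (Finset.filter_subset _ _)
      _ ≤ 2 * Real.log n / z := div_le_div_of_nonneg_right (card_pf n hn) hz0.le
  have key : ∀ N : ℕ, n ≤ N → ((∑ p ∈ (Ioc z N).filter Nat.Prime,
      (jacobiSym (n : ℤ) p : ℝ) / (p : ℝ) : ℝ) : ℂ) =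
      (∑ p ∈ (Ioc z N).filter Nat.Prime, cv x p / (p : ℂ)) - c := by
    intro N hN
    have e1 : c = ∑ p ∈ (Ioc z N).filter Nat.Prime, (if p ∣ n then cv x p / (p : ℂ) else 0) := by
      rw [← Finset.sum_filter, hc]
      refine Finset.sum_congr ?_ fun _ _ => rfl
      ext p
      simp only [Finset.mem_filter, Finset.mem_Ioc, Nat.mem_primeFactors]
      constructor
      · rintro ⟨⟨hp, hpn, h0⟩, hzp⟩
        exact ⟨⟨⟨hzp, (Nat.le_of_dvd hn hpn).trans hN⟩, hp⟩, hpn⟩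
      · rintro ⟨⟨⟨hzp, _⟩, hp⟩, hpn⟩
        exact ⟨⟨hp, hpn, hn.ne'⟩, hzp⟩
    rw [e1, ← Finset.sum_sub_distrib]
    push_cast
    refine Finset.sum_congr rfl fun p hp => ?_
    have hpp : p.Prime := (Finset.mem_filter.1 hp).2
    have hzp : z < p := (Finset.mem_Ioc.1 (Finset.mem_filter.1 hp).1).1
    by_cases h : p ∣ n
    · rw [if_pos h, sub_self, jac_zero hpp h]
      simp
    · have hcop : p.Coprime (4 * n) := by
        rw [Nat.Prime.coprime_iff_not_dvd hpp]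
        intro h1
        rcases (Nat.Prime.dvd_mul hpp).1 h1 with h2 | h2
        · have h3 : p ∣ 2 ^ 2 := by
            norm_num
            exact h2
          have h4 := hpp.dvd_of_dvd_pow h3
          have h5 := Nat.le_of_dvd (by norm_num) h4
          omega
        · exact h h2
      rw [if_neg h, sub_zero, hx p hcop]
  have hlim : Tendsto (fun N : ℕ => ((∑ p ∈ (Ioc z N).filter Nat.Prime,
      (jacobiSym (n : ℤ) p : ℝ) / (p : ℝ) : ℝ) : ℂ)) atTop (nhds (l - c)) := by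
    refine (hl.sub_const c).congr' ?_
    filter_upwards [eventually_ge_atTop n] with N hN
    exact (key N hN).symm
  refine ⟨(l - c).re, ?_, ?_⟩
  · calc |(l - c).re| ≤ ‖l - c‖ := Complex.abs_re_le_norm _
      _ ≤ ‖l‖ + ‖c‖ := norm_sub_le _ _
      _ ≤ ‖l‖ + 2 * Real.log n / z := by linarith
  · have h1 := (Complex.continuous_re.tendsto (l - c)).comp hlim
    refine h1.congr fun N => ?_
    simp only [Function.comp_apply, Complex.ofReal_re]

lemma log_bd {p : ℕ} (hp : p.Prime) (h3 : 3 ≤ p) (n : ℕ) :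
    |Real.log (1 + gp p n) + (jacobiSym (n : ℤ) p : ℝ) / (p : ℝ)| ≤ 3 / ((p : ℝ) - 1) ^ 2 := by
  have hp3 : (3 : ℝ) ≤ p := by exact_mod_cast h3
  have hq : (0 : ℝ) < (p : ℝ) - 1 := by linarith
  have hg := abs_gp_le hp n
  have hg2 : |gp p n| ≤ 1 / 2 := hg.trans (one_div_le_one_div_of_le (by norm_num) (by linarith))
  have h1 := Real.abs_log_sub_add_sum_range_le (x := -gp p n) (by rw [abs_neg]; linarith) 1
  simp only [Finset.sum_range_one, zero_add, pow_one, Nat.cast_zero, div_one, sub_neg_eq_add,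
    abs_neg] at h1
  have h2 : |gp p n| ^ (1 + 1) / (1 - |gp p n|) ≤ 2 / ((p : ℝ) - 1) ^ 2 := by
    have ha : |gp p n| ^ (1 + 1) ≤ 1 / ((p : ℝ) - 1) ^ 2 := by
      calc |gp p n| ^ (1 + 1) ≤ (1 / ((p : ℝ) - 1)) ^ (1 + 1) := pow_le_pow_left₀ (abs_nonneg _) hg _
        _ = 1 / ((p : ℝ) - 1) ^ 2 := by
            rw [div_pow, one_pow]
    have hb : (1 / 2 : ℝ) ≤ 1 - |gp p n| := by linarith
    calc |gp p n| ^ (1 + 1) / (1 - |gp p n|) ≤ (1 / ((p : ℝ) - 1) ^ 2) / (1 / 2) := by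
          refine div_le_div₀ (by positivity) ha (by norm_num) hb
      _ = 2 / ((p : ℝ) - 1) ^ 2 := by ring
  have h4 : |gp p n + (jacobiSym (n : ℤ) p : ℝ) / (p : ℝ)| ≤ 1 / ((p : ℝ) - 1) ^ 2 := by
    have e : gp p n + (jacobiSym (n : ℤ) p : ℝ) / (p : ℝ) =
        -((jacobiSym (n : ℤ) p : ℝ)) * (1 / ((p : ℝ) * ((p : ℝ) - 1))) := by
      unfold gp
      rw [if_neg (by omega)]
      have : (p : ℝ) ≠ 0 := by linarith
      field_simp
      ring
    rw [e, abs_mul, abs_neg]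
    have hj : |(jacobiSym (n : ℤ) p : ℝ)| ≤ 1 := by
      rcases jacobiSym.trichotomy (n : ℤ) p with h | h | h <;> rw [h] <;> simp
    have hpos : (0 : ℝ) ≤ 1 / ((p : ℝ) * ((p : ℝ) - 1)) := by positivity
    rw [abs_of_nonneg hpos]
    calc |(jacobiSym (n : ℤ) p : ℝ)| * (1 / ((p : ℝ) * ((p : ℝ) - 1)))
        ≤ 1 * (1 / ((p : ℝ) * ((p : ℝ) - 1))) := mul_le_mul_of_nonneg_right hj hpos
      _ = 1 / ((p : ℝ) * ((p : ℝ) - 1)) := one_mul _
      _ ≤ 1 / ((p : ℝ) - 1) ^ 2 := by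
          refine one_div_le_one_div_of_le (by positivity) ?_
          nlinarith
  have e2 : Real.log (1 + gp p n) + (jacobiSym (n : ℤ) p : ℝ) / (p : ℝ) =
      (-gp p n + Real.log (1 + gp p n)) + (gp p n + (jacobiSym (n : ℤ) p : ℝ) / (p : ℝ)) := by ring
  rw [e2]
  calc |(-gp p n + Real.log (1 + gp p n)) + (gp p n + (jacobiSym (n : ℤ) p : ℝ) / (p : ℝ))|
      ≤ |-gp p n + Real.log (1 + gp p n)| + |gp p n + (jacobiSym (n : ℤ) p : ℝ) / (p : ℝ)| :=
        abs_add_le _ _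
    _ ≤ 2 / ((p : ℝ) - 1) ^ 2 + 1 / ((p : ℝ) - 1) ^ 2 := by
        refine add_le_add (h1.trans h2) h4
    _ = 3 / ((p : ℝ) - 1) ^ 2 := by ring

lemma tele (z : ℕ) (hz : 2 ≤ z) (N : ℕ) (hN : z ≤ N) :
    ∑ k ∈ Ioc z N, 1 / ((k : ℝ) - 1) ^ 2 ≤ 1 / ((z : ℝ) - 1) - 1 / ((N : ℝ) - 1) := by
  induction N, hN using Nat.le_induction with
  | base => simp
  | succ N hN ih =>
    rw [Finset.sum_Ioc_succ_top hN]
    have hN2 : (2 : ℝ) ≤ N := by exact_mod_cast (hz.trans hN)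
    have h1 : 1 / (((N + 1 : ℕ) : ℝ) - 1) ^ 2 ≤ 1 / ((N : ℝ) - 1) - 1 / (((N + 1 : ℕ) : ℝ) - 1) := by
      push_cast
      have e : (1 : ℝ) / ((N : ℝ) - 1) - 1 / ((N : ℝ) + 1 - 1) = 1 / (((N : ℝ) - 1) * N) := by
        have h2 : (N : ℝ) - 1 ≠ 0 := by linarith
        have h3 : (N : ℝ) ≠ 0 := by linarith
        have h4 : (N : ℝ) + 1 - 1 = N := by ring
        rw [h4]
        field_simp
        ring
      rw [e]
      have h5 : (0 : ℝ) < ((N : ℝ) - 1) * N := by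
        apply mul_pos <;> linarith
      refine one_div_le_one_div_of_le h5 ?_
      nlinarith
    linarith

lemma tele' (z : ℕ) (hz : 2 ≤ z) (N : ℕ) :
    ∑ k ∈ Ioc z N, 1 / ((k : ℝ) - 1) ^ 2 ≤ 2 / (z : ℝ) := by
  have hz2 : (2 : ℝ) ≤ z := by exact_mod_cast hz
  have hzz : 1 / ((z : ℝ) - 1) ≤ 2 / (z : ℝ) := by
    rw [div_le_div_iff₀ (by linarith) (by linarith)]
    linarith
  rcases le_or_gt z N with h | h
  · have h1 := tele z hz N h
    have h2 : (0 : ℝ) ≤ 1 / ((N : ℝ) - 1) := by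
      have : (2 : ℝ) ≤ N := by exact_mod_cast hz.trans h
      apply div_nonneg zero_le_one
      linarith
    linarith
  · rw [Finset.Ioc_eq_empty (by omega), Finset.sum_empty]
    positivity

/-- the summand -/
noncomputable def Hf (z n k : ℕ) : ℝ :=
  if z < k ∧ k.Prime then Real.log (1 + gp k n) + (jacobiSym (n : ℤ) k : ℝ) / (k : ℝ) else 0

lemma filt (z N : ℕ) : (range (N + 1)).filter (fun k => z < k ∧ k.Prime) = (Ioc z N).filter Nat.Prime := by
  ext k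
  simp only [Finset.mem_filter, Finset.mem_range, Finset.mem_Ioc]
  constructor
  · rintro ⟨h1, h2, h3⟩
    exact ⟨⟨h2, by omega⟩, h3⟩
  · rintro ⟨⟨h1, h2⟩, h3⟩
    exact ⟨by omega, h1, h3⟩

lemma sum_Hf (z n N : ℕ) : ∑ k ∈ range (N + 1), Hf z n k = ∑ p ∈ (Ioc z N).filter Nat.Prime,
    (Real.log (1 + gp p n) + (jacobiSym (n : ℤ) p : ℝ) / (p : ℝ)) := by
  unfold Hf
  rw [← Finset.sum_filter, filt]

lemma sum_abs_Hf (z : ℕ) (hz : 2 ≤ z) (n N : ℕ) : ∑ k ∈ range (N + 1), |Hf z n k| ≤ 6 / (z : ℝ) := by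
  have h1 : ∀ k ∈ range (N + 1), |Hf z n k| =
      if z < k ∧ k.Prime then |Real.log (1 + gp k n) + (jacobiSym (n : ℤ) k : ℝ) / (k : ℝ)| else 0 := by
    intro k _
    unfold Hf
    split_ifs
    · rfl
    · exact abs_zero
  rw [Finset.sum_congr rfl h1, ← Finset.sum_filter, filt]
  calc ∑ p ∈ (Ioc z N).filter Nat.Prime,
        |Real.log (1 + gp p n) + (jacobiSym (n : ℤ) p : ℝ) / (p : ℝ)|
      ≤ ∑ p ∈ (Ioc z N).filter Nat.Prime, 3 / ((p : ℝ) - 1) ^ 2 := by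
        refine Finset.sum_le_sum fun p hp => ?_
        have h2 := Finset.mem_filter.1 hp
        have h3 := (Finset.mem_Ioc.1 h2.1).1
        exact log_bd h2.2 (by omega) n
    _ ≤ ∑ p ∈ Ioc z N, 3 / ((p : ℝ) - 1) ^ 2 :=
        Finset.sum_le_sum_of_subset_of_nonneg (Finset.filter_subset _ _) fun _ _ _ => by positivity
    _ = 3 * ∑ p ∈ Ioc z N, 1 / ((p : ℝ) - 1) ^ 2 := by
        rw [Finset.mul_sum]
        refine Finset.sum_congr rfl fun _ _ => by ring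
    _ ≤ 3 * (2 / (z : ℝ)) := by
        have := tele' z hz N
        linarith
    _ = 6 / (z : ℝ) := by ring

lemma conv2 (z : ℕ) (hz : 2 ≤ z) (n : ℕ) : ∃ u : ℝ, |u| ≤ 6 / (z : ℝ) ∧
    Tendsto (fun N : ℕ => ∑ p ∈ (Ioc z N).filter Nat.Prime,
      (Real.log (1 + gp p n) + (jacobiSym (n : ℤ) p : ℝ) / (p : ℝ))) atTop (nhds u) := by
  have h1 : ∀ N, ∑ k ∈ range N, |Hf z n k| ≤ 6 / (z : ℝ) := by
    intro N
    refine le_trans ?_ (sum_abs_Hf z hz n N)
    exact Finset.sum_le_sum_of_subset_of_nonneg (Finset.range_mono (Nat.le_succ _))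
      fun _ _ _ => abs_nonneg _
  have hs : Summable fun k => |Hf z n k| := summable_of_sum_range_le (fun _ => abs_nonneg _) h1
  have hs2 : Summable fun k => Hf z n k := hs.of_abs
  have ht := hs2.hasSum.tendsto_sum_nat
  have ht2 := (tendsto_add_atTop_iff_nat 1).2 ht
  refine ⟨∑' k, Hf z n k, ?_, ?_⟩
  · refine le_of_tendsto (ht.abs) (Eventually.of_forall fun N => ?_)
    exact (Finset.abs_sum_le_sum_abs _ _).trans (h1 N)
  · refine ht2.congr fun N => ?_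
    exact sum_Hf z n N

lemma one_add_pos {p : ℕ} (hp : p.Prime) (n : ℕ) : 0 < 1 + gp p n := by
  by_cases h : p = 2
  · unfold gp
    rw [if_pos h]
    norm_num
  · have h2 := hp.two_le
    have h3 : (3 : ℝ) ≤ p := by exact_mod_cast (by omega : 3 ≤ p)
    have h1 := (abs_le.1 (abs_gp_le hp n)).1
    have h4 : 1 / ((p : ℝ) - 1) ≤ 1 / 2 := one_div_le_one_div_of_le (by norm_num) (by linarith)
    linarith

lemma SS_pos (z n : ℕ) : 0 < SS z 1 n := by
  unfold SS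
  refine Finset.prod_pos fun p hp => ?_
  exact one_add_pos (Nat.mem_primesLE.1 (Finset.mem_filter.1 hp).1).2 n

lemma SS_split (z N n : ℕ) (h : z ≤ N) :
    SS N 1 n = SS z 1 n * ∏ p ∈ (Ioc z N).filter Nat.Prime, (1 + gp p n) := by
  unfold SS
  have hd : Disjoint ((Nat.primesLE z).filter (fun p => ¬ p ∣ 1)) ((Ioc z N).filter Nat.Prime) := by
    rw [Finset.disjoint_left]
    intro p hp hq
    have h1 := (Nat.mem_primesLE.1 (Finset.mem_filter.1 hp).1).1
    have h2 := (Finset.mem_Ioc.1 (Finset.mem_filter.1 hq).1).1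
    omega
  rw [← Finset.prod_union hd]
  refine Finset.prod_congr ?_ fun _ _ => rfl
  ext p
  simp only [Finset.mem_filter, Finset.mem_union, Finset.mem_Ioc, Nat.mem_primesLE]
  constructor
  · rintro ⟨⟨h1, h2⟩, h3⟩
    rcases le_or_gt p z with h4 | h4
    · exact Or.inl ⟨⟨h4, h2⟩, h3⟩
    · exact Or.inr ⟨⟨h4, h1⟩, h2⟩
  · rintro (⟨⟨h1, h2⟩, h3⟩ | ⟨⟨h1, h4⟩, h2⟩)
    · exact ⟨⟨h1.trans h, h2⟩, h3⟩
    · exact ⟨⟨h4, h2⟩, fun h5 => h2.one_lt.ne' (Nat.dvd_one.1 h5)⟩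

/-- convergence of the singular series from convergence of the character sum -/
lemma conv3 (n : ℕ) (hn : 0 < n) (x : CI) (z : ℕ) (hz : 2 ≤ z) (l : ℂ)
    (hx : ∀ b : ℕ, b.Coprime (4 * n) → cv x b = ((jacobiSym (n : ℤ) b : ℤ) : ℂ))
    (hl : Tendsto (fun N : ℕ => ∑ p ∈ (Ioc z N).filter Nat.Prime, cv x p / (p : ℂ)) atTop (nhds l)) :
    ∃ ℓ : ℝ, |ℓ| ≤ ‖l‖ + 2 * Real.log n / z + 6 / (z : ℝ) ∧
      Tendsto (fun N : ℕ => SS N 1 n) atTop (nhds (SS z 1 n * Real.exp ℓ)) := by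
  obtain ⟨t, ht, htt⟩ := conv1 n hn x z hz l hx hl
  obtain ⟨u, hu, huu⟩ := conv2 z hz n
  refine ⟨u - t, ?_, ?_⟩
  · calc |u - t| ≤ |u| + |t| := abs_sub _ _
      _ ≤ _ := by linarith
  · have h1 : Tendsto (fun N : ℕ => SS z 1 n * Real.exp ((∑ p ∈ (Ioc z N).filter Nat.Prime,
        (Real.log (1 + gp p n) + (jacobiSym (n : ℤ) p : ℝ) / (p : ℝ))) -
        ∑ p ∈ (Ioc z N).filter Nat.Prime, (jacobiSym (n : ℤ) p : ℝ) / (p : ℝ))) atTop
        (nhds (SS z 1 n * Real.exp (u - t))) :=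
      ((Real.continuous_exp.tendsto _).comp (huu.sub htt)).const_mul _
    refine h1.congr' ?_
    filter_upwards [eventually_ge_atTop z] with N hN
    rw [SS_split z N n hN, ← Finset.sum_sub_distrib]
    congr 1
    rw [Real.exp_sum]
    refine Finset.prod_congr rfl fun p hp => ?_
    have hpp := (Finset.mem_filter.1 hp).2
    rw [add_sub_cancel_right, Real.exp_log (one_add_pos hpp n)]

end SerXAux

open SerXAux

theorem serX (A : ℕ) : ∃ B0 : ℕ, ∀ B : ℕ, B0 ≤ B → ∀ᶠ X : ℕ in atTop, ∀ z : ℕ,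
    Real.log X ^ B ≤ z → z ≤ X → ∃ F ⊆ Icc 1 X, (F.card : ℝ) ≤ (X : ℝ) ^ (7 / 8 : ℝ) ∧
    ∀ n ∈ Icc 1 X, n ∉ F → ¬ IsSquare n → ∃ s : ℝ, 0 < s ∧
      Tendsto (fun N : ℕ => SS N 1 n) atTop (nhds s) ∧ |SS z 1 n - s| ≤ s / Real.log X ^ A := by
  classical
  obtain ⟨B0', hB⟩ := tailX (A + 1)
  refine ⟨max (B0' + 1) (A + 3), fun B hBB => ?_⟩
  have hB1 : B0' + 1 ≤ B := (le_max_left _ _).trans hBB
  have hB2 : A + 3 ≤ B := (le_max_right _ _).trans hBB
  have hT : Tendsto (fun X : ℕ => 4 * X) atTop atTop :=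
    Filter.tendsto_atTop_mono (fun n => by simp only [id]; omega) tendsto_id
  have hD := hT.eventually (hB B0' le_rfl)
  have hLT : Tendsto (fun X : ℕ => Real.log (X : ℝ)) atTop atTop :=
    Real.tendsto_log_atTop.comp tendsto_natCast_atTop_atTop
  filter_upwards [hD, hLT.eventually_ge_atTop (max 8 (2 ^ B0')), eventually_ge_atTop 1] with X hX hL hX1
  intro z hz1 hz2
  have hL8 : 8 ≤ Real.log X := (le_max_left _ _).trans hL
  have hLB : 2 ^ B0' ≤ Real.log X := (le_max_right _ _).trans hL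
  set L := Real.log X with hLdef
  have hL1 : 1 ≤ L := by linarith
  have hXpos : (0 : ℝ) < X := by exact_mod_cast hX1
  have hlogD : Real.log ((4 * X : ℕ) : ℝ) ≤ 2 * L := by
    push_cast
    rw [Real.log_mul (by norm_num) hXpos.ne']
    have : Real.log 4 ≤ 4 - 1 := Real.log_le_sub_one_of_pos (by norm_num)
    linarith
  have hlogD2 : L ≤ Real.log ((4 * X : ℕ) : ℝ) := by
    refine Real.log_le_log hXpos ?_
    push_cast
    linarith
  have hzA : L ^ (A + 3) ≤ z := (pow_le_pow_right₀ hL1 hB2).trans hz1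
  have hzD : Real.log ((4 * X : ℕ) : ℝ) ^ B0' ≤ z := by
    calc Real.log ((4 * X : ℕ) : ℝ) ^ B0' ≤ (2 * L) ^ B0' :=
          pow_le_pow_left₀ (by linarith) hlogD _
      _ = 2 ^ B0' * L ^ B0' := mul_pow _ _ _
      _ ≤ L * L ^ B0' := mul_le_mul_of_nonneg_right hLB (by positivity)
      _ = L ^ (B0' + 1) := by ring
      _ ≤ L ^ B := pow_le_pow_right₀ hL1 hB1
      _ ≤ z := hz1
  have hz8 : (8 : ℝ) ≤ z := by
    calc (8 : ℝ) ≤ L ^ 1 := by rw [pow_one]; exact hL8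
      _ ≤ L ^ (A + 3) := pow_le_pow_right₀ hL1 (by omega)
      _ ≤ z := hzA
  have hz2' : 2 ≤ z := by
    have : (2 : ℝ) ≤ z := by linarith
    exact_mod_cast this
  obtain ⟨Bad, hBs, hBc, hBad⟩ := hX z hzD (by omega)
  have hch : ∀ n : ℕ, ∃ x : CI, 0 < n → ¬ IsSquare n → x ∈ Ch (4 * n) ∧ x.2 ≠ 1 ∧ x.2 ^ 2 = 1 ∧
      ∀ b : ℕ, b.Coprime (4 * n) → cv x b = ((jacobiSym (n : ℤ) b : ℤ) : ℂ) := by
    intro n
    by_cases h : 0 < n ∧ ¬ IsSquare n
    · obtain ⟨x, hx⟩ := chn n h.1 h.2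
      exact ⟨x, fun _ _ => hx⟩
    · exact ⟨Pool.Agent.Lib.GMV.one, fun a b => absurd ⟨a, b⟩ h⟩
  choose ch hch using hch
  refine ⟨(Icc 1 X).filter (fun n => ¬ IsSquare n ∧ ch n ∈ Bad), Finset.filter_subset _ _, ?_, ?_⟩
  · have h1 : ((Icc 1 X).filter (fun n => ¬ IsSquare n ∧ ch n ∈ Bad)).card ≤ Bad.card * Nat.sqrt X := by
      calc ((Icc 1 X).filter (fun n => ¬ IsSquare n ∧ ch n ∈ Bad)).card
          ≤ (Bad.biUnion (fun x => (Icc 1 X).filter (fun n => ∀ p : ℕ, p.Prime → ¬ p ∣ 2 * n →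
              cv x p = ((jacobiSym (n : ℤ) p : ℤ) : ℂ)))).card := by
            refine Finset.card_le_card fun n hn => ?_
            obtain ⟨hn1, hn2, hn3⟩ := Finset.mem_filter.1 hn
            have hn0 : 0 < n := (Finset.mem_Icc.1 hn1).1
            refine Finset.mem_biUnion.2 ⟨ch n, hn3, Finset.mem_filter.2 ⟨hn1, fun p hp hpn => ?_⟩⟩
            refine (hch n hn0 hn2).2.2.2 p ?_
            rw [Nat.Prime.coprime_iff_not_dvd hp]
            intro h2
            apply hpn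
            have e : 4 * n = 2 * (2 * n) := by ring
            rw [e] at h2
            rcases (Nat.Prime.dvd_mul hp).1 h2 with h3 | h3
            · exact h3.mul_right n
            · exact h3
        _ ≤ Bad.card * Nat.sqrt X := by
            refine Finset.card_biUnion_le_card_mul _ _ _ fun x _ => ?_
            have h2 := cnt x X
            convert h2
    have h2 : (((Icc 1 X).filter (fun n => ¬ IsSquare n ∧ ch n ∈ Bad)).card : ℝ) ≤
        (Bad.card : ℝ) * (Nat.sqrt X : ℝ) := by exact_mod_cast h1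
    have h3 : (Nat.sqrt X : ℝ) ≤ (X : ℝ) ^ (1 / 2 : ℝ) := by
      rw [← Real.sqrt_eq_rpow]
      exact Real.nat_sqrt_le_real_sqrt
    have h4 : (((4 * X : ℕ) : ℝ)) ^ (1 / 4 : ℝ) ≤ 2 * (X : ℝ) ^ (1 / 4 : ℝ) := by
      push_cast
      rw [Real.mul_rpow (by norm_num) hXpos.le]
      refine mul_le_mul_of_nonneg_right ?_ (by positivity)
      calc (4 : ℝ) ^ (1 / 4 : ℝ) ≤ (4 : ℝ) ^ (1 / 2 : ℝ) :=
            Real.rpow_le_rpow_of_exponent_le (by norm_num) (by norm_num)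
        _ = 2 := by
            rw [← Real.sqrt_eq_rpow]
            rw [show (4 : ℝ) = 2 ^ 2 by norm_num, Real.sqrt_sq (by norm_num)]
    have h5 : (2 : ℝ) ≤ (X : ℝ) ^ (1 / 8 : ℝ) := by
      rw [Real.rpow_def_of_pos hXpos]
      have h6 : 1 ≤ Real.log X * (1 / 8) := by
        have : L = Real.log X := rfl
        linarith
      calc (2 : ℝ) ≤ 1 + 1 := by norm_num
        _ ≤ Real.log X * (1 / 8) + 1 := by linarith
        _ ≤ Real.exp (Real.log X * (1 / 8)) := Real.add_one_le_exp _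
    calc (((Icc 1 X).filter (fun n => ¬ IsSquare n ∧ ch n ∈ Bad)).card : ℝ)
        ≤ (Bad.card : ℝ) * (Nat.sqrt X : ℝ) := h2
      _ ≤ (2 * (X : ℝ) ^ (1 / 4 : ℝ)) * (X : ℝ) ^ (1 / 2 : ℝ) :=
          mul_le_mul (hBc.trans h4) h3 (by positivity) (by positivity)
      _ ≤ ((X : ℝ) ^ (1 / 8 : ℝ) * (X : ℝ) ^ (1 / 4 : ℝ)) * (X : ℝ) ^ (1 / 2 : ℝ) := by
          refine mul_le_mul_of_nonneg_right ?_ (by positivity)
          exact mul_le_mul_of_nonneg_right h5 (by positivity)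
      _ = (X : ℝ) ^ (7 / 8 : ℝ) := by
          rw [← Real.rpow_add hXpos, ← Real.rpow_add hXpos]
          norm_num
  · intro n hn hnF hsq
    obtain ⟨hn0, hnX⟩ := Finset.mem_Icc.1 hn
    have hn0' : 0 < n := hn0
    obtain ⟨hx1, hx2, hx3, hx4⟩ := hch n hn0' hsq
    have hxB : ch n ∉ Bad := fun h => hnF (Finset.mem_filter.2 ⟨hn, hsq, h⟩)
    obtain ⟨l, hl1, hl2⟩ := hBad (ch n) (Ch_mono (by omega) hx1) hxB hx2 hx3
    obtain ⟨ℓ, hℓ1, hℓ2⟩ := conv3 n hn0' (ch n) z hz2' l hx4 hl2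
    have hSp := SS_pos z n
    have hn1R : (1 : ℝ) ≤ n := by exact_mod_cast hn0
    have hlogn : Real.log n ≤ L := Real.log_le_log (by linarith) (by exact_mod_cast hnX)
    have hLA : 0 < L ^ A := by positivity
    have hbound : 2 * |ℓ| ≤ 1 / L ^ A := by
      have a1 : ‖l‖ ≤ 1 / 8 * (1 / L ^ A) := by
        calc ‖l‖ ≤ 1 / Real.log ((4 * X : ℕ) : ℝ) ^ (A + 1) := hl1
          _ ≤ 1 / L ^ (A + 1) := by
              refine one_div_le_one_div_of_le (by positivity) ?_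
              exact pow_le_pow_left₀ (by linarith) hlogD2 _
          _ = 1 / L * (1 / L ^ A) := by
              rw [pow_succ]
              field_simp
          _ ≤ 1 / 8 * (1 / L ^ A) := by
              refine mul_le_mul_of_nonneg_right ?_ (by positivity)
              exact one_div_le_one_div_of_le (by norm_num) hL8
      have a2 : 2 * Real.log n / z + 6 / (z : ℝ) ≤ 3 / 64 * (1 / L ^ A) := by
        have hz0 : (0 : ℝ) < z := by linarith
        calc 2 * Real.log n / z + 6 / (z : ℝ) = (2 * Real.log n + 6) / z := by ring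
          _ ≤ (3 * L) / z := by
              refine div_le_div_of_nonneg_right ?_ hz0.le
              linarith
          _ ≤ (3 * L) / L ^ (A + 3) := by
              refine div_le_div_of_nonneg_left (by positivity) (by positivity) hzA
          _ = 3 / L ^ 2 * (1 / L ^ A) := by
              have : L ≠ 0 := by linarith
              field_simp
              ring
          _ ≤ 3 / 64 * (1 / L ^ A) := by
              refine mul_le_mul_of_nonneg_right ?_ (by positivity)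
              refine div_le_div_of_nonneg_left (by norm_num) (by norm_num) ?_
              nlinarith
      have a3 : 0 < 1 / L ^ A := by positivity
      linarith
    have hℓ1' : |ℓ| ≤ 1 := by
      have a4 : 1 / L ^ A ≤ 1 := by
        rw [div_le_one hLA]
        exact one_le_pow₀ hL1
      have := abs_nonneg ℓ
      linarith
    refine ⟨SS z 1 n * Real.exp ℓ, mul_pos hSp (Real.exp_pos _), hℓ2, ?_⟩
    have e1 : SS z 1 n - SS z 1 n * Real.exp ℓ =
        (SS z 1 n * Real.exp ℓ) * (Real.exp (-ℓ) - 1) := by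
      have h5 : Real.exp ℓ * Real.exp (-ℓ) = 1 := by
        rw [← Real.exp_add, add_neg_cancel, Real.exp_zero]
      have h6 : (SS z 1 n * Real.exp ℓ) * (Real.exp (-ℓ) - 1) =
          SS z 1 n * (Real.exp ℓ * Real.exp (-ℓ)) - SS z 1 n * Real.exp ℓ := by ring
      rw [h6, h5, mul_one]
    rw [e1, abs_mul, abs_of_pos (mul_pos hSp (Real.exp_pos _))]
    have h7 : |Real.exp (-ℓ) - 1| ≤ 2 * |ℓ| := by
      have := Real.abs_exp_sub_one_le (x := -ℓ) (by rw [abs_neg]; exact hℓ1')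
      rwa [abs_neg] at this
    calc (SS z 1 n * Real.exp ℓ) * |Real.exp (-ℓ) - 1|
        ≤ (SS z 1 n * Real.exp ℓ) * (1 / L ^ A) :=
          mul_le_mul_of_nonneg_left (h7.trans hbound) (mul_pos hSp (Real.exp_pos _)).le
      _ = (SS z 1 n * Real.exp ℓ) / L ^ A := by ring

end Pool.Agent.Lib.SPP
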