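import Pool.Agent.Lib.SPP.PerX
import Pool.Agent.Lib.SPP.SerX
import Pool.Agent.Lib.SPP.Ser
import Pool.Agent.Lib.HLR.Upper

/-!
# SPP.FinA: the general theorem with the full singular series (1 h)

PROOF. `B0` from `serX (A + 1)`, `B1 = max (16 (A + 4)) (B0 + 1)`; `perX A B1 c1 c`. `z = zA B1 X ≤ X`, `z ≥ (log X)^(B1 - 1)`. `F` = union of the sets of `perX` and of `serX (A+1)` with `B = B1 - 1`: at most
`X Q^(-1/20) + X^(7/8) ≤ X Q^(-1/25)` if `c2 ≤ 1/100`. For a non-square `n ∉ F` let `s` be the limit; `|SS z 1 n - s| ≤ s/(log X)^(A+1)`, so `SS z 1 n ≤ 2 s`. Replace `SS` by `s` in `perX`: the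
difference of the main terms is at most `s (log X)^(-A-1) ∑_{m ∈ (M₁,M₂]} 1/log(n - m²)`; the terms with `(n - m²) Q ≥ 2X` are `≤ 2/log X` (`Q² ≤ X`), the others are at most
`√(2X/Q) + 1 ≤ 3 √(X/Q)` many, each `≤ 1/log 2 ≤ 2`. So at most `2 s (log X)^(-A-1) (M₂ - M₁)/log X + 6 s √(X/Q)`, and `s ≤ 2 SS z 1 n ≤ 2 (DZ z)^(-1) ≤ log X`. Everything small is absorbed in `√X Q^(-1/70)`.
-/

set_option autoImplicit false

open Finset Filter

namespace Pool.Agent.Lib.SPP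

open Pool.Agent.HLB Pool.Agent.HLT Pool.Agent.HLR Pool.Agent.Lib.GMV

namespace FinAAux

lemma late_card (n M₁ M₂ : ℕ) (D : ℝ) (hM : M₂ ^ 2 ≤ n) :
    (((Ioc M₁ M₂).filter (fun m => ((n - m ^ 2 : ℕ) : ℝ) < D)).card : ℝ) ≤ Real.sqrt D + 1 := by
  classical
  set S := (Ioc M₁ M₂).filter (fun m => ((n - m ^ 2 : ℕ) : ℝ) < D) with hS
  rcases S.eq_empty_or_nonempty with h | h
  · rw [h]
    simp only [card_empty, Nat.cast_zero]
    positivity
  · have hsub : S ⊆ Icc (S.min' h) (S.min' h + ⌊Real.sqrt D⌋₊) := by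
      intro m hm
      have ham : S.min' h ≤ m := S.min'_le m hm
      have ha := S.min'_mem h
      generalize S.min' h = a at ham ha
      rw [hS, mem_filter, mem_Ioc] at ha hm
      rw [mem_Icc]
      refine ⟨ham, ?_⟩
      obtain ⟨j, rfl⟩ := Nat.exists_eq_add_of_le ham
      have h1 : (a + j) ^ 2 ≤ n := (Nat.pow_le_pow_left hm.1.2 2).trans hM
      have h2 : a ^ 2 ≤ n := (Nat.pow_le_pow_left ham 2).trans h1
      have h3 := ha.2
      rw [Nat.cast_sub h2] at h3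
      push_cast at h3
      have h4 : ((a : ℝ) + j) ^ 2 ≤ n := by exact_mod_cast h1
      have h5 : (j : ℝ) ^ 2 ≤ D := by nlinarith [Nat.cast_nonneg (α := ℝ) a, Nat.cast_nonneg (α := ℝ) j, mul_nonneg (Nat.cast_nonneg (α := ℝ) a) (Nat.cast_nonneg (α := ℝ) j)]
      have h6 : (j : ℝ) ≤ Real.sqrt D := Real.le_sqrt_of_sq_le h5
      have h7 : j ≤ ⌊Real.sqrt D⌋₊ := Nat.le_floor h6
      omega
    have h1 := card_le_card hsub
    rw [Nat.card_Icc] at h1
    have h2 : S.card ≤ ⌊Real.sqrt D⌋₊ + 1 := by omega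
    have h3 : (S.card : ℝ) ≤ (⌊Real.sqrt D⌋₊ : ℝ) + 1 := by exact_mod_cast h2
    have h4 := Nat.floor_le (Real.sqrt_nonneg D)
    linarith

lemma log2 : (1 : ℝ) / 2 ≤ Real.log 2 := by
  have := Real.log_two_gt_d9
  linarith

lemma sum_le (X Q n M₁ M₂ : ℕ) (hX : 100 ≤ X) (hQ : 1 ≤ Q) (hQX : Q ^ 2 ≤ X) (hM : M₁ ≤ M₂)
    (h : M₂ ^ 2 + 2 ≤ n) :
    ∑ m ∈ Ioc M₁ M₂, 1 / Real.log ((n - m ^ 2 : ℕ) : ℝ) ≤
      2 / Real.log X * ((M₂ : ℝ) - M₁) + 6 * Real.sqrt (X / Q) := by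
  classical
  have hXr : (100 : ℝ) ≤ X := by exact_mod_cast hX
  have hQr : (1 : ℝ) ≤ Q := by exact_mod_cast hQ
  have hL : 0 < Real.log X := Real.log_pos (by linarith)
  have hQX' : (Q : ℝ) ^ 2 ≤ X := by exact_mod_cast hQX
  have hQs : (Q : ℝ) ≤ Real.sqrt X := Real.le_sqrt_of_sq_le hQX'
  have hsX : Real.sqrt X ≤ X / Q := by
    rw [le_div_iff₀ (by linarith)]
    calc Real.sqrt X * Q ≤ Real.sqrt X * Real.sqrt X := by gcongr
      _ = X := Real.mul_self_sqrt (by linarith)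
  have h1 : ∀ m ∈ Ioc M₁ M₂, 1 / Real.log ((n - m ^ 2 : ℕ) : ℝ) ≤
      2 / Real.log X + (if ((n - m ^ 2 : ℕ) : ℝ) < 2 * (X / Q) then 2 else 0) := by
    intro m hm
    rw [mem_Ioc] at hm
    have h2 : m ^ 2 ≤ M₂ ^ 2 := Nat.pow_le_pow_left hm.2 2
    have h3 : 2 ≤ n - m ^ 2 := by omega
    have h4 : (2 : ℝ) ≤ ((n - m ^ 2 : ℕ) : ℝ) := by exact_mod_cast h3
    split_ifs with hc
    · have h5 : 1 / 2 ≤ Real.log ((n - m ^ 2 : ℕ) : ℝ) :=
        log2.trans (Real.log_le_log (by norm_num) h4)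
      have h6 : 1 / Real.log ((n - m ^ 2 : ℕ) : ℝ) ≤ 2 := by
        rw [div_le_iff₀ (by linarith)]
        linarith
      have h7 : 0 ≤ 2 / Real.log X := by positivity
      linarith
    · push Not at hc
      have h5 : Real.sqrt X ≤ ((n - m ^ 2 : ℕ) : ℝ) := by
        have : 0 ≤ Real.sqrt X := Real.sqrt_nonneg _
        linarith
      have h6 : Real.log X / 2 ≤ Real.log ((n - m ^ 2 : ℕ) : ℝ) := by
        rw [← Real.log_sqrt (by linarith)]
        exact Real.log_le_log (Real.sqrt_pos.2 (by linarith)) h5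
      rw [add_zero, div_le_div_iff₀ (by linarith) hL]
      linarith
  refine (Finset.sum_le_sum h1).trans ?_
  rw [Finset.sum_add_distrib, Finset.sum_const, Nat.card_Ioc, nsmul_eq_mul, Nat.cast_sub hM,
    ← Finset.sum_filter, Finset.sum_const, nsmul_eq_mul]
  have h2 := late_card n M₁ M₂ (2 * (X / Q)) (by omega)
  have h3 : Real.sqrt (2 * (X / Q)) ≤ 3 / 2 * Real.sqrt (X / Q) := by
    rw [Real.sqrt_mul (by norm_num)]
    gcongr
    rw [Real.sqrt_le_left (by norm_num)]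
    norm_num
  have h4 : 1 ≤ Real.sqrt (X / Q) := by
    rw [Real.one_le_sqrt]
    have : (1 : ℝ) ≤ Real.sqrt X := by rw [Real.one_le_sqrt]; linarith
    linarith
  have h5 : ((M₂ : ℝ) - M₁) * (2 / Real.log X) = 2 / Real.log X * ((M₂ : ℝ) - M₁) := mul_comm _ _
  linarith

lemma seven : (7 : ℝ) ≤ Real.exp 2 := by
  have h := Real.exp_one_gt_d9
  have h2 : Real.exp 2 = Real.exp 1 * Real.exp 1 := by rw [← Real.exp_add]; norm_num
  rw [h2]
  nlinarith

lemma two_e : (2 : ℝ) ≤ Real.exp 1 := by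
  have h := Real.exp_one_gt_d9
  linarith

/-- `X`, `Q` as exponentials. -/
lemma card_bound (X Q : ℝ) (L l : ℝ) (hX : X = Real.exp L) (hQ : Q = Real.exp l) (h1 : 840 ≤ l)
    (h2 : 100 * l ≤ L) :
    X * Q ^ (-(1 / 20 : ℝ)) + X ^ (7 / 8 : ℝ) ≤ X * Q ^ (-(1 / 25 : ℝ)) := by
  have e1 : X * Q ^ (-(1 / 20 : ℝ)) = Real.exp (L - l / 20) := by
    rw [hX, hQ, ← Real.exp_mul, ← Real.exp_add]
    congr 1
    ring
  have e2 : X ^ (7 / 8 : ℝ) = Real.exp (L * (7 / 8)) := by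
    rw [hX, ← Real.exp_mul]
  have e3 : X * Q ^ (-(1 / 25 : ℝ)) = Real.exp (L - l / 25 - 1) * Real.exp 1 := by
    rw [hX, hQ, ← Real.exp_mul, ← Real.exp_add, ← Real.exp_add]
    congr 1
    ring
  rw [e1, e2, e3]
  have f1 : Real.exp (L - l / 20) ≤ Real.exp (L - l / 25 - 1) := Real.exp_le_exp.2 (by linarith)
  have f2 : Real.exp (L * (7 / 8)) ≤ Real.exp (L - l / 25 - 1) := Real.exp_le_exp.2 (by linarith)
  have f3 := two_e
  nlinarith [Real.exp_pos (L - l / 25 - 1)]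

lemma err_bound (X Q : ℝ) (L l : ℝ) (hX : X = Real.exp L) (hQ : Q = Real.exp l) (h1 : 840 ≤ l) :
    Real.sqrt X * Q ^ (-(1 / 60 : ℝ)) + 6 * Real.sqrt (X / Q) ≤ Real.sqrt X * Q ^ (-(1 / 70 : ℝ)) := by
  have e0 : Real.sqrt X = Real.exp (L / 2) := by
    rw [hX, Real.exp_half]
  have e1 : Real.sqrt X * Q ^ (-(1 / 60 : ℝ)) = Real.exp (L / 2 - l / 60) := by
    rw [e0, hQ, ← Real.exp_mul, ← Real.exp_add]
    congr 1
    ring
  have e2 : Real.sqrt (X / Q) = Real.exp ((L - l) / 2) := by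
    rw [hX, hQ, ← Real.exp_sub, Real.exp_half]
  have e3 : Real.sqrt X * Q ^ (-(1 / 70 : ℝ)) = Real.exp (L / 2 - l / 70 - 2) * Real.exp 2 := by
    rw [e0, hQ, ← Real.exp_mul, ← Real.exp_add, ← Real.exp_add]
    congr 1
    ring
  rw [e1, e2, e3]
  have f1 : Real.exp (L / 2 - l / 60) ≤ Real.exp (L / 2 - l / 70 - 2) :=
    Real.exp_le_exp.2 (by linarith)
  have f2 : Real.exp ((L - l) / 2) ≤ Real.exp (L / 2 - l / 70 - 2) :=
    Real.exp_le_exp.2 (by linarith)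
  have f3 := seven
  nlinarith [Real.exp_pos (L / 2 - l / 70 - 2)]

lemma size_bounds (L D s T : ℝ) (hL : 3000000 ≤ L) (hD0 : 0 < D) (hD : D⁻¹ ≤ L ^ (1 / 4 : ℝ))
    (hb1 : D ^ 2 ≤ T) (hb2 : T ≤ D⁻¹) (hT1 : T ≤ 2 * s) (hT2 : s ≤ 2 * T) : s ≤ L ∧ 1 / L ≤ s := by
  have hL0 : 0 < L := by linarith
  have hsL : (1700 : ℝ) ≤ Real.sqrt L := Real.le_sqrt_of_sq_le (by linarith)
  have hsq2 : D⁻¹ ≤ Real.sqrt L := by
    refine hD.trans ?_
    rw [Real.sqrt_eq_rpow]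
    exact Real.rpow_le_rpow_of_exponent_le (by linarith) (by norm_num)
  have hsq3 : D⁻¹ ^ 2 ≤ Real.sqrt L := by
    have g1 : D⁻¹ ^ 2 ≤ (L ^ (1 / 4 : ℝ)) ^ 2 :=
      pow_le_pow_left₀ (inv_nonneg.2 hD0.le) hD 2
    refine g1.trans (le_of_eq ?_)
    rw [Real.sqrt_eq_rpow, ← Real.rpow_natCast, ← Real.rpow_mul hL0.le]
    norm_num
  have hsq4 : 2 * Real.sqrt L ≤ L := by
    calc 2 * Real.sqrt L ≤ Real.sqrt L * Real.sqrt L := by gcongr; linarith
      _ = L := Real.mul_self_sqrt hL0.le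
  refine ⟨by linarith, ?_⟩
  have g1 : 1 / Real.sqrt L ≤ D ^ 2 := by
    rw [div_le_iff₀ (by linarith)]
    have g3 : D ^ 2 * D⁻¹ ^ 2 = 1 := by
      rw [← mul_pow, mul_inv_cancel₀ hD0.ne', one_pow]
    have g2 : 0 < D ^ 2 := by positivity
    calc (1 : ℝ) = D ^ 2 * D⁻¹ ^ 2 := g3.symm
      _ ≤ D ^ 2 * Real.sqrt L := by gcongr
  have g4 : 2 * (1 / L) ≤ 1 / Real.sqrt L := by
    rw [mul_one_div, div_le_div_iff₀ hL0 (by linarith)]
    linarith
  linarith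

lemma comb (C T s W R P Sg V LA cnt E : ℝ) (hC : 0 < C) (hs0 : 0 < s) (hT1 : T ≤ 2 * s)
    (hW : 0 ≤ W) (hR : 1 / LA ≤ R) (hLA : 0 < LA) (hPA : LA ≤ P) (hsP : s ≤ P) (hSg0 : 0 ≤ Sg)
    (hV : 0 ≤ V) (hsum : Sg ≤ 2 * W + 6 * V) (hsd : |T - s| ≤ s / P)
    (hm : |cnt - T * Sg| ≤ C * T * W * R + E) :
    |cnt - s * Sg| ≤ (2 * C + 2) * s * W * R + (E + 6 * V) := by
  have hP : 0 < P := by linarith
  have hRn : 0 ≤ R := le_trans (by positivity) hR
  have hWR : 0 ≤ W * R := mul_nonneg hW hRn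
  have k3 : C * T * W * R ≤ 2 * C * s * W * R := by
    have g1 : C * T ≤ C * (2 * s) := mul_le_mul_of_nonneg_left hT1 hC.le
    calc C * T * W * R = C * T * (W * R) := by ring
      _ ≤ C * (2 * s) * (W * R) := mul_le_mul_of_nonneg_right g1 hWR
      _ = 2 * C * s * W * R := by ring
  have k4 : |T - s| * Sg ≤ 2 * s * W * R + 6 * V := by
    have g1 : |T - s| * Sg ≤ s / P * (2 * W + 6 * V) :=
      mul_le_mul hsd hsum hSg0 (by positivity)
    have g2 : s / P ≤ s * R := by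
      rw [div_eq_mul_one_div]
      have g3 : 1 / P ≤ 1 / LA := one_div_le_one_div_of_le hLA hPA
      exact mul_le_mul_of_nonneg_left (by linarith) hs0.le
    have g3 : s / P ≤ 1 := by
      rw [div_le_one hP]
      linarith
    have g4 : s / P * (2 * W) ≤ s * R * (2 * W) := mul_le_mul_of_nonneg_right g2 (by linarith)
    have g5 : s / P * (6 * V) ≤ 1 * (6 * V) := mul_le_mul_of_nonneg_right g3 (by linarith)
    calc |T - s| * Sg ≤ s / P * (2 * W) + s / P * (6 * V) := by linarith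
      _ ≤ s * R * (2 * W) + 1 * (6 * V) := by linarith
      _ = 2 * s * W * R + 6 * V := by ring
  have k6 : |cnt - s * Sg| ≤ |cnt - T * Sg| + |T - s| * Sg := by
    have g1 : cnt - s * Sg = (cnt - T * Sg) + (T - s) * Sg := by ring
    rw [g1]
    refine (abs_add_le _ _).trans ?_
    rw [abs_mul (T - s), abs_of_nonneg hSg0]
  have k7 : (2 * C + 2) * s * W * R = 2 * C * s * W * R + 2 * s * W * R := by ring
  linarith

end FinAAux

open FinAAux in
theorem finA (A : ℕ) (c1 c : ℝ) (hZ : ZFree c1) (hc : 0 < c) (hcc : c < c1) :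
    ∃ a C c2 : ℝ, 0 < a ∧ 0 < C ∧ 0 < c2 ∧ ∃ X0 : ℕ, ∀ X Q : ℕ, X0 ≤ X → Rg c2 X Q →
    ∃ q : ℕ, ExMod c Q q ∧ ∃ F ⊆ Icc 1 X, (F.card : ℝ) ≤ X * (Q : ℝ) ^ (-(1 / 25 : ℝ)) ∧
      ∀ n ∈ Icc 1 X, n ∉ F → ¬ IsSquare n → ∃ s : ℝ, 0 < s ∧ s ≤ Real.log X ∧ 1 / Real.log X ≤ s ∧
      Tendsto (fun N : ℕ => SS N 1 n) atTop (nhds s) ∧
      ∀ M₁ M₂ : ℕ, M₁ ≤ M₂ → M₂ ^ 2 + 2 ≤ n →
      |(((Ioc M₁ M₂).filter (fun m => (n - m ^ 2).Prime)).card : ℝ) -
        s * ∑ m ∈ Ioc M₁ M₂, 1 / Real.log ((n - m ^ 2 : ℕ) : ℝ)| ≤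
      C * (s * ((M₂ : ℝ) - M₁) / Real.log X) * (Er a X Q + Gs q n + 1 / Real.log X ^ A) +
        Real.sqrt X * (Q : ℝ) ^ (-(1 / 70 : ℝ)) := by
  classical
  obtain ⟨B0, hB0⟩ := serX (A + 1)
  set B1 := max (16 * (A + 4)) (B0 + 1) with hB1
  have hB1a : 16 * (A + 4) ≤ B1 := le_max_left _ _
  have hB1b : B0 + 1 ≤ B1 := le_max_right _ _
  obtain ⟨a, C, c2, ha, hC, hc2, X0, hper⟩ := perX A B1 hB1a c1 c hZ hc hcc
  have hser := hB0 (B1 - 1) (by omega)
  have e2 := DZ_small B1 (show (0 : ℝ) < 1 / 4 by norm_num)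
  have e3 := tendsto_log_nat.eventually (eventually_ge_atTop (3000000 : ℝ))
  have e4 : ∀ᶠ X : ℕ in atTop, Real.log X ^ B1 ≤ X := by
    have h1 := (Real.isLittleO_pow_log_id_atTop (n := B1)).bound (show (0 : ℝ) < 1 by norm_num)
    have h2 := tendsto_natCast_atTop_atTop (R := ℝ) |>.eventually h1
    filter_upwards [h2, e3] with X h3 h4
    simp only [id] at h3
    rw [one_mul, Real.norm_of_nonneg (by positivity), Real.norm_of_nonneg (by positivity)] at h3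
    exact h3
  obtain ⟨X1, hX1⟩ := eventually_atTop.1 (((hser.and e2).and e3).and e4)
  refine ⟨a, 2 * C + 2, min c2 (1 / 100), ha, by positivity, lt_min hc2 (by norm_num),
    max (max X0 X1) 100, ?_⟩
  intro X Q hX hR
  have hX0 : X0 ≤ X := (le_max_left _ _).trans ((le_max_left _ _).trans hX)
  have hX1' : X1 ≤ X := (le_max_right _ _).trans ((le_max_left _ _).trans hX)
  have hX2 : 100 ≤ X := (le_max_right _ _).trans hX
  obtain ⟨⟨⟨hs, hD⟩, hL⟩, hz⟩ := hX1 X hX1'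
  have hXr : (100 : ℝ) ≤ X := by exact_mod_cast hX2
  have hXpos : (0 : ℝ) < X := by linarith
  obtain ⟨hR1, hR2⟩ := hR
  have hQ1 : (0 : ℝ) < Q := lt_of_lt_of_le (Real.exp_pos _) hR1
  have hR' : Rg c2 X Q := ⟨hR1, hR2.trans (Real.rpow_le_rpow_of_exponent_le (by linarith)
    (min_le_left _ _))⟩
  have hR3 : (Q : ℝ) ≤ (X : ℝ) ^ (1 / 100 : ℝ) :=
    hR2.trans (Real.rpow_le_rpow_of_exponent_le (by linarith) (min_le_right _ _))
  set L := Real.log X with hLdef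
  have hXe : (X : ℝ) = Real.exp L := (Real.exp_log hXpos).symm
  have hQe : (Q : ℝ) = Real.exp (Real.log Q) := (Real.exp_log hQ1).symm
  have hsL : (1700 : ℝ) ≤ Real.sqrt L := Real.le_sqrt_of_sq_le (by linarith)
  have hl1 : 840 ≤ Real.log Q := by
    have := (Real.le_log_iff_exp_le hQ1).2 hR1
    linarith
  have hl2 : 100 * Real.log Q ≤ L := by
    have h1 := Real.log_le_log hQ1 hR3
    rw [Real.log_rpow hXpos] at h1
    linarith
  have hQX : Q ^ 2 ≤ X := by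
    have h1 : (Q : ℝ) ^ 2 ≤ X := by
      rw [hXe, hQe, ← Real.exp_nat_mul]
      apply Real.exp_le_exp.2
      push_cast
      linarith
    exact_mod_cast h1
  have hQ1' : 1 ≤ Q := by
    have : Q ≠ 0 := fun h => by rw [h] at hQ1; simp at hQ1
    omega
  obtain ⟨q, hq, F1, hF1, hc1', h1⟩ := hper X Q hX0 hR'
  have hz1 : L ^ (B1 - 1) ≤ ((zA B1 X : ℕ) : ℝ) := by
    unfold zA
    have g1 := Nat.lt_floor_add_one (L ^ B1)
    have g2 : L ^ B1 = L ^ (B1 - 1) * L := by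
      rw [← pow_succ]
      congr 1
      omega
    have g3 : 1 ≤ L ^ (B1 - 1) := one_le_pow₀ (by linarith)
    nlinarith
  have hz2 : zA B1 X ≤ X := by
    unfold zA
    exact Nat.floor_le_of_le (by rw [← hLdef]; exact hz)
  obtain ⟨F2, hF2, hc2', h2⟩ := hs (zA B1 X) hz1 hz2
  refine ⟨q, hq, F1 ∪ F2, union_subset hF1 hF2, ?_, ?_⟩
  · have g1 : ((F1 ∪ F2).card : ℝ) ≤ F1.card + F2.card := by exact_mod_cast card_union_le F1 F2
    have g2 := card_bound X Q L (Real.log Q) hXe hQe hl1 hl2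
    linarith
  · intro n hn hnF hsq
    rw [mem_union, not_or] at hnF
    obtain ⟨s, hs0, hsT, hsd⟩ := h2 n hn hnF.2 hsq
    have hb := ss_bounds (zA B1 X) 1 n
    have hn1 := h1 n hn hnF.1
    set z := zA B1 X with hzdef
    set T := SS z 1 n with hT
    have hDp := DZ_pos z
    set P := L ^ (A + 1) with hP
    have hL0 : 0 < L := by linarith
    have hP1 : L ≤ P := by
      rw [hP, pow_succ]
      have : 1 ≤ L ^ A := one_le_pow₀ (by linarith)
      nlinarith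
    have hPA : L ^ A ≤ P := by
      rw [hP, pow_succ]
      have : 1 ≤ L ^ A := one_le_pow₀ (by linarith)
      nlinarith
    have hPpos : 0 < P := by linarith
    have hsP : s / P ≤ s / 2 := by
      apply div_le_div_of_nonneg_left hs0.le (by norm_num)
      linarith
    have hab := abs_le.1 hsd
    have hT1 : T ≤ 2 * s := by linarith [hab.2]
    have hT2 : s ≤ 2 * T := by linarith [hab.1]
    have hTn : 0 ≤ T := by linarith
    obtain ⟨hslog, hslog2⟩ := size_bounds L (DZ z) s T hL hDp hD hb.1 hb.2 hT1 hT2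
    refine ⟨s, hs0, hslog, hslog2, hsT, ?_⟩
    intro M₁ M₂ hM hM2
    have hm := hn1 M₁ M₂ hM hM2
    have hsum := sum_le X Q n M₁ M₂ hX2 hQ1' hQX hM hM2
    rw [← hLdef] at hsum
    set Sg := ∑ m ∈ Ioc M₁ M₂, 1 / Real.log ((n - m ^ 2 : ℕ) : ℝ) with hSg
    have hSg0 : 0 ≤ Sg := by
      apply Finset.sum_nonneg
      intro m hm
      rw [mem_Ioc] at hm
      have g1 : m ^ 2 ≤ M₂ ^ 2 := Nat.pow_le_pow_left hm.2 2
      have g2 : (1 : ℝ) ≤ ((n - m ^ 2 : ℕ) : ℝ) := by exact_mod_cast (show 1 ≤ n - m ^ 2 by omega)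
      have := Real.log_nonneg g2
      positivity
    have hW0 : 0 ≤ ((M₂ : ℝ) - M₁) / L := by
      apply div_nonneg _ hL0.le
      have : (M₁ : ℝ) ≤ M₂ := by exact_mod_cast hM
      linarith
    set W' := ((M₂ : ℝ) - M₁) / L with hW'
    have hR0 : 1 / L ^ A ≤ Er a X Q + Gs q n + 1 / L ^ A := by
      have g1 : 0 ≤ Er a X Q := (Real.exp_pos _).le
      have g2 := SqAux.Gs_nonneg q n
      linarith
    set R := Er a X Q + Gs q n + 1 / L ^ A with hRdef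
    have hLA : 0 < 1 / L ^ A := by positivity
    have hRn : 0 ≤ R := by linarith
    have k1 : C * T * ((M₂ : ℝ) - M₁) / L * R = C * T * W' * R := by
      rw [hW']
      ring
    have k2 : (2 * C + 2) * (s * ((M₂ : ℝ) - M₁) / L) * R = (2 * C + 2) * s * W' * R := by
      rw [hW']
      ring
    rw [k1] at hm
    rw [k2]
    have hsum' : Sg ≤ 2 * W' + 6 * Real.sqrt (X / Q) := by
      refine hsum.trans (le_of_eq ?_)
      rw [hW']
      ring
    have k5 := err_bound X Q L (Real.log Q) hXe hQe hl1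
    clear_value Sg W' R P T z
    generalize (((Ioc M₁ M₂).filter (fun m => (n - m ^ 2).Prime)).card : ℝ) = cnt at hm ⊢
    generalize Real.sqrt X * (Q : ℝ) ^ (-(1 / 60 : ℝ)) = E at hm k5
    generalize Real.sqrt X * (Q : ℝ) ^ (-(1 / 70 : ℝ)) = E' at k5 ⊢
    have hV := Real.sqrt_nonneg ((X : ℝ) / Q)
    generalize Real.sqrt ((X : ℝ) / Q) = V at hsum' k5 hV
    have hLAp : 0 < L ^ A := pow_pos hL0 A
    generalize L ^ A = LA at hR0 hPA hLAp
    have k6 := comb C T s W' R P Sg V LA cnt E hC hs0 hT1 hW0 hR0 hLAp hPA (hslog.trans hP1) hSg0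
      hV hsum' hsd hm
    linarith

end Pool.Agent.Lib.SPP
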