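import Pool.Agent.Lib.SPP.FinA
import Pool.Agent.Lib.SPP.Asy
import Pool.Agent.Lib.GMV.Fin3

/-!
# SPP.FinB: all intervals and all representations, for given `X`, `Q`
-/

set_option autoImplicit false

open Finset Filter

namespace Pool.Agent.Lib.SPP

open Pool.Agent.HLB Pool.Agent.HLT Pool.Agent.HLR Pool.Agent.Lib.GMV

/-- The number of representations. -/
def Nn (n : ℕ) : ℕ := ((range (n + 1)).filter fun m => (n - m ^ 2).Prime).card

/-- The number of `M₁ < m ≤ M₂` with `n - m²` prime. -/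
def ct (n M₁ M₂ : ℕ) : ℕ := ((Ioc M₁ M₂).filter fun m => (n - m ^ 2).Prime).card

/-- The sum of `1 / log (n - m²)`. -/
noncomputable def Li (n M₁ M₂ : ℕ) : ℝ := ∑ m ∈ Ioc M₁ M₂, 1 / Real.log ((n - m ^ 2 : ℕ) : ℝ)

/-- The formula with the product replaced by `s`, relative error `e` and additional error `E`. -/
def HLs (n X : ℕ) (s e E : ℝ) : Prop :=
  |(Nn n : ℝ) - s * Li n 0 (Nat.sqrt (n - 2))| ≤ e * (s * (Real.sqrt n / Real.log n)) ∧
  ∀ M₁ M₂ : ℕ, M₁ ≤ M₂ → M₂ ^ 2 + 2 ≤ n →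
    |(ct n M₁ M₂ : ℝ) - s * Li n M₁ M₂| ≤ e * (s * ((M₂ : ℝ) - M₁) / Real.log X) + E

/-- All but at most `E` of the non-squares `n ≤ X` satisfy `P n s`, `s` the value of the product. -/
def ABs (X : ℕ) (E : ℝ) (P : ℕ → ℝ → Prop) : Prop :=
  ∃ F ⊆ Icc 1 X, (F.card : ℝ) ≤ E ∧ ∀ n ∈ Icc 1 X, n ∉ F → ¬ IsSquare n →
    ∃ s : ℝ, 0 < s ∧ Tendsto (fun N : ℕ => SS N 1 n) atTop (nhds s) ∧ P n s

namespace FinBAux

lemma nn_ct (n : ℕ) (hn : 2 ≤ n) :
    |(Nn n : ℝ) - (ct n 0 (Nat.sqrt (n - 2)) : ℝ)| ≤ 1 := by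
  classical
  have h1 : (range (n + 1)).filter (fun m => (n - m ^ 2).Prime) ⊆
      insert 0 ((Ioc 0 (Nat.sqrt (n - 2))).filter fun m => (n - m ^ 2).Prime) := by
    intro m hm
    rw [mem_filter] at hm
    rw [mem_insert]
    by_cases h0 : m = 0
    · exact Or.inl h0
    · right
      rw [mem_filter, mem_Ioc]
      refine ⟨⟨Nat.pos_of_ne_zero h0, ?_⟩, hm.2⟩
      rw [Nat.le_sqrt']
      have := hm.2.two_le
      omega
  have h2 : (Ioc 0 (Nat.sqrt (n - 2))).filter (fun m => (n - m ^ 2).Prime) ⊆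
      (range (n + 1)).filter (fun m => (n - m ^ 2).Prime) := by
    intro m hm
    rw [mem_filter, mem_Ioc] at hm
    rw [mem_filter, mem_range]
    refine ⟨?_, hm.2⟩
    have h3 := Nat.sqrt_le_self (n - 2)
    have h4 := hm.1.2
    omega
  have h3 := card_le_card h1
  have h4 := card_le_card h2
  have h5 := card_insert_le 0 ((Ioc 0 (Nat.sqrt (n - 2))).filter fun m => (n - m ^ 2).Prime)
  have h6 : Nn n ≤ ct n 0 (Nat.sqrt (n - 2)) + 1 := h3.trans h5
  have h7 : ct n 0 (Nat.sqrt (n - 2)) ≤ Nn n := h4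
  have h8 : (Nn n : ℝ) ≤ ct n 0 (Nat.sqrt (n - 2)) + 1 := by exact_mod_cast h6
  have h9 : (ct n 0 (Nat.sqrt (n - 2)) : ℝ) ≤ Nn n := by exact_mod_cast h7
  rw [abs_le]
  constructor <;> linarith

/-- `2 L ^ K ≤ exp (c √L)` for large `X`. -/
lemma pow_le_exp (K : ℕ) (c : ℝ) (hc : 0 < c) : ∀ᶠ X : ℕ in atTop,
    2 * Real.log X ^ K ≤ Real.exp (c * Real.sqrt (Real.log X)) := by
  have h1 : Tendsto (fun X : ℕ => Real.sqrt (Real.log (X : ℝ))) atTop atTop :=
    Real.tendsto_sqrt_atTop.comp (Real.tendsto_log_atTop.comp tendsto_natCast_atTop_atTop)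
  have h2 : ∀ᶠ y : ℝ in atTop, 2 * y ^ (2 * K) ≤ Real.exp (c * y) := by
    have h3 := (isLittleO_pow_exp_pos_mul_atTop (2 * K) hc).bound (by norm_num : (0 : ℝ) < 1 / 2)
    filter_upwards [h3, eventually_ge_atTop 0] with y hy h0
    rw [Real.norm_of_nonneg (by positivity), Real.norm_of_nonneg (by positivity)] at hy
    linarith
  filter_upwards [h1.eventually h2, eventually_ge_atTop 1] with X hX hX1
  have h4 : 0 ≤ Real.log (X : ℝ) := Real.log_natCast_nonneg X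
  rw [pow_mul, Real.sq_sqrt h4] at hX
  exact hX

end FinBAux

open FinBAux

theorem finB (A : ℕ) (c1 c : ℝ) (hZ : ZFree c1) (hc : 0 < c) (hcc : c < c1) :
    ∃ a C c2 : ℝ, 0 < a ∧ 0 < C ∧ 0 < c2 ∧ ∃ X0 : ℕ, ∀ X Q : ℕ, X0 ≤ X →
    Real.exp (Real.sqrt (Real.log X)) ≤ Q → (Q : ℝ) ≤ (X : ℝ) ^ c2 →
    ∃ q : ℕ, ExMod c Q q ∧ ABs X (X * (Q : ℝ) ^ (-(1 / 100 : ℝ))) fun n s =>
      Real.sqrt X ≤ n ∧ HLs n X s (C * (Er a X Q + Gs q n + 1 / Real.log X ^ A))
        (Real.sqrt X * (Q : ℝ) ^ (-(1 / 70 : ℝ))) := by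
  obtain ⟨a, C, c2, ha, hC, hc2, X1, hfin⟩ := finA A c1 c hZ hc hcc
  have ev1 := pow_le_exp (A + 2) (11 / 1260) (by norm_num)
  have ev2 := pow_le_exp 0 (1 / 900) (by norm_num)
  have ev3 : ∀ᶠ X : ℕ in atTop, (16 : ℝ) ≤ Real.sqrt X :=
    (Real.tendsto_sqrt_atTop.comp tendsto_natCast_atTop_atTop).eventually_ge_atTop 16
  obtain ⟨X2, hX2⟩ := eventually_atTop.1 ((ev1.and ev2).and (ev3.and (eventually_ge_atTop 3)))
  refine ⟨a, C + 1, min c2 1, ha, by linarith, lt_min hc2 one_pos, max X1 X2, fun X Q hX hQ1 hQ2 => ?_⟩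
  obtain ⟨⟨f1, f2⟩, f3, f4⟩ := hX2 X ((le_max_right _ _).trans hX)
  have hX3 : (3 : ℝ) ≤ X := by exact_mod_cast f4
  have hX0 : (0 : ℝ) < X := by linarith
  have hX1' : (1 : ℝ) ≤ X := by linarith
  set L : ℝ := Real.log X with hL
  have hL1 : 1 ≤ L := by
    rw [hL, Real.le_log_iff_exp_le hX0]
    have := Real.exp_one_lt_d9
    linarith
  have hL0 : 0 < L := by linarith
  have hQexp : 1 ≤ (Q : ℝ) := le_trans (Real.one_le_exp (Real.sqrt_nonneg _)) hQ1
  have hQ0 : (0 : ℝ) < Q := by linarith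
  have hQc2 : (Q : ℝ) ≤ (X : ℝ) ^ c2 :=
    hQ2.trans (Real.rpow_le_rpow_of_exponent_le hX1' (min_le_left _ _))
  have hQX : (Q : ℝ) ≤ X := by
    refine hQ2.trans ?_
    have := Real.rpow_le_rpow_of_exponent_le hX1' (min_le_right c2 1)
    rwa [Real.rpow_one] at this
  have hRg : Rg c2 X Q := by
    refine ⟨le_trans (Real.exp_le_exp.2 ?_) hQ1, hQc2⟩
    have := Real.sqrt_nonneg L
    linarith
  -- powers of `Q`
  have hpowQ : ∀ t : ℝ, 0 ≤ t → Real.exp (t * Real.sqrt L) ≤ (Q : ℝ) ^ t := by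
    intro t ht
    rw [mul_comm, Real.exp_mul]
    exact Real.rpow_le_rpow (Real.exp_pos _).le hQ1 ht
  have g1 : 2 * L ^ (A + 2) ≤ (Q : ℝ) ^ (11 / 1260 : ℝ) := f1.trans (hpowQ _ (by norm_num))
  have g2 : 2 ≤ (Q : ℝ) ^ (1 / 900 : ℝ) := by
    have := f2.trans (hpowQ _ (by norm_num))
    simpa using this
  obtain ⟨q, hq, F, hF1, hF2, hmain⟩ := hfin X Q ((le_max_left _ _).trans hX) hRg
  refine ⟨q, hq, ?_⟩
  classical
  set Y : ℝ := X * (Q : ℝ) ^ (-(1 / 90 : ℝ)) with hY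
  have hY0 : 0 ≤ Y := by positivity
  set F' : Finset ℕ := F ∪ (Icc 1 X).filter (fun n => (n : ℝ) ≤ Y) with hF'
  refine ⟨F', ?_, ?_, ?_⟩
  · rw [hF']
    exact union_subset hF1 (filter_subset _ _)
  · have h1 : (((Icc 1 X).filter (fun n : ℕ => (n : ℝ) ≤ Y)).card : ℝ) ≤ Y := by
      have h2 : (Icc 1 X).filter (fun n : ℕ => (n : ℝ) ≤ Y) ⊆ Icc 1 ⌊Y⌋₊ := by
        intro n hn
        rw [mem_filter, mem_Icc] at hn
        rw [mem_Icc]
        exact ⟨hn.1.1, Nat.le_floor hn.2⟩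
      have h3 := card_le_card h2
      rw [Nat.card_Icc, Nat.add_sub_cancel] at h3
      have h4 : (((Icc 1 X).filter (fun n : ℕ => (n : ℝ) ≤ Y)).card : ℝ) ≤ (⌊Y⌋₊ : ℝ) := by
        exact_mod_cast h3
      exact h4.trans (Nat.floor_le hY0)
    have h5 : (F'.card : ℝ) ≤ F.card + ((Icc 1 X).filter (fun n : ℕ => (n : ℝ) ≤ Y)).card := by
      exact_mod_cast card_union_le _ _
    have h6 : (Q : ℝ) ^ (-(1 / 25 : ℝ)) ≤ (Q : ℝ) ^ (-(1 / 90 : ℝ)) :=
      Real.rpow_le_rpow_of_exponent_le hQexp (by norm_num)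
    have h7 : 2 * (Q : ℝ) ^ (-(1 / 90 : ℝ)) ≤ (Q : ℝ) ^ (-(1 / 100 : ℝ)) := by
      have h8 : (Q : ℝ) ^ (-(1 / 100 : ℝ)) = (Q : ℝ) ^ (1 / 900 : ℝ) * (Q : ℝ) ^ (-(1 / 90 : ℝ)) := by
        rw [← Real.rpow_add hQ0]
        norm_num
      rw [h8]
      exact mul_le_mul_of_nonneg_right g2 (by positivity)
    calc (F'.card : ℝ) ≤ X * (Q : ℝ) ^ (-(1 / 25 : ℝ)) + Y := h5.trans (add_le_add hF2 h1)
      _ ≤ X * (Q : ℝ) ^ (-(1 / 90 : ℝ)) + X * (Q : ℝ) ^ (-(1 / 90 : ℝ)) :=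
          add_le_add (mul_le_mul_of_nonneg_left h6 hX0.le) le_rfl
      _ = X * (2 * (Q : ℝ) ^ (-(1 / 90 : ℝ))) := by ring
      _ ≤ _ := mul_le_mul_of_nonneg_left h7 hX0.le
  · intro n hn hnF hsq
    have hnF1 : n ∉ F := fun h => hnF (by rw [hF']; exact mem_union_left _ h)
    have hnY : Y < n := by
      by_contra hcon
      push Not at hcon
      exact hnF (by rw [hF']; exact mem_union_right _ (mem_filter.2 ⟨hn, hcon⟩))
    obtain ⟨s, hs0, hs1, hs2, hs3, hs4⟩ := hmain n hn hnF1 hsq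
    have hnX : (n : ℝ) ≤ X := by exact_mod_cast (mem_Icc.1 hn).2
    -- `√X ≤ Y`
    have hsqX : Real.sqrt X * Real.sqrt X = X := Real.mul_self_sqrt hX0.le
    have hYs : Real.sqrt X ≤ Y := by
      have h1 : (X : ℝ) ^ (-(1 / 90 : ℝ)) ≤ (Q : ℝ) ^ (-(1 / 90 : ℝ)) :=
        Real.rpow_le_rpow_of_nonpos hQ0 hQX (by norm_num)
      have h2 : Real.sqrt X ≤ X * (X : ℝ) ^ (-(1 / 90 : ℝ)) := by
        have h3 : X * (X : ℝ) ^ (-(1 / 90 : ℝ)) = (X : ℝ) ^ (89 / 90 : ℝ) := by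
          nth_rewrite 1 [← Real.rpow_one (X : ℝ)]
          rw [← Real.rpow_add hX0]
          norm_num
        rw [h3, Real.sqrt_eq_rpow]
        exact Real.rpow_le_rpow_of_exponent_le hX1' (by norm_num)
      exact h2.trans (mul_le_mul_of_nonneg_left h1 hX0.le)
    have hsn : Real.sqrt X ≤ n := hYs.trans hnY.le
    have hn16 : (16 : ℝ) ≤ n := f3.trans hsn
    have hn0 : (0 : ℝ) < n := by linarith
    have hn2 : 2 ≤ n := by
      have : (2 : ℝ) ≤ n := by linarith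
      exact_mod_cast this
    have hlogn : 0 < Real.log n := Real.log_pos (by linarith)
    have hlognX : Real.log n ≤ L := Real.log_le_log hn0 hnX
    refine ⟨s, hs0, hs3, hsn, ?_, ?_⟩
    · -- all the representations
      set M : ℕ := Nat.sqrt (n - 2) with hM
      have hM2 : M ^ 2 + 2 ≤ n := by
        have := Nat.sqrt_le' (n - 2)
        rw [← hM] at this
        omega
      have h1 := hs4 0 M (Nat.zero_le _) hM2
      have h2 := nn_ct n hn2
      rw [← hM] at h2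
      have hMn : (M : ℝ) ≤ Real.sqrt n := by
        rw [Real.le_sqrt (by positivity)  hn0.le]
        have : M ^ 2 ≤ n := by omega
        exact_mod_cast this
      set R : ℝ := Er a X Q + Gs q n + 1 / L ^ A with hR
      have hGs : 0 ≤ Gs q n := by
        unfold Gs
        split_ifs
        · exact le_rfl
        · positivity
      have hEr : 0 ≤ Er a X Q := (Real.exp_pos _).le
      have hR1 : 1 / L ^ A ≤ R := by
        rw [hR]
        linarith
      have hR0 : 0 ≤ R := by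
        have : 0 ≤ 1 / L ^ A := by positivity
        linarith
      set T : ℝ := s * (Real.sqrt n / Real.log n) with hT
      have hT0 : 0 < T := by
        have : 0 < Real.sqrt n := Real.sqrt_pos.2 hn0
        positivity
      have h3 : s * ((M : ℝ) - (0 : ℕ)) / L ≤ T := by
        rw [hT, mul_div_assoc]
        refine mul_le_mul_of_nonneg_left ?_ hs0.le
        rw [Nat.cast_zero, sub_zero]
        exact div_le_div₀ (Real.sqrt_nonneg _) hMn hlogn hlognX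
      have h4 : C * (s * ((M : ℝ) - (0 : ℕ)) / L) * R ≤ C * T * R :=
        mul_le_mul_of_nonneg_right (mul_le_mul_of_nonneg_left h3 hC.le) hR0
      -- the small terms
      have h5 : 1 + Real.sqrt X * (Q : ℝ) ^ (-(1 / 70 : ℝ)) ≤ T * (1 / L ^ A) := by
        have e1 : 1 ≤ Real.sqrt X * (Q : ℝ) ^ (-(1 / 70 : ℝ)) := by
          rw [Real.rpow_neg hQ0.le, ← div_eq_mul_inv, le_div_iff₀ (by positivity), one_mul,
            Real.sqrt_eq_rpow]
          calc (Q : ℝ) ^ (1 / 70 : ℝ) ≤ (X : ℝ) ^ (1 / 70 : ℝ) :=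
                Real.rpow_le_rpow hQ0.le hQX (by norm_num)
            _ ≤ _ := Real.rpow_le_rpow_of_exponent_le hX1' (by norm_num)
        have e2 : Real.sqrt X * (Q : ℝ) ^ (-(1 / 180 : ℝ)) ≤ Real.sqrt n := by
          have e3 : Real.sqrt X * (Q : ℝ) ^ (-(1 / 180 : ℝ)) = Real.sqrt Y := by
            rw [hY, Real.sqrt_mul hX0.le, Real.sqrt_eq_rpow ((Q : ℝ) ^ (-(1 / 90 : ℝ))),
              ← Real.rpow_mul hQ0.le]
            norm_num
          rw [e3]
          exact Real.sqrt_le_sqrt hnY.le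
        have e4 : Real.sqrt X * (Q : ℝ) ^ (-(1 / 180 : ℝ)) =
            (Q : ℝ) ^ (11 / 1260 : ℝ) * (Real.sqrt X * (Q : ℝ) ^ (-(1 / 70 : ℝ))) := by
          rw [mul_left_comm, ← Real.rpow_add hQ0]
          norm_num
        have e5 : 2 * L ^ (A + 2) * (Real.sqrt X * (Q : ℝ) ^ (-(1 / 70 : ℝ))) ≤ Real.sqrt n := by
          refine le_trans ?_ e2
          rw [e4]
          exact mul_le_mul_of_nonneg_right g1 (by positivity)
        have e6 : 2 * (Real.sqrt X * (Q : ℝ) ^ (-(1 / 70 : ℝ))) ≤ Real.sqrt n / L ^ (A + 2) := by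
          rw [le_div_iff₀ (by positivity)]
          linarith
        have e7 : Real.sqrt n / L ^ (A + 2) ≤ T * (1 / L ^ A) := by
          have e8 : Real.sqrt n / L ^ (A + 2) = (1 / L) * (Real.sqrt n / L) * (1 / L ^ A) := by
            rw [pow_add]
            field_simp
          rw [e8, hT]
          refine mul_le_mul_of_nonneg_right ?_ (by positivity)
          refine mul_le_mul hs2 ?_ (by positivity) hs0.le
          exact div_le_div_of_nonneg_left (Real.sqrt_nonneg _) hlogn hlognX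
        linarith
      have h6 : T * (1 / L ^ A) ≤ T * R := mul_le_mul_of_nonneg_left hR1 hT0.le
      have h7 : |(Nn n : ℝ) - s * Li n 0 M| ≤
          |(Nn n : ℝ) - (ct n 0 M : ℝ)| + |(ct n 0 M : ℝ) - s * Li n 0 M| := abs_sub_le _ _ _
      have h8 : |(ct n 0 M : ℝ) - s * Li n 0 M| ≤ C * (s * ((M : ℝ) - (0 : ℕ)) / L) * R +
          Real.sqrt X * (Q : ℝ) ^ (-(1 / 70 : ℝ)) := h1
      calc |(Nn n : ℝ) - s * Li n 0 M| ≤ 1 + (C * T * R + Real.sqrt X * (Q : ℝ) ^ (-(1 / 70 : ℝ))) := by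
            linarith
        _ ≤ C * T * R + T * R := by linarith
        _ = (C + 1) * R * T := by ring
    · intro M₁ M₂ h12 hM2
      have h1 := hs4 M₁ M₂ h12 hM2
      have h2 : C * (s * ((M₂ : ℝ) - M₁) / L) * (Er a X Q + Gs q n + 1 / L ^ A) ≤
          (C + 1) * (Er a X Q + Gs q n + 1 / L ^ A) * (s * ((M₂ : ℝ) - M₁) / L) := by
        have hGs : 0 ≤ Gs q n := by
          unfold Gs
          split_ifs
          · exact le_rfl
          · positivity
        have hEr : 0 ≤ Er a X Q := (Real.exp_pos _).le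
        have hd : 0 ≤ (M₂ : ℝ) - M₁ := by
          have : (M₁ : ℝ) ≤ M₂ := by exact_mod_cast h12
          linarith
        have h3 : 0 ≤ (Er a X Q + Gs q n + 1 / L ^ A) * (s * ((M₂ : ℝ) - M₁) / L) := by positivity
        nlinarith
      unfold ct Li
      linarith

end Pool.Agent.Lib.SPP
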