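import Pool.Agent.Lib.SPP.Win
import Pool.Agent.Lib.GMV.ZFr
import Pool.Agent.Lib.GMV.SiegZ

/-!
# SPP.InfR: prime sums beyond `exp(D²)` (1.5 h)

PROOF. `zero_free` gives `c1` with `ZFree c1`; `sumB c1 (c1/2)` gives `a, B, c2, X0`. Let `X ≥ exp(D²)`, `Q = ⌈exp(√(log X)/2)⌉` (`Rg c2 X Q` and `Q^1000 ≤ X`, `md x ≤ D ≤ Q` for large `D`; `log Q ≤ √(log X)`). `x ∈ Ch D ⊆ Ch Q`,
`x.2 ≠ 1`, `x.2² = 1`. Claim `x ∉ M`: by `Kept`, `M = {one}` (and `x ≠ one`), or `M = {one, xe}` with `q = md xe`; if `x = xe` then `q = md x ≤ D`, `q ≠ 0`, so by `ExMod` there is `IsExc c Q xe' β` with `md xe' = q`: a real primitive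
`xe' ≠ 1` with a zero `β ≥ 1 - c/log Q`, `β ≥ 9/10`, and `siegZ (1/2)`: `C q^(-1/2) ≤ 1 - β ≤ c/log Q`, so `log Q ≤ (c/C) D^(1/2)`, but `log Q ≥ √(log X)/2 ≥ D/2`: contradiction for large `D`. Hence
`‖Mc X Q x n‖ ≤ b x ≤ B Er a X Q ≤ B exp(-a √(log X))`. By `win` for `X ≤ t ≤ t' ≤ 2X`: the sum over `(t, t']` is at most `C (B exp(-a√(log X)) (1 + √(log X)) + Q^(-3)) ≤ (log X)^(-3)` for large `X`.
Cut `(t, t']` into blocks `(2^j t, min(2^(j+1) t, t')]`, `X = 2^j t`: total at most `∑_{j ≥ 0} (log t + j log 2)^(-3) ≤ 8 (log t)^(-2) + (log t)^(-3) ≤ 9 D^(-4) ≤ 1/D`. (`∑_{j≥0} (a + j b)^(-3) ≤ a^(-3) + 1/(2 b a²)`, `b = log 2`.)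
-/

set_option autoImplicit false

open Finset Filter

namespace Pool.Agent.Lib.SPP

open Pool.Agent.HLB Pool.Agent.HLT Pool.Agent.HLR Pool.Agent.Lib.GMV

namespace InfRAux

/-- The step of the induction over the dyadic blocks. -/
lemma step {L b : ℝ} (hL : 1 ≤ L) (hb : 1 / 2 ≤ b) (hb1 : b ≤ 1) :
    1 / L ^ 3 + 9 / (L + b) ^ 2 ≤ 9 / L ^ 2 := by
  have h1 : 0 < L := by linarith
  have h2 : 0 < L + b := by linarith
  have h3 : (L + b) ^ 2 ≤ 4 * L ^ 2 := by nlinarith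
  have h4 : (L + b) ^ 2 ≤ 18 * L ^ 2 * b + 9 * L * b ^ 2 := by
    have h5 : 9 * L ^ 2 ≤ 18 * L ^ 2 * b := by nlinarith [sq_nonneg L]
    have h6 : 0 ≤ 9 * L * b ^ 2 := by positivity
    nlinarith [sq_nonneg L]
  have h7 : 9 / L ^ 2 - 9 / (L + b) ^ 2 - 1 / L ^ 3 =
      (18 * L ^ 2 * b + 9 * L * b ^ 2 - (L + b) ^ 2) / (L ^ 3 * (L + b) ^ 2) := by
    field_simp
    ring
  have h8 : 0 ≤ (18 * L ^ 2 * b + 9 * L * b ^ 2 - (L + b) ^ 2) / (L ^ 3 * (L + b) ^ 2) :=
    div_nonneg (by linarith) (by positivity)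
  linarith

lemma tend (n : ℕ) {a : ℝ} (ha : 0 < a) :
    Tendsto (fun s : ℝ => s ^ n * Real.exp (-(a * s))) atTop (nhds 0) := by
  have h1 := (Real.tendsto_pow_mul_exp_neg_atTop_nhds_zero n).comp
    (tendsto_id.const_mul_atTop ha)
  have h2 := h1.const_mul ((a ^ n)⁻¹)
  rw [mul_zero] at h2
  refine h2.congr fun s => ?_
  have h3 : a ^ n ≠ 0 := by positivity
  simp only [Function.comp, id]
  rw [mul_pow]
  field_simp

lemma growth (a B C : ℝ) (ha : 0 < a) : ∀ᶠ s : ℝ in atTop,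
    C * (B * Real.exp (-(a * s)) * (1 + s) + Real.exp (-(3 / 2 * s))) ≤ 1 / s ^ 6 := by
  have h1 := ((tend 6 ha).const_mul (C * B)).add ((tend 7 ha).const_mul (C * B))
  have h2 := h1.add ((tend 6 (a := 3 / 2) (by norm_num)).const_mul C)
  simp only [mul_zero, add_zero] at h2
  filter_upwards [h2.eventually (eventually_le_nhds (zero_lt_one)), eventually_gt_atTop 0] with s hs hs0
  rw [le_div_iff₀ (by positivity)]
  refine le_trans (le_of_eq ?_) hs
  ring

lemma half {s : ℝ} (hs : 0 < s) : s ^ (-(1 / 2 : ℝ)) = Real.sqrt s / s := by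
  have h1 : Real.sqrt s ≠ 0 := (Real.sqrt_pos.2 hs).ne'
  rw [Real.rpow_neg hs.le, ← Real.sqrt_eq_rpow, eq_div_iff hs.ne', inv_mul_eq_iff_eq_mul₀ h1,
    Real.mul_self_sqrt hs.le]

/-- The bound for one block. -/
lemma block : ∀ᶠ D : ℕ in atTop, ∀ x ∈ Ch D, x.2 ≠ 1 → x.2 ^ 2 = 1 → ∀ t t' : ℕ,
    (D : ℝ) ^ 2 ≤ Real.log t → t ≤ t' → t' ≤ 2 * t →
    ‖∑ p ∈ (Ioc t t').filter Nat.Prime, cv x p / (p : ℂ)‖ ≤ 1 / Real.log t ^ 3 := by
  classical
  obtain ⟨c1, hc1, hZ⟩ := zero_free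
  obtain ⟨c, hcdef⟩ : ∃ c : ℝ, c = c1 / 2 := ⟨_, rfl⟩
  have hc : 0 < c := by rw [hcdef]; positivity
  obtain ⟨a, B, c2, ha, hB, hc2, X0, hsum⟩ := sumB c1 c hZ hc (by rw [hcdef]; linarith)
  obtain ⟨CS, hCS, hsz⟩ := siegZ (1 / 2) (by norm_num)
  obtain ⟨CW, X1, hCW, hwin⟩ := win
  obtain ⟨S0, hS0⟩ := eventually_atTop.1 (growth a B CW ha)
  filter_upwards [eventually_ge_atTop (max X0 X1), eventually_ge_atTop 1000,
    tendsto_natCast_atTop_atTop.eventually (eventually_ge_atTop S0),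
    tendsto_natCast_atTop_atTop.eventually (eventually_ge_atTop (1 / c2)),
    tendsto_natCast_atTop_atTop.eventually (eventually_ge_atTop (20 * c)),
    tendsto_natCast_atTop_atTop.eventually (eventually_gt_atTop ((2 * c / CS) ^ 2))]
    with D hD0 hD1 hD2 hD3 hD4 hD5
  intro x hx hx1 hx2 t t' hL htt ht'
  have hDR : (1000 : ℝ) ≤ D := by exact_mod_cast hD1
  have ht0 : (t : ℝ) ≠ 0 := by
    rintro h
    rw [h, Real.log_zero] at hL
    nlinarith
  have htpos : (0 : ℝ) < t := lt_of_le_of_ne (Nat.cast_nonneg _) (Ne.symm ht0)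
  obtain ⟨L, hLdef⟩ : ∃ L : ℝ, L = Real.log t := ⟨_, rfl⟩
  rw [← hLdef] at hL ⊢
  have hexpL : Real.exp L = t := by rw [hLdef, Real.exp_log htpos]
  obtain ⟨s, hsdef⟩ : ∃ s : ℝ, s = Real.sqrt L := ⟨_, rfl⟩
  have hL0 : 0 ≤ L := le_trans (by positivity) hL
  have hs2 : s ^ 2 = L := by rw [hsdef]; exact Real.sq_sqrt hL0
  have hDs : (D : ℝ) ≤ s := by rw [hsdef]; exact Real.le_sqrt_of_sq_le hL
  have hs1 : 1000 ≤ s := hDR.trans hDs
  have hs0 : 0 < s := by linarith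
  -- the parameter Q
  obtain ⟨Q, hQdef⟩ : ∃ Q : ℕ, Q = ⌈Real.exp (s / 2)⌉₊ := ⟨_, rfl⟩
  have hQ1 : Real.exp (s / 2) ≤ Q := by rw [hQdef]; exact Nat.le_ceil _
  have hQ2 : (Q : ℝ) ≤ Real.exp s := by
    have h1 : (Q : ℝ) < Real.exp (s / 2) + 1 := by
      rw [hQdef]; exact Nat.ceil_lt_add_one (Real.exp_pos _).le
    have h2 : Real.exp s = Real.exp (s / 2) * Real.exp (s / 2) := by
      rw [← Real.exp_add]; congr 1; ring
    have h3 : 1 + s / 2 ≤ Real.exp (s / 2) := by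
      have := Real.add_one_le_exp (s / 2); linarith
    rw [h2]
    nlinarith
  have hDQ : D ≤ Q := by
    have h1 : s / 4 + 1 ≤ Real.exp (s / 4) := Real.add_one_le_exp (s / 4)
    have h2 : Real.exp (s / 2) = Real.exp (s / 4) * Real.exp (s / 4) := by
      rw [← Real.exp_add]; congr 1; ring
    have h3 : s ≤ Real.exp (s / 2) := by
      rw [h2]
      nlinarith [sq_nonneg (s / 4 - 1)]
    have h4 : (D : ℝ) ≤ Q := by linarith
    exact_mod_cast h4
  have hQ3 : 2 ≤ Q := by omega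
  have hQR : (2 : ℝ) ≤ Q := by exact_mod_cast hQ3
  have hQ0 : (0 : ℝ) < Q := by linarith
  have hlQ1 : Real.log Q ≤ s := by
    rw [Real.log_le_iff_le_exp hQ0]; exact hQ2
  have hlQ2 : s / 2 ≤ Real.log Q := by
    rw [Real.le_log_iff_exp_le hQ0]; exact hQ1
  have hlQ0 : 0 < Real.log Q := by linarith
  have htD : D ≤ t := by
    have h1 : L + 1 ≤ Real.exp L := Real.add_one_le_exp L
    have h2 : (D : ℝ) ≤ t := by rw [← hexpL]; nlinarith
    exact_mod_cast h2
  have hRg : Rg c2 t Q := by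
    refine ⟨by rw [← hLdef, ← hsdef]; exact hQ1, hQ2.trans ?_⟩
    rw [Real.rpow_def_of_pos htpos, ← hLdef]
    apply Real.exp_le_exp.2
    have h1 : 1 ≤ s * c2 := by
      have h2 : 1 / c2 ≤ s := hD3.trans hDs
      rw [div_le_iff₀ hc2] at h2
      exact h2
    rw [← hs2]
    nlinarith
  have hQX : Q ^ 1000 ≤ t := by
    have h1 : (Q : ℝ) ^ 1000 ≤ t := by
      calc (Q : ℝ) ^ 1000 ≤ (Real.exp s) ^ 1000 := pow_le_pow_left₀ hQ0.le hQ2 _
        _ = Real.exp (1000 * s) := by rw [← Real.exp_nat_mul]; norm_num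
        _ ≤ Real.exp L := Real.exp_le_exp.2 (by rw [← hs2]; nlinarith)
        _ = t := hexpL
    exact_mod_cast h1
  obtain ⟨b, M, q, hb, hbB, hK, hE, hbE, -⟩ := hsum t Q ((le_max_left _ _).trans (hD0.trans htD)) hRg
  have hxD := mem_Ch.1 hx
  have hxQ : x ∈ Ch Q := mem_Ch.2 ⟨hxD.1.trans hDQ, hxD.2⟩
  have hone : x ≠ one := by
    rintro rfl
    exact hx1 rfl
  have hxM : x ∉ M := by
    intro hxM
    rcases hK with ⟨hM, -⟩ | ⟨xe, hxe, -, -, hM, hq⟩
    · rw [hM, Finset.mem_singleton] at hxM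
      exact hone hxM
    · rw [hM, Finset.mem_insert, Finset.mem_singleton] at hxM
      rcases hxM with hxM | hxM
      · exact hone hxM
      · rw [← hxM] at hq
        rcases hE with ⟨hq0, -⟩ | ⟨xe', β, ⟨hm1, hm2, hm3, hm4, hm5, hm6⟩, hq'⟩
        · have := md_pos x
          omega
        · have hmd : md xe' ≤ D := by
            have := hxD.1
            omega
          have h1 : c / Real.log Q ≤ 2 * c / s := by
            rw [div_le_div_iff₀ hlQ0 hs0]
            nlinarith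
          have h2 : 2 * c / s ≤ 1 / 10 := by
            rw [div_le_iff₀ hs0]
            have : 20 * c ≤ s := hD4.trans hDs
            linarith
          have h3 := hsz xe' β (mem_Ch.1 hm1).2 hm2 hm3 hm4 (by linarith) hm6
          have hmpos : (0 : ℝ) < md xe' := by exact_mod_cast md_pos xe'
          have h4 : s ^ (-(1 / 2 : ℝ)) ≤ (md xe' : ℝ) ^ (-(1 / 2 : ℝ)) := by
            apply Real.rpow_le_rpow_of_nonpos hmpos
            · have : (md xe' : ℝ) ≤ D := by exact_mod_cast hmd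
              linarith
            · norm_num
          have h5 : CS * s ^ (-(1 / 2 : ℝ)) ≤ 2 * c / s := by
            have := mul_le_mul_of_nonneg_left h4 hCS.le
            linarith
          have h6 : s ^ (-(1 / 2 : ℝ)) = Real.sqrt s / s := half hs0
          rw [h6, ← mul_div_assoc, div_le_div_iff_of_pos_right hs0] at h5
          have h7 : Real.sqrt s ≤ 2 * c / CS := by
            rw [le_div_iff₀ hCS]; linarith
          have h8 : s ≤ (2 * c / CS) ^ 2 := by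
            have := pow_le_pow_left₀ (Real.sqrt_nonneg s) h7 2
            rwa [Real.sq_sqrt hs0.le] at this
          linarith
  have hbx : b x ≤ B * Er a t Q := by
    refine le_trans ?_ hbE
    refine Finset.single_le_sum (f := b) (fun y hy => ?_) (Finset.mem_sdiff.2 ⟨hxQ, hxM⟩)
    exact (norm_nonneg _).trans (hb y (Finset.mem_sdiff.1 hy).1 0)
  have hEr : Er a t Q ≤ Real.exp (-(a * s)) := by
    unfold Er
    rw [← hLdef]
    apply Real.exp_le_exp.2
    apply neg_le_neg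
    rw [le_div_iff₀ hlQ0, ← hs2]
    have : a * s * Real.log Q ≤ a * s * s := mul_le_mul_of_nonneg_left hlQ1 (by positivity)
    nlinarith
  have he : ∀ n, ‖Mc t Q x n‖ ≤ B * Real.exp (-(a * s)) := fun n =>
    (hb x hxQ n).trans (hbx.trans (mul_le_mul_of_nonneg_left hEr hB.le))
  have h1 := hwin t Q ((le_max_right _ _).trans (hD0.trans htD)) hQ3 hQX x
    (B * Real.exp (-(a * s))) he t t' (by nlinarith) htt ht'
  refine h1.trans ?_
  have h2 := hS0 s (hD2.trans hDs)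
  have h3 : (1 : ℝ) / L ^ 3 = 1 / s ^ 6 := by rw [← hs2]; ring
  rw [h3]
  refine le_trans ?_ h2
  apply mul_le_mul_of_nonneg_left _ (by linarith)
  apply add_le_add
  · apply mul_le_mul_of_nonneg_left _ (by positivity)
    linarith
  · rw [div_le_iff₀ (by positivity)]
    have h4 : (Real.exp (s / 2)) ^ 3 ≤ (Q : ℝ) ^ 3 := pow_le_pow_left₀ (Real.exp_pos _).le hQ1 3
    have h5 : Real.exp (-(3 / 2 * s)) * (Real.exp (s / 2)) ^ 3 = 1 := by
      rw [← Real.exp_nat_mul, ← Real.exp_add]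
      rw [show -(3 / 2 * s) + ((3 : ℕ) : ℝ) * (s / 2) = 0 by push_cast; ring, Real.exp_zero]
    have h6 := mul_le_mul_of_nonneg_left h4 (Real.exp_pos (-(3 / 2 * s))).le
    linarith

end InfRAux

open InfRAux

theorem infR : ∀ᶠ D : ℕ in atTop, ∀ x ∈ Ch D, x.2 ≠ 1 → x.2 ^ 2 = 1 → ∀ t t' : ℕ,
    (D : ℝ) ^ 2 ≤ Real.log t → t ≤ t' →
    ‖∑ p ∈ (Ioc t t').filter Nat.Prime, cv x p / (p : ℂ)‖ ≤ 9 / Real.log t ^ 2 := by
  filter_upwards [block, eventually_ge_atTop 1] with D hD hD1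
  intro x hx hx1 hx2 t t' ht htt
  have hDR : (1 : ℝ) ≤ D := by exact_mod_cast hD1
  obtain ⟨n, hn⟩ : ∃ n, n = t' - t := ⟨_, rfl⟩
  induction n using Nat.strong_induction_on generalizing t with
  | _ n ih =>
    have hL1 : 1 ≤ Real.log t := by nlinarith
    have ht0 : 0 < t := by
      rcases Nat.eq_zero_or_pos t with h | h
      · rw [h, Nat.cast_zero, Real.log_zero] at hL1
        linarith
      · exact h
    have htR : (0 : ℝ) < t := by exact_mod_cast ht0
    have h0 : 1 / Real.log t ^ 3 + 9 / (Real.log t + Real.log 2) ^ 2 ≤ 9 / Real.log t ^ 2 :=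
      step hL1 (by have := Real.log_two_gt_d9; linarith) (by have := Real.log_two_lt_d9; linarith)
    rcases le_or_gt t' (2 * t) with h | h
    · refine (hD x hx hx1 hx2 t t' ht htt h).trans (le_trans ?_ h0)
      have : 0 ≤ 9 / (Real.log t + Real.log 2) ^ 2 := by positivity
      linarith
    · have h1 := hD x hx hx1 hx2 t (2 * t) ht (by omega) le_rfl
      have h2 : Real.log ((2 * t : ℕ) : ℝ) = Real.log t + Real.log 2 := by
        push_cast
        rw [Real.log_mul (by norm_num) htR.ne']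
        ring
      have h3 := ih (t' - 2 * t) (by omega) (2 * t)
        (by rw [h2]; have := Real.log_two_gt_d9; linarith) h.le rfl
      rw [h2] at h3
      have h4 : ∑ p ∈ (Ioc t t').filter Nat.Prime, cv x p / (p : ℂ) =
          ∑ p ∈ (Ioc t (2 * t)).filter Nat.Prime, cv x p / (p : ℂ) +
          ∑ p ∈ (Ioc (2 * t) t').filter Nat.Prime, cv x p / (p : ℂ) := by
        rw [← Finset.sum_union]
        · rw [← Finset.filter_union, Finset.Ioc_union_Ioc_eq_Ioc (by omega) h.le]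
        · apply Finset.disjoint_filter_filter
          rw [Finset.disjoint_left]
          intro y hy hy'
          rw [Finset.mem_Ioc] at hy hy'
          omega
      rw [h4]
      refine (norm_add_le _ _).trans (le_trans ?_ h0)
      linarith

end Pool.Agent.Lib.SPP
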