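import Pool.Agent.Lib.SPP.LrgM

/-!
# SPP.Lrg: prime sums of almost all characters in the range up to a power of the conductor (1.5 h)

PROOF. (The trivial character is simply in the bad set, no case distinction; if `M = 0` there is nothing to prove: `2^i ≤ 1 < z`.) `L = log D`, `η = 1/(64 (M + 3))`. Blocks: `(z, 2^i₀]`, `i₀` least with `z ≤ 2^i₀` (so `2^i₀ < 2z`), and `(2^i, 2^(i+1)]` for `i₀ ≤ i`, `2^(i+1) ≤ D^M`; each is of the form `P ⊆ (T, 2T]`, `z ≤ T ≤ D^M`
(first block: `T = z`). `lrgM` with `k = ⌈2 log D/log T⌉` (so `D² ≤ T^k ≤ D² T`), `lam = T^(-η)`: at most `C (2k)^k T^(2 η k) ≤ C (2k)^k (D² T)^(2η) ≤ C (2k)^k D^(2η(M+2)) ≤ C (2k)^k D^(1/32)` bad characters.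
`k ≤ 2L/log T + 1 ≤ 2 L/(B log L) + 1` and `2k ≤ 5 L`: `(2k)^k ≤ exp(k log(5L)) ≤ exp((2L/(B log L) + 1)(log L + 2)) ≤ exp(3 L/B + ...) ≤ D^(1/32)` for `B ≥ 200` and large `D`.
The number of blocks is at most `2 M L + 2`. So the union `𝓑` of the bad sets has at most `D^(1/8)` elements. For the other `x`: `‖∑_{z < p ≤ 2^i}‖ ≤ ∑_blocks T^(-η) ≤ z^(-η) + ∑_{j ≥ 0} (2^j z)^(-η) ≤ C_η z^(-η) ≤ C_η L^(-B η) ≤ L^(-A)` if
`B ≥ (A + 1)/η`, `D` large. (`i` with `z ≤ 2^i ≤ D^M`.)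
-/

set_option autoImplicit false

open Finset Filter

namespace Pool.Agent.Lib.SPP

open Pool.Agent.HLB Pool.Agent.HLT Pool.Agent.HLR Pool.Agent.Lib.GMV

namespace LrgAux

/-- dyadic decomposition of the interval -/
theorem sum_dyadic (f : ℕ → ℂ) (z : ℕ) (hz : 1 ≤ z) (i : ℕ) :
    ∑ p ∈ (Ioc z (2 ^ i)).filter Nat.Prime, f p =
      ∑ j ∈ range i, ∑ p ∈ (Ioc (max z (2 ^ j)) (2 ^ (j + 1))).filter Nat.Prime, f p := by
  induction i with
  | zero =>
    rw [Finset.Ioc_eq_empty (by rw [pow_zero]; omega), Finset.filter_empty, Finset.sum_empty,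
      Finset.range_zero, Finset.sum_empty]
  | succ i ih =>
    rw [Finset.sum_range_succ, ← ih]
    have hp : 2 ^ i ≤ 2 ^ (i + 1) := Nat.pow_le_pow_right (by norm_num) (Nat.le_succ i)
    rcases le_total z (2 ^ i) with h | h
    · rw [max_eq_right h, ← Finset.sum_union]
      · rw [← Finset.filter_union, Finset.Ioc_union_Ioc_eq_Ioc h hp]
      · apply Finset.disjoint_filter_filter
        rw [Finset.disjoint_left]
        intro x hx hx'
        rw [Finset.mem_Ioc] at hx hx'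
        omega
    · rw [max_eq_left h, Finset.Ioc_eq_empty (by omega : ¬ z < 2 ^ i), Finset.filter_empty,
        Finset.sum_empty, zero_add]

/-- the number of bad characters of one block -/
theorem block (C : ℝ) (hC : 0 ≤ C) (L B e : ℝ) (m k : ℕ) (hB : 256 ≤ B) (hL : 10 ≤ L)
    (he : e = 1 / (64 * (m + 3))) (t : ℝ) (ht : B * Real.log L ≤ t) (ht' : t ≤ (m + 1) * L)
    (hk : (k : ℝ) ≤ 2 * L / t + 1) (hk0 : 1 ≤ k) :
    C * ((2 * k : ℕ) : ℝ) ^ k * ((Real.exp (-(e * t))) ^ (2 * k))⁻¹ ≤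
      C * (L ^ 2 * Real.exp (3 / 64 * L)) := by
  have hlog : 1 ≤ Real.log L := by
    rw [Real.le_log_iff_exp_le (by linarith)]
    have := Real.exp_one_lt_d9
    linarith
  have ht1 : 1 ≤ t := by nlinarith
  have ht0 : 0 < t := by linarith
  have hm : (0 : ℝ) ≤ m := Nat.cast_nonneg m
  have hk1 : (1 : ℝ) ≤ k := by exact_mod_cast hk0
  have hk2 : (k : ℝ) ≤ 2 * L + 1 := by
    have : 2 * L / t ≤ 2 * L := div_le_self (by linarith) ht1
    linarith
  have h1 : ((2 * k : ℕ) : ℝ) ^ k ≤ L ^ 2 * Real.exp (1 / 64 * L) := by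
    have h2 : ((2 * k : ℕ) : ℝ) ≤ L ^ 2 := by
      push_cast
      nlinarith
    have h3 : ((2 * k : ℕ) : ℝ) ≤ Real.exp (2 * Real.log L) := by
      rw [mul_comm (2 : ℝ) (Real.log L), Real.exp_mul, Real.exp_log (by linarith), Real.rpow_two]
      exact h2
    have h4 : ((2 * k : ℕ) : ℝ) ^ k ≤ Real.exp (k * (2 * Real.log L)) := by
      rw [Real.exp_nat_mul]
      exact pow_le_pow_left₀ (Nat.cast_nonneg _) h3 k
    have h5 : (k : ℝ) * (2 * Real.log L) ≤ 1 / 64 * L + 2 * Real.log L := by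
      have h6 : 2 * L / t ≤ 2 * L / (B * Real.log L) :=
        div_le_div_of_nonneg_left (by linarith) (by nlinarith) ht
      have h7 : 2 * L / (B * Real.log L) * (2 * Real.log L) = 4 * L / B := by
        field_simp
        ring
      have h8 : 4 * L / B ≤ 1 / 64 * L := by
        rw [div_le_iff₀ (by linarith)]
        nlinarith
      have h9 : (k : ℝ) * (2 * Real.log L) ≤ (2 * L / (B * Real.log L) + 1) * (2 * Real.log L) :=
        mul_le_mul_of_nonneg_right (by linarith) (by linarith)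
      have h10 : (2 * L / (B * Real.log L) + 1) * (2 * Real.log L) = 4 * L / B + 2 * Real.log L := by
        rw [add_mul, h7, one_mul]
      linarith
    calc ((2 * k : ℕ) : ℝ) ^ k ≤ Real.exp (k * (2 * Real.log L)) := h4
      _ ≤ Real.exp (1 / 64 * L + 2 * Real.log L) := Real.exp_le_exp.2 h5
      _ = L ^ 2 * Real.exp (1 / 64 * L) := by
        rw [Real.exp_add, mul_comm (2 : ℝ) (Real.log L), Real.exp_mul (Real.log L) 2,
          Real.exp_log (by linarith), Real.rpow_two, mul_comm]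
  have h2 : ((Real.exp (-(e * t))) ^ (2 * k))⁻¹ ≤ Real.exp (1 / 32 * L) := by
    rw [← Real.exp_nat_mul, ← Real.exp_neg]
    apply Real.exp_le_exp.2
    push_cast
    have h3 : (k : ℝ) * t ≤ 2 * L + t := by
      have : (k : ℝ) * t ≤ (2 * L / t + 1) * t := mul_le_mul_of_nonneg_right hk ht0.le
      have h4 : (2 * L / t + 1) * t = 2 * L + t := by field_simp
      linarith
    have h5 : (k : ℝ) * t ≤ (m + 3) * L := by nlinarith
    have h6 : -(2 * (k : ℝ) * -(e * t)) = 2 * e * (k * t) := by ring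
    rw [h6]
    have h7 : 0 ≤ 2 * e := by
      rw [he]
      positivity
    calc 2 * e * (k * t) ≤ 2 * e * ((m + 3) * L) := mul_le_mul_of_nonneg_left h5 h7
      _ = 1 / 32 * L := by
        rw [he]
        field_simp
        ring
  have h3 : Real.exp (3 / 64 * L) = Real.exp (1 / 64 * L) * Real.exp (1 / 32 * L) := by
    rw [← Real.exp_add]
    congr 1
    ring
  rw [h3, mul_assoc C]
  apply mul_le_mul_of_nonneg_left _ hC
  calc ((2 * k : ℕ) : ℝ) ^ k * ((Real.exp (-(e * t))) ^ (2 * k))⁻¹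
      ≤ (L ^ 2 * Real.exp (1 / 64 * L)) * Real.exp (1 / 32 * L) :=
        mul_le_mul h1 h2 (by positivity) (by positivity)
    _ = L ^ 2 * (Real.exp (1 / 64 * L) * Real.exp (1 / 32 * L)) := by ring

/-- all the conditions on the size of `L` -/
theorem large (C : ℝ) (hC : 1 ≤ C) (M : ℕ) : ∀ᶠ L : ℝ in atTop, 10 ≤ L ∧ 2 * (M : ℝ) ≤ L ∧
    (2 * M * L + 1) * (C * (L ^ 2 * Real.exp (3 / 64 * L))) ≤ Real.exp (1 / 8 * L) := by
  have h1 := (isLittleO_pow_exp_pos_mul_atTop 4 (by norm_num : (0 : ℝ) < 5 / 64)).bound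
    (zero_lt_one)
  filter_upwards [h1, eventually_ge_atTop (10 : ℝ), eventually_ge_atTop (2 * (M : ℝ)),
    eventually_ge_atTop ((2 * M + 1) * C)] with L h1 h2 h3 h4
  refine ⟨h2, h3, ?_⟩
  rw [Real.norm_of_nonneg (by positivity), Real.norm_of_nonneg (Real.exp_pos _).le, one_mul] at h1
  have hM : (0 : ℝ) ≤ M := Nat.cast_nonneg M
  have h5 : (2 * M * L + 1) * (C * L ^ 2) ≤ L ^ 4 := by
    have h6 : (2 * M * L + 1) * C ≤ L ^ 2 := by
      have h7 : (2 * M * L + 1) * C ≤ ((2 * M + 1) * C) * L := by nlinarith [mul_nonneg hM (by linarith : (0:ℝ) ≤ C)]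
      nlinarith
    calc (2 * M * L + 1) * (C * L ^ 2) = ((2 * M * L + 1) * C) * L ^ 2 := by ring
      _ ≤ L ^ 2 * L ^ 2 := mul_le_mul_of_nonneg_right h6 (by positivity)
      _ = L ^ 4 := by ring
  have h8 : Real.exp (1 / 8 * L) = Real.exp (5 / 64 * L) * Real.exp (3 / 64 * L) := by
    rw [← Real.exp_add]
    congr 1
    ring
  rw [h8]
  calc (2 * M * L + 1) * (C * (L ^ 2 * Real.exp (3 / 64 * L)))
      = ((2 * M * L + 1) * (C * L ^ 2)) * Real.exp (3 / 64 * L) := by ring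
    _ ≤ Real.exp (5 / 64 * L) * Real.exp (3 / 64 * L) :=
      mul_le_mul_of_nonneg_right (h5.trans h1) (Real.exp_pos _).le

end LrgAux

theorem lrg (M A : ℕ) : ∃ B0 : ℕ, ∀ B : ℕ, B0 ≤ B → ∀ᶠ D : ℕ in atTop, ∀ z : ℕ,
    Real.log D ^ B ≤ z → z ≤ D → ∃ Bad ⊆ Ch D, (Bad.card : ℝ) ≤ (D : ℝ) ^ (1 / 8 : ℝ) ∧
    ∀ x ∈ Ch D, x ∉ Bad → ∀ i : ℕ, z ≤ 2 ^ i → 2 ^ i ≤ D ^ M →
      ‖∑ p ∈ (Ioc z (2 ^ i)).filter Nat.Prime, cv x p / (p : ℂ)‖ ≤ 1 / Real.log D ^ A := by
  classical
  obtain ⟨C, hC, hm⟩ := lrgM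
  refine ⟨256 + 64 * (2 * M + 3) * (A + 2), fun B hB => ?_⟩
  have hlog : Tendsto (fun D : ℕ => Real.log (D : ℝ)) atTop atTop :=
    Real.tendsto_log_atTop.comp tendsto_natCast_atTop_atTop
  filter_upwards [hlog.eventually (LrgAux.large C hC M), eventually_ge_atTop 1] with D hD hD1 z hz hzD
  obtain ⟨hL, hLM, hfin⟩ := hD
  generalize hLe : Real.log (D : ℝ) = L at *
  have hD0 : (0 : ℝ) < D := by exact_mod_cast hD1
  have hDexp : (D : ℝ) = Real.exp L := by rw [← hLe, Real.exp_log hD0]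
  have hL0 : 0 < L := by linarith
  have hlogL : 1 ≤ Real.log L := by
    rw [Real.le_log_iff_exp_le (by linarith)]
    have := Real.exp_one_lt_d9
    linarith
  have hBr : (256 : ℝ) ≤ B := by
    have : 256 ≤ B := by
      have := Nat.zero_le (64 * (2 * M + 3) * (A + 2))
      omega
    exact_mod_cast this
  have hB2 : (64 * (2 * M + 3) * (A + 2) : ℝ) ≤ B := by
    have : 64 * (2 * M + 3) * (A + 2) ≤ B := by omega
    exact_mod_cast this
  have hz1 : 1 ≤ z := by
    have h1 : (1 : ℝ) ≤ z := (one_le_pow₀ (by linarith)).trans hz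
    exact_mod_cast h1
  set e : ℝ := 1 / (64 * ((2 * M : ℕ) + 3)) with he
  have he0 : 0 < e := by
    rw [he]
    positivity
  set T : ℕ → ℕ := fun j => max z (2 ^ j) with hT
  have hTz : ∀ j, z ≤ T j := fun j => le_max_left _ _
  have hT0 : ∀ j, (0 : ℝ) < T j := fun j => by
    have := hTz j
    exact_mod_cast (by omega : 0 < T j)
  set J : ℕ := ⌊2 * M * L⌋₊ + 1 with hJ
  have hTlow : ∀ j, B * Real.log L ≤ Real.log (T j) := fun j => by
    have h1 : L ^ B ≤ (T j : ℝ) := hz.trans (by exact_mod_cast hTz j)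
    have h2 := Real.log_le_log (by positivity) h1
    rwa [Real.log_pow] at h2
  have hTup : ∀ j < J, Real.log (T j) ≤ ((2 * M : ℕ) + 1) * L := fun j hj => by
    have hj' : (j : ℝ) ≤ 2 * M * L := by
      have h1 : j ≤ ⌊2 * M * L⌋₊ := by omega
      exact (Nat.le_floor_iff (by positivity)).1 h1
    have hcast : ((T j : ℕ) : ℝ) = max (z : ℝ) (2 ^ j) := by
      rw [hT]
      push_cast
      rfl
    rw [hcast]
    rcases le_total (z : ℝ) (2 ^ j) with h | h
    · rw [max_eq_right h, Real.log_pow]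
      have h2 : Real.log 2 ≤ 1 := by
        have := Real.log_two_lt_d9
        linarith
      have h3 : (j : ℝ) * Real.log 2 ≤ j * 1 := mul_le_mul_of_nonneg_left h2 (Nat.cast_nonneg j)
      push_cast
      nlinarith
    · rw [max_eq_left h]
      have h2 : Real.log z ≤ L := by
        rw [← hLe]
        exact Real.log_le_log (by exact_mod_cast hz1) (by exact_mod_cast hzD)
      have hM : (0 : ℝ) ≤ M := Nat.cast_nonneg M
      push_cast
      nlinarith
  set Bd : ℕ → Finset CI := fun j => (Ch D).filter (fun x => Real.exp (-(e * Real.log (T j))) <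
    ‖∑ p ∈ (Ioc (max z (2 ^ j)) (2 ^ (j + 1))).filter Nat.Prime, cv x p / (p : ℂ)‖) with hBd
  have hcard : ∀ j < J, ((Bd j).card : ℝ) ≤ C * (L ^ 2 * Real.exp (3 / 64 * L)) := by
    intro j hj
    have ht := hTlow j
    have ht' := hTup j hj
    have ht0 : 0 < Real.log (T j) := by nlinarith
    set k : ℕ := ⌈2 * L / Real.log (T j)⌉₊ with hk
    have hk0 : 1 ≤ k := Nat.one_le_ceil_iff.2 (by positivity)
    have hk1 : (k : ℝ) ≤ 2 * L / Real.log (T j) + 1 := (Nat.ceil_lt_add_one (by positivity)).le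
    have hDT : D ^ 2 ≤ T j ^ k := by
      have h1 : (D : ℝ) ^ 2 ≤ (T j : ℝ) ^ k := by
        rw [← Real.log_le_log_iff (by positivity) (pow_pos (hT0 j) k), Real.log_pow, Real.log_pow, hLe]
        have h2 : 2 * L / Real.log (T j) ≤ k := Nat.le_ceil _
        rw [div_le_iff₀ ht0] at h2
        push_cast
        exact h2
      exact_mod_cast h1
    have h1 := hm D (T j) k hD1 (hz1.trans (hTz j)) hk0 hDT
      ((Ioc (max z (2 ^ j)) (2 ^ (j + 1))).filter Nat.Prime) (fun p hp => by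
        rw [Finset.mem_filter, Finset.mem_Ioc] at hp
        refine ⟨hp.2, hp.1.1, hp.1.2.trans ?_⟩
        rw [pow_succ, mul_comm]
        exact Nat.mul_le_mul_left 2 (le_max_right _ _)) (Real.exp (-(e * Real.log (T j)))) (Real.exp_pos _)
    refine le_trans ?_ (LrgAux.block C (by linarith) L B e (2 * M) k hBr hL he (Real.log (T j)) ht ht' hk1 hk0)
    exact h1
  refine ⟨(range J).biUnion Bd, ?_, ?_, ?_⟩
  · intro x hx
    obtain ⟨j, _, hj⟩ := Finset.mem_biUnion.1 hx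
    exact (Finset.mem_filter.1 hj).1
  · calc (((range J).biUnion Bd).card : ℝ) ≤ ((∑ j ∈ range J, (Bd j).card : ℕ) : ℝ) := by
          exact_mod_cast Finset.card_biUnion_le
      _ = ∑ j ∈ range J, ((Bd j).card : ℝ) := by push_cast; rfl
      _ ≤ ∑ _j ∈ range J, C * (L ^ 2 * Real.exp (3 / 64 * L)) :=
        Finset.sum_le_sum fun j hj => hcard j (Finset.mem_range.1 hj)
      _ = (J : ℝ) * (C * (L ^ 2 * Real.exp (3 / 64 * L))) := by
        rw [Finset.sum_const, Finset.card_range, nsmul_eq_mul]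
      _ ≤ (2 * M * L + 1) * (C * (L ^ 2 * Real.exp (3 / 64 * L))) := by
        apply mul_le_mul_of_nonneg_right _ (by positivity)
        rw [hJ]
        push_cast
        have := Nat.floor_le (by positivity : (0 : ℝ) ≤ 2 * M * L)
        linarith
      _ ≤ Real.exp (1 / 8 * L) := hfin
      _ = (D : ℝ) ^ (1 / 8 : ℝ) := by
        rw [hDexp, ← Real.exp_mul]
        congr 1
        ring
  · intro x hx hxB i hzi hiM
    rw [LrgAux.sum_dyadic _ z hz1 i]
    have hi : (i : ℝ) ≤ 2 * M * L := by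
      have h1 : ((2 : ℝ) ^ i) ≤ (D : ℝ) ^ M := by exact_mod_cast hiM
      have h2 := Real.log_le_log (by positivity) h1
      rw [Real.log_pow, Real.log_pow, hLe] at h2
      have h3 := Real.log_two_gt_d9
      have h4 : (0 : ℝ) ≤ i := Nat.cast_nonneg i
      nlinarith
    have hiJ : i < J := by
      rw [hJ]
      have : i ≤ ⌊2 * M * L⌋₊ := Nat.le_floor hi
      omega
    have hb : ∀ j ∈ range i, ‖∑ p ∈ (Ioc (max z (2 ^ j)) (2 ^ (j + 1))).filter Nat.Prime, cv x p / (p : ℂ)‖ ≤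
        Real.exp (-((A + 2 : ℕ) * Real.log L)) := by
      intro j hj
      have hj' : j < J := (Finset.mem_range.1 hj).trans hiJ
      have h1 : ¬ x ∈ Bd j := fun h => hxB (Finset.mem_biUnion.2 ⟨j, Finset.mem_range.2 hj', h⟩)
      have h2 : ¬ Real.exp (-(e * Real.log (T j))) <
          ‖∑ p ∈ (Ioc (max z (2 ^ j)) (2 ^ (j + 1))).filter Nat.Prime, cv x p / (p : ℂ)‖ := fun h =>
        h1 (Finset.mem_filter.2 ⟨hx, h⟩)
      refine (not_lt.1 h2).trans (Real.exp_le_exp.2 (neg_le_neg ?_))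
      have h3 : ((A + 2 : ℕ) : ℝ) ≤ e * B := by
        rw [he]
        push_cast
        rw [div_mul_eq_mul_div, one_mul, le_div_iff₀ (by positivity)]
        linarith
      calc ((A + 2 : ℕ) : ℝ) * Real.log L ≤ (e * B) * Real.log L :=
            mul_le_mul_of_nonneg_right h3 (by linarith)
        _ = e * (B * Real.log L) := by ring
        _ ≤ e * Real.log (T j) := mul_le_mul_of_nonneg_left (hTlow j) he0.le
    calc ‖∑ j ∈ range i, ∑ p ∈ (Ioc (max z (2 ^ j)) (2 ^ (j + 1))).filter Nat.Prime, cv x p / (p : ℂ)‖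
        ≤ ∑ j ∈ range i, ‖∑ p ∈ (Ioc (max z (2 ^ j)) (2 ^ (j + 1))).filter Nat.Prime, cv x p / (p : ℂ)‖ :=
          norm_sum_le _ _
      _ ≤ ∑ _j ∈ range i, Real.exp (-((A + 2 : ℕ) * Real.log L)) := Finset.sum_le_sum hb
      _ = (i : ℝ) * (L ^ (A + 2))⁻¹ := by
        rw [Finset.sum_const, Finset.card_range, nsmul_eq_mul, Real.exp_neg, Real.exp_nat_mul,
          Real.exp_log hL0]
      _ ≤ (L * L) * (L ^ (A + 2))⁻¹ := by
        apply mul_le_mul_of_nonneg_right _ (by positivity)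
        nlinarith
      _ = 1 / L ^ A := by
        rw [pow_add, mul_inv, one_div]
        field_simp

end Pool.Agent.Lib.SPP
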