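import Pool.Agent.Lib.SPP.Defs
import Pool.Agent.Lib.BVH.MSieve

/-!
# SPP.LrgM: high moments by the large sieve (1.5 h)

PROOF. `(∑_{p ∈ P} cv x p / p)^k = ∑_m c_m cv x m`, `c_m = ∑_{(p_1..p_k) ∈ P^k, ∏ p_i = m} ∏ 1/p_i = r(m)/m`, `r(m)` the number of `k`-tuples in `P` with product `m`, `r(m) ≤ k^k` (all `p_i` are among the at most `k` prime factors of `m`);
`c_m ≠ 0` only for `m ∈ (T^k, (2T)^k]` (`T < p ≤ 2T`). `mult_sieve` (`primSum D F = ∑_{q<D} ∑_{χ primitive mod q+1} F`, which is the sum over `Ch D`) with `N = T^k`, `N + M = (2T)^k`: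
`∑_{x ∈ Ch D} ‖..‖^(2k) ≤ C ((2T)^k - T^k + D²) ∑_m c_m² ≤ C (2T)^k ∑ c_m²`, and `∑_m c_m² ≤ k^k ∑_m r(m)/m² = k^k (∑_{p ∈ P} 1/p²)^k ≤ k^k T^(-k)` (`|P| ≤ T`, `1/p² ≤ 1/T²`).
So the sum is at most `C (2k)^k`, and Chebyshev's inequality gives the claim.
-/

set_option autoImplicit false

open Finset Filter

namespace Pool.Agent.Lib.SPP

open Pool.Agent.HLB Pool.Agent.HLT Pool.Agent.HLR Pool.Agent.Lib.GMV

namespace LrgMAux

open scoped Classical in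
/-- The tuples in `P` with product `m`. -/
noncomputable def rr (P : Finset ℕ) (k m : ℕ) : Finset (Fin k → ℕ) :=
  (Fintype.piFinset (fun _ : Fin k => P)).filter (fun f => ∏ i, f i = m)

theorem mem_rr {P : Finset ℕ} {k m : ℕ} {f : Fin k → ℕ} :
    f ∈ rr P k m ↔ (∀ i, f i ∈ P) ∧ ∏ i, f i = m := by
  classical
  unfold rr
  rw [mem_filter, Fintype.mem_piFinset]

theorem card_rr {P : Finset ℕ} (hP : ∀ p ∈ P, p.Prime) (k m : ℕ) : (rr P k m).card ≤ k ^ k := by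
  classical
  rcases (rr P k m).eq_empty_or_nonempty with h | ⟨f0, hf0⟩
  · rw [h, card_empty]
    exact Nat.zero_le _
  obtain ⟨h0, hm⟩ := mem_rr.1 hf0
  have hm0 : m ≠ 0 := by
    rw [← hm]
    exact Finset.prod_ne_zero_iff.2 fun i _ => (hP _ (h0 i)).ne_zero
  have hsub : m.primeFactors ⊆ univ.image f0 := by
    intro p hp
    have hpp := Nat.prime_of_mem_primeFactors hp
    have hpd := Nat.dvd_of_mem_primeFactors hp
    rw [← hm] at hpd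
    obtain ⟨i, -, hi⟩ := (Prime.dvd_finsetProd_iff hpp.prime _).1 hpd
    rw [mem_image]
    exact ⟨i, mem_univ _, ((Nat.prime_dvd_prime_iff_eq hpp (hP _ (h0 i))).1 hi).symm⟩
  have hc : m.primeFactors.card ≤ k := by
    refine (card_le_card hsub).trans (card_image_le.trans ?_)
    rw [card_univ, Fintype.card_fin]
  have hs2 : rr P k m ⊆ Fintype.piFinset (fun _ : Fin k => m.primeFactors) := by
    intro f hf
    obtain ⟨h1, h2⟩ := mem_rr.1 hf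
    rw [Fintype.mem_piFinset]
    intro i
    rw [Nat.mem_primeFactors]
    refine ⟨hP _ (h1 i), ?_, hm0⟩
    rw [← h2]
    exact Finset.dvd_prod_of_mem f (mem_univ i)
  refine (card_le_card hs2).trans ?_
  rw [Fintype.card_piFinset, Finset.prod_const, card_univ, Fintype.card_fin]
  exact Nat.pow_le_pow_left hc k

theorem pow_sum {R : Type*} [CommSemiring R] (P : Finset ℕ) (k : ℕ) (g : ℕ → R) :
    (∑ p ∈ P, g p) ^ k = ∑ f ∈ Fintype.piFinset (fun _ : Fin k => P), ∏ i, g (f i) := by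
  classical
  have h := Finset.prod_univ_sum (fun _ : Fin k => P) (fun _ p => g p)
  rw [Finset.prod_const, card_univ, Fintype.card_fin] at h
  exact h

theorem maps {P : Finset ℕ} {T k : ℕ} (hk : 1 ≤ k) (hP : ∀ p ∈ P, T < p ∧ p ≤ 2 * T)
    {f : Fin k → ℕ} (hf : f ∈ Fintype.piFinset (fun _ : Fin k => P)) :
    ∏ i, f i ∈ Ioc (T ^ k) (T ^ k + ((2 * T) ^ k - T ^ k)) := by
  rw [Fintype.mem_piFinset] at hf
  have hle : T ^ k ≤ (2 * T) ^ k := Nat.pow_le_pow_left (by omega) k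
  rw [mem_Ioc]
  constructor
  · have h1 : (T + 1) ^ k ≤ ∏ i, f i := by
      have h := Finset.prod_le_prod' (s := (univ : Finset (Fin k))) (f := fun _ => T + 1) (g := f)
        (fun i _ => (hP _ (hf i)).1)
      rwa [Finset.prod_const, card_univ, Fintype.card_fin] at h
    exact lt_of_lt_of_le (Nat.pow_lt_pow_left (Nat.lt_succ_self T) (by omega)) h1
  · have h1 : ∏ i, f i ≤ (2 * T) ^ k := by
      have h := Finset.prod_le_prod' (s := (univ : Finset (Fin k))) (f := f) (g := fun _ => 2 * T)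
        (fun i _ => (hP _ (hf i)).2)
      rwa [Finset.prod_const, card_univ, Fintype.card_fin] at h
    omega

theorem regroup {R : Type*} [AddCommMonoid R] {P : Finset ℕ} {T k : ℕ} (hk : 1 ≤ k)
    (hP : ∀ p ∈ P, T < p ∧ p ≤ 2 * T) (G : (Fin k → ℕ) → R) :
    ∑ f ∈ Fintype.piFinset (fun _ : Fin k => P), G f =
      ∑ m ∈ Ioc (T ^ k) (T ^ k + ((2 * T) ^ k - T ^ k)), ∑ f ∈ rr P k m, G f := by
  classical
  unfold rr
  exact (Finset.sum_fiberwise_of_maps_to (fun f hf => maps hk hP hf) G).symm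

theorem power {P : Finset ℕ} {T k : ℕ} (hk : 1 ≤ k) (hP : ∀ p ∈ P, T < p ∧ p ≤ 2 * T) (x : CI) :
    (∑ p ∈ P, cv x p / (p : ℂ)) ^ k =
      ∑ m ∈ Ioc (T ^ k) (T ^ k + ((2 * T) ^ k - T ^ k)),
        ((rr P k m).card : ℂ) / (m : ℂ) * x.2 (m : ZMod (x.1 + 1)) := by
  rw [pow_sum, regroup hk hP]
  refine Finset.sum_congr rfl fun m _ => ?_
  have h : ∀ f ∈ rr P k m, ∏ i, cv x (f i) / ((f i : ℕ) : ℂ) =
      1 / (m : ℂ) * x.2 (m : ZMod (x.1 + 1)) := by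
    intro f hf
    obtain ⟨-, h2⟩ := mem_rr.1 hf
    rw [Finset.prod_div_distrib]
    have e1 : ∏ i, cv x (f i) = x.2 (m : ZMod (x.1 + 1)) := by
      unfold cv
      rw [← map_prod, ← Nat.cast_prod, h2]
    have e2 : ∏ i, ((f i : ℕ) : ℂ) = (m : ℂ) := by
      rw [← Nat.cast_prod, h2]
    rw [e1, e2]
    ring
  rw [Finset.sum_congr rfl h, Finset.sum_const, nsmul_eq_mul]
  ring

theorem sq_sum {P : Finset ℕ} {T k : ℕ} (hT : 1 ≤ T) (hk : 1 ≤ k)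
    (hP : ∀ p ∈ P, p.Prime ∧ T < p ∧ p ≤ 2 * T) :
    ∑ m ∈ Ioc (T ^ k) (T ^ k + ((2 * T) ^ k - T ^ k)), ‖((rr P k m).card : ℂ) / (m : ℂ)‖ ^ 2 ≤
      (k : ℝ) ^ k * ((T : ℝ) ^ k)⁻¹ := by
  have hT0 : (0 : ℝ) < T := by exact_mod_cast hT
  have hP2 : ∀ p ∈ P, T < p ∧ p ≤ 2 * T := fun p hp => (hP p hp).2
  have h1 : ∑ m ∈ Ioc (T ^ k) (T ^ k + ((2 * T) ^ k - T ^ k)),
      ‖((rr P k m).card : ℂ) / (m : ℂ)‖ ^ 2 ≤
      ∑ m ∈ Ioc (T ^ k) (T ^ k + ((2 * T) ^ k - T ^ k)),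
        (k : ℝ) ^ k * ∑ f ∈ rr P k m, ∏ i, (((f i : ℕ) : ℝ) ^ 2)⁻¹ := by
    refine Finset.sum_le_sum fun m _ => ?_
    have h : ∀ f ∈ rr P k m, ∏ i, (((f i : ℕ) : ℝ) ^ 2)⁻¹ = ((m : ℝ) ^ 2)⁻¹ := by
      intro f hf
      obtain ⟨-, h2⟩ := mem_rr.1 hf
      rw [Finset.prod_inv_distrib, Finset.prod_pow, ← Nat.cast_prod, h2]
    rw [Finset.sum_congr rfl h, Finset.sum_const, nsmul_eq_mul, norm_div, Complex.norm_natCast,
      Complex.norm_natCast, div_pow, div_eq_mul_inv]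
    have hc : ((rr P k m).card : ℝ) ≤ (k : ℝ) ^ k := by
      exact_mod_cast card_rr (fun p hp => (hP p hp).1) k m
    have hc0 : (0 : ℝ) ≤ ((rr P k m).card : ℝ) := Nat.cast_nonneg _
    have hi : (0 : ℝ) ≤ ((m : ℝ) ^ 2)⁻¹ := by positivity
    calc ((rr P k m).card : ℝ) ^ 2 * ((m : ℝ) ^ 2)⁻¹
        = ((rr P k m).card : ℝ) * (((rr P k m).card : ℝ) * ((m : ℝ) ^ 2)⁻¹) := by ring
      _ ≤ (k : ℝ) ^ k * (((rr P k m).card : ℝ) * ((m : ℝ) ^ 2)⁻¹) :=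
          mul_le_mul_of_nonneg_right hc (mul_nonneg hc0 hi)
  refine h1.trans ?_
  rw [← Finset.mul_sum, ← regroup hk hP2 (fun f => ∏ i, (((f i : ℕ) : ℝ) ^ 2)⁻¹),
    ← pow_sum P k (fun p => ((p : ℝ) ^ 2)⁻¹)]
  refine mul_le_mul_of_nonneg_left ?_ (by positivity)
  have h2 : ∑ p ∈ P, ((p : ℝ) ^ 2)⁻¹ ≤ (T : ℝ)⁻¹ := by
    have h3 : ∑ p ∈ P, ((p : ℝ) ^ 2)⁻¹ ≤ ∑ p ∈ P, ((T : ℝ) ^ 2)⁻¹ := by
      refine Finset.sum_le_sum fun p hp => ?_
      have : (T : ℝ) ≤ p := by exact_mod_cast (hP p hp).2.1.le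
      exact inv_anti₀ (by positivity) (by gcongr)
    have h4 : (P.card : ℝ) ≤ T := by
      have hs : P ⊆ Ioc T (2 * T) := fun p hp => mem_Ioc.2 (hP p hp).2
      have := card_le_card hs
      rw [Nat.card_Ioc] at this
      have : P.card ≤ T := by omega
      exact_mod_cast this
    rw [Finset.sum_const, nsmul_eq_mul] at h3
    refine h3.trans ?_
    calc (P.card : ℝ) * ((T : ℝ) ^ 2)⁻¹ ≤ T * ((T : ℝ) ^ 2)⁻¹ :=
          mul_le_mul_of_nonneg_right h4 (by positivity)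
      _ = (T : ℝ)⁻¹ := by field_simp
  rw [← inv_pow]
  exact pow_le_pow_left₀ (Finset.sum_nonneg fun p _ => by positivity) h2 k

end LrgMAux

open LrgMAux in
open scoped Classical in
theorem lrgM : ∃ C : ℝ, 1 ≤ C ∧ ∀ (D T k : ℕ), 1 ≤ D → 1 ≤ T → 1 ≤ k → D ^ 2 ≤ T ^ k → ∀ P : Finset ℕ,
    (∀ p ∈ P, p.Prime ∧ T < p ∧ p ≤ 2 * T) → ∀ lam : ℝ, 0 < lam →
    (((Ch D).filter (fun x => lam < ‖∑ p ∈ P, cv x p / (p : ℂ)‖)).card : ℝ) ≤
      C * ((2 * k : ℕ) : ℝ) ^ k * (lam ^ (2 * k))⁻¹ := by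
  obtain ⟨C, hC, hms⟩ := Pool.Agent.BVH.mult_sieve
  refine ⟨C, hC, ?_⟩
  intro D T k hD hT hk hDT P hP lam hlam
  have hC0 : 0 < C := by linarith
  have hT0 : (0 : ℝ) < T := by exact_mod_cast hT
  have hP2 : ∀ p ∈ P, T < p ∧ p ≤ 2 * T := fun p hp => (hP p hp).2
  have hle : T ^ k ≤ (2 * T) ^ k := Nat.pow_le_pow_left (by omega) k
  have key : ∑ x ∈ Ch D, ‖∑ p ∈ P, cv x p / (p : ℂ)‖ ^ (2 * k) ≤ C * ((2 * k : ℕ) : ℝ) ^ k := by
    have e1 : ∑ x ∈ Ch D, ‖∑ p ∈ P, cv x p / (p : ℂ)‖ ^ (2 * k) =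
        Pool.Agent.Lib.BV.primSum D (fun q χ =>
          ‖∑ n ∈ Ioc (T ^ k) (T ^ k + ((2 * T) ^ k - T ^ k)),
            ((rr P k n).card : ℂ) / (n : ℂ) * χ (n : ZMod q)‖ ^ 2) := by
      unfold Ch Pool.Agent.Lib.BV.primSum
      rw [Finset.sum_sigma]
      refine Finset.sum_congr rfl fun q _ => ?_
      rw [← Finset.sum_filter]
      refine Finset.sum_congr rfl fun χ _ => ?_
      have h := power hk hP2 (⟨q, χ⟩ : CI)
      have h2 := congrArg (fun z : ℂ => ‖z‖ ^ 2) h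
      simp only at h2
      rw [norm_pow, ← pow_mul, mul_comm k 2] at h2
      exact h2
    rw [e1]
    refine (hms D (T ^ k) ((2 * T) ^ k - T ^ k) _).trans ?_
    have hs := sq_sum hT hk hP
    have h2 : (((2 * T) ^ k - T ^ k : ℕ) : ℝ) + (D : ℝ) ^ 2 ≤ ((2 * T : ℕ) : ℝ) ^ k := by
      have : ((2 * T) ^ k - T ^ k) + D ^ 2 ≤ (2 * T) ^ k := by omega
      exact_mod_cast this
    have hs0 : 0 ≤ ∑ m ∈ Ioc (T ^ k) (T ^ k + ((2 * T) ^ k - T ^ k)),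
        ‖((rr P k m).card : ℂ) / (m : ℂ)‖ ^ 2 := Finset.sum_nonneg fun _ _ => sq_nonneg _
    calc C * ((((2 * T) ^ k - T ^ k : ℕ) : ℝ) + (D : ℝ) ^ 2) *
          ∑ m ∈ Ioc (T ^ k) (T ^ k + ((2 * T) ^ k - T ^ k)), ‖((rr P k m).card : ℂ) / (m : ℂ)‖ ^ 2
        ≤ C * ((2 * T : ℕ) : ℝ) ^ k * ((k : ℝ) ^ k * ((T : ℝ) ^ k)⁻¹) :=
          mul_le_mul (mul_le_mul_of_nonneg_left h2 hC0.le) hs hs0 (by positivity)
      _ = C * ((2 * k : ℕ) : ℝ) ^ k := by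
          push_cast
          rw [mul_pow, mul_pow]
          field_simp
  have hpos : (0 : ℝ) < lam ^ (2 * k) := by positivity
  have hcheb : (((Ch D).filter (fun x => lam < ‖∑ p ∈ P, cv x p / (p : ℂ)‖)).card : ℝ) *
      lam ^ (2 * k) ≤ ∑ x ∈ Ch D, ‖∑ p ∈ P, cv x p / (p : ℂ)‖ ^ (2 * k) := by
    calc (((Ch D).filter (fun x => lam < ‖∑ p ∈ P, cv x p / (p : ℂ)‖)).card : ℝ) * lam ^ (2 * k)
        = ∑ x ∈ (Ch D).filter (fun x => lam < ‖∑ p ∈ P, cv x p / (p : ℂ)‖), lam ^ (2 * k) := by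
          rw [Finset.sum_const, nsmul_eq_mul]
      _ ≤ ∑ x ∈ (Ch D).filter (fun x => lam < ‖∑ p ∈ P, cv x p / (p : ℂ)‖),
            ‖∑ p ∈ P, cv x p / (p : ℂ)‖ ^ (2 * k) := by
          refine Finset.sum_le_sum fun x hx => ?_
          exact pow_le_pow_left₀ hlam.le (mem_filter.1 hx).2.le _
      _ ≤ _ := Finset.sum_le_sum_of_subset_of_nonneg (filter_subset _ _)
            fun _ _ _ => by positivity
  rw [← div_eq_mul_inv, le_div_iff₀ hpos]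
  exact hcheb.trans key

end Pool.Agent.Lib.SPP
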