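import Pool.Agent.Lib.SPP.Even
import Pool.Agent.Lib.SPP.Loc
import Pool.Agent.Lib.GMV.PerMean

/-!
# SPP.Mom: high moments of rough character sums over `n` (1.5 h)

PROOF. Expand the `2k`-th power: `∑_{f : Fin (2k) → 𝒮} ∏_i ∏_{p ∈ f i} gp p n = ∑_f ∏_{p ∈ P} gp p n ^ c_p(f)`, `c_p(f) = #{i : p ∈ f i}` (`Finset.sum_pow'` or
`Finset.prod_univ_sum`). For fixed `f` sum over `n ∈ [1, N]`.
(a) all `c_p` even: at most `N ∏_p (1/(p-1))^c_p ≤ N ∏_p (2/p)^c_p = N ∏_p (p^(-1/4))^c_p ∏_p (2 p^(-3/4))^c_p`, and `∏_p p^c_p = ∏_i ∏ f i ≥ T^(2k)`,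
so the first product is `≤ T^(-k/2)`. The sum over these `f` is at most `N T^(-k/2) exp 16` (`even_bound`, enlarging `𝒮` to `P.powerset`).
(b) some `c_q` odd: let `P' = {p ∈ P : c_p ≥ 1}`, `D = ∏ P' ≤ ∏_i ∏ f i ≤ (2T)^(2k)`. `h(n) = ∏_{p ∈ P'} gp p n ^ c_p` has period `D`, `|h| ≤ 1`, and its mean is
`∏_{p ∈ P'} (mean of gp^c_p mod p) = 0` (`av_prod` with `M = 1`, `gp_odd_mean` for `q`). So the sum over `[1, N]` is at most `D ≤ (2T)^(2k)` in absolute value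
(`per_sum`-like: whole periods vanish). The number of `f` is at most `|𝒮|^(2k) ≤ (2T)^(2k)` (`S ↦ ∏ S` is injective on sets of primes, values in `[1, 2T]`).
Total `(2T)^(4k)`.
-/

set_option autoImplicit false

open Finset Filter

namespace Pool.Agent.Lib.SPP

open Pool.Agent.HLB Pool.Agent.HLT Pool.Agent.HLR Pool.Agent.Lib.GMV

namespace MomAux

/-- The multiplicities of the primes. -/
theorem prod_exp {M : Type*} [CommMonoid M] {m : ℕ} (P : Finset ℕ) (f : Fin m → Finset ℕ)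
    (hf : ∀ i, f i ⊆ P) (g : ℕ → M) :
    ∏ i, ∏ p ∈ f i, g p = ∏ p ∈ P, g p ^ (univ.filter fun i => p ∈ f i).card := by
  have h1 : ∀ i, ∏ p ∈ f i, g p = ∏ p ∈ P, (if p ∈ f i then g p else 1) := by
    intro i
    rw [Finset.prod_ite_mem, Finset.inter_eq_right.2 (hf i)]
  rw [Finset.prod_congr rfl (fun i _ => h1 i), Finset.prod_comm]
  refine Finset.prod_congr rfl fun p _ => ?_
  rw [Finset.prod_ite, Finset.prod_const_one, mul_one, Finset.prod_const]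

/-- `|gp p n| ≤ p^(-1/4) * (2 p^(-3/4))`. -/
theorem gp_le {p : ℕ} (hp : p.Prime) (n : ℕ) :
    |gp p n| ≤ (p : ℝ) ^ (-(1 / 4 : ℝ)) * (2 * (p : ℝ) ^ (-(3 / 4 : ℝ))) := by
  have hp2 : (2 : ℝ) ≤ p := by exact_mod_cast hp.two_le
  have hp0 : (0 : ℝ) < p := by linarith
  have e : (p : ℝ) ^ (-(1 / 4 : ℝ)) * (2 * (p : ℝ) ^ (-(3 / 4 : ℝ))) = 2 / p := by
    have : (p : ℝ) ^ (-(1 / 4 : ℝ)) * (p : ℝ) ^ (-(3 / 4 : ℝ)) = (p : ℝ)⁻¹ := by
      rw [← Real.rpow_add hp0, ← Real.rpow_neg_one]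
      norm_num
    calc (p : ℝ) ^ (-(1 / 4 : ℝ)) * (2 * (p : ℝ) ^ (-(3 / 4 : ℝ)))
        = 2 * ((p : ℝ) ^ (-(1 / 4 : ℝ)) * (p : ℝ) ^ (-(3 / 4 : ℝ))) := by ring
      _ = 2 / p := by rw [this, div_eq_mul_inv]
  rw [e]
  refine (abs_gp_le hp n).trans ?_
  rw [div_le_div_iff₀ (by linarith) hp0]
  linarith

theorem abs_gp_le_one {p : ℕ} (hp : p.Prime) (n : ℕ) : |gp p n| ≤ 1 := by
  have hp2 : (2 : ℝ) ≤ p := by exact_mod_cast hp.two_le
  refine (abs_gp_le hp n).trans ?_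
  rw [div_le_one (by linarith)]
  linarith

/-- The case of even multiplicities. -/
theorem even_case (P : Finset ℕ) (k T : ℕ) (hP : ∀ p ∈ P, p.Prime) (hT : 1 ≤ T)
    (f : Fin (2 * k) → Finset ℕ) (hf : ∀ i, f i ⊆ P ∧ T < ∏ p ∈ f i, p) (n : ℕ) :
    ∏ p ∈ P, gp p n ^ (univ.filter fun i => p ∈ f i).card ≤
      (T : ℝ) ^ (-((k : ℝ) / 2)) *
        ∏ p ∈ P, (2 * (p : ℝ) ^ (-(3 / 4 : ℝ))) ^ (univ.filter fun i => p ∈ f i).card := by
  have hT0 : (0 : ℝ) < T := by exact_mod_cast hT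
  have h1 : ∏ p ∈ P, gp p n ^ (univ.filter fun i => p ∈ f i).card ≤
      ∏ p ∈ P, (((p : ℝ) ^ (-(1 / 4 : ℝ))) ^ (univ.filter fun i => p ∈ f i).card *
        (2 * (p : ℝ) ^ (-(3 / 4 : ℝ))) ^ (univ.filter fun i => p ∈ f i).card) := by
    refine (le_abs_self _).trans ?_
    rw [Finset.abs_prod]
    refine Finset.prod_le_prod (fun p _ => abs_nonneg _) fun p hp => ?_
    rw [abs_pow, ← mul_pow]
    exact pow_le_pow_left₀ (abs_nonneg _) (gp_le (hP p hp) n) _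
  refine h1.trans ?_
  rw [Finset.prod_mul_distrib]
  refine mul_le_mul_of_nonneg_right ?_ (Finset.prod_nonneg fun p _ => by positivity)
  rw [← prod_exp P f (fun i => (hf i).1) (fun p => (p : ℝ) ^ (-(1 / 4 : ℝ)))]
  have h2 : ∀ i, ∏ p ∈ f i, (p : ℝ) ^ (-(1 / 4 : ℝ)) ≤ (T : ℝ) ^ (-(1 / 4 : ℝ)) := by
    intro i
    rw [Real.finsetProd_rpow _ _ (fun p _ => by positivity)]
    refine Real.rpow_le_rpow_of_nonpos hT0 ?_ (by norm_num)
    have h3 : T ≤ ∏ p ∈ f i, p := (hf i).2.le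
    have h4 : (T : ℝ) ≤ ((∏ p ∈ f i, p : ℕ) : ℝ) := Nat.cast_le.2 h3
    rwa [Nat.cast_prod] at h4
  calc ∏ i, ∏ p ∈ f i, (p : ℝ) ^ (-(1 / 4 : ℝ))
      ≤ ∏ i : Fin (2 * k), (T : ℝ) ^ (-(1 / 4 : ℝ)) :=
        Finset.prod_le_prod (fun i _ => Finset.prod_nonneg fun p _ => by positivity)
          fun i _ => h2 i
    _ = ((T : ℝ) ^ (-(1 / 4 : ℝ))) ^ (2 * k) := by
        rw [Finset.prod_const, Finset.card_univ, Fintype.card_fin]
    _ = (T : ℝ) ^ (-((k : ℝ) / 2)) := by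
        rw [← Real.rpow_natCast, ← Real.rpow_mul hT0.le]
        congr 1
        push_cast
        ring
    _ ≤ (T : ℝ) ^ (-((k : ℝ) / 2)) := le_rfl

/-- A periodic function with mean zero. -/
theorem mean_zero_sum (D N : ℕ) (hD : 1 ≤ D) (h : ℕ → ℂ) (hper : ∀ n, h (n + D) = h n)
    (hz : ∑ n ∈ range D, h n = 0) (hb : ∀ n, ‖h n‖ ≤ 1) : ‖∑ n ∈ Icc 1 N, h n‖ ≤ D := by
  rw [PerMeanAux.sum_Icc_eq]
  have hper' : ∀ n, (fun n => h (n + 1)) (n + D) = (fun n => h (n + 1)) n := by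
    intro n
    simp only
    rw [show n + D + 1 = (n + 1) + D by ring, hper]
  have hz' : ∑ n ∈ range D, h (n + 1) = 0 := by
    rw [PerMeanAux.sum_shift D h hper, hz]
  have h1 := PerMeanAux.per_sum D (fun n => h (n + 1)) hper' (N / D) (N % D)
  rw [Nat.div_add_mod] at h1
  rw [h1, hz', mul_zero, zero_add]
  refine (norm_sum_le _ _).trans ?_
  calc ∑ n ∈ range (N % D), ‖h (n + 1)‖ ≤ ∑ n ∈ range (N % D), (1 : ℝ) :=
        Finset.sum_le_sum fun n _ => hb _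
    _ = ((N % D : ℕ) : ℝ) := by simp
    _ ≤ D := by
        exact_mod_cast (Nat.mod_lt N hD).le

/-- The case of an odd multiplicity. -/
theorem odd_case (P : Finset ℕ) (k T N : ℕ) (hP : ∀ p ∈ P, p.Prime)
    (f : Fin (2 * k) → Finset ℕ) (hf : ∀ i, f i ⊆ P ∧ ∏ p ∈ f i, p ≤ 2 * T)
    (hodd : ∃ q ∈ P, ¬ Even (univ.filter fun i => q ∈ f i).card) :
    ∑ n ∈ Icc 1 N, ∏ p ∈ P, gp p n ^ (univ.filter fun i => p ∈ f i).card ≤
      ((2 * T : ℕ) : ℝ) ^ (2 * k) := by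
  classical
  obtain ⟨q, hq, hqo⟩ := hodd
  set c : ℕ → ℕ := fun p => (univ.filter fun i => p ∈ f i).card with hc
  have hqo' : Odd (c q) := Nat.not_even_iff_odd.1 hqo
  set P' := P.filter (fun p => 1 ≤ c p) with hP'
  have hP'p : ∀ p ∈ P', p.Prime := fun p hp => hP p (Finset.mem_filter.1 hp).1
  have hqP' : q ∈ P' := Finset.mem_filter.2 ⟨hq, hqo'.pos⟩
  set D := ∏ p ∈ P', p with hD
  have hD1 : 1 ≤ D := Finset.prod_pos fun p hp => (hP'p p hp).pos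
  -- the product over `P` is the product over `P'`
  have hPP : ∀ n, ∏ p ∈ P, gp p n ^ c p = ∏ p ∈ P', gp p n ^ c p := by
    intro n
    rw [hP', Finset.prod_filter]
    refine Finset.prod_congr rfl fun p _ => ?_
    by_cases h : 1 ≤ c p
    · rw [if_pos h]
    · rw [if_neg h, show c p = 0 by omega, pow_zero]
  set h : ℕ → ℂ := fun n => ∏ p ∈ P', ((gp p n ^ c p : ℝ) : ℂ) with hh
  have hfper : ∀ p ∈ P', ∀ n, (fun (p n : ℕ) => ((gp p n ^ c p : ℝ) : ℂ)) p (n + p) =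
      (fun (p n : ℕ) => ((gp p n ^ c p : ℝ) : ℂ)) p n := by
    intro p hp n
    simp only
    rw [gp_periodic (hP'p p hp)]
  have hper : ∀ n, h (n + D) = h n := by
    intro n
    rw [hh]
    refine Finset.prod_congr rfl fun p hp => ?_
    obtain ⟨t, ht⟩ : p ∣ D := Finset.dvd_prod_of_mem (fun q => q) hp
    have := PerMeanAux.per_mul p (fun n => ((gp p n ^ c p : ℝ) : ℂ))
      (fun n => hfper p hp n) t n
    rw [ht]
    exact this
  have hz : ∑ n ∈ range D, h n = 0 := by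
    have h1 := av_prod P' hP'p 1 le_rfl (fun p _ => Nat.coprime_one_left p) (fun _ => 1)
      (fun _ => rfl) (fun (p n : ℕ) => ((gp p n ^ c p : ℝ) : ℂ)) hfper
    have h2 : ∏ p ∈ P', av p ((fun (p n : ℕ) => ((gp p n ^ c p : ℝ) : ℂ)) p) = 0 := by
      refine Finset.prod_eq_zero hqP' ?_
      unfold av
      have h3 := gp_odd_mean (hP'p q hqP') (c q) hqo'
      have h4 : ∑ n ∈ range q, ((gp q n ^ c q : ℝ) : ℂ) = 0 := by
        rw [← Complex.ofReal_sum, h3, Complex.ofReal_zero]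
      rw [h4, zero_div]
    rw [h2, mul_zero, one_mul, ← hD] at h1
    unfold av at h1
    rw [div_eq_zero_iff] at h1
    rcases h1 with h1 | h1
    · refine (Finset.sum_congr rfl fun n _ => ?_).trans h1
      rw [hh]
      simp only [one_mul]
    · exfalso
      have : D = 0 := by exact_mod_cast h1
      omega
  have hb : ∀ n, ‖h n‖ ≤ 1 := by
    intro n
    rw [hh]
    simp only
    rw [norm_prod]
    refine Finset.prod_le_one (fun p _ => norm_nonneg _) fun p hp => ?_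
    rw [Complex.norm_real, Real.norm_eq_abs, abs_pow]
    exact pow_le_one₀ (abs_nonneg _) (abs_gp_le_one (hP'p p hp) n)
  have h5 := mean_zero_sum D N hD1 h hper hz hb
  have h6 : ((∑ n ∈ Icc 1 N, ∏ p ∈ P, gp p n ^ c p : ℝ) : ℂ) = ∑ n ∈ Icc 1 N, h n := by
    rw [Complex.ofReal_sum]
    refine Finset.sum_congr rfl fun n _ => ?_
    rw [hPP n, Complex.ofReal_prod]
  rw [← h6, Complex.norm_real, Real.norm_eq_abs] at h5
  refine (le_abs_self _).trans (h5.trans ?_)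
  -- `D ≤ (2T)^(2k)`
  have h7 : D ≤ ∏ p ∈ P, p ^ c p := by
    have e1 : ∏ p ∈ P, p ^ c p = ∏ p ∈ P', p ^ c p := by
      rw [hP', Finset.prod_filter]
      refine Finset.prod_congr rfl fun p _ => ?_
      by_cases h : 1 ≤ c p
      · rw [if_pos h]
      · rw [if_neg h, show c p = 0 by omega, pow_zero]
    rw [e1]
    refine Finset.prod_le_prod' fun p hp => ?_
    have h8 : 1 ≤ c p := (Finset.mem_filter.1 hp).2
    exact Nat.le_self_pow (by omega) p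
  have h9 : ∏ p ∈ P, p ^ c p = ∏ i, ∏ p ∈ f i, p :=
    (prod_exp P f (fun i => (hf i).1) (fun p => p)).symm
  have h10 : ∏ i, ∏ p ∈ f i, p ≤ (2 * T) ^ (2 * k) := by
    calc ∏ i, ∏ p ∈ f i, p ≤ ∏ i : Fin (2 * k), (2 * T) :=
          Finset.prod_le_prod' fun i _ => (hf i).2
      _ = (2 * T) ^ (2 * k) := by rw [Finset.prod_const, Finset.card_univ, Fintype.card_fin]
  have h11 : D ≤ (2 * T) ^ (2 * k) := h7.trans (h9.le.trans h10)
  exact_mod_cast h11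

/-- The number of sets of primes with product at most `2 T`. -/
theorem card_SS (T : ℕ) (SS : Finset (Finset ℕ))
    (hS : ∀ S ∈ SS, (∀ p ∈ S, p.Prime) ∧ ∏ p ∈ S, p ≤ 2 * T) : SS.card ≤ 2 * T := by
  have h1 : SS.card ≤ (Icc 1 (2 * T)).card := by
    refine Finset.card_le_card_of_injOn (fun S => ∏ p ∈ S, p) ?_ ?_
    · intro S hSS
      have h2 := hS S hSS
      exact Finset.mem_coe.2 (Finset.mem_Icc.2 ⟨Finset.prod_pos fun p hp => (h2.1 p hp).pos, h2.2⟩)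
    · intro S hSS S' hSS' h
      have e : ∀ S ∈ SS, (∏ p ∈ S, p).primeFactors = S :=
        fun S hSS => Nat.primeFactors_prod (hS S hSS).1
      rw [← e S hSS, ← e S' hSS']
      simp only at h
      rw [h]
  simpa using h1

end MomAux

theorem moment (P : Finset ℕ) (k z T N : ℕ) (hz : 2 ≤ z) (hP : ∀ p ∈ P, p.Prime ∧ z < p)
    (hk : (k : ℝ) ^ 2 ≤ Real.sqrt z) (hT : 1 ≤ T) (SS : Finset (Finset ℕ))
    (hS : ∀ S ∈ SS, S ⊆ P ∧ T < ∏ p ∈ S, p ∧ ∏ p ∈ S, p ≤ 2 * T) :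
    ∑ n ∈ Icc 1 N, (∑ S ∈ SS, ∏ p ∈ S, gp p n) ^ (2 * k) ≤
      N * (T : ℝ) ^ (-((k : ℝ) / 2)) * Real.exp 16 + ((2 * T : ℕ) : ℝ) ^ (4 * k) := by
  classical
  have hT0 : (0 : ℝ) < T := by exact_mod_cast hT
  have hTk : (0 : ℝ) ≤ (T : ℝ) ^ (-((k : ℝ) / 2)) := by positivity
  set W : (Fin (2 * k) → Finset ℕ) → ℝ := fun f =>
    ∏ p ∈ P, (if Even (univ.filter fun i => p ∈ f i).card then
      (2 * (p : ℝ) ^ (-(3 / 4 : ℝ))) ^ (univ.filter fun i => p ∈ f i).card else 0) with hW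
  have hW0 : ∀ f, 0 ≤ W f := by
    intro f
    rw [hW]
    refine Finset.prod_nonneg fun p _ => ?_
    split_ifs
    · positivity
    · exact le_rfl
  have hexp : ∀ n, (∑ S ∈ SS, ∏ p ∈ S, gp p n) ^ (2 * k) =
      ∑ f ∈ Fintype.piFinset (fun _ : Fin (2 * k) => SS), ∏ i, ∏ p ∈ f i, gp p n := by
    intro n
    have h1 := Finset.prod_univ_sum (fun _ : Fin (2 * k) => SS)
      (fun _ S => ∏ p ∈ S, gp p n)
    rw [← h1, Finset.prod_const, Finset.card_univ, Fintype.card_fin]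
  have hterm : ∀ f ∈ Fintype.piFinset (fun _ : Fin (2 * k) => SS),
      ∑ n ∈ Icc 1 N, ∏ i, ∏ p ∈ f i, gp p n ≤
        N * (T : ℝ) ^ (-((k : ℝ) / 2)) * W f + ((2 * T : ℕ) : ℝ) ^ (2 * k) := by
    intro f hf
    have hf' : ∀ i, f i ∈ SS := Fintype.mem_piFinset.1 hf
    have e : ∀ n, ∏ i, ∏ p ∈ f i, gp p n =
        ∏ p ∈ P, gp p n ^ (univ.filter fun i => p ∈ f i).card :=
      fun n => MomAux.prod_exp P f (fun i => (hS _ (hf' i)).1) (fun p => gp p n)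
    rw [Finset.sum_congr rfl fun n _ => e n]
    by_cases hodd : ∃ q ∈ P, ¬ Even (univ.filter fun i => q ∈ f i).card
    · have h1 := MomAux.odd_case P k T N (fun p hp => (hP p hp).1) f
        (fun i => ⟨(hS _ (hf' i)).1, (hS _ (hf' i)).2.2⟩) hodd
      have h2 : 0 ≤ (N : ℝ) * (T : ℝ) ^ (-((k : ℝ) / 2)) * W f :=
        mul_nonneg (mul_nonneg (Nat.cast_nonneg _) hTk) (hW0 f)
      linarith
    · push Not at hodd
      have hWf : W f = ∏ p ∈ P, (2 * (p : ℝ) ^ (-(3 / 4 : ℝ))) ^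
          (univ.filter fun i => p ∈ f i).card := by
        rw [hW]
        exact Finset.prod_congr rfl fun p hp => if_pos (hodd p hp)
      have h1 : ∑ n ∈ Icc 1 N, ∏ p ∈ P, gp p n ^ (univ.filter fun i => p ∈ f i).card ≤
          ∑ n ∈ Icc 1 N, (T : ℝ) ^ (-((k : ℝ) / 2)) * W f := by
        refine Finset.sum_le_sum fun n _ => ?_
        rw [hWf]
        exact MomAux.even_case P k T (fun p hp => (hP p hp).1) hT f
          (fun i => ⟨(hS _ (hf' i)).1, (hS _ (hf' i)).2.1⟩) n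
      rw [Finset.sum_const, Nat.card_Icc, Nat.add_sub_cancel, nsmul_eq_mul] at h1
      have h2 : (0 : ℝ) ≤ ((2 * T : ℕ) : ℝ) ^ (2 * k) := by positivity
      linarith
  have hcard : SS.card ≤ 2 * T := MomAux.card_SS T SS
    (fun S hSS => ⟨fun p hp => (hP p ((hS S hSS).1 hp)).1, (hS S hSS).2.2⟩)
  have heven := even_bound P k z hz (fun p hp => (hP p hp).2) hk
  have hsub : Fintype.piFinset (fun _ : Fin (2 * k) => SS) ⊆
      Fintype.piFinset (fun _ : Fin (2 * k) => P.powerset) := by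
    intro f hf
    rw [Fintype.mem_piFinset] at hf ⊢
    intro i
    exact Finset.mem_powerset.2 (hS _ (hf i)).1
  calc ∑ n ∈ Icc 1 N, (∑ S ∈ SS, ∏ p ∈ S, gp p n) ^ (2 * k)
      = ∑ n ∈ Icc 1 N, ∑ f ∈ Fintype.piFinset (fun _ : Fin (2 * k) => SS),
          ∏ i, ∏ p ∈ f i, gp p n := Finset.sum_congr rfl fun n _ => hexp n
    _ = ∑ f ∈ Fintype.piFinset (fun _ : Fin (2 * k) => SS),
          ∑ n ∈ Icc 1 N, ∏ i, ∏ p ∈ f i, gp p n := Finset.sum_comm
    _ ≤ ∑ f ∈ Fintype.piFinset (fun _ : Fin (2 * k) => SS),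
          (N * (T : ℝ) ^ (-((k : ℝ) / 2)) * W f + ((2 * T : ℕ) : ℝ) ^ (2 * k)) :=
        Finset.sum_le_sum hterm
    _ = N * (T : ℝ) ^ (-((k : ℝ) / 2)) *
          ∑ f ∈ Fintype.piFinset (fun _ : Fin (2 * k) => SS), W f +
          (SS.card : ℝ) ^ (2 * k) * ((2 * T : ℕ) : ℝ) ^ (2 * k) := by
        rw [Finset.sum_add_distrib, ← Finset.mul_sum, Finset.sum_const, Fintype.card_piFinset,
          Finset.prod_const, Finset.card_univ, Fintype.card_fin, nsmul_eq_mul]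
        push_cast
        ring
    _ ≤ N * (T : ℝ) ^ (-((k : ℝ) / 2)) * Real.exp 16 +
          ((2 * T : ℕ) : ℝ) ^ (2 * k) * ((2 * T : ℕ) : ℝ) ^ (2 * k) := by
        refine add_le_add ?_ ?_
        · refine mul_le_mul_of_nonneg_left ?_ (mul_nonneg (Nat.cast_nonneg _) hTk)
          exact (Finset.sum_le_sum_of_subset_of_nonneg hsub fun f _ _ => hW0 f).trans heven
        · refine mul_le_mul_of_nonneg_right ?_ (by positivity)
          refine pow_le_pow_left₀ (Nat.cast_nonneg _) ?_ _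
          exact_mod_cast hcard
    _ = N * (T : ℝ) ^ (-((k : ℝ) / 2)) * Real.exp 16 + ((2 * T : ℕ) : ℝ) ^ (4 * k) := by
        rw [← pow_add]
        congr 2
        ring

end Pool.Agent.Lib.SPP
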