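import Pool.Agent.Lib.SPP.SqAux
import Pool.Agent.Lib.SPP.CoreP
import Pool.Agent.Lib.SPP.Ser
import Pool.Agent.Lib.GMV.Core
import Pool.Agent.Lib.HLT.Brun

/-!
# SPP.PerX: the theorem for given `X`, `Q` (1 h)

PROOF. `sumB c1 c` gives `a, B, c2`; `b, M, q` with `E = B Er a X Q ≤ B` (`Er ≤ 1`). `coreW` with this `B` gives `F`, and for `n ∉ F` the hypothesis of `coreP` with `S = SS (zA B1 X) 1 n`,
`D = C S (B Er + Gs q n + (log X)^(-A))`, `κ = √X Q^(-1/50)`. Conclusion: error `(4/log X) D (M₂ - M₁) + (4/log X) κ + 6 √(X/Q) (1 + S)`, and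
`S ≤ (DZ z)^(-1) ≤ log X`, so the last two terms are at most `√X Q^(-1/60)` for `X ≥ X0`. (`exp(√(log X)) ≤ Q` implies `Rg`.)
-/

set_option autoImplicit false

open Finset Filter

namespace Pool.Agent.Lib.SPP

open Pool.Agent.HLB Pool.Agent.HLT Pool.Agent.HLR Pool.Agent.Lib.GMV

namespace PerXAux

/-- `2 L ^ K ≤ exp (c √L)` for large `X`. -/
lemma pow_le_exp (K : ℕ) (c : ℝ) (hc : 0 < c) : ∀ᶠ X : ℕ in atTop,
    2 * Real.log X ^ K ≤ Real.exp (c * Real.sqrt (Real.log X)) := by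
  have h1 : Tendsto (fun X : ℕ => Real.sqrt (Real.log (X : ℝ))) atTop atTop :=
    Real.tendsto_sqrt_atTop.comp (Real.tendsto_log_atTop.comp tendsto_natCast_atTop_atTop)
  have h2 : ∀ᶠ y : ℝ in atTop, 2 * y ^ (2 * K) ≤ Real.exp (c * y) := by
    have h3 := (isLittleO_pow_exp_pos_mul_atTop (2 * K) hc).bound (by norm_num : (0 : ℝ) < 1 / 2)
    filter_upwards [h3, eventually_ge_atTop 0] with y hy h0
    rw [Real.norm_of_nonneg (by positivity), Real.norm_of_nonneg (by positivity)] at hy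
    linarith
  filter_upwards [h1.eventually h2, eventually_ge_atTop 1] with X hX hX1
  have h4 : 0 ≤ Real.log (X : ℝ) := Real.log_natCast_nonneg X
  rw [pow_mul, Real.sq_sqrt h4] at hX
  exact hX

/-- The two small terms. -/
lemma small {L S sX Qr : ℝ} (hL : 12 ≤ L) (hS : S ≤ L) (hsX : 0 ≤ sX) (hQ : 1 ≤ Qr)
    (hQL : 2 * L ^ 2 ≤ Qr ^ (29 / 60 : ℝ)) :
    4 / L * (sX * Qr ^ (-(1 / 50 : ℝ))) + 6 * (sX * Qr ^ (-(1 / 2 : ℝ))) * (1 + S) ≤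
      sX * Qr ^ (-(1 / 60 : ℝ)) := by
  have hQ0 : 0 < Qr := by linarith
  have hL0 : 0 < L := by linarith
  have h1 : 4 / L ≤ 1 / 2 := by
    rw [div_le_div_iff₀ hL0 (by norm_num)]
    linarith
  have h2 : Qr ^ (-(1 / 50 : ℝ)) ≤ Qr ^ (-(1 / 60 : ℝ)) :=
    Real.rpow_le_rpow_of_exponent_le hQ (by norm_num)
  have h3 : 0 < Qr ^ (-(1 / 60 : ℝ)) := Real.rpow_pos_of_pos hQ0 _
  have h4 : 0 < Qr ^ (-(1 / 50 : ℝ)) := Real.rpow_pos_of_pos hQ0 _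
  have h5 : 0 < Qr ^ (-(1 / 2 : ℝ)) := Real.rpow_pos_of_pos hQ0 _
  have h6 : Qr ^ (29 / 60 : ℝ) * Qr ^ (-(1 / 2 : ℝ)) = Qr ^ (-(1 / 60 : ℝ)) := by
    rw [← Real.rpow_add hQ0]
    norm_num
  have h7 : 12 * (1 + S) ≤ Qr ^ (29 / 60 : ℝ) := by
    refine le_trans ?_ hQL
    nlinarith
  have e1 : 4 / L * (sX * Qr ^ (-(1 / 50 : ℝ))) ≤ 1 / 2 * (sX * Qr ^ (-(1 / 60 : ℝ))) := by
    refine mul_le_mul h1 (mul_le_mul_of_nonneg_left h2 hsX) (by positivity) (by norm_num)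
  have e2 : 6 * (sX * Qr ^ (-(1 / 2 : ℝ))) * (1 + S) ≤ 1 / 2 * (sX * Qr ^ (-(1 / 60 : ℝ))) := by
    have h8 : 12 * (1 + S) * Qr ^ (-(1 / 2 : ℝ)) ≤ Qr ^ (-(1 / 60 : ℝ)) := by
      rw [← h6]
      exact mul_le_mul_of_nonneg_right h7 h5.le
    have h9 := mul_le_mul_of_nonneg_left h8 hsX
    nlinarith [h9]
  linarith

end PerXAux

theorem perX (A B1 : ℕ) (hB1 : 16 * (A + 4) ≤ B1) (c1 c : ℝ) (hZ : ZFree c1) (hc : 0 < c) (hcc : c < c1) :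
    ∃ a C c2 : ℝ, 0 < a ∧ 0 < C ∧ 0 < c2 ∧ ∃ X0 : ℕ, ∀ X Q : ℕ, X0 ≤ X → Rg c2 X Q →
    ∃ q : ℕ, ExMod c Q q ∧ ∃ F ⊆ Icc 1 X, (F.card : ℝ) ≤ X * (Q : ℝ) ^ (-(1 / 20 : ℝ)) ∧
      ∀ n ∈ Icc 1 X, n ∉ F → ∀ M₁ M₂ : ℕ, M₁ ≤ M₂ → M₂ ^ 2 + 2 ≤ n →
      |(((Ioc M₁ M₂).filter (fun m => (n - m ^ 2).Prime)).card : ℝ) -
        SS (zA B1 X) 1 n * ∑ m ∈ Ioc M₁ M₂, 1 / Real.log ((n - m ^ 2 : ℕ) : ℝ)| ≤
      C * SS (zA B1 X) 1 n * ((M₂ : ℝ) - M₁) / Real.log X * (Er a X Q + Gs q n + 1 / Real.log X ^ A) +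
        Real.sqrt X * (Q : ℝ) ^ (-(1 / 60 : ℝ)) := by
  obtain ⟨a, B, c2a, ha, hB, hc2a, X1, hsum⟩ := sumB c1 c hZ hc hcc
  obtain ⟨c2b, C', hc2b, hC', X2, hcore⟩ := coreW A B1 hB1 B
  have ev3 : ∀ᶠ X : ℕ in atTop, (12 : ℝ) ≤ Real.log X :=
    (Real.tendsto_log_atTop.comp tendsto_natCast_atTop_atTop).eventually_ge_atTop 12
  obtain ⟨X3, hX3⟩ := eventually_atTop.1
    (((PerXAux.pow_le_exp 2 (29 / 120) (by norm_num)).and (DZ_inv_le B1)).and ev3)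
  refine ⟨a, 4 * C' * (B + 1), min (min c2a c2b) (1 / 2), ha, by positivity,
    lt_min (lt_min hc2a hc2b) (by norm_num), max (max X1 X2) (max X3 100), ?_⟩
  intro X Q hX hRg
  have hXX1 : X1 ≤ X := ((le_max_left _ _).trans (le_max_left _ _)).trans hX
  have hXX2 : X2 ≤ X := ((le_max_right _ _).trans (le_max_left _ _)).trans hX
  have hXX3 : X3 ≤ X := ((le_max_left _ _).trans (le_max_right _ _)).trans hX
  have hX100 : 100 ≤ X := ((le_max_right _ _).trans (le_max_right _ _)).trans hX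
  obtain ⟨⟨f1, f2⟩, f3⟩ := hX3 X hXX3
  have hXr : (100 : ℝ) ≤ X := by exact_mod_cast hX100
  have hX0 : (0 : ℝ) < X := by linarith
  have hX1' : (1 : ℝ) ≤ X := by linarith
  have hQ1 := hRg.1
  have hQ2 := hRg.2
  have hRga : Rg c2a X Q := ⟨hQ1, hQ2.trans (Real.rpow_le_rpow_of_exponent_le hX1'
    ((min_le_left _ _).trans (min_le_left _ _)))⟩
  have hRgb : Rg c2b X Q := ⟨hQ1, hQ2.trans (Real.rpow_le_rpow_of_exponent_le hX1'
    ((min_le_left _ _).trans (min_le_right _ _)))⟩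
  have hL0 : 0 < Real.log X := by linarith
  have hsq : 2 ≤ Real.sqrt (Real.log X) := by
    rw [show (2 : ℝ) = Real.sqrt 4 by rw [show (4 : ℝ) = 2 ^ 2 by norm_num]; simp]
    exact Real.sqrt_le_sqrt (by linarith)
  have hQ2r : (2 : ℝ) < Q := by
    have h1 : (2.7182818283 : ℝ) < Real.exp 1 := Real.exp_one_gt_d9
    calc (2 : ℝ) < Real.exp 1 := by linarith
      _ ≤ Real.exp (Real.sqrt (Real.log X) / 2) := Real.exp_le_exp.mpr (by linarith)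
      _ ≤ Q := hQ1
  have hQ0 : (0 : ℝ) < Q := by linarith
  have hQ1r : (1 : ℝ) ≤ Q := by linarith
  have hQ2n : 2 ≤ Q := by
    have : (2 : ℝ) ≤ Q := hQ2r.le
    exact_mod_cast this
  have hlogQ0 : 0 < Real.log Q := Real.log_pos (by linarith)
  have hQsq : Q ^ 2 ≤ X := by
    have h1 : (Q : ℝ) ^ 2 ≤ X := by
      calc (Q : ℝ) ^ 2 ≤ ((X : ℝ) ^ (1 / 2 : ℝ)) ^ 2 := by
            refine pow_le_pow_left₀ hQ0.le ?_ _
            exact hQ2.trans (Real.rpow_le_rpow_of_exponent_le hX1' (min_le_right _ _))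
        _ = (X : ℝ) := by
            rw [← Real.rpow_natCast, ← Real.rpow_mul hX0.le]; norm_num
    exact_mod_cast h1
  have hQL : 2 * Real.log X ^ 2 ≤ (Q : ℝ) ^ (29 / 60 : ℝ) := by
    refine f1.trans ?_
    have h1 : Real.exp (29 / 120 * Real.sqrt (Real.log X)) =
        Real.exp (Real.sqrt (Real.log X) / 2) ^ (29 / 60 : ℝ) := by
      rw [← Real.exp_mul]
      congr 1
      ring
    rw [h1]
    exact Real.rpow_le_rpow (Real.exp_pos _).le hQ1 (by norm_num)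
  obtain ⟨b, M, q, hb1, hb2, hKept, hEx, hb3, hone⟩ := hsum X Q hXX1 hRga
  have hEr0 : 0 < Er a X Q := Real.exp_pos _
  have hEr1 : Er a X Q ≤ 1 := by
    unfold Er
    rw [Real.exp_le_one_iff, neg_nonpos]
    positivity
  have hEB : B * Er a X Q ≤ B := by
    calc B * Er a X Q ≤ B * 1 := mul_le_mul_of_nonneg_left hEr1 hB.le
      _ = B := mul_one B
  obtain ⟨F, hFs, hFc, hF⟩ := hcore X Q hXX2 hRgb b hb1 hb2 M q (B * Er a X Q) hKept hb3 hEB hone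
  refine ⟨q, hEx, F, hFs, hFc, ?_⟩
  intro n hn hnF M₁ M₂ hM12 hM2
  obtain ⟨hn1, hnX⟩ := mem_Icc.1 hn
  set S : ℝ := SS (zA B1 X) 1 n with hSdef
  obtain ⟨hSlo, hShi⟩ := ss_bounds (zA B1 X) 1 n
  rw [← hSdef] at hSlo hShi
  have hS0 : 0 ≤ S := (sq_nonneg _).trans hSlo
  have hSL : S ≤ Real.log X := hShi.trans f2
  set G : ℝ := Gs q n with hGdef
  have hG0 : 0 ≤ G := SqAux.Gs_nonneg q n
  set R : ℝ := 1 / Real.log X ^ A with hRdef
  have hR0 : 0 ≤ R := by positivity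
  set κ : ℝ := Real.sqrt X * (Q : ℝ) ^ (-(1 / 50 : ℝ)) with hκdef
  have hκ0 : 0 ≤ κ := by positivity
  have hD0 : 0 ≤ C' * S * (B * Er a X Q + G + R) := by positivity
  have hP := coreP X Q n S (C' * S * (B * Er a X Q + G + R)) κ hX100 hQ2n hQsq hn1 hnX hS0 hD0 hκ0
    (by
      intro N₁ N₂ hN12 hN2
      have h1 := hF n hn hnF N₁ N₂ hN12 hN2
      refine h1.trans (le_of_eq ?_)
      ring) M₁ M₂ hM12 hM2
  refine hP.trans ?_
  have hM0 : (0 : ℝ) ≤ (M₂ : ℝ) - M₁ := by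
    have : (M₁ : ℝ) ≤ M₂ := by exact_mod_cast hM12
    linarith
  have hsqrt : Real.sqrt ((X : ℝ) / Q) = Real.sqrt X * (Q : ℝ) ^ (-(1 / 2 : ℝ)) := by
    rw [Real.sqrt_div hX0.le, Real.rpow_neg hQ0.le, ← Real.sqrt_eq_rpow, div_eq_mul_inv]
  have hsmall := PerXAux.small f3 hSL (Real.sqrt_nonneg (X : ℝ)) hQ1r hQL
  rw [← hκdef, ← hsqrt] at hsmall
  have hmain : 4 / Real.log X * (C' * S * (B * Er a X Q + G + R) * ((M₂ : ℝ) - M₁)) ≤
      4 * C' * (B + 1) * S * ((M₂ : ℝ) - M₁) / Real.log X * (Er a X Q + G + R) := by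
    have h1 : B * Er a X Q + G + R ≤ (B + 1) * (Er a X Q + G + R) := by
      nlinarith [mul_nonneg hB.le hG0, mul_nonneg hB.le hR0, hEr0.le]
    have h2 : 0 ≤ 4 / Real.log X * (C' * S * ((M₂ : ℝ) - M₁)) := by positivity
    have h3 := mul_le_mul_of_nonneg_left h1 h2
    calc 4 / Real.log X * (C' * S * (B * Er a X Q + G + R) * ((M₂ : ℝ) - M₁)) =
        4 / Real.log X * (C' * S * ((M₂ : ℝ) - M₁)) * (B * Er a X Q + G + R) := by ring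
      _ ≤ 4 / Real.log X * (C' * S * ((M₂ : ℝ) - M₁)) * ((B + 1) * (Er a X Q + G + R)) := h3
      _ = 4 * C' * (B + 1) * S * ((M₂ : ℝ) - M₁) / Real.log X * (Er a X Q + G + R) := by ring
  calc 4 / Real.log X * (C' * S * (B * Er a X Q + G + R) * ((M₂ : ℝ) - M₁) + κ) +
        6 * Real.sqrt (X / Q) * (1 + S) =
      4 / Real.log X * (C' * S * (B * Er a X Q + G + R) * ((M₂ : ℝ) - M₁)) +
        (4 / Real.log X * κ + 6 * Real.sqrt (X / Q) * (1 + S)) := by ring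
    _ ≤ 4 * C' * (B + 1) * S * ((M₂ : ℝ) - M₁) / Real.log X * (Er a X Q + G + R) +
        Real.sqrt X * (Q : ℝ) ^ (-(1 / 60 : ℝ)) := add_le_add hmain hsmall

end Pool.Agent.Lib.SPP
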