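import Pool.Agent.Lib.SPP.Defs
import Pool.Agent.Lib.GMV.FCnt
import Pool.Agent.Lib.GMV.SumB

/-!
# SPP.WinZ: windows for a character without zeros near one (0.7 h)

PROOF. `SumBAux.key`: `‖Mc X Q x n‖ ≤ C0 Nx X Q x + C0/Q³`, `Nx X Q x = ∑_{ρ ∈ Z x.2 (Q^30)} mul ρ (X/Q)^(re ρ - 1)` (look at the definition `SumBAux.Nx`). As `re ρ ≤ 1 - y` and `X/Q ≥ 1`, `Nx ≤ (X/Q)^(-y) ∑ mul`, and
`count_Z`: `∑_{ρ ∈ Z x.2 (Q^30)} mul ≤ C Q^30 log(md x Q^30) ≤ C Q^30 · 31 log Q ≤ 31 C Q^31` (`md x ≤ Q`). So `Nx ≤ 31 C Q^31 Q^(-35) ≤ 31 C Q^(-3)`.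
-/

set_option autoImplicit false

open Finset Filter

namespace Pool.Agent.Lib.SPP

open Pool.Agent.HLB Pool.Agent.HLT Pool.Agent.HLR Pool.Agent.Lib.GMV

theorem winZ : ∃ (C : ℝ) (X0 : ℕ), 1 ≤ C ∧ ∀ X Q : ℕ, X0 ≤ X → 2 ≤ Q → Real.log X ≤ 4 * Real.log Q ^ 2 →
    Q ^ 1000 ≤ X → ∀ x ∈ Ch Q, x.2 ≠ 1 → ∀ y : ℝ, 0 < y →
    (∀ ρ ∈ Z x.2 ((Q : ℝ) ^ 30), ρ.re ≤ 1 - y) → (Q : ℝ) ^ 35 ≤ ((X : ℝ) / Q) ^ y →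
    ∀ n, ‖Mc X Q x n‖ ≤ C / (Q : ℝ) ^ 3 := by
  obtain ⟨C0, X1, hC0, hkey⟩ := SumBAux.key
  obtain ⟨C4, hC4, hcnt⟩ := count_Z
  refine ⟨C0 * (31 * C4) + C0, X1, by nlinarith, ?_⟩
  intro X Q hX1 hQ hL hX x hx hx1 y hy hZ hXy n
  have h0 := (hkey X Q hX1 hQ hL hX x hx n).1 hx1
  have hQ0 : (2 : ℝ) ≤ Q := by exact_mod_cast hQ
  have hQp : (0 : ℝ) < Q := by linarith
  have hXQ : (1 : ℝ) ≤ (X : ℝ) / Q := by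
    rw [le_div_iff₀ hQp, one_mul]
    have h1 : Q ≤ X := by
      calc Q = Q ^ 1 := (pow_one Q).symm
        _ ≤ Q ^ 1000 := Nat.pow_le_pow_right (by omega) (by norm_num)
        _ ≤ X := hX
    exact_mod_cast h1
  have hXQp : (0 : ℝ) < (X : ℝ) / Q := by linarith
  have hT : (2 : ℝ) ≤ (Q : ℝ) ^ 30 := by
    calc (2 : ℝ) ≤ (Q : ℝ) ^ 1 := by rw [pow_one]; exact hQ0
      _ ≤ (Q : ℝ) ^ 30 := pow_le_pow_right₀ (by linarith) (by norm_num)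
  have hc1 : ∑ ρ ∈ Z x.2 ((Q : ℝ) ^ 30), (mul x.2 ρ : ℝ) ≤ 31 * C4 * (Q : ℝ) ^ 31 := by
    have h2 := hcnt (x.1 + 1) x.2 ((Q : ℝ) ^ 30) (mem_Ch.1 hx).2 hT
    have h3 : ((x.1 + 1 : ℕ) : ℝ) ≤ Q := by
      have := (mem_Ch.1 hx).1
      unfold md at this
      exact_mod_cast this
    have h4 : Real.log (((x.1 + 1 : ℕ) : ℝ) * (Q : ℝ) ^ 30) ≤ 31 * Q := by
      have h5 : ((x.1 + 1 : ℕ) : ℝ) * (Q : ℝ) ^ 30 ≤ (Q : ℝ) ^ 31 := by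
        rw [pow_succ' (Q : ℝ) 30]
        exact mul_le_mul_of_nonneg_right h3 (by positivity)
      refine (Real.log_le_log (by positivity) h5).trans ?_
      rw [Real.log_pow]
      have := Real.log_le_sub_one_of_pos hQp
      push_cast
      linarith
    refine h2.trans ?_
    have h7 : 0 ≤ C4 * (Q : ℝ) ^ 30 := by positivity
    calc C4 * (Q : ℝ) ^ 30 * Real.log (((x.1 + 1 : ℕ) : ℝ) * (Q : ℝ) ^ 30)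
        ≤ C4 * (Q : ℝ) ^ 30 * (31 * Q) := mul_le_mul_of_nonneg_left h4 h7
      _ = 31 * C4 * (Q : ℝ) ^ 31 := by ring
  have hpw : ∀ ρ ∈ Z x.2 ((Q : ℝ) ^ 30), ((X : ℝ) / Q) ^ (ρ.re - 1) ≤ ((Q : ℝ) ^ 35)⁻¹ := by
    intro ρ hρ
    have h1 := hZ ρ hρ
    calc ((X : ℝ) / Q) ^ (ρ.re - 1) ≤ ((X : ℝ) / Q) ^ (-y) :=
          Real.rpow_le_rpow_of_exponent_le hXQ (by linarith)
      _ = (((X : ℝ) / Q) ^ y)⁻¹ := Real.rpow_neg hXQp.le y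
      _ ≤ ((Q : ℝ) ^ 35)⁻¹ := inv_anti₀ (by positivity) hXy
  have hN : SumBAux.Nx X Q x ≤ 31 * C4 / (Q : ℝ) ^ 3 := by
    unfold SumBAux.Nx
    calc ∑ ρ ∈ Z x.2 ((Q : ℝ) ^ 30), (mul x.2 ρ : ℝ) * ((X : ℝ) / Q) ^ (ρ.re - 1)
        ≤ ∑ ρ ∈ Z x.2 ((Q : ℝ) ^ 30), (mul x.2 ρ : ℝ) * ((Q : ℝ) ^ 35)⁻¹ :=
          Finset.sum_le_sum fun ρ hρ => mul_le_mul_of_nonneg_left (hpw ρ hρ) (Nat.cast_nonneg _)
      _ = (∑ ρ ∈ Z x.2 ((Q : ℝ) ^ 30), (mul x.2 ρ : ℝ)) * ((Q : ℝ) ^ 35)⁻¹ := by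
          rw [Finset.sum_mul]
      _ ≤ (31 * C4 * (Q : ℝ) ^ 31) * ((Q : ℝ) ^ 35)⁻¹ :=
          mul_le_mul_of_nonneg_right hc1 (by positivity)
      _ = 31 * C4 / (Q : ℝ) ^ 4 := by
          field_simp
      _ ≤ 31 * C4 / (Q : ℝ) ^ 3 := by
          apply div_le_div_of_nonneg_left (by positivity) (by positivity)
          exact pow_le_pow_right₀ (by linarith) (by norm_num)
  calc ‖Mc X Q x n‖ ≤ C0 * SumBAux.Nx X Q x + C0 / (Q : ℝ) ^ 3 := h0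
    _ ≤ C0 * (31 * C4 / (Q : ℝ) ^ 3) + C0 / (Q : ℝ) ^ 3 := by
        have := mul_le_mul_of_nonneg_left hN (by linarith : (0 : ℝ) ≤ C0)
        linarith
    _ = (C0 * (31 * C4) + C0) / (Q : ℝ) ^ 3 := by ring

end Pool.Agent.Lib.SPP
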