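import Pool.Agent.Lib.SPP.Win
import Pool.Agent.Lib.SPP.WinZ
import Pool.Agent.Lib.GMV.ZDen
import Pool.Agent.Lib.GMV.ZBnd

/-!
# SPP.Scale: prime sums beyond a power of the conductor, finitely many scales (1.5 h)

PROOF. `C, C3` from `zero_density`, `δ = 1/16`, `l = log D`. Scale `j`: `Q_j = D^(2^j)`, `y_j = min(1/20, δ/C3)/2^j`. `Bad_j` = the `x ∈ Ch D` with a zero `ρ ∈ Z x.2 (Q_j^30)`, `re ρ > 1 - y_j`.
`zero_density` at `Q_j` with `η = y_j` (`Ch D ⊆ Ch Q_j`, multiplicities `≥ 1`: `one_le_mul` in ZBnd): `|Bad_j| ≤ C exp(C3 y_j 2^j l) ≤ C D^δ`. `Bad = ∪_{j ≤ J} Bad_j`, at most `C (J+1) D^(1/16)`.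
Let `K0 = 1000 + ⌈1 + 35/min(1/20, δ/C3)⌉`. Block `(2^i, 2^(i+1)]` with `K0 4^j l ≤ i log 2 < K0 4^(j+1) l`: with `X = 2^i`, `Q = Q_j`: `log X ≤ 4 (log Q_j)² = 4 · 4^j l²` if `l ≥ K0 + 1`; `Q_j^1000 ≤ X`;
`(log X - log Q_j) y_j ≥ 35 log Q_j` because `log X ≥ K0 4^j l ≥ (1 + 35/y_j) 2^j l`. So `winZ` and then `win` (`t = X`, `t' = 2X`): the block sum is at most `C' (1 + log Q_j)/Q_j³ ≤ C'' D^(-2 · 2^j)`. There are at most
`K0 4^(j+1) l/log 2 + 1` blocks in scale `j`: `∑_{j} C''' 4^j l D^(-2·2^j) ≤ D^(-1)` for large `D` (`4^j ≤ D^(2^j - 1)·`, geometric series). `D^K ≤ 2^i` with `K = K0` puts the first block in scale `j ≥ 0`;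
`i' log 2 ≤ 4^J l` puts the last one in scale `≤ J`.
-/

set_option autoImplicit false

open Finset Filter

namespace Pool.Agent.Lib.SPP

open Pool.Agent.HLB Pool.Agent.HLT Pool.Agent.HLR Pool.Agent.Lib.GMV

namespace ScaleAux

lemma Ch_mono {D Q : ℕ} (h : D ≤ Q) : Ch D ⊆ Ch Q := by
  intro x hx
  unfold Ch at hx ⊢
  rw [Finset.mem_sigma] at hx ⊢
  exact ⟨Finset.mem_range.2 (lt_of_lt_of_le (Finset.mem_range.1 hx.1) h), hx.2⟩

open scoped Classical in
/-- the characters with a zero to the right of `1 - y` -/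
noncomputable def badS (D Q : ℕ) (y : ℝ) : Finset CI :=
  (Ch D).filter fun x => ∃ ρ ∈ Z x.2 ((Q : ℝ) ^ 30), 1 - y < ρ.re

lemma mem_badS {D Q : ℕ} {y : ℝ} {x : CI} :
    x ∈ badS D Q y ↔ x ∈ Ch D ∧ ∃ ρ ∈ Z x.2 ((Q : ℝ) ^ 30), 1 - y < ρ.re :=
  @Finset.mem_filter _ _ (fun _ => Classical.propDecidable _) _ _

open scoped Classical in
lemma bad_card {C C3 : ℝ} (hz : ∀ (Q : ℕ) (η : ℝ), 2 ≤ Q → 0 ≤ η → η ≤ 1 / 20 →
    ∑ q ∈ range Q, ∑ χ : DirichletCharacter ℂ (q + 1),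
      (if χ.IsPrimitive then
        ∑ ρ ∈ (Z χ ((Q : ℝ) ^ 30)).filter (fun ρ => 1 - η ≤ ρ.re), (mul χ ρ : ℝ) else 0) ≤
      C * Real.exp (C3 * η * Real.log Q)) (D Q : ℕ) (h : D ≤ Q) (hQ : 2 ≤ Q) (y : ℝ)
    (hy0 : 0 ≤ y) (hy : y ≤ 1 / 20) :
    ((badS D Q y).card : ℝ) ≤ C * Real.exp (C3 * y * Real.log Q) := by
  refine le_trans ?_ (hz Q y hQ hy0 hy)
  have h1 : ((badS D Q y).card : ℝ) ≤ ∑ x ∈ badS D Q y,
      ∑ ρ ∈ (Z x.2 ((Q : ℝ) ^ 30)).filter (fun ρ => 1 - y ≤ ρ.re), (mul x.2 ρ : ℝ) := by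
    rw [Finset.card_eq_sum_ones]
    push_cast
    refine Finset.sum_le_sum fun x hx => ?_
    obtain ⟨_, ρ, hρ, hre⟩ := mem_badS.1 hx
    have h2 : (1 : ℝ) ≤ (mul x.2 ρ : ℝ) := by
      exact_mod_cast one_le_mul x.2 (mem_Z.1 hρ).2.2
    refine h2.trans ?_
    exact Finset.single_le_sum (f := fun ρ => (mul x.2 ρ : ℝ)) (fun _ _ => by positivity)
      (Finset.mem_filter.2 ⟨hρ, hre.le⟩)
  have h2 : ∑ x ∈ badS D Q y,
      ∑ ρ ∈ (Z x.2 ((Q : ℝ) ^ 30)).filter (fun ρ => 1 - y ≤ ρ.re), (mul x.2 ρ : ℝ) ≤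
      ∑ x ∈ Ch Q,
      ∑ ρ ∈ (Z x.2 ((Q : ℝ) ^ 30)).filter (fun ρ => 1 - y ≤ ρ.re), (mul x.2 ρ : ℝ) :=
    Finset.sum_le_sum_of_subset_of_nonneg (fun x hx => Ch_mono h (mem_badS.1 hx).1)
      (fun _ _ _ => Finset.sum_nonneg fun _ _ => by positivity)
  refine h1.trans (h2.trans (le_of_eq ?_))
  unfold Ch
  rw [Finset.sum_sigma]
  refine Finset.sum_congr rfl fun q _ => ?_
  rw [Finset.sum_filter]

lemma split_sum (f : ℕ → ℂ) (i i' : ℕ) (h : i ≤ i') :
    ∑ p ∈ (Ioc (2 ^ i) (2 ^ i')).filter Nat.Prime, f p =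
      ∑ b ∈ Ico i i', ∑ p ∈ (Ioc (2 ^ b) (2 ^ (b + 1))).filter Nat.Prime, f p := by
  induction i', h using Nat.le_induction with
  | base => simp
  | succ n hn ih =>
    rw [Finset.sum_Ico_succ_top hn, ← ih]
    have h1 : (2 : ℕ) ^ i ≤ 2 ^ n := Nat.pow_le_pow_right (by norm_num) hn
    have h2 : (2 : ℕ) ^ n ≤ 2 ^ (n + 1) := Nat.pow_le_pow_right (by norm_num) (by omega)
    have h3 : Ioc (2 ^ i) (2 ^ (n + 1)) = Ioc (2 ^ i) (2 ^ n) ∪ Ioc (2 ^ n) (2 ^ (n + 1)) :=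
      (Finset.Ioc_union_Ioc_eq_Ioc h1 h2).symm
    rw [h3, Finset.filter_union, Finset.sum_union]
    refine Finset.disjoint_filter_filter ?_
    exact Finset.Ioc_disjoint_Ioc_of_le (le_refl _)

/-- the numerical inequality for one block -/
lemma num {C' K l u b : ℝ} (hC' : 0 < C') (hl1 : 1 ≤ l) (hlu : l ≤ u) (hb : 0 < b)
    (hl : C' * 15360 * K ^ 2 ≤ l) (hbu : b ≤ 8 * K * u ^ 2) :
    C' * Real.exp (-2 * u) ≤ Real.exp (-l) * (1 / 2 * (b ^ 2)⁻¹) := by
  have hu0 : 0 < u := by linarith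
  have h1 : u ^ 5 / 120 ≤ Real.exp u := by
    have := Real.pow_div_factorial_le_exp u hu0.le 5
    have h5 : ((Nat.factorial 5 : ℕ) : ℝ) = 120 := by norm_num [Nat.factorial]
    rwa [h5] at this
  have h2 : b ^ 2 ≤ 64 * K ^ 2 * u ^ 4 := by
    have : b ^ 2 ≤ (8 * K * u ^ 2) ^ 2 := pow_le_pow_left₀ hb.le hbu 2
    calc b ^ 2 ≤ (8 * K * u ^ 2) ^ 2 := this
      _ = 64 * K ^ 2 * u ^ 4 := by ring
  have h3 : 2 * C' * b ^ 2 ≤ Real.exp u := by
    refine le_trans ?_ h1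
    have h4 : 2 * C' * b ^ 2 ≤ 2 * C' * (64 * K ^ 2 * u ^ 4) :=
      mul_le_mul_of_nonneg_left h2 (by positivity)
    refine h4.trans ?_
    have h5 : C' * 15360 * K ^ 2 ≤ u := hl.trans hlu
    have h6 : C' * 15360 * K ^ 2 * u ^ 4 ≤ u * u ^ 4 :=
      mul_le_mul_of_nonneg_right h5 (by positivity)
    nlinarith
  have h4 : C' * Real.exp (-u) ≤ 1 / 2 * (b ^ 2)⁻¹ := by
    have h5 : Real.exp (-u) = (Real.exp u)⁻¹ := Real.exp_neg u
    rw [h5]
    have h6 : (Real.exp u)⁻¹ ≤ (2 * C' * b ^ 2)⁻¹ :=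
      inv_anti₀ (by positivity) h3
    calc C' * (Real.exp u)⁻¹ ≤ C' * (2 * C' * b ^ 2)⁻¹ := mul_le_mul_of_nonneg_left h6 hC'.le
      _ = 1 / 2 * (b ^ 2)⁻¹ := by
        field_simp
  have h5 : Real.exp (-2 * u) = Real.exp (-u) * Real.exp (-u) := by
    rw [← Real.exp_add]
    congr 1
    ring
  have h6 : Real.exp (-u) ≤ Real.exp (-l) := Real.exp_le_exp.2 (by linarith)
  calc C' * Real.exp (-2 * u) = Real.exp (-u) * (C' * Real.exp (-u)) := by rw [h5]; ring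
    _ ≤ Real.exp (-l) * (1 / 2 * (b ^ 2)⁻¹) :=
      mul_le_mul h6 h4 (by positivity) (Real.exp_pos _).le

end ScaleAux

open ScaleAux in
theorem scale : ∃ (K : ℕ) (C : ℝ), 0 < C ∧ ∀ᶠ D : ℕ in atTop, ∀ J : ℕ,
    ∃ Bad ⊆ Ch D, (Bad.card : ℝ) ≤ C * (J + 1) * (D : ℝ) ^ (1 / 16 : ℝ) ∧
    ∀ x ∈ Ch D, x ∉ Bad → x.2 ≠ 1 → ∀ i i' : ℕ, D ^ K ≤ 2 ^ i → i ≤ i' →
      i' * Real.log 2 ≤ (4 : ℝ) ^ J * Real.log D →
      ‖∑ p ∈ (Ioc (2 ^ i) (2 ^ i')).filter Nat.Prime, cv x p / (p : ℂ)‖ ≤ 1 / (D : ℝ) := by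
  classical
  obtain ⟨Cz, C3, hCz, hC3, hz⟩ := zero_density
  obtain ⟨C1, X1, hC1, hwZ⟩ := winZ
  obtain ⟨C2, X2, hC2, hw⟩ := win
  set c0 : ℝ := min (1 / 20) (1 / (16 * C3)) with hc0
  have hc0p : 0 < c0 := lt_min (by norm_num) (by positivity)
  have hc0a : c0 ≤ 1 / 20 := min_le_left _ _
  have hc0b : C3 * c0 ≤ 1 / 16 := by
    have := min_le_right (1 / 20 : ℝ) (1 / (16 * C3))
    calc C3 * c0 ≤ C3 * (1 / (16 * C3)) := mul_le_mul_of_nonneg_left this hC3.le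
      _ = 1 / 16 := by field_simp
  obtain ⟨K, hK⟩ := exists_nat_ge (1000 + (1 + 35 / c0))
  have h35 : 0 < 35 / c0 := by positivity
  have hK1 : (1000 : ℝ) ≤ K := by linarith
  have hK2 : 35 ≤ c0 * ((K : ℝ) - 1) := by
    have h1 : 35 / c0 ≤ (K : ℝ) - 1 := by linarith
    rw [div_le_iff₀ hc0p] at h1
    linarith
  have hKpos : (0 : ℝ) < K := by linarith
  set C' : ℝ := C2 * (C1 + 1) with hC'
  have hC'p : 0 < C' := by positivity
  refine ⟨K, Cz, hCz, ?_⟩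
  have htl : Tendsto (fun D : ℕ => Real.log (D : ℝ)) atTop atTop :=
    Real.tendsto_log_atTop.comp tendsto_natCast_atTop_atTop
  filter_upwards [eventually_ge_atTop 2, eventually_ge_atTop X1, eventually_ge_atTop X2,
    htl.eventually_ge_atTop (K : ℝ), htl.eventually_ge_atTop (C' * 15360 * (K : ℝ) ^ 2)]
    with D hD2 hDX1 hDX2 hDK hDC
  intro J
  have hDr : (2 : ℝ) ≤ D := by exact_mod_cast hD2
  have hD0 : (0 : ℝ) < D := by linarith
  set l : ℝ := Real.log D with hl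
  have hl1 : 1 ≤ l := by linarith
  have hlogQ : ∀ j : ℕ, Real.log ((D ^ (2 ^ j) : ℕ) : ℝ) = 2 ^ j * l := by
    intro j
    push_cast
    rw [Real.log_pow]
    push_cast
    rfl
  have hDQ : ∀ j : ℕ, D ≤ D ^ (2 ^ j) := fun j => by
    calc D = D ^ 1 := (pow_one D).symm
      _ ≤ D ^ (2 ^ j) := Nat.pow_le_pow_right (by omega) Nat.one_le_two_pow
  refine ⟨(range (J + 1)).biUnion fun j => badS D (D ^ (2 ^ j)) (c0 / 2 ^ j), ?_, ?_, ?_⟩
  · intro x hx
    obtain ⟨j, _, hj⟩ := Finset.mem_biUnion.1 hx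
    exact (mem_badS.1 hj).1
  · have h1 : (((range (J + 1)).biUnion fun j => badS D (D ^ (2 ^ j)) (c0 / 2 ^ j)).card : ℝ) ≤
        ∑ j ∈ range (J + 1), ((badS D (D ^ (2 ^ j)) (c0 / 2 ^ j)).card : ℝ) := by
      exact_mod_cast Finset.card_biUnion_le
    refine h1.trans ?_
    have h2 : ∀ j ∈ range (J + 1), ((badS D (D ^ (2 ^ j)) (c0 / 2 ^ j)).card : ℝ) ≤
        Cz * (D : ℝ) ^ (1 / 16 : ℝ) := by
      intro j _
      have h2j : (1 : ℝ) ≤ 2 ^ j := one_le_pow₀ (by norm_num)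
      have hyj : c0 / 2 ^ j ≤ c0 := div_le_self hc0p.le h2j
      refine (bad_card hz D (D ^ (2 ^ j)) (hDQ j) (hD2.trans (hDQ j)) (c0 / 2 ^ j)
        (by positivity) (hyj.trans hc0a)).trans ?_
      refine mul_le_mul_of_nonneg_left ?_ hCz.le
      rw [hlogQ, Real.rpow_def_of_pos hD0]
      apply Real.exp_le_exp.2
      have e1 : C3 * (c0 / 2 ^ j) * (2 ^ j * l) = (C3 * c0) * l := by
        field_simp
      rw [e1, ← hl]
      nlinarith
    calc ∑ j ∈ range (J + 1), ((badS D (D ^ (2 ^ j)) (c0 / 2 ^ j)).card : ℝ) ≤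
        ∑ j ∈ range (J + 1), Cz * (D : ℝ) ^ (1 / 16 : ℝ) := Finset.sum_le_sum h2
      _ = Cz * (J + 1) * (D : ℝ) ^ (1 / 16 : ℝ) := by
        rw [Finset.sum_const, Finset.card_range, nsmul_eq_mul]
        push_cast
        ring
  · intro x hx hxB hx1 i i' hi hii hi'
    have hlog2 : 1 / 2 ≤ Real.log 2 := by
      have := Real.log_two_gt_d9
      linarith
    have hKl : (K : ℝ) * l ≤ i * Real.log 2 := by
      have h1 : ((D ^ K : ℕ) : ℝ) ≤ ((2 ^ i : ℕ) : ℝ) := by exact_mod_cast hi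
      push_cast at h1
      have h2 := Real.log_le_log (by positivity) h1
      rw [Real.log_pow, Real.log_pow] at h2
      exact h2
    have hi1 : 1 ≤ i := by
      rcases Nat.eq_zero_or_pos i with h | h
      · exfalso
        rw [h] at hKl
        push_cast at hKl
        nlinarith
      · exact h
    have hblock : ∀ b ∈ Ico i i', ‖∑ p ∈ (Ioc (2 ^ b) (2 ^ (b + 1))).filter Nat.Prime,
        cv x p / (p : ℂ)‖ ≤ Real.exp (-l) * (1 / 2 * ((b : ℝ) ^ 2)⁻¹) := by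
      intro b hb
      obtain ⟨hb1, hb2⟩ := Finset.mem_Ico.1 hb
      have hbi : (i : ℝ) ≤ b := by exact_mod_cast hb1
      have hbi' : (b : ℝ) ≤ i' := by exact_mod_cast hb2.le
      have hbK : (K : ℝ) * l ≤ b * Real.log 2 :=
        hKl.trans (mul_le_mul_of_nonneg_right hbi (by linarith))
      have hbJ : b * Real.log 2 ≤ (4 : ℝ) ^ J * l :=
        (mul_le_mul_of_nonneg_right hbi' (by linarith)).trans hi'
      have hKl0 : 0 < (K : ℝ) * l := by positivity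
      obtain ⟨j, hj1, hj2⟩ := exists_nat_pow_near (x := b * Real.log 2 / (K * l)) (y := (4 : ℝ))
        ((one_le_div hKl0).2 hbK) (by norm_num)
      rw [le_div_iff₀ hKl0] at hj1
      rw [div_lt_iff₀ hKl0] at hj2
      have hjJ : j ≤ J := by
        by_contra hc
        push Not at hc
        have h1 : (4 : ℝ) ^ J < 4 ^ j := pow_lt_pow_right₀ (by norm_num) hc
        have h2 : (4 : ℝ) ^ j * (K * l) ≤ 4 ^ J * l := hj1.trans hbJ
        have h3 : (4 : ℝ) ^ j * l ≤ 4 ^ j * (K * l) := by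
          have : l ≤ K * l := by nlinarith
          exact mul_le_mul_of_nonneg_left this (by positivity)
        have h4 : (4 : ℝ) ^ J * l < 4 ^ j * l := mul_lt_mul_of_pos_right h1 (by linarith)
        linarith
      set Q : ℕ := D ^ (2 ^ j) with hQ
      have hQD : D ≤ Q := hDQ j
      have hQ2 : 2 ≤ Q := hD2.trans hQD
      set u : ℝ := 2 ^ j * l with hu
      have hlQ : Real.log (Q : ℝ) = u := hlogQ j
      have hQ0 : (0 : ℝ) < Q := by
        have : 0 < Q := by omega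
        exact_mod_cast this
      have h2j : (1 : ℝ) ≤ 2 ^ j := one_le_pow₀ (by norm_num)
      have h4j : (4 : ℝ) ^ j = 2 ^ j * 2 ^ j := by
        rw [← mul_pow]
        norm_num
      have hlu : l ≤ u := by nlinarith
      have hu0 : 0 < u := by linarith
      have hQe : (Q : ℝ) = Real.exp u := by rw [← hlQ, Real.exp_log hQ0]
      have hXr : (((2 ^ b : ℕ) : ℕ) : ℝ) = Real.exp (b * Real.log 2) := by
        push_cast
        rw [mul_comm, Real.exp_mul, Real.exp_log (by norm_num)]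
        exact (Real.rpow_natCast 2 b).symm
      have hlX : Real.log ((2 ^ b : ℕ) : ℝ) = b * Real.log 2 := by
        rw [hXr, Real.log_exp]
      have hXD : D ≤ 2 ^ b := by
        have h1 : (D : ℝ) ≤ ((2 ^ b : ℕ) : ℝ) := by
          rw [hXr, ← Real.log_le_iff_le_exp hD0]
          nlinarith
        exact_mod_cast h1
      have hX0 : (0 : ℝ) < ((2 ^ b : ℕ) : ℝ) := by rw [hXr]; exact Real.exp_pos _
      have hKu : (K : ℝ) * u ≤ b * Real.log 2 := by
        refine le_trans ?_ hj1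
        rw [h4j, hu]
        have : (K : ℝ) * (2 ^ j * l) * 1 ≤ (K : ℝ) * (2 ^ j * l) * 2 ^ j :=
          mul_le_mul_of_nonneg_left h2j (by positivity)
        nlinarith
      have hA : Real.log ((2 ^ b : ℕ) : ℝ) ≤ 4 * Real.log (Q : ℝ) ^ 2 := by
        rw [hlX, hlQ, hu]
        have h1 : (4 : ℝ) ^ (j + 1) * (K * l) ≤ 4 * (2 ^ j * l) ^ 2 := by
          have e1 : (4 : ℝ) ^ (j + 1) * (K * l) = 4 * (2 ^ j * 2 ^ j) * l * K := by
            rw [pow_succ, h4j]; ring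
          have e2 : 4 * (2 ^ j * l) ^ 2 = 4 * (2 ^ j * 2 ^ j) * l * l := by ring
          rw [e1, e2]
          exact mul_le_mul_of_nonneg_left hDK (by positivity)
        linarith
      have hB : Q ^ 1000 ≤ 2 ^ b := by
        have h1 : ((Q ^ 1000 : ℕ) : ℝ) ≤ ((2 ^ b : ℕ) : ℝ) := by
          rw [hXr]
          push_cast
          rw [hQe, ← Real.exp_nat_mul]
          apply Real.exp_le_exp.2
          push_cast
          nlinarith
        exact_mod_cast h1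
      have hzero : ∀ ρ ∈ Z x.2 ((Q : ℝ) ^ 30), ρ.re ≤ 1 - c0 / 2 ^ j := by
        intro ρ hρ
        by_contra hc
        push Not at hc
        apply hxB
        refine Finset.mem_biUnion.2 ⟨j, Finset.mem_range.2 (by omega), ?_⟩
        exact mem_badS.2 ⟨hx, ρ, hρ, hc⟩
      have hP : (Q : ℝ) ^ 35 ≤ (((2 ^ b : ℕ) : ℝ) / Q) ^ (c0 / 2 ^ j) := by
        rw [hXr, hQe, ← Real.exp_sub, ← Real.exp_nat_mul, ← Real.exp_mul]
        apply Real.exp_le_exp.2
        push_cast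
        have h1 : (4 : ℝ) ^ j * (K * l) - u ≤ b * Real.log 2 - u := by linarith
        have h2 : ((4 : ℝ) ^ j * (K * l) - u) * (c0 / 2 ^ j) ≤
            (b * Real.log 2 - u) * (c0 / 2 ^ j) :=
          mul_le_mul_of_nonneg_right h1 (by positivity)
        refine le_trans ?_ h2
        have e1 : ((4 : ℝ) ^ j * (K * l) - u) * (c0 / 2 ^ j) = (2 ^ j * K - 1) * (c0 * l) := by
          rw [h4j, hu]
          field_simp
        rw [e1]
        have h3 : (2 : ℝ) ^ j * ((K : ℝ) - 1) ≤ 2 ^ j * K - 1 := by linarith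
        have h4 : (2 : ℝ) ^ j * ((K : ℝ) - 1) * (c0 * l) ≤ (2 ^ j * K - 1) * (c0 * l) :=
          mul_le_mul_of_nonneg_right h3 (by positivity)
        refine le_trans ?_ h4
        have e2 : (2 : ℝ) ^ j * ((K : ℝ) - 1) * (c0 * l) = (c0 * ((K : ℝ) - 1)) * u := by
          rw [hu]; ring
        rw [e2]
        exact mul_le_mul_of_nonneg_right hK2 hu0.le
      have hM := hwZ (2 ^ b) Q (hDX1.trans hXD) hQ2 hA hB x (Ch_mono hQD hx) hx1 (c0 / 2 ^ j)
        (by positivity) hzero hP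
      have hW := hw (2 ^ b) Q (hDX2.trans hXD) hQ2 hB x _ hM (2 ^ b) (2 ^ (b + 1))
        (by rw [mul_comm]; exact Nat.mul_le_mul_left _ hQ2)
        (Nat.pow_le_pow_right (by norm_num) (by omega)) (by rw [pow_succ]; omega)
      refine hW.trans ?_
      have h5 : C2 * (C1 / (Q : ℝ) ^ 3 * (1 + Real.log Q) + 1 / (Q : ℝ) ^ 3) ≤
          C' * Real.exp (-2 * u) := by
        have e3 : (Q : ℝ) ^ 3 = Real.exp (3 * u) := by
          rw [hQe, ← Real.exp_nat_mul]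
          push_cast
          rfl
        rw [hlQ, e3]
        have h6 : 1 + u ≤ Real.exp u := by
          have := Real.add_one_le_exp u
          linarith
        have h7 : C1 / Real.exp (3 * u) * (1 + u) + 1 / Real.exp (3 * u) ≤
            (C1 + 1) * (Real.exp u / Real.exp (3 * u)) := by
          have h8 : 0 < Real.exp (3 * u) := Real.exp_pos _
          have e4 : C1 / Real.exp (3 * u) * (1 + u) + 1 / Real.exp (3 * u) =
              (C1 * (1 + u) + 1) / Real.exp (3 * u) := by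
            field_simp
          rw [e4, ← mul_div_assoc]
          apply div_le_div_of_nonneg_right _ h8.le
          nlinarith [Real.exp_pos u]
        have e5 : Real.exp u / Real.exp (3 * u) = Real.exp (-2 * u) := by
          rw [← Real.exp_sub]
          congr 1
          ring
        rw [e5] at h7
        calc C2 * (C1 / Real.exp (3 * u) * (1 + u) + 1 / Real.exp (3 * u)) ≤
            C2 * ((C1 + 1) * Real.exp (-2 * u)) := mul_le_mul_of_nonneg_left h7 (by linarith)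
          _ = C' * Real.exp (-2 * u) := by rw [hC']; ring
      refine h5.trans ?_
      have hb0 : (0 : ℝ) < b := by
        have : 0 < b := by omega
        exact_mod_cast this
      refine num hC'p hl1 hlu hb0 hDC ?_
      -- b ≤ 8 K u^2
      have h9 : (b : ℝ) * (1 / 2) ≤ b * Real.log 2 := mul_le_mul_of_nonneg_left hlog2 hb0.le
      have h10 : (4 : ℝ) ^ (j + 1) * (K * l) ≤ 4 * K * u ^ 2 := by
        have e1 : (4 : ℝ) ^ (j + 1) * (K * l) = 4 * K * (2 ^ j * 2 ^ j * l) * 1 := by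
          rw [pow_succ, h4j]; ring
        have e2 : 4 * K * u ^ 2 = 4 * K * (2 ^ j * 2 ^ j * l) * l := by rw [hu]; ring
        rw [e1, e2]
        exact mul_le_mul_of_nonneg_left hl1 (by positivity)
      linarith
    rw [split_sum (fun p => cv x p / (p : ℂ)) i i' hii]
    calc ‖∑ b ∈ Ico i i', ∑ p ∈ (Ioc (2 ^ b) (2 ^ (b + 1))).filter Nat.Prime, cv x p / (p : ℂ)‖ ≤
        ∑ b ∈ Ico i i', Real.exp (-l) * (1 / 2 * ((b : ℝ) ^ 2)⁻¹) :=
          norm_sum_le_of_le _ hblock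
      _ = Real.exp (-l) * (1 / 2) * ∑ b ∈ Ico i i', ((b : ℝ) ^ 2)⁻¹ := by
          rw [Finset.mul_sum]
          refine Finset.sum_congr rfl fun b _ => ?_
          ring
      _ ≤ Real.exp (-l) * (1 / 2) * ∑ b ∈ Ioo 0 i', ((b : ℝ) ^ 2)⁻¹ := by
          refine mul_le_mul_of_nonneg_left ?_ (by positivity)
          refine Finset.sum_le_sum_of_subset_of_nonneg ?_ (fun _ _ _ => by positivity)
          intro b hb
          rw [Finset.mem_Ico] at hb
          rw [Finset.mem_Ioo]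
          omega
      _ ≤ Real.exp (-l) * (1 / 2) * (2 / ((0 : ℕ) + 1)) := by
          refine mul_le_mul_of_nonneg_left ?_ (by positivity)
          exact sum_Ioo_inv_sq_le 0 i'
      _ = 1 / (D : ℝ) := by
          rw [hl, Real.exp_neg, Real.exp_log hD0]
          push_cast
          ring

end Pool.Agent.Lib.SPP
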