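import Pool.Agent.Lib.SPP.Lrg
import Pool.Agent.Lib.SPP.Scale
import Pool.Agent.Lib.SPP.InfR

/-!
# SPP.TailX: the whole tail of the prime sum of almost every real character (1 h)

PROOF. `K` from `scale` (take `max K 1`), `M = K + 1` in `lrg M (A + 1)`. `J` least with `4^J log D ≥ 2 D²` (`J ≤ 3 log D` for large `D`). `Bad` = union of the sets of `lrg` and `scale`: at most `D^(1/8) + C (J+1) D^(1/16) ≤ D^(1/4)`.
Let `x` be outside, real, nontrivial. Let `i₁` be least with `D^K ≤ 2^i₁` (so `2^i₁ ≤ 2 D^K ≤ D^M`, and `z ≤ D ≤ 2^i₁` as `K ≥ 1`; if `K = 0` replace `K` by `1`: allowed, a larger `K` is also fine), `i₂ ≥ i₁` least with `i₂ log 2 ≥ D²`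
(then `i₂ log 2 ≤ 2 D² ≤ 4^J log D`, after increasing `J` by one if needed). The sum over `(z, N]` for `N ≥ 2^i₂` is the sum over `(z, 2^i₁]`, `(2^i₁, 2^i₂]`, `(2^i₂, N]`: at most `(log D)^(-A-1) + 1/D + 9/D^4 ≤ (log D)^(-A)`. By `infR` the sums over `(z, N]` form a Cauchy sequence
(`9/(log N)² → 0`), so they converge; the limit has the same bound.
-/

set_option autoImplicit false

open Finset Filter

namespace Pool.Agent.Lib.SPP

open Pool.Agent.HLB Pool.Agent.HLT Pool.Agent.HLR Pool.Agent.Lib.GMV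

namespace TailXAux

/-- the partial sum -/
noncomputable def PS (x : CI) (a b : ℕ) : ℂ := ∑ p ∈ (Ioc a b).filter Nat.Prime, cv x p / (p : ℂ)

theorem PS_add (x : CI) (a b c : ℕ) (hab : a ≤ b) (hbc : b ≤ c) :
    PS x a c = PS x a b + PS x b c := by
  unfold PS
  rw [← Finset.sum_union]
  · rw [← Finset.filter_union, Finset.Ioc_union_Ioc_eq_Ioc hab hbc]
  · refine Finset.disjoint_filter_filter ?_
    rw [Finset.disjoint_left]
    intro p hp hp'
    rw [Finset.mem_Ioc] at hp hp'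
    omega

theorem logpow_small (A : ℕ) : ∀ᶠ D : ℕ in atTop,
    1 / (D : ℝ) ≤ (1 / 3) * (1 / Real.log D ^ A) := by
  have h1 : (fun x : ℝ => Real.log x ^ A) =o[atTop] id := Real.isLittleO_pow_log_id_atTop
  have h2 := (h1.def (by norm_num : (0 : ℝ) < 1 / 3))
  have h3 := tendsto_natCast_atTop_atTop.eventually h2
  filter_upwards [h3, eventually_ge_atTop 3] with D hD hD3
  have hDp : (0 : ℝ) < D := by exact_mod_cast (by omega : 0 < D)
  have hlog : 0 < Real.log D := Real.log_pos (by exact_mod_cast (by omega : 1 < D))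
  have hlA : 0 < Real.log D ^ A := pow_pos hlog A
  rw [id, Real.norm_of_nonneg hlA.le, Real.norm_of_nonneg hDp.le] at hD
  rw [mul_one_div, div_le_div_iff₀ hDp hlA]
  linarith

theorem log_small (C : ℝ) : ∀ᶠ D : ℕ in atTop,
    C * (2 * Real.log D + 3) ≤ (D : ℝ) ^ (1 / 16 : ℝ) := by
  have h1 : Real.log =o[atTop] fun x : ℝ => x ^ (1 / 16 : ℝ) :=
    isLittleO_log_rpow_atTop (by norm_num)
  have h2 : (fun x : ℝ => C * (2 * Real.log x + 3)) =o[atTop] fun x : ℝ => x ^ (1 / 16 : ℝ) := by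
    refine Asymptotics.IsLittleO.const_mul_left ?_ C
    refine Asymptotics.IsLittleO.add (Asymptotics.IsLittleO.const_mul_left h1 2) ?_
    rw [Asymptotics.isLittleO_const_left]
    right
    exact tendsto_norm_atTop_atTop.comp (tendsto_rpow_atTop (by norm_num))
  have h3 := tendsto_natCast_atTop_atTop.eventually (h2.def one_pos)
  filter_upwards [h3] with D hD
  rw [one_mul] at hD
  refine (le_abs_self _).trans (hD.trans ?_)
  rw [Real.norm_of_nonneg (by positivity)]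

theorem two_le_rpow : ∀ᶠ D : ℕ in atTop, (2 : ℝ) ≤ (D : ℝ) ^ (1 / 8 : ℝ) := by
  have := (tendsto_rpow_atTop (by norm_num : (0 : ℝ) < 1 / 8)).comp
    (tendsto_natCast_atTop_atTop (R := ℝ))
  exact this.eventually_ge_atTop 2

theorem log_le (D : ℕ) (hD : 1 ≤ D) : (Nat.log 2 D : ℝ) ≤ 2 * Real.log D := by
  have h1 : 2 ^ Nat.log 2 D ≤ D := Nat.pow_log_le_self 2 (by omega)
  have h2 : ((2 : ℝ) ^ Nat.log 2 D) ≤ D := by exact_mod_cast h1
  have h3 := Real.log_le_log (by positivity) h2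
  rw [Real.log_pow] at h3
  have h4 : (1 : ℝ) / 2 ≤ Real.log 2 := by
    have := Real.log_two_gt_d9
    linarith
  nlinarith [Nat.cast_nonneg (α := ℝ) (Nat.log 2 D)]

end TailXAux

open TailXAux

theorem tailX (A : ℕ) : ∃ B0 : ℕ, ∀ B : ℕ, B0 ≤ B → ∀ᶠ D : ℕ in atTop, ∀ z : ℕ,
    Real.log D ^ B ≤ z → z ≤ D → ∃ Bad ⊆ Ch D, (Bad.card : ℝ) ≤ (D : ℝ) ^ (1 / 4 : ℝ) ∧
    ∀ x ∈ Ch D, x ∉ Bad → x.2 ≠ 1 → x.2 ^ 2 = 1 → ∃ l : ℂ, ‖l‖ ≤ 1 / Real.log D ^ A ∧
      Tendsto (fun N : ℕ => ∑ p ∈ (Ioc z N).filter Nat.Prime, cv x p / (p : ℂ)) atTop (nhds l) := by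
  classical
  obtain ⟨K0, C, hC, hsc⟩ := scale
  obtain ⟨B0, hB0⟩ := lrg (max K0 1 + 1) (A + 1)
  refine ⟨B0, fun B hB => ?_⟩
  set K := max K0 1 with hK
  have hK1 : 1 ≤ K := le_max_right _ _
  have hK0 : K0 ≤ K := le_max_left _ _
  filter_upwards [hB0 B hB, hsc, infR, logpow_small A, log_small C, two_le_rpow,
    eventually_ge_atTop (K + 21)] with D hL hS hI hlp hls h2r hDK
  intro z hz hzD
  have hD1 : 1 ≤ D := by omega
  have hDp : (0 : ℝ) < D := by exact_mod_cast (by omega : 0 < D)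
  have hD21 : (21 : ℝ) ≤ D := by exact_mod_cast (by omega : 21 ≤ D)
  have hlog3 : 3 ≤ Real.log D := by
    rw [Real.le_log_iff_exp_le hDp]
    have : Real.exp 3 = Real.exp 1 ^ 3 := by
      rw [← Real.exp_nat_mul]
      norm_num
    rw [this]
    have h := Real.exp_one_lt_d9
    have h' : Real.exp 1 ^ 3 ≤ (2.7182818286 : ℝ) ^ 3 :=
      pow_le_pow_left₀ (Real.exp_pos 1).le h.le 3
    refine h'.trans ?_
    norm_num
    linarith
  set J := Nat.log 2 D + 2 with hJ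
  obtain ⟨Bad1, hB1, hc1, hL1⟩ := hL z hz hzD
  obtain ⟨Bad2, hB2, hc2, hS1⟩ := hS J
  refine ⟨Bad1 ∪ Bad2, Finset.union_subset hB1 hB2, ?_, ?_⟩
  · have h1 : ((Bad1 ∪ Bad2).card : ℝ) ≤ Bad1.card + Bad2.card := by
      exact_mod_cast Finset.card_union_le Bad1 Bad2
    have hlD := log_le D hD1
    have hJr : (J : ℝ) + 1 ≤ 2 * Real.log D + 3 := by
      rw [hJ]
      push_cast
      linarith
    have h16 : (D : ℝ) ^ (1 / 16 : ℝ) * (D : ℝ) ^ (1 / 16 : ℝ) = (D : ℝ) ^ (1 / 8 : ℝ) := by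
      rw [← Real.rpow_add hDp]
      norm_num
    have h8 : (D : ℝ) ^ (1 / 8 : ℝ) * (D : ℝ) ^ (1 / 8 : ℝ) = (D : ℝ) ^ (1 / 4 : ℝ) := by
      rw [← Real.rpow_add hDp]
      norm_num
    have h2 : C * ((J : ℝ) + 1) * (D : ℝ) ^ (1 / 16 : ℝ) ≤ (D : ℝ) ^ (1 / 8 : ℝ) := by
      rw [← h16]
      refine mul_le_mul_of_nonneg_right ?_ (by positivity)
      exact (mul_le_mul_of_nonneg_left hJr hC.le).trans hls
    have h3 : 2 * (D : ℝ) ^ (1 / 8 : ℝ) ≤ (D : ℝ) ^ (1 / 4 : ℝ) := by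
      rw [← h8]
      exact mul_le_mul_of_nonneg_right h2r (by positivity)
    linarith
  · intro x hx hxB hx1 hx2
    have hxB1 : x ∉ Bad1 := fun h => hxB (Finset.mem_union_left _ h)
    have hxB2 : x ∉ Bad2 := fun h => hxB (Finset.mem_union_right _ h)
    set i1 := Nat.clog 2 (D ^ K) with hi1
    set i2 := 2 * D ^ 2 with hi2
    have hDK1 : 1 < D ^ K := Nat.one_lt_pow (by omega) (by omega)
    have h1 : D ^ K ≤ 2 ^ i1 := Nat.le_pow_clog (by norm_num) _
    have h1' : 2 ^ i1 ≤ D ^ (K + 1) := by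
      have hp := Nat.pow_pred_clog_lt_self (by norm_num : 1 < 2) hDK1
      have hpos : 0 < i1 := Nat.clog_pos (by norm_num) (by omega)
      have he : 2 ^ i1 = 2 * 2 ^ (i1.pred) := by
        conv_lhs => rw [← Nat.succ_pred_eq_of_pos hpos]
        rw [pow_succ, mul_comm]
      rw [he, pow_succ, mul_comm (D ^ K) D]
      exact Nat.mul_le_mul (by omega) hp.le
    have hzi : z ≤ 2 ^ i1 := by
      refine hzD.trans (le_trans ?_ h1)
      calc D = D ^ 1 := (pow_one D).symm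
        _ ≤ D ^ K := Nat.pow_le_pow_right hD1 hK1
    have h12 : i1 ≤ i2 := by
      refine Nat.clog_le_of_le_pow ?_
      calc D ^ K ≤ (2 ^ D) ^ K := Nat.pow_le_pow_left (Nat.lt_two_pow_self).le K
        _ = 2 ^ (D * K) := by rw [pow_mul]
        _ ≤ 2 ^ i2 := by
          refine Nat.pow_le_pow_right (by norm_num) ?_
          rw [hi2]
          have : K ≤ D := by omega
          nlinarith
    have hlog2 : (1 : ℝ) / 2 ≤ Real.log 2 := by
      have := Real.log_two_gt_d9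
      linarith
    have hlog2' : Real.log 2 ≤ 1 := by
      have := Real.log_two_lt_d9
      linarith
    have hJ4 : (i2 : ℝ) * Real.log 2 ≤ (4 : ℝ) ^ J * Real.log D := by
      have ha : (D : ℝ) ≤ 2 ^ (Nat.log 2 D + 1) := by
        exact_mod_cast (Nat.lt_pow_succ_log_self (by norm_num : 1 < 2) D).le
      have hb : (4 : ℝ) ^ J = 4 * (2 ^ (Nat.log 2 D + 1)) ^ 2 := by
        rw [hJ, ← pow_mul, show (4 : ℝ) = 2 ^ 2 by norm_num, ← pow_mul, ← pow_add]
        congr 1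
        ring
      have hc : (D : ℝ) ^ 2 ≤ (2 ^ (Nat.log 2 D + 1)) ^ 2 := pow_le_pow_left₀ hDp.le ha 2
      rw [hb, hi2]
      push_cast
      have hd : 2 * (D : ℝ) ^ 2 * Real.log 2 ≤ 2 * (D : ℝ) ^ 2 * 1 :=
        mul_le_mul_of_nonneg_left hlog2' (by positivity)
      have he : 4 * (2 ^ (Nat.log 2 D + 1) : ℝ) ^ 2 * 1 ≤
          4 * (2 ^ (Nat.log 2 D + 1)) ^ 2 * Real.log D :=
        mul_le_mul_of_nonneg_left (by linarith) (by positivity)
      have hf : (0 : ℝ) ≤ (D : ℝ) ^ 2 := by positivity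
      linarith
    have hlz : (D : ℝ) ^ 2 ≤ Real.log ((2 ^ i2 : ℕ) : ℝ) := by
      rw [Nat.cast_pow, Real.log_pow, hi2]
      push_cast
      have : 2 * (D : ℝ) ^ 2 * (1 / 2) ≤ 2 * (D : ℝ) ^ 2 * Real.log 2 :=
        mul_le_mul_of_nonneg_left hlog2 (by positivity)
      linarith
    have hA1 : ‖PS x z (2 ^ i1)‖ ≤ 1 / Real.log D ^ (A + 1) :=
      hL1 x hx hxB1 i1 hzi h1'
    have hA2 : ‖PS x (2 ^ i1) (2 ^ i2)‖ ≤ 1 / (D : ℝ) :=
      hS1 x hx hxB2 hx1 i1 i2 ((Nat.pow_le_pow_right hD1 hK0).trans h1) h12 hJ4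
    have hA3 : ∀ N N' : ℕ, 2 ^ i2 ≤ N → N ≤ N' → ‖PS x N N'‖ ≤ 9 / Real.log N ^ 2 := by
      intro N N' hN hNN
      refine hI x hx hx1 hx2 N N' (hlz.trans ?_) hNN
      refine Real.log_le_log (by positivity) ?_
      exact_mod_cast hN
    have hpow : (2 : ℕ) ^ i1 ≤ 2 ^ i2 := Nat.pow_le_pow_right (by norm_num) h12
    have hbound : ∀ N : ℕ, 2 ^ i2 ≤ N → ‖PS x z N‖ ≤ 1 / Real.log D ^ A := by
      intro N hN
      rw [PS_add x z (2 ^ i1) N hzi (hpow.trans hN), PS_add x (2 ^ i1) (2 ^ i2) N hpow hN]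
      have hA3' := hA3 (2 ^ i2) N le_rfl hN
      have hlA : 0 < Real.log D ^ A := pow_pos (by linarith) A
      have e1 : 1 / Real.log D ^ (A + 1) ≤ (1 / 3) * (1 / Real.log D ^ A) := by
        rw [pow_succ, one_div_mul_one_div, div_le_div_iff₀ (by positivity) (by positivity)]
        nlinarith
      have e3 : 9 / Real.log ((2 ^ i2 : ℕ) : ℝ) ^ 2 ≤ 1 / (D : ℝ) := by
        have hh : ((D : ℝ) ^ 2) ^ 2 ≤ Real.log ((2 ^ i2 : ℕ) : ℝ) ^ 2 :=
          pow_le_pow_left₀ (by positivity) hlz 2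
        have hh2 : (0 : ℝ) < ((D : ℝ) ^ 2) ^ 2 := by positivity
        rw [div_le_div_iff₀ (hh2.trans_le hh) hDp]
        have h9 : 9 * (D : ℝ) ≤ ((D : ℝ) ^ 2) ^ 2 := by
          have : 9 ≤ (D : ℝ) ^ 3 := by nlinarith [mul_pos hDp hDp]
          calc 9 * (D : ℝ) ≤ (D : ℝ) ^ 3 * D := mul_le_mul_of_nonneg_right this hDp.le
            _ = ((D : ℝ) ^ 2) ^ 2 := by ring
        linarith
      calc ‖PS x z (2 ^ i1) + (PS x (2 ^ i1) (2 ^ i2) + PS x (2 ^ i2) N)‖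
          ≤ ‖PS x z (2 ^ i1)‖ + (‖PS x (2 ^ i1) (2 ^ i2)‖ + ‖PS x (2 ^ i2) N‖) :=
            (norm_add_le _ _).trans (add_le_add_right (norm_add_le _ _) _)
        _ ≤ 1 / Real.log D ^ A := by linarith
    have hcau : CauchySeq (fun N : ℕ => PS x z (N + 2 ^ i2)) := by
      refine cauchySeq_of_le_tendsto_0' (fun N : ℕ => 9 / Real.log ((N + 2 ^ i2 : ℕ) : ℝ) ^ 2) ?_ ?_
      · intro n m hnm
        rw [dist_comm, dist_eq_norm, PS_add x z (n + 2 ^ i2) (m + 2 ^ i2)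
          (hzi.trans (hpow.trans (by omega))) (by omega), add_sub_cancel_left]
        exact hA3 _ _ (by omega) (by omega)
      · have t1 : Tendsto (fun N : ℕ => ((N + 2 ^ i2 : ℕ) : ℝ)) atTop atTop :=
          tendsto_natCast_atTop_atTop.comp (tendsto_add_atTop_nat _)
        have t2 := Real.tendsto_log_atTop.comp t1
        have t3 : Tendsto (fun N : ℕ => Real.log ((N + 2 ^ i2 : ℕ) : ℝ) ^ 2) atTop atTop :=
          (tendsto_pow_atTop (by norm_num)).comp t2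
        exact t3.const_div_atTop 9
    obtain ⟨l, hl⟩ := cauchySeq_tendsto_of_complete hcau
    have hl' : Tendsto (fun N : ℕ => PS x z N) atTop (nhds l) :=
      (tendsto_add_atTop_iff_nat (f := fun N => PS x z N) (2 ^ i2)).1 hl
    refine ⟨l, ?_, hl'⟩
    refine le_of_tendsto hl'.norm ?_
    filter_upwards [eventually_ge_atTop (2 ^ i2)] with N hN
    exact hbound N hN

end Pool.Agent.Lib.SPP
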