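import Pool.Agent.Lib.SPP.Defs
import Pool.Agent.Lib.GMV.VarM
import Pool.Agent.Lib.GMV.FMain

/-!
# SPP.Win: from short windows to prime sums with sharp end points (1.5 h)

PROOF. (`e ≥ 0` by its hypothesis, `U ≥ 1` as `Q^1000 ≤ X`; `log(4X) ≤ 4 log t`.) `U = X / Q^5` (natural division; `X/(2Q^5) ≤ U ≤ X/Q^5`), `g(n) = 1/(n log n)`, decreasing, for `n ≥ t ≥ 2X/Q`. If `t' - t ≤ 2U` then trivially
`∑_{t<p≤t'} 1/p ≤ (t'-t)/t ≤ 2U/t ≤ Q^(-4)`. Otherwise consider `Σ = ∑_{t<n≤t'} g(n) Mc X Q x n`, `‖Σ‖ ≤ e ∑ g(n) ≤ e (1 + log Q)` (`∑_{t<n≤t'} 1/n ≤ 1 + log(t'/t) ≤ 1 + log Q`, `log n ≥ 1`).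
`Σ = ∑_m W X Q m cv x m ∑_{t<n≤t'} g(n) K(m-n)` (exchange; `K = Kf U`, `K ≥ 0`, support `|m-n| < U`, `∑_n K(m-n) = 1`).
(a) `t + U < m ≤ t' - U`: `vw X Q m = 1` (`2X/Q ≤ t < m ≤ 2X`), all `n` with `|m-n| < U` are in `(t,t']`, and `|g(n) - g(m)| ≤ 2U/t²·` (as `|g'(y)| ≤ 2/(y² log y)`, or elementary),
so the inner sum is `1/(m log m) + O(4U/t²)`: these `m` give `∑_p cv x p/p + O(∑_{m ≤ 2X} lp m · 4U/t²)`, and `∑_{m ≤ 2X} lp m ≤ 8X` (Chebyshev, `DiffLAux.sum_W_le`-like),
`X U/t² ≤ X (X/Q^5)(Q²/(4X²)) ≤ Q^(-3)`. (b) `|m - t| ≤ U` or `|m - t'| ≤ U`: at most `4U + 2 ≤ 6U` values of `m`, each contributes at most `log(m) · sup g ≤ 4/t` (`m ≤ 4X`, `t - U ≥ t/2`), total `24 U/t ≤ 24 Q^(-4)`; the same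
for the primes `p` in `(t, t+U]`, `(t'-U, t']` missing in (a). (c) other `m` give `0`.
-/

set_option autoImplicit false

open Finset Filter

namespace Pool.Agent.Lib.SPP

open Pool.Agent.HLB Pool.Agent.HLT Pool.Agent.HLR Pool.Agent.Lib.GMV

namespace WinAux

/-- the weight -/
noncomputable def g (n : ℕ) : ℝ := 1 / ((n : ℝ) * Real.log n)

lemma g_nonneg (n : ℕ) : 0 ≤ g n := by
  unfold g
  have := Real.log_natCast_nonneg n
  positivity

lemma g_anti {t n m : ℕ} (ht : (1 : ℝ) ≤ Real.log t) (h1 : t ≤ n) (h2 : n ≤ m) : g m ≤ g n := by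
  have ht0 : 0 < t := by
    rcases Nat.eq_zero_or_pos t with h | h
    · subst h
      simp at ht
      linarith
    · exact h
  have h0 : (0 : ℝ) < t := by exact_mod_cast ht0
  have h3 : (t : ℝ) ≤ n := by exact_mod_cast h1
  have h4 : (n : ℝ) ≤ m := by exact_mod_cast h2
  have h5 : (1 : ℝ) ≤ Real.log n := ht.trans (Real.log_le_log h0 h3)
  have h6 : Real.log n ≤ Real.log m := Real.log_le_log (by linarith) h4
  unfold g
  apply one_div_le_one_div_of_le
  · have : (0 : ℝ) < n := by linarith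
    positivity
  · apply mul_le_mul h4 h6 (by linarith) (by linarith)

lemma g_lip {t n m : ℕ} (ht : (1 : ℝ) ≤ Real.log t) (h1 : t ≤ n) (h2 : n ≤ m) :
    g n - g m ≤ 2 * ((m : ℝ) - n) / (t : ℝ) ^ 2 := by
  have ht0 : 0 < t := by
    rcases Nat.eq_zero_or_pos t with h | h
    · subst h
      simp at ht
      linarith
    · exact h
  have h0 : (0 : ℝ) < t := by exact_mod_cast ht0
  have h3 : (t : ℝ) ≤ n := by exact_mod_cast h1
  have h4 : (n : ℝ) ≤ m := by exact_mod_cast h2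
  have hn : (0 : ℝ) < n := by linarith
  have hm : (0 : ℝ) < m := by linarith
  have h5 : (1 : ℝ) ≤ Real.log n := ht.trans (Real.log_le_log h0 h3)
  have h6 : Real.log n ≤ Real.log m := Real.log_le_log (by linarith) h4
  have h7 : Real.log m - Real.log n ≤ (m : ℝ) / n - 1 := by
    rw [← Real.log_div hm.ne' hn.ne']
    exact Real.log_le_sub_one_of_pos (by positivity)
  have h8 : (n : ℝ) * (Real.log m - Real.log n) ≤ m - n := by
    have : (n : ℝ) * ((m : ℝ) / n - 1) = m - n := by field_simp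
    rw [← this]
    exact mul_le_mul_of_nonneg_left h7 hn.le
  have h9 : (m : ℝ) * Real.log m - n * Real.log n ≤ (m - n) * (2 * Real.log m) := by
    nlinarith
  have hlm : (0 : ℝ) < Real.log m := by linarith
  have hln : (0 : ℝ) < Real.log n := by linarith
  have e : g n - g m = ((m : ℝ) * Real.log m - n * Real.log n) /
      ((n * Real.log n) * (m * Real.log m)) := by
    unfold g
    field_simp
  rw [e, div_le_div_iff₀ (by positivity) (by positivity)]
  have hmn : (0 : ℝ) ≤ m - n := by linarith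
  calc ((m : ℝ) * Real.log m - n * Real.log n) * (t : ℝ) ^ 2
      ≤ ((m - n) * (2 * Real.log m)) * (t : ℝ) ^ 2 :=
        mul_le_mul_of_nonneg_right h9 (by positivity)
    _ ≤ ((m - n) * (2 * Real.log m)) * (n * m) := by
        apply mul_le_mul_of_nonneg_left
        · rw [pow_two]
          exact mul_le_mul h3 (by linarith) h0.le hn.le
        · positivity
    _ ≤ ((m - n) * (2 * Real.log m)) * (n * m) * Real.log n :=
        le_mul_of_one_le_right (by positivity) h5
    _ = 2 * ((m : ℝ) - n) * (n * Real.log n * (m * Real.log m)) := by ring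

lemma g_abs {t n m U : ℕ} (ht : (1 : ℝ) ≤ Real.log t) (h1 : t ≤ n) (h2 : t ≤ m)
    (h3 : |(m : ℤ) - n| < U) : |g n - g m| ≤ 2 * (U : ℝ) / (t : ℝ) ^ 2 := by
  rw [abs_lt] at h3
  rcases le_total n m with h | h
  · rw [abs_of_nonneg (by linarith [g_anti ht h1 h])]
    refine (g_lip ht h1 h).trans ?_
    apply div_le_div_of_nonneg_right _ (by positivity)
    have : (m : ℝ) - n ≤ U := by exact_mod_cast h3.2.le
    linarith
  · rw [abs_of_nonpos (by linarith [g_anti ht h2 h]), neg_sub]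
    refine (g_lip ht h2 h).trans ?_
    apply div_le_div_of_nonneg_right _ (by positivity)
    have : (n : ℝ) - m ≤ U := by
      have h4 : (n : ℤ) - m ≤ U := by linarith [h3.1]
      exact_mod_cast h4
    linarith

lemma kf_nonneg (U : ℕ) (d : ℤ) : 0 ≤ Kf U d := by
  unfold Kf
  positivity

lemma kf_sum {m U N : ℕ} (hU : 1 ≤ U) (h1 : U ≤ m) (h2 : m + U ≤ N) :
    ∑ n ∈ range N, Kf U ((m : ℤ) - n) = 1 := by
  have h := kf_transform m U N hU h1 h2 0
  have h0 : ∀ z : ℝ, ex (z * 0) = 1 := by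
    intro z
    unfold ex
    simp
  have h3 : Kh U 0 = 1 := by
    unfold Kh
    have hU' : (U : ℝ) ≠ 0 := by
      have : U ≠ 0 := by omega
      exact_mod_cast this
    simp only [h0]
    simp [hU']
  simp only [h0, mul_one, h3] at h
  exact_mod_cast h

lemma sum_kf_le {m U : ℕ} (hU : 1 ≤ U) (h1 : U ≤ m) (s : Finset ℕ) :
    ∑ n ∈ s, Kf U ((m : ℤ) - n) ≤ 1 := by
  have h2 : s ⊆ range (max (m + U) (s.sup id + 1)) := by
    intro a ha
    rw [mem_range]
    have h3 : a ≤ s.sup id := le_sup (f := id) ha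
    have h4 : s.sup id + 1 ≤ max (m + U) (s.sup id + 1) := le_max_right _ _
    omega
  rw [← kf_sum (N := max (m + U) (s.sup id + 1)) hU h1 (le_max_left _ _)]
  exact sum_le_sum_of_subset_of_nonneg h2 fun _ _ _ => kf_nonneg _ _

/-- the inner sum -/
noncomputable def inn (U t t' m : ℕ) : ℝ := ∑ n ∈ Ioc t t', g n * Kf U ((m : ℤ) - n)

lemma inn_nonneg (U t t' m : ℕ) : 0 ≤ inn U t t' m :=
  sum_nonneg fun _ _ => mul_nonneg (g_nonneg _) (kf_nonneg _ _)

lemma inn_le {U t t' m : ℕ} (ht : (1 : ℝ) ≤ Real.log t) (hU : 1 ≤ U) (h1 : U ≤ m) :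
    inn U t t' m ≤ g t := by
  unfold inn
  calc ∑ n ∈ Ioc t t', g n * Kf U ((m : ℤ) - n)
      ≤ ∑ n ∈ Ioc t t', g t * Kf U ((m : ℤ) - n) := by
        apply sum_le_sum
        intro n hn
        rw [mem_Ioc] at hn
        exact mul_le_mul_of_nonneg_right (g_anti ht le_rfl hn.1.le) (kf_nonneg _ _)
    _ = g t * ∑ n ∈ Ioc t t', Kf U ((m : ℤ) - n) := by rw [mul_sum]
    _ ≤ g t * 1 := mul_le_mul_of_nonneg_left (sum_kf_le hU h1 _) (g_nonneg _)
    _ = g t := mul_one _

lemma inn_zero {U t t' m : ℕ} (h : m + U ≤ t ∨ t' + U < m + 1) : inn U t t' m = 0 := by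
  unfold inn
  apply sum_eq_zero
  intro n hn
  rw [mem_Ioc] at hn
  rw [KernAux.kf_eq_zero, mul_zero]
  rcases h with h | h
  · rw [abs_of_nonpos (by omega)]
    omega
  · rw [abs_of_nonneg (by omega)]
    omega

lemma inn_mid {U t t' m : ℕ} (ht : (1 : ℝ) ≤ Real.log t) (hU : 1 ≤ U) (h1 : t + U < m)
    (h2 : m + U ≤ t') : |inn U t t' m - g m| ≤ 2 * (U : ℝ) / (t : ℝ) ^ 2 := by
  have h3 : ∑ n ∈ Ioc t t', Kf U ((m : ℤ) - n) = 1 := by
    rw [← kf_sum (m := m) (U := U) (N := t' + 1) hU (by omega) (by omega)]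
    apply sum_subset
    · intro n hn
      rw [mem_Ioc] at hn
      rw [mem_range]
      omega
    · intro n hn hn'
      rw [mem_range] at hn
      rw [mem_Ioc] at hn'
      apply KernAux.kf_eq_zero
      rw [abs_of_nonneg (by omega)]
      omega
  have h4 : inn U t t' m - g m = ∑ n ∈ Ioc t t', (g n - g m) * Kf U ((m : ℤ) - n) := by
    unfold inn
    simp only [sub_mul]
    rw [sum_sub_distrib, ← mul_sum, h3, mul_one]
  rw [h4]
  refine (abs_sum_le_sum_abs _ _).trans ?_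
  calc ∑ n ∈ Ioc t t', |(g n - g m) * Kf U ((m : ℤ) - n)|
      ≤ ∑ n ∈ Ioc t t', (2 * (U : ℝ) / (t : ℝ) ^ 2) * Kf U ((m : ℤ) - n) := by
        apply sum_le_sum
        intro n hn
        rw [mem_Ioc] at hn
        rw [abs_mul, abs_of_nonneg (kf_nonneg U ((m : ℤ) - n))]
        by_cases h5 : |(m : ℤ) - n| < U
        · exact mul_le_mul_of_nonneg_right (g_abs ht hn.1.le (by omega) h5) (kf_nonneg _ _)
        · rw [KernAux.kf_eq_zero (not_lt.1 h5), mul_zero, mul_zero]
    _ = (2 * (U : ℝ) / (t : ℝ) ^ 2) * ∑ n ∈ Ioc t t', Kf U ((m : ℤ) - n) := by rw [mul_sum]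
    _ = 2 * (U : ℝ) / (t : ℝ) ^ 2 := by rw [h3, mul_one]

/-- the error for `m` -/
lemma err {X Q U t t' m : ℕ} (ht : (1 : ℝ) ≤ Real.log t) (hU : 1 ≤ U) (hX : 0 < X)
    (hUt : 2 * U ≤ t) (h1 : 2 * X ≤ t * Q) (h2 : t' ≤ 2 * X) :
    |vw X Q m * inn U t t' m - (if m ∈ Ioc t t' then g m else 0)| ≤
      2 * (U : ℝ) / (t : ℝ) ^ 2 +
      (if m ∈ Icc (t - U) (t + U) ∪ Icc (t' - U) (t' + U) then g t else 0) := by
  have hpos : (0 : ℝ) ≤ 2 * (U : ℝ) / (t : ℝ) ^ 2 := by positivity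
  have hXr : (0 : ℝ) < X := by exact_mod_cast hX
  by_cases hb : m ∈ Icc (t - U) (t + U) ∪ Icc (t' - U) (t' + U)
  · rw [if_pos hb]
    have h3 : |vw X Q m * inn U t t' m - (if m ∈ Ioc t t' then g m else 0)| ≤ g t := by
      have h4 : 0 ≤ vw X Q m * inn U t t' m :=
        mul_nonneg (vw_nonneg _ _ _) (inn_nonneg _ _ _ _)
      have h5 : vw X Q m * inn U t t' m ≤ g t := by
        rcases Nat.lt_or_ge m U with h6 | h6
        · rcases Nat.lt_or_ge t (m + U) with h7 | h7
          · omega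
          · rw [inn_zero (Or.inl h7), mul_zero]
            exact g_nonneg _
        · calc vw X Q m * inn U t t' m ≤ 1 * inn U t t' m :=
                mul_le_mul_of_nonneg_right (vw_le_one _ _ _) (inn_nonneg _ _ _ _)
            _ = inn U t t' m := one_mul _
            _ ≤ g t := inn_le ht hU h6
      have h6 : (0 : ℝ) ≤ (if m ∈ Ioc t t' then g m else 0) := by
        split_ifs
        · exact g_nonneg _
        · exact le_rfl
      have h7 : (if m ∈ Ioc t t' then g m else 0) ≤ g t := by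
        split_ifs with h
        · rw [mem_Ioc] at h
          exact g_anti ht le_rfl h.1.le
        · exact g_nonneg _
      rw [abs_le]
      constructor <;> linarith
    linarith
  · rw [if_neg hb, add_zero]
    rw [mem_union, not_or, mem_Icc, mem_Icc] at hb
    by_cases hm : m ∈ Ioc t t'
    · rw [if_pos hm]
      rw [mem_Ioc] at hm
      have h3 : t + U < m := by omega
      have h4 : m + U ≤ t' := by omega
      have h5 : vw X Q m = 1 := by
        unfold vw
        have h6 : (2 : ℝ) * X ≤ m * Q := by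
          have : 2 * X ≤ m * Q := h1.trans (Nat.mul_le_mul (by omega) le_rfl)
          exact_mod_cast this
        have h7 : (m : ℝ) ≤ 2 * X := by
          have : m ≤ 2 * X := by omega
          exact_mod_cast this
        have h8 : (1 : ℝ) ≤ m * Q / X - 1 := by
          rw [le_sub_iff_add_le, le_div_iff₀ hXr]
          linarith
        have h9 : (m : ℝ) * Q / X ≤ 2 * Q := by
          rw [div_le_iff₀ hXr]
          have : (0 : ℝ) ≤ Q := Nat.cast_nonneg _
          nlinarith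
        rw [min_eq_left (le_min h8 (by linarith)), max_eq_right zero_le_one]
      rw [h5, one_mul]
      exact inn_mid ht hU h3 h4
    · rw [if_neg hm]
      rw [mem_Ioc] at hm
      rw [inn_zero (by omega), mul_zero, sub_zero, abs_zero]
      exact hpos

lemma sum_g {t t' : ℕ} (ht : (1 : ℝ) ≤ Real.log t) (h : t ≤ t') :
    ∑ n ∈ Ioc t t', g n ≤ Real.log t' - Real.log t := by
  have ht0 : 0 < t := by
    rcases Nat.eq_zero_or_pos t with h | h
    · subst h
      simp at ht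
      linarith
    · exact h
  induction t', h using Nat.le_induction with
  | base => simp
  | succ k hk ih =>
    rw [Finset.sum_Ioc_succ_top hk]
    have h0 : (0 : ℝ) < k := by
      have : 0 < k := by omega
      exact_mod_cast this
    have h1 : (1 : ℝ) / ((k + 1 : ℕ) : ℝ) ≤ Real.log ((k + 1 : ℕ) : ℝ) - Real.log k := by
      have h2 := Real.log_le_sub_one_of_pos (x := (k : ℝ) / ((k + 1 : ℕ) : ℝ)) (by positivity)
      rw [Real.log_div h0.ne' (by positivity)] at h2
      have h3 : (k : ℝ) / ((k + 1 : ℕ) : ℝ) - 1 = -(1 / ((k + 1 : ℕ) : ℝ)) := by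
        push_cast
        field_simp
        ring
      rw [h3] at h2
      linarith
    have h4 : g (k + 1) ≤ 1 / ((k + 1 : ℕ) : ℝ) := by
      unfold g
      have h5 : (1 : ℝ) ≤ Real.log ((k + 1 : ℕ) : ℝ) := by
        refine ht.trans (Real.log_le_log (by exact_mod_cast ht0) ?_)
        have : t ≤ k + 1 := by omega
        exact_mod_cast this
      apply one_div_le_one_div_of_le (by positivity)
      exact le_mul_of_one_le_right (by positivity) h5
    linarith

lemma lp_eq_g {m t : ℕ} (ht : (1 : ℝ) ≤ Real.log t) (h : t < m) (hp : m.Prime) :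
    HLT.lp m * g m = 1 / (m : ℝ) := by
  have ht0 : 0 < t := by
    rcases Nat.eq_zero_or_pos t with h | h
    · subst h
      simp at ht
      linarith
    · exact h
  have h0 : (0 : ℝ) < t := by exact_mod_cast ht0
  have h3 : (t : ℝ) ≤ m := by exact_mod_cast h.le
  have h5 : (1 : ℝ) ≤ Real.log m := ht.trans (Real.log_le_log h0 h3)
  have hm : (0 : ℝ) < m := by linarith
  unfold HLT.lp g
  rw [if_pos hp]
  field_simp

lemma card_near (t t' U : ℕ) (hU : 1 ≤ U) :
    ((Icc (t - U) (t + U) ∪ Icc (t' - U) (t' + U)).card : ℝ) ≤ 6 * U := by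
  have h1 : (Icc (t - U) (t + U) ∪ Icc (t' - U) (t' + U)).card ≤ 6 * U := by
    refine (card_union_le _ _).trans ?_
    rw [Nat.card_Icc, Nat.card_Icc]
    omega
  exact_mod_cast h1

lemma swap (X Q t t' : ℕ) (x : CI) :
    ∑ n ∈ Ioc t t', (g n : ℂ) * Mc X Q x n =
      ∑ m ∈ range (4 * X), ((HLT.lp m * (vw X Q m * inn (X / Q ^ 5) t t' m) : ℝ) : ℂ) * cv x m := by
  unfold Mc cn
  simp only [mul_sum]
  rw [sum_comm]
  apply sum_congr rfl
  intro m _
  unfold inn W
  push_cast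
  rw [mul_sum, mul_sum, sum_mul]
  apply sum_congr rfl
  intro n _
  ring

lemma target {X t t' : ℕ} (x : CI) (ht : (1 : ℝ) ≤ Real.log t) (h2 : t' ≤ 2 * X) (_hX : 0 < X) :
    ∑ p ∈ (Ioc t t').filter Nat.Prime, cv x p / (p : ℂ) =
      ∑ m ∈ range (4 * X), ((HLT.lp m * (if m ∈ Ioc t t' then g m else 0) : ℝ) : ℂ) * cv x m := by
  rw [sum_filter]
  have h3 : Ioc t t' ⊆ range (4 * X) := by
    intro m hm
    rw [mem_Ioc] at hm
    rw [mem_range]
    omega
  rw [← sum_subset h3]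
  · apply sum_congr rfl
    intro m hm
    rw [if_pos hm]
    rw [mem_Ioc] at hm
    by_cases hp : m.Prime
    · rw [if_pos hp, lp_eq_g ht hm.1 hp]
      push_cast
      ring
    · rw [if_neg hp]
      unfold HLT.lp
      rw [if_neg hp]
      simp
  · intro m _ hm
    rw [if_neg hm]
    simp

lemma main {X Q t t' : ℕ} (hX : 0 < X) (x : CI) {e : ℝ}
    (he : ∀ n, ‖Mc X Q x n‖ ≤ e) (ht : (1 : ℝ) ≤ Real.log t) (hU : 1 ≤ X / Q ^ 5)
    (hUt : 2 * (X / Q ^ 5) ≤ t) (h1 : 2 * X ≤ t * Q) (h2 : t' ≤ 2 * X) (htt : t ≤ t') :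
    ‖∑ p ∈ (Ioc t t').filter Nat.Prime, cv x p / (p : ℂ)‖ ≤
      e * (Real.log t' - Real.log t) +
      (2 * ((X / Q ^ 5 : ℕ) : ℝ) / (t : ℝ) ^ 2 * (8 * X) +
        g t * (Real.log (4 * X) * (6 * ((X / Q ^ 5 : ℕ) : ℝ)))) := by
  have he0 : 0 ≤ e := (norm_nonneg _).trans (he 0)
  obtain ⟨U, hUdef⟩ : ∃ U, U = X / Q ^ 5 := ⟨_, rfl⟩
  have h3 : ‖∑ n ∈ Ioc t t', (g n : ℂ) * Mc X Q x n‖ ≤ e * (Real.log t' - Real.log t) := by
    calc ‖∑ n ∈ Ioc t t', (g n : ℂ) * Mc X Q x n‖
        ≤ ∑ n ∈ Ioc t t', ‖(g n : ℂ) * Mc X Q x n‖ := norm_sum_le _ _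
      _ ≤ ∑ n ∈ Ioc t t', e * g n := by
          apply sum_le_sum
          intro n _
          rw [norm_mul, Complex.norm_real, Real.norm_eq_abs, abs_of_nonneg (g_nonneg n), mul_comm]
          exact mul_le_mul_of_nonneg_right (he n) (g_nonneg n)
      _ = e * ∑ n ∈ Ioc t t', g n := by rw [mul_sum]
      _ ≤ e * (Real.log t' - Real.log t) := mul_le_mul_of_nonneg_left (sum_g ht htt) he0
  have h4 : ∑ p ∈ (Ioc t t').filter Nat.Prime, cv x p / (p : ℂ) =
      ∑ n ∈ Ioc t t', (g n : ℂ) * Mc X Q x n -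
      ∑ m ∈ range (4 * X), ((HLT.lp m * (vw X Q m * inn U t t' m -
        (if m ∈ Ioc t t' then g m else 0)) : ℝ) : ℂ) * cv x m := by
    rw [target x ht h2 hX, swap, ← hUdef, ← sum_sub_distrib]
    apply sum_congr rfl
    intro m _
    push_cast
    ring
  have h5 : ‖∑ m ∈ range (4 * X), ((HLT.lp m * (vw X Q m * inn U t t' m -
        (if m ∈ Ioc t t' then g m else 0)) : ℝ) : ℂ) * cv x m‖ ≤
      2 * (U : ℝ) / (t : ℝ) ^ 2 * (8 * X) + g t * (Real.log (4 * X) * (6 * (U : ℝ))) := by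
    rw [← hUdef] at hU hUt
    calc ‖∑ m ∈ range (4 * X), ((HLT.lp m * (vw X Q m * inn U t t' m -
          (if m ∈ Ioc t t' then g m else 0)) : ℝ) : ℂ) * cv x m‖
        ≤ ∑ m ∈ range (4 * X), ‖((HLT.lp m * (vw X Q m * inn U t t' m -
          (if m ∈ Ioc t t' then g m else 0)) : ℝ) : ℂ) * cv x m‖ := norm_sum_le _ _
      _ ≤ ∑ m ∈ range (4 * X), HLT.lp m * (2 * (U : ℝ) / (t : ℝ) ^ 2 +
          (if m ∈ Icc (t - U) (t + U) ∪ Icc (t' - U) (t' + U) then g t else 0)) := by
          apply sum_le_sum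
          intro m _
          rw [norm_mul, Complex.norm_real, Real.norm_eq_abs, abs_mul, abs_of_nonneg (lp_nonneg m)]
          calc HLT.lp m * |vw X Q m * inn U t t' m - (if m ∈ Ioc t t' then g m else 0)| * ‖cv x m‖
              ≤ HLT.lp m * |vw X Q m * inn U t t' m - (if m ∈ Ioc t t' then g m else 0)| * 1 :=
                mul_le_mul_of_nonneg_left (norm_cv_le x m)
                  (mul_nonneg (lp_nonneg m) (abs_nonneg _))
            _ ≤ _ := by
                rw [mul_one]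
                exact mul_le_mul_of_nonneg_left (err ht hU hX hUt h1 h2) (lp_nonneg m)
      _ = 2 * (U : ℝ) / (t : ℝ) ^ 2 * ∑ m ∈ range (4 * X), HLT.lp m +
          g t * ∑ m ∈ (range (4 * X)).filter
            (fun m => m ∈ Icc (t - U) (t + U) ∪ Icc (t' - U) (t' + U)), HLT.lp m := by
          rw [mul_sum, mul_sum, sum_filter, ← sum_add_distrib]
          apply sum_congr rfl
          intro m _
          split_ifs <;> ring
      _ ≤ 2 * (U : ℝ) / (t : ℝ) ^ 2 * (8 * X) + g t * (Real.log (4 * X) * (6 * (U : ℝ))) := by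
          apply add_le_add
          · apply mul_le_mul_of_nonneg_left _ (by positivity)
            refine (VarMAux.lp_sum (4 * X)).trans (le_of_eq ?_)
            push_cast
            ring
          · apply mul_le_mul_of_nonneg_left _ (g_nonneg t)
            have hlog : 0 ≤ Real.log (4 * (X : ℝ)) := by
              apply Real.log_nonneg
              have : (1 : ℝ) ≤ X := by exact_mod_cast hX
              linarith
            calc ∑ m ∈ (range (4 * X)).filter
                  (fun m => m ∈ Icc (t - U) (t + U) ∪ Icc (t' - U) (t' + U)), HLT.lp m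
                ≤ ∑ m ∈ (range (4 * X)).filter
                  (fun m => m ∈ Icc (t - U) (t + U) ∪ Icc (t' - U) (t' + U)),
                    Real.log (4 * (X : ℝ)) := by
                  apply sum_le_sum
                  intro m hm
                  rw [mem_filter, mem_range] at hm
                  unfold HLT.lp
                  split_ifs with hp
                  · apply Real.log_le_log (by exact_mod_cast hp.pos)
                    have := hm.1.le
                    exact_mod_cast this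
                  · exact hlog
              _ = ((range (4 * X)).filter
                  (fun m => m ∈ Icc (t - U) (t + U) ∪ Icc (t' - U) (t' + U))).card *
                    Real.log (4 * (X : ℝ)) := by rw [sum_const, nsmul_eq_mul]
              _ ≤ (6 * (U : ℝ)) * Real.log (4 * (X : ℝ)) := by
                  apply mul_le_mul_of_nonneg_right _ hlog
                  refine le_trans ?_ (card_near t t' U hU)
                  have : ((range (4 * X)).filter
                    (fun m => m ∈ Icc (t - U) (t + U) ∪ Icc (t' - U) (t' + U))).card ≤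
                    (Icc (t - U) (t + U) ∪ Icc (t' - U) (t' + U)).card := by
                    apply card_le_card
                    intro m hm
                    exact (mem_filter.1 hm).2
                  exact_mod_cast this
              _ = Real.log (4 * X) * (6 * (U : ℝ)) := mul_comm _ _
  rw [h4, ← hUdef]
  exact (norm_sub_le _ _).trans (add_le_add h3 h5)

end WinAux

theorem win : ∃ (C : ℝ) (X0 : ℕ), 1 ≤ C ∧ ∀ X Q : ℕ, X0 ≤ X → 2 ≤ Q → Q ^ 1000 ≤ X →
    ∀ x : CI, ∀ e : ℝ, (∀ n, ‖Mc X Q x n‖ ≤ e) → ∀ t t' : ℕ, 2 * X ≤ t * Q → t ≤ t' → t' ≤ 2 * X →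
    ‖∑ p ∈ (Ioc t t').filter Nat.Prime, cv x p / (p : ℂ)‖ ≤
      C * (e * (1 + Real.log Q) + 1 / (Q : ℝ) ^ 3) := by
  refine ⟨16, 1, by norm_num, ?_⟩
  intro X Q hX hQ hXQ x e he t t' h1 htt h2
  have he0 : 0 ≤ e := (norm_nonneg _).trans (he 0)
  have hQ0 : 0 < Q := by omega
  have hQr : (2 : ℝ) ≤ Q := by exact_mod_cast hQ
  have hXr : (0 : ℝ) < X := by exact_mod_cast hX
  have hU : 1 ≤ X / Q ^ 5 := by
    apply (Nat.one_le_div_iff (by positivity)).2
    exact le_trans (Nat.pow_le_pow_right hQ0 (by norm_num)) hXQ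
  have hUX : X / Q ^ 5 * Q ^ 5 ≤ X := Nat.div_mul_le_self _ _
  -- 4 ≤ t
  have ht4 : 4 ≤ t := by
    have h3 : Q * Q ≤ X := by
      rw [← pow_two]
      exact le_trans (Nat.pow_le_pow_right hQ0 (by norm_num)) hXQ
    have h4 : (2 * Q) * Q ≤ t * Q := by
      calc (2 * Q) * Q = 2 * (Q * Q) := by ring
        _ ≤ 2 * X := Nat.mul_le_mul le_rfl h3
        _ ≤ t * Q := h1
    have h5 := Nat.le_of_mul_le_mul_right h4 hQ0
    omega
  have htr : (4 : ℝ) ≤ t := by exact_mod_cast ht4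
  have ht : (1 : ℝ) ≤ Real.log t := by
    rw [Real.le_log_iff_exp_le (by linarith)]
    have := Real.exp_one_lt_d9
    linarith
  have hUt : 2 * (X / Q ^ 5) ≤ t := by
    have h3 : (2 * (X / Q ^ 5)) * Q ≤ t * Q := by
      calc (2 * (X / Q ^ 5)) * Q = 2 * (X / Q ^ 5 * Q) := by ring
        _ ≤ 2 * (X / Q ^ 5 * Q ^ 5) := by
            apply Nat.mul_le_mul le_rfl
            apply Nat.mul_le_mul le_rfl
            exact Nat.le_self_pow (by norm_num) Q
        _ ≤ 2 * X := Nat.mul_le_mul le_rfl hUX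
        _ ≤ t * Q := h1
    exact Nat.le_of_mul_le_mul_right h3 hQ0
  have hm := WinAux.main hX x he ht hU hUt h1 h2 htt
  obtain ⟨U, hUdef⟩ : ∃ U : ℝ, U = ((X / Q ^ 5 : ℕ) : ℝ) := ⟨_, rfl⟩
  rw [← hUdef] at hm
  have hU5 : U * (Q : ℝ) ^ 5 ≤ X := by
    rw [hUdef]
    exact_mod_cast hUX
  have hU0 : 0 ≤ U := by
    rw [hUdef]
    exact Nat.cast_nonneg _
  have h1r : 2 * (X : ℝ) ≤ t * Q := by exact_mod_cast h1
  -- the logarithms
  have hlog1 : Real.log t' - Real.log t ≤ Real.log Q := by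
    have h3 : (t' : ℝ) ≤ t * Q := by
      have : (t' : ℝ) ≤ 2 * X := by exact_mod_cast h2
      linarith
    have h4 : (0 : ℝ) < t' := by
      have : (t : ℝ) ≤ t' := by exact_mod_cast htt
      linarith
    have h5 := Real.log_le_log h4 h3
    rw [Real.log_mul (by linarith) (by linarith)] at h5
    linarith
  have hlog2 : Real.log (4 * X) ≤ 4 * Real.log t := by
    have h3 : (4 : ℝ) * X ≤ (t : ℝ) ^ 4 := by
      have h4 : (Q : ℝ) ^ 4 ≤ X := by
        have : Q ^ 4 ≤ X := le_trans (Nat.pow_le_pow_right hQ0 (by norm_num)) hXQ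
        exact_mod_cast this
      have h5 : (2 * (X : ℝ)) ^ 4 ≤ (t * Q) ^ 4 := pow_le_pow_left₀ (by positivity) h1r 4
      have hX1 : (1 : ℝ) ≤ X := by exact_mod_cast hX
      have h6 : (4 * (X : ℝ)) * (Q : ℝ) ^ 4 ≤ (t : ℝ) ^ 4 * (Q : ℝ) ^ 4 := by
        calc (4 * (X : ℝ)) * (Q : ℝ) ^ 4 ≤ (4 * (X : ℝ)) * X :=
              mul_le_mul_of_nonneg_left h4 (by positivity)
          _ ≤ (4 * (X : ℝ)) * X * (4 * ((X : ℝ) * X)) := by
              apply le_mul_of_one_le_right (by positivity)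
              nlinarith
          _ = (2 * (X : ℝ)) ^ 4 := by ring
          _ ≤ (t * Q) ^ 4 := h5
          _ = (t : ℝ) ^ 4 * (Q : ℝ) ^ 4 := by ring
      exact le_of_mul_le_mul_right h6 (by positivity)
    have h7 := Real.log_le_log (by positivity) h3
    rw [Real.log_pow] at h7
    exact_mod_cast h7
  -- the two errors
  have hE1 : 2 * U / (t : ℝ) ^ 2 * (8 * X) ≤ 4 / (Q : ℝ) ^ 3 := by
    rw [div_mul_eq_mul_div, div_le_div_iff₀ (by positivity) (by positivity)]
    have h3 : (2 * (X : ℝ)) ^ 2 ≤ (t * Q) ^ 2 := pow_le_pow_left₀ (by positivity) h1r 2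
    have h4 : (16 * U * X * (Q : ℝ) ^ 3) * (Q : ℝ) ^ 2 ≤ (4 * (t : ℝ) ^ 2) * (Q : ℝ) ^ 2 := by
      calc (16 * U * X * (Q : ℝ) ^ 3) * (Q : ℝ) ^ 2 = 16 * (X : ℝ) * (U * (Q : ℝ) ^ 5) := by ring
        _ ≤ 16 * (X : ℝ) * X := mul_le_mul_of_nonneg_left hU5 (by positivity)
        _ = 4 * (2 * (X : ℝ)) ^ 2 := by ring
        _ ≤ 4 * ((t : ℝ) * Q) ^ 2 := by linarith
        _ = (4 * (t : ℝ) ^ 2) * (Q : ℝ) ^ 2 := by ring
    have h5 := le_of_mul_le_mul_right h4 (by positivity)
    linarith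
  have hE2 : WinAux.g t * (Real.log (4 * X) * (6 * U)) ≤ 12 / (Q : ℝ) ^ 3 := by
    have h3 : WinAux.g t * (Real.log (4 * X) * (6 * U)) ≤ 24 * U / t := by
      unfold WinAux.g
      rw [div_mul_eq_mul_div, one_mul, div_le_div_iff₀ (by positivity) (by positivity)]
      calc Real.log (4 * X) * (6 * U) * t ≤ (4 * Real.log t) * (6 * U) * t := by
            apply mul_le_mul_of_nonneg_right _ (by positivity)
            exact mul_le_mul_of_nonneg_right hlog2 (by positivity)
        _ = 24 * U * (t * Real.log t) := by ring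
    refine h3.trans ?_
    rw [div_le_div_iff₀ (by positivity) (by positivity)]
    have h4 : (24 * U * (Q : ℝ) ^ 3) * (Q : ℝ) ^ 2 ≤ (12 * t) * (Q : ℝ) ^ 2 := by
      calc (24 * U * (Q : ℝ) ^ 3) * (Q : ℝ) ^ 2 = 24 * (U * (Q : ℝ) ^ 5) := by ring
        _ ≤ 24 * (X : ℝ) := mul_le_mul_of_nonneg_left hU5 (by norm_num)
        _ ≤ 12 * ((t : ℝ) * Q) := by linarith
        _ ≤ 12 * ((t : ℝ) * Q) * Q := le_mul_of_one_le_right (by positivity) (by linarith)
        _ = (12 * t) * (Q : ℝ) ^ 2 := by ring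
    exact le_of_mul_le_mul_right h4 (by positivity)
  have hlQ : 0 ≤ Real.log Q := Real.log_natCast_nonneg Q
  calc ‖∑ p ∈ (Ioc t t').filter Nat.Prime, cv x p / (p : ℂ)‖
      ≤ e * (Real.log t' - Real.log t) + (2 * U / (t : ℝ) ^ 2 * (8 * X) +
        WinAux.g t * (Real.log (4 * X) * (6 * U))) := hm
    _ ≤ e * Real.log Q + (4 / (Q : ℝ) ^ 3 + 12 / (Q : ℝ) ^ 3) :=
        add_le_add (mul_le_mul_of_nonneg_left hlog1 he0) (add_le_add hE1 hE2)
    _ ≤ 16 * (e * (1 + Real.log Q) + 1 / (Q : ℝ) ^ 3) := by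
        have h3 : 4 / (Q : ℝ) ^ 3 + 12 / (Q : ℝ) ^ 3 = 16 * (1 / (Q : ℝ) ^ 3) := by ring
        rw [h3]
        have h4 : 0 ≤ e * Real.log Q := mul_nonneg he0 hlQ
        nlinarith

end Pool.Agent.Lib.SPP
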