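import Pool.Agent.Lib.SPP.XMom

/-!
# SPP.XCh: the prime sum over `((log X)^(1+ε), (log X)^B]` is small outside a power saving set (1.2 h)

PROOF. `L = log X`, `k = ⌊L/(8 B log L)⌋` (`≥ L/(16 B log L) ≥ 1` for large `X`). `P` = the primes in `(y, z]` (`y ≥ L ≥ 2`, so they are odd), `D = z ≤ L^B`; if `z ≤ y` the sum is `0` and there is nothing to show. `xmom` with `N = X`:
second term: `D^(2k) ≤ exp(2 k B log L) ≤ exp(L/4)`, `∑_{p ∈ P} 1/p ≤ ∑_{m ≤ z} 1/m ≤ 1 + log z ≤ 2 B log L` and `(2 B log L)^(2k) ≤ exp(L/4)` for large `X` (`log(2 B log L) ≤ B log L`). So it is at most `X^(1/2)`.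
First term: `∑_{p ∈ P} 1/p² ≤ ∑_{m > y} 1/m² ≤ 1/y ≤ L^(-1-ε)`, `6 k L^(-1-ε) ≤ L^(-ε)` (`6 k ≤ L`), so it is at most `X L^(-ε k) = X exp(-ε k log L) ≤ X exp(-ε L/(16 B))`.
Chebyshev: the number of `n` is at most `η^(-2k)` times the moment, and `η^(-2k) ≤ exp(ε' L)` for every `ε' > 0` and large `X` (`k log(1/η) ≤ L log(1/η)/(8 B log L)`). With `δ = min(ε/(32 B), 1/4)` the total is at most
`X^(1 - ε/(16 B) + ε') + X^(1/2 + ε') ≤ X^(1 - δ)` (`ε'` small, `X` large; the factor `2` is absorbed).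
-/

set_option autoImplicit false

open Finset Filter

namespace Pool.Agent.Lib.SPP

namespace XChAux

/-- The tail of the squares of the reciprocals. -/
theorem sq_tail (y z : ℕ) (hy : 1 ≤ y) : ∑ m ∈ Ioc y z, (1 / (m : ℝ)) ^ 2 ≤ 1 / (y : ℝ) := by
  by_cases h : y ≤ z
  · have h1 : ∑ m ∈ Ioc y z, (1 / (m : ℝ)) ^ 2 ≤ 1 / (y : ℝ) - 1 / (z : ℝ) := by
      induction z, h using Nat.le_induction with
      | base => simp
      | succ z hz ih =>
        rw [Finset.sum_Ioc_succ_top hz]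
        have hz0 : (0 : ℝ) < z := by exact_mod_cast (by omega : 0 < z)
        have h2 : (1 / ((z + 1 : ℕ) : ℝ)) ^ 2 ≤ 1 / (z : ℝ) - 1 / ((z + 1 : ℕ) : ℝ) := by
          push_cast
          rw [div_pow, one_pow, div_sub_div _ _ hz0.ne' (by positivity),
            div_le_div_iff₀ (by positivity) (by positivity)]
          nlinarith
        have h3 := add_le_add ih h2
        refine h3.trans (le_of_eq ?_)
        ring
    have h4 : (0 : ℝ) ≤ 1 / (z : ℝ) := by positivity
    linarith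
  · rw [Finset.Ioc_eq_empty (by omega), Finset.sum_empty]
    positivity

/-- Chebyshev. -/
theorem cheb (X k : ℕ) (S : ℕ → ℝ) {η R : ℝ} (hη : 0 < η)
    (h : ∑ n ∈ Icc 1 X, S n ^ (2 * k) ≤ R) :
    (((Icc 1 X).filter fun n : ℕ => η < |S n|).card : ℝ) ≤ R / η ^ (2 * k) := by
  rw [le_div_iff₀ (by positivity), ← nsmul_eq_mul, ← sum_const]
  refine (sum_le_sum fun n hn => ?_).trans ((sum_le_sum_of_subset_of_nonneg (filter_subset _ _)
    fun n _ _ => ?_).trans h)
  · rw [pow_mul, pow_mul, ← sq_abs (S n)]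
    exact pow_le_pow_left₀ (sq_nonneg η) (pow_le_pow_left₀ hη.le (mem_filter.1 hn).2.le 2) k
  · rw [pow_mul]
    exact pow_nonneg (sq_nonneg _) k

end XChAux

open XChAux in
theorem xch (ε η : ℝ) (hε : 0 < ε) (hη : 0 < η) (B : ℕ) (hB : 1 ≤ B) : ∃ δ : ℝ, 0 < δ ∧
    ∀ᶠ X : ℕ in atTop, ∀ y z : ℕ, Real.log X ^ (1 + ε) ≤ y → (z : ℝ) ≤ Real.log X ^ B →
    (((Icc 1 X).filter fun n : ℕ => η <
      |∑ p ∈ (Ioc y z).filter Nat.Prime, (jacobiSym (n : ℤ) p : ℝ) / p|).card : ℝ) ≤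
      (X : ℝ) ^ (1 - δ) := by
  classical
  have hBr : (1 : ℝ) ≤ B := by exact_mod_cast hB
  set δ : ℝ := min (ε / (64 * B)) (1 / 8) with hδdef
  have hδ : 0 < δ := lt_min (by positivity) (by norm_num)
  refine ⟨δ, hδ, ?_⟩
  have hL : Tendsto (fun X : ℕ => Real.log X) atTop atTop :=
    Real.tendsto_log_atTop.comp tendsto_natCast_atTop_atTop
  have h1 : ∀ᶠ L : ℝ in atTop, 16 * B * Real.log L ≤ L := by
    have hc : (0 : ℝ) < 1 / (16 * B) := by positivity
    filter_upwards [Real.isLittleO_log_id_atTop.def hc, eventually_ge_atTop 0] with L hL1 hL0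
    rw [Real.norm_eq_abs, id, Real.norm_eq_abs, abs_of_nonneg hL0] at hL1
    have h5 := (le_abs_self (Real.log L)).trans hL1
    rw [one_div, inv_mul_eq_div, le_div_iff₀ (by positivity)] at h5
    linarith
  have h2 : ∀ᶠ L : ℝ in atTop, 1 ≤ Real.log L := Real.tendsto_log_atTop.eventually_ge_atTop 1
  have h3 : ∀ᶠ L : ℝ in atTop, |Real.log η| / δ ≤ Real.log L :=
    Real.tendsto_log_atTop.eventually_ge_atTop _
  have h4 : ∀ᶠ L : ℝ in atTop, Real.log 2 / (2 * δ) ≤ L := eventually_ge_atTop _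
  filter_upwards [hL.eventually h1, hL.eventually h2, hL.eventually h3, hL.eventually h4,
    eventually_ge_atTop 1] with X g1 g2 g3 g4 hX1 y z hy hz
  set L : ℝ := Real.log X with hLdef
  have hXr : (0 : ℝ) < X := by exact_mod_cast hX1
  have hXe : (X : ℝ) = Real.exp L := (Real.exp_log hXr).symm
  have hL2 : 2 ≤ L := by nlinarith
  have hL0 : 0 < L := by linarith
  have hl0 : 0 < Real.log L := by linarith
  set l : ℝ := Real.log L with hl
  have hLe : L = Real.exp l := (Real.exp_log hL0).symm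
  set k : ℕ := ⌊L / (8 * B * l)⌋₊ with hk
  have hk1 : (k : ℝ) ≤ L / (8 * B * l) := Nat.floor_le (by positivity)
  have hk2 : L / (8 * B * l) - 1 < k := Nat.sub_one_lt_floor _
  have hkB : (k : ℝ) * (B * l) ≤ L / 8 := by
    have := mul_le_mul_of_nonneg_right hk1 (by positivity : (0 : ℝ) ≤ B * l)
    refine this.trans (le_of_eq ?_)
    field_simp
  have hkB' : L / 16 ≤ (k : ℝ) * (B * l) := by
    have h5 : L / (16 * B * l) ≤ k := by
      have h6 : 1 ≤ L / (16 * B * l) := by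
        rw [le_div_iff₀ (by positivity)]
        linarith
      have h7 : L / (8 * B * l) = 2 * (L / (16 * B * l)) := by
        field_simp
        norm_num
      linarith
    have := mul_le_mul_of_nonneg_right h5 (by positivity : (0 : ℝ) ≤ B * l)
    refine le_trans (le_of_eq ?_) this
    field_simp
  have hk1' : 1 ≤ k := by
    by_contra h
    have h5 : k = 0 := by omega
    rw [h5] at hkB'
    simp only [Nat.cast_zero, zero_mul] at hkB'
    linarith
  have hkl : (k : ℝ) * l ≤ L / 8 := by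
    have : (k : ℝ) * l ≤ k * (B * l) := by
      refine mul_le_mul_of_nonneg_left ?_ (Nat.cast_nonneg k)
      nlinarith
    linarith
  have hkL : 6 * (k : ℝ) ≤ L := by
    have : (k : ℝ) * 1 ≤ k * l := mul_le_mul_of_nonneg_left g2 (Nat.cast_nonneg k)
    linarith
  have hy2 : (2 : ℝ) ≤ y := by
    refine hL2.trans (le_trans ?_ hy)
    calc L = L ^ (1 : ℝ) := (Real.rpow_one L).symm
      _ ≤ L ^ (1 + ε) := Real.rpow_le_rpow_of_exponent_le (by linarith) (by linarith)
  have hy2' : 2 ≤ y := by exact_mod_cast hy2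
  set P : Finset ℕ := (Ioc y z).filter Nat.Prime with hP
  have hPp : ∀ p ∈ P, p.Prime ∧ p ≠ 2 ∧ p ≤ z := by
    intro p hp
    rw [hP, mem_filter, mem_Ioc] at hp
    exact ⟨hp.2, by omega, hp.1.2⟩
  have hm := xmom P k X z hk1' hPp
  have hch := cheb X k (fun n => ∑ p ∈ P, (jacobiSym (n : ℤ) p : ℝ) / p) hη hm
  refine hch.trans ?_
  -- first term
  have hs1 : ∑ p ∈ P, (1 / (p : ℝ)) ^ 2 ≤ 1 / (y : ℝ) :=
    (sum_le_sum_of_subset_of_nonneg (filter_subset _ _) fun p _ _ => sq_nonneg _).trans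
      (sq_tail y z (by omega))
  have hA : (6 * k * ∑ p ∈ P, (1 / (p : ℝ)) ^ 2) ^ k ≤ Real.exp (-(ε * (k * l))) := by
    have h5 : 6 * (k : ℝ) * ∑ p ∈ P, (1 / (p : ℝ)) ^ 2 ≤ Real.exp (-(ε * l)) := by
      have h6 : 1 / (y : ℝ) ≤ 1 / L ^ (1 + ε) :=
        one_div_le_one_div_of_le (Real.rpow_pos_of_pos hL0 _) hy
      have h7 : 1 / L ^ (1 + ε) = Real.exp (-(ε * l)) / L := by
        rw [Real.rpow_def_of_pos hL0, ← hl, one_div, ← Real.exp_neg]
        conv_rhs => rw [hLe]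
        rw [← Real.exp_sub]
        congr 1
        ring
      calc 6 * (k : ℝ) * ∑ p ∈ P, (1 / (p : ℝ)) ^ 2
          ≤ L * (Real.exp (-(ε * l)) / L) := by
            refine mul_le_mul hkL ?_ (sum_nonneg fun p _ => sq_nonneg _) hL0.le
            rw [← h7]
            exact hs1.trans h6
        _ = Real.exp (-(ε * l)) := by field_simp
    refine (pow_le_pow_left₀ (by positivity) h5 k).trans (le_of_eq ?_)
    rw [← Real.exp_nat_mul]
    congr 1
    ring
  have hA2 : Real.exp (-(ε * (k * l))) ≤ Real.exp (-(4 * δ * L)) := by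
    rw [Real.exp_le_exp, neg_le_neg_iff]
    have h5 : δ ≤ ε / (64 * B) := min_le_left _ _
    have h6 : 4 * δ * L ≤ ε / (16 * B) * L := by
      refine mul_le_mul_of_nonneg_right ?_ hL0.le
      have : ε / (16 * B) = 4 * (ε / (64 * B)) := by
        field_simp
        norm_num
      linarith
    have h7 : ε / (16 * B) * L ≤ ε * (k * l) := by
      have h8 : ε / (16 * B) * L = ε / B * (L / 16) := by
        field_simp
      rw [h8]
      refine (mul_le_mul_of_nonneg_left hkB' (by positivity)).trans (le_of_eq ?_)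
      field_simp
    exact h6.trans h7
  -- second term
  have hz' : (z : ℝ) ≤ Real.exp (B * l) := by
    refine hz.trans (le_of_eq ?_)
    rw [hLe, ← Real.exp_nat_mul]
  have hs2 : ∑ p ∈ P, 1 / (p : ℝ) ≤ Real.exp (B * l) := by
    refine le_trans ?_ hz'
    have h5 : ∀ p ∈ P, 1 / (p : ℝ) ≤ 1 := by
      intro p hp
      have h6 : (1 : ℝ) ≤ p := by exact_mod_cast (hPp p hp).1.one_lt.le
      rw [div_le_one (by linarith)]
      exact h6
    refine (sum_le_sum h5).trans ?_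
    rw [sum_const, nsmul_eq_mul, mul_one]
    have h7 : P.card ≤ z := by
      refine (card_le_card (filter_subset _ _)).trans ?_
      rw [Nat.card_Ioc]
      omega
    exact_mod_cast h7
  have hB2 : (z : ℝ) ^ (2 * k) * (∑ p ∈ P, 1 / (p : ℝ)) ^ (2 * k) ≤ Real.exp (L / 2) := by
    have h5 : (z : ℝ) ^ (2 * k) ≤ Real.exp (B * l) ^ (2 * k) :=
      pow_le_pow_left₀ (Nat.cast_nonneg z) hz' _
    have h6 : (∑ p ∈ P, 1 / (p : ℝ)) ^ (2 * k) ≤ Real.exp (B * l) ^ (2 * k) :=
      pow_le_pow_left₀ (sum_nonneg fun p _ => by positivity) hs2 _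
    refine (mul_le_mul h5 h6 (pow_nonneg (sum_nonneg fun p _ => by positivity) _)
      (by positivity)).trans ?_
    rw [← Real.exp_nat_mul, ← Real.exp_add, Real.exp_le_exp]
    push_cast
    nlinarith
  have hB3 : Real.exp (L / 2) ≤ Real.exp (L - 4 * δ * L) := by
    rw [Real.exp_le_exp]
    have h5 : δ ≤ 1 / 8 := min_le_right _ _
    nlinarith
  -- the factor
  have hfac : (η ^ (2 * k))⁻¹ ≤ Real.exp (δ * L) := by
    have h5 : (η ^ (2 * k))⁻¹ = Real.exp (-(2 * k * Real.log η)) := by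
      rw [Real.exp_neg, ← Real.exp_log hη, ← Real.exp_nat_mul, Real.exp_log hη]
      push_cast
      rfl
    rw [h5, Real.exp_le_exp]
    have h6 : |Real.log η| ≤ δ * l := by
      rw [div_le_iff₀ hδ] at g3
      linarith
    have h7 : -(2 * (k : ℝ) * Real.log η) ≤ 2 * k * (δ * l) := by
      have h8 : -Real.log η ≤ δ * l := (neg_le_abs _).trans h6
      have h9 := mul_le_mul_of_nonneg_left h8 (by positivity : (0 : ℝ) ≤ 2 * k)
      linarith
    have h10 : 2 * (k : ℝ) * (δ * l) ≤ δ * L := by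
      have h11 := mul_le_mul_of_nonneg_left hkl (by positivity : (0 : ℝ) ≤ 2 * δ)
      nlinarith
    exact h7.trans h10
  have hfin : (X : ℝ) ^ (1 - δ) = Real.exp (L * (1 - δ)) := by
    rw [Real.rpow_def_of_pos hXr]
  rw [hfin, div_eq_mul_inv]
  have hT : (X : ℝ) * (6 * k * ∑ p ∈ P, (1 / (p : ℝ)) ^ 2) ^ k +
      (z : ℝ) ^ (2 * k) * (∑ p ∈ P, 1 / (p : ℝ)) ^ (2 * k) ≤
      2 * Real.exp (L - 4 * δ * L) := by
    have h5 : (X : ℝ) * (6 * k * ∑ p ∈ P, (1 / (p : ℝ)) ^ 2) ^ k ≤ Real.exp (L - 4 * δ * L) := by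
      refine (mul_le_mul_of_nonneg_left (hA.trans hA2) hXr.le).trans (le_of_eq ?_)
      rw [hXe, ← Real.exp_add]
      congr 1
    have h6 := hB2.trans hB3
    linarith
  refine (mul_le_mul hT hfac (by positivity) (by positivity)).trans ?_
  have h12 : (2 : ℝ) ≤ Real.exp (2 * δ * L) := by
    rw [← Real.log_le_iff_le_exp (by norm_num)]
    rw [div_le_iff₀ (by positivity)] at g4
    linarith
  calc 2 * Real.exp (L - 4 * δ * L) * Real.exp (δ * L)
      ≤ Real.exp (2 * δ * L) * Real.exp (L - 4 * δ * L) * Real.exp (δ * L) := by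
        gcongr
    _ = Real.exp (L * (1 - δ)) := by
        rw [← Real.exp_add, ← Real.exp_add]
        congr 1
        ring

end Pool.Agent.Lib.SPP
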