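import Pool.Agent.Lib.SPP.Loc
import Pool.Agent.Lib.P83e.Prod

/-!
# SPP.XPr: extreme values of the product (1.5 h)

PROOF. We may assume `ε ≤ 1/2` (the two bounds for `min ε (1/2)` imply those for `ε`). `ε1 = ε/80`, `η = ε/8`. Let `L = log X`, `L ≤ y ≤ L^(1+ε1) + 1`, `√X ≤ n ≤ X`, so `L/2 ≤ log n ≤ L ≤ y`. The set of `SS z 1 n` is the set of primes `≤ z` (`gp 2 n = 0`);
split it into `O = oddPr (log n)` (odd primes `≤ log n`), `M` = primes in `(log n, y]`, `T` = primes in `(y, z]`.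
`O`: `(p-2)/(p-1) ≤ 1 + gp p n ≤ p/(p-1)` (`|J| ≤ 1`). `M`: `exp(-4/p) ≤ 1 - 1/(p-1) ≤ 1 + gp p n ≤ 1 + 1/(p-1) ≤ exp(2/p)` (`p ≥ 5`: `1 - x ≥ e^(-2x)` for `0 ≤ x ≤ 1/2`, `1/(p-1) ≤ 2/p`), and
`∑_{p ∈ M} 1/p ≤ loglog y - loglog(L/2) + C exp(-loglog(L/2))` (`P4a7640L.mertens_upper`, used in the same way in `P83e.ProdAux.small_sum`) `≤ 2 ε1` for large `X`, because
`log y ≤ (1 + ε1) log L + 1` and `log(L/2) ≥ log L - 1`. `T`: `|log(1 + gp p n) + J(n|p)/p| ≤ 5/p²` for `p ≥ 5` (`|log(1+u) - u| ≤ u²` for `|u| ≤ 1/2`, `|J/(p-1) - J/p| ≤ 2/p²`), `∑_{p > y} 5/p² ≤ 5/y ≤ ε/16` for large `X`;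
so the product over `T` is in `[exp(-η - ε/16), exp(η + ε/16)]`. Total factor: at least `exp(-8 ε1 - ε/8 - ε/16) ≥ exp(-ε/2) ≥ 1 - ε`, at most `exp(4 ε1 + ε/8 + ε/16) ≤ exp(ε/2) ≤ 1 + ε`.
-/

set_option autoImplicit false

open Finset Filter

namespace Pool.Agent.Lib.SPP

namespace XPrAux

open Pool.Agent.Lib.P4a7640L

theorem abs_J (n p : ℕ) : |(jacobiSym (n : ℤ) p : ℝ)| ≤ 1 := by
  rcases jacobiSym.trichotomy (n : ℤ) p with h | h | h <;> rw [h] <;> simp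

/-- `exp (u - 2 u ^ 2) ≤ 1 + u` -/
theorem exp_le (u : ℝ) (h : -(1 / 2) ≤ u) : Real.exp (u - 2 * u ^ 2) ≤ 1 + u := by
  have h0 : 0 < 1 + u := by linarith
  rw [← Real.le_log_iff_exp_le h0]
  have h1 := Real.one_sub_inv_le_log_of_pos h0
  refine le_trans ?_ h1
  have h2 : 1 - (1 + u)⁻¹ = u / (1 + u) := by
    field_simp
    ring
  rw [h2, le_div_iff₀ h0]
  nlinarith [sq_nonneg u]

/-- the factors of the large primes -/
theorem factor {p : ℕ} (hp : 5 ≤ p) (n : ℕ) :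
    Real.exp (-((jacobiSym (n : ℤ) p : ℝ) / p) - 10 * ((p : ℝ) ^ 2)⁻¹) ≤ 1 + gp p n ∧
    1 + gp p n ≤ Real.exp (-((jacobiSym (n : ℤ) p : ℝ) / p) + 10 * ((p : ℝ) ^ 2)⁻¹) := by
  have hp5 : (5 : ℝ) ≤ p := by exact_mod_cast hp
  have hg : gp p n = -(jacobiSym (n : ℤ) p : ℝ) / ((p : ℝ) - 1) := by
    unfold gp
    rw [if_neg (by omega)]
  have hJ := abs_J n p
  generalize (jacobiSym (n : ℤ) p : ℝ) = J at hg hJ ⊢
  generalize gp p n = u at hg ⊢
  generalize (p : ℝ) = q at hp5 hg ⊢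
  have hJ2 : J ^ 2 ≤ 1 := by
    have := sq_abs J
    nlinarith [abs_nonneg J]
  have h1 : u = -(J / q) - J / (q * (q - 1)) := by
    rw [hg]
    have : q - 1 ≠ 0 := by linarith
    field_simp
    ring
  have h2 : |J / (q * (q - 1))| ≤ 2 * (q ^ 2)⁻¹ := by
    rw [abs_div, abs_of_pos (by nlinarith : 0 < q * (q - 1)), div_le_iff₀ (by nlinarith)]
    have h3 : 2 * (q ^ 2)⁻¹ * (q * (q - 1)) = 2 * (q - 1) / q := by
      field_simp
    rw [h3, le_div_iff₀ (by linarith)]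
    nlinarith [abs_nonneg J]
  have h4 : u ^ 2 ≤ 4 * (q ^ 2)⁻¹ := by
    rw [hg, div_pow, neg_sq, div_le_iff₀ (by nlinarith)]
    have h3 : 4 * (q ^ 2)⁻¹ * (q - 1) ^ 2 = 4 * (q - 1) ^ 2 / q ^ 2 := by
      field_simp
    rw [h3, le_div_iff₀ (by positivity)]
    nlinarith
  have h5 : -(1 / 2) ≤ u := by
    have h6 : (q ^ 2)⁻¹ ≤ 1 / 25 := by
      rw [inv_le_comm₀ (by positivity) (by norm_num)]
      nlinarith
    nlinarith
  rw [abs_le] at h2
  constructor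
  · refine le_trans (Real.exp_le_exp.2 ?_) (exp_le u h5)
    linarith
  · have h7 := Real.add_one_le_exp u
    have h8 : u ≤ -(J / q) + 10 * (q ^ 2)⁻¹ := by
      have : 0 ≤ (q ^ 2)⁻¹ := by positivity
      linarith
    linarith [Real.exp_le_exp.2 h8]

/-- the product over the large primes -/
theorem prodT (n y z : ℕ) (hy : 5 ≤ y) (hyz : y ≤ z) (η : ℝ)
    (h : |∑ p ∈ (Ioc y z).filter Nat.Prime, (jacobiSym (n : ℤ) p : ℝ) / p| ≤ η) :
    Real.exp (-η - 10 / y) ≤ ∏ p ∈ (Ioc y z).filter Nat.Prime, (1 + gp p n) ∧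
    ∏ p ∈ (Ioc y z).filter Nat.Prime, (1 + gp p n) ≤ Real.exp (η + 10 / y) := by
  rw [abs_le] at h
  have hs : ∑ p ∈ (Ioc y z).filter Nat.Prime, 10 * ((p : ℝ) ^ 2)⁻¹ ≤ 10 / y := by
    rw [← Finset.mul_sum]
    have h1 : ∑ p ∈ (Ioc y z).filter Nat.Prime, ((p : ℝ) ^ 2)⁻¹ ≤ ∑ p ∈ Ioc y z, ((p : ℝ) ^ 2)⁻¹ :=
      Finset.sum_le_sum_of_subset_of_nonneg (Finset.filter_subset _ _) fun _ _ _ => by positivity
    have h2 : ∑ p ∈ Ioc y z, ((p : ℝ) ^ 2)⁻¹ ≤ (y : ℝ)⁻¹ - (z : ℝ)⁻¹ :=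
      sum_Ioc_inv_sq_le_sub (by omega) hyz
    have h3 : 0 ≤ (z : ℝ)⁻¹ := by positivity
    rw [div_eq_mul_inv]
    linarith
  have h5 : ∀ p ∈ (Ioc y z).filter Nat.Prime, 5 ≤ p := fun p hp => by
    have := (Finset.mem_Ioc.1 (Finset.mem_filter.1 hp).1).1
    omega
  constructor
  · calc Real.exp (-η - 10 / y)
        ≤ Real.exp (∑ p ∈ (Ioc y z).filter Nat.Prime,
            (-((jacobiSym (n : ℤ) p : ℝ) / p) - 10 * ((p : ℝ) ^ 2)⁻¹)) := by
          apply Real.exp_le_exp.2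
          rw [Finset.sum_sub_distrib, Finset.sum_neg_distrib]
          linarith
      _ = ∏ p ∈ (Ioc y z).filter Nat.Prime,
            Real.exp (-((jacobiSym (n : ℤ) p : ℝ) / p) - 10 * ((p : ℝ) ^ 2)⁻¹) := Real.exp_sum _ _
      _ ≤ _ := Finset.prod_le_prod (fun _ _ => (Real.exp_pos _).le) fun p hp => (factor (h5 p hp) n).1
  · calc ∏ p ∈ (Ioc y z).filter Nat.Prime, (1 + gp p n)
        ≤ ∏ p ∈ (Ioc y z).filter Nat.Prime,
            Real.exp (-((jacobiSym (n : ℤ) p : ℝ) / p) + 10 * ((p : ℝ) ^ 2)⁻¹) :=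
          Finset.prod_le_prod (fun p hp => one_add_gp_nonneg (Finset.mem_filter.1 hp).2 n)
            fun p hp => (factor (h5 p hp) n).2
      _ = Real.exp (∑ p ∈ (Ioc y z).filter Nat.Prime,
            (-((jacobiSym (n : ℤ) p : ℝ) / p) + 10 * ((p : ℝ) ^ 2)⁻¹)) := (Real.exp_sum _ _).symm
      _ ≤ Real.exp (η + 10 / y) := by
          apply Real.exp_le_exp.2
          rw [Finset.sum_add_distrib, Finset.sum_neg_distrib]
          linarith

/-- the product over the middle primes -/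
theorem prodM (n : ℕ) (s : Finset ℕ) (hs : ∀ p ∈ s, p.Prime ∧ 5 ≤ p) (b : ℝ)
    (h : ∑ p ∈ s, (1 : ℝ) / p ≤ b) :
    Real.exp (-(4 * b)) ≤ ∏ p ∈ s, (1 + gp p n) ∧ ∏ p ∈ s, (1 + gp p n) ≤ Real.exp (2 * b) := by
  have hb : ∀ p ∈ s, Real.exp (-(4 * ((1 : ℝ) / p))) ≤ 1 + gp p n ∧
      1 + gp p n ≤ Real.exp (2 * ((1 : ℝ) / p)) := by
    intro p hp
    obtain ⟨h1, h2⟩ := hs p hp
    have hp5 : (5 : ℝ) ≤ p := by exact_mod_cast h2
    have h3 := abs_gp_le h1 n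
    have h4 : 1 / ((p : ℝ) - 1) ≤ 2 * ((1 : ℝ) / p) := by
      rw [div_le_iff₀ (by linarith)]
      have : 2 * (1 / (p : ℝ)) * ((p : ℝ) - 1) = 2 - 2 / p := by
        field_simp
      rw [this]
      have : 2 / (p : ℝ) ≤ 1 := by
        rw [div_le_one (by linarith)]
        linarith
      linarith
    have h6 : 1 / ((p : ℝ) - 1) ≤ 1 / 4 := by
      rw [div_le_div_iff₀ (by linarith) (by norm_num)]
      linarith
    have h7 : 0 < 1 / ((p : ℝ) - 1) := by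
      have : 0 < (p : ℝ) - 1 := by linarith
      positivity
    generalize 1 / ((p : ℝ) - 1) = a at h3 h4 h6 h7
    rw [abs_le] at h3
    constructor
    · refine le_trans (Real.exp_le_exp.2 ?_) (exp_le (gp p n) (by linarith))
      nlinarith
    · have h8 := Real.add_one_le_exp (gp p n)
      linarith [Real.exp_le_exp.2 (by linarith : gp p n ≤ 2 * ((1 : ℝ) / p))]
  constructor
  · calc Real.exp (-(4 * b)) ≤ Real.exp (∑ p ∈ s, (-(4 * ((1 : ℝ) / p)))) := by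
          apply Real.exp_le_exp.2
          rw [Finset.sum_neg_distrib, ← Finset.mul_sum]
          linarith
      _ = ∏ p ∈ s, Real.exp (-(4 * ((1 : ℝ) / p))) := Real.exp_sum _ _
      _ ≤ _ := Finset.prod_le_prod (fun _ _ => (Real.exp_pos _).le) fun p hp => (hb p hp).1
  · calc ∏ p ∈ s, (1 + gp p n) ≤ ∏ p ∈ s, Real.exp (2 * ((1 : ℝ) / p)) :=
          Finset.prod_le_prod (fun p hp => one_add_gp_nonneg (hs p hp).1 n) fun p hp => (hb p hp).2
      _ = Real.exp (∑ p ∈ s, 2 * ((1 : ℝ) / p)) := (Real.exp_sum _ _).symm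
      _ ≤ Real.exp (2 * b) := by
          apply Real.exp_le_exp.2
          rw [← Finset.mul_sum]
          linarith

/-- the product over the small primes -/
theorem prodO (n w : ℕ) (t : ℝ) (hw : w = ⌊t⌋₊) :
    ∏ q ∈ P83e.oddPr t, (((q : ℝ) - 2) / ((q : ℝ) - 1)) ≤
      ∏ p ∈ (Ioc 0 w).filter Nat.Prime, (1 + gp p n) ∧
    ∏ p ∈ (Ioc 0 w).filter Nat.Prime, (1 + gp p n) ≤ ∏ q ∈ P83e.oddPr t, ((q : ℝ) / ((q : ℝ) - 1)) := by
  have h1 : ∏ p ∈ (Ioc 0 w).filter Nat.Prime, (1 + gp p n) = ∏ p ∈ P83e.oddPr t, (1 + gp p n) := by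
    symm
    apply Finset.prod_subset
    · intro q hq
      rw [P83e.ProdAux.mem_oddPr] at hq
      rw [Finset.mem_filter, Finset.mem_Ioc]
      exact ⟨⟨hq.2.1.pos, by omega⟩, hq.2.1⟩
    · intro q hq hq'
      rw [Finset.mem_filter, Finset.mem_Ioc] at hq
      rw [P83e.ProdAux.mem_oddPr] at hq'
      have h2 := hq.2.two_le
      have h3 : q = 2 := by
        by_contra h
        exact hq' ⟨by omega, hq.2, by omega⟩
      unfold gp
      rw [if_pos h3, add_zero]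
  rw [h1]
  have h3 : ∀ q ∈ P83e.oddPr t, (3 : ℝ) ≤ q ∧ q.Prime := by
    intro q hq
    rw [P83e.ProdAux.mem_oddPr] at hq
    exact ⟨by exact_mod_cast hq.2.2, hq.2.1⟩
  constructor
  · apply Finset.prod_le_prod
    · intro q hq
      have h4 := (h3 q hq).1
      exact div_nonneg (by linarith) (by linarith)
    · intro q hq
      obtain ⟨h4, h5⟩ := h3 q hq
      have h6 := (abs_le.1 (abs_gp_le h5 n)).1
      have h7 : ((q : ℝ) - 2) / ((q : ℝ) - 1) = 1 - 1 / ((q : ℝ) - 1) := by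
        have : (q : ℝ) - 1 ≠ 0 := by linarith
        field_simp
        ring
      rw [h7]
      linarith
  · apply Finset.prod_le_prod
    · intro q hq
      exact one_add_gp_nonneg (h3 q hq).2 n
    · intro q hq
      obtain ⟨h4, h5⟩ := h3 q hq
      have h6 := (abs_le.1 (abs_gp_le h5 n)).2
      have h7 : (q : ℝ) / ((q : ℝ) - 1) = 1 + 1 / ((q : ℝ) - 1) := by
        have : (q : ℝ) - 1 ≠ 0 := by linarith
        field_simp
        ring
      rw [h7]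
      linarith

/-- splitting of the product -/
theorem split (n w y z : ℕ) (hwy : w ≤ y) (hyz : y ≤ z) :
    SS z 1 n = (∏ p ∈ (Ioc 0 w).filter Nat.Prime, (1 + gp p n)) *
      ((∏ p ∈ (Ioc w y).filter Nat.Prime, (1 + gp p n)) *
        ∏ p ∈ (Ioc y z).filter Nat.Prime, (1 + gp p n)) := by
  have h1 : (Nat.primesLE z).filter (fun p => ¬ p ∣ 1) = (Ioc 0 z).filter Nat.Prime := by
    ext p
    rw [Finset.mem_filter, Finset.mem_filter, Finset.mem_Ioc, Nat.mem_primesLE, Nat.dvd_one]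
    constructor
    · rintro ⟨⟨h1, h2⟩, _⟩
      exact ⟨⟨h2.pos, h1⟩, h2⟩
    · rintro ⟨⟨_, h1⟩, h2⟩
      exact ⟨⟨h1, h2⟩, h2.one_lt.ne'⟩
  have hd : ∀ a b c : ℕ, Disjoint ((Ioc a b).filter Nat.Prime) ((Ioc b c).filter Nat.Prime) := by
    intro a b c
    apply Finset.disjoint_filter_filter
    rw [Finset.disjoint_left]
    intro x hx hx'
    rw [Finset.mem_Ioc] at hx hx'
    omega
  unfold SS
  rw [h1, ← Finset.prod_union (hd _ _ _), ← Finset.filter_union, Finset.Ioc_union_Ioc_eq_Ioc hwy hyz,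
    ← Finset.prod_union (hd _ _ _), ← Finset.filter_union,
    Finset.Ioc_union_Ioc_eq_Ioc (Nat.zero_le _) (hwy.trans hyz)]

/-- the sum over the middle primes -/
theorem mid (e : ℝ) (he : 0 < e) (he1 : e ≤ 1) : ∀ᶠ L : ℝ in atTop, ∀ s : Finset ℕ,
    (∀ p ∈ s, p.Prime ∧ L / 2 ≤ p ∧ (p : ℝ) ≤ L ^ (1 + e) + 1) → ∑ p ∈ s, (1 : ℝ) / p ≤ 2 * e := by
  obtain ⟨C, hC, hM⟩ := mertens_upper
  have ht : Tendsto (fun L : ℝ => Real.log (L / 2)) atTop atTop :=
    Real.tendsto_log_atTop.comp (tendsto_id.atTop_div_const (by norm_num))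
  filter_upwards [ht.eventually_ge_atTop (max 1 ((4 + C) / e)), eventually_ge_atTop (2 : ℝ)]
    with L hL hL2 s hs
  set v := Real.log (L / 2) with hv
  have hv1 : 1 ≤ v := le_trans (le_max_left _ _) hL
  have hv2 : (4 + C) / e ≤ v := le_trans (le_max_right _ _) hL
  have hv0 : 0 < v := by linarith
  have hL0 : 0 < L := by linarith
  have hlog : Real.log L = v + Real.log 2 := by
    rw [hv, Real.log_div hL0.ne' (by norm_num)]
    ring
  have hl2 : Real.log 2 ≤ 1 := by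
    have := Real.log_two_lt_d9
    linarith
  have hl20 : 0 < Real.log 2 := Real.log_pos (by norm_num)
  have hpow : (1 : ℝ) ≤ L ^ (1 + e) := Real.one_le_rpow (by linarith) (by linarith)
  have hbeta : Real.log (2 * L ^ (1 + e)) = Real.log 2 + (1 + e) * (v + Real.log 2) := by
    rw [Real.log_mul (by norm_num) (by positivity), Real.log_rpow hL0, hlog]
  have hL2' : 1 ≤ L / 2 := by linarith
  have h3 : ∀ q ∈ s, q.Prime ∧ ll (L / 2) ≤ ll q ∧ ll q ≤ ll (2 * L ^ (1 + e)) := by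
    intro q hq
    obtain ⟨h4, h5, h6⟩ := hs q hq
    have h7 : v ≤ Real.log q := Real.log_le_log (by linarith) h5
    have h8 : Real.log q ≤ Real.log (2 * L ^ (1 + e)) := Real.log_le_log (by linarith) (by linarith)
    exact ⟨h4, Real.log_le_log (by linarith) h7, Real.log_le_log (by linarith) h8⟩
  have hα : 0 ≤ ll (L / 2) := by
    show 0 ≤ Real.log v
    exact Real.log_nonneg hv1
  have hαβ : ll (L / 2) ≤ ll (2 * L ^ (1 + e)) := by
    show Real.log v ≤ Real.log (Real.log (2 * L ^ (1 + e)))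
    rw [hbeta]
    apply Real.log_le_log (by linarith)
    nlinarith
  have h9 := hM _ _ hα hαβ s h3
  have h10 : ll (2 * L ^ (1 + e)) - ll (L / 2) ≤ e + 4 / v := by
    show Real.log (Real.log (2 * L ^ (1 + e))) - Real.log v ≤ e + 4 / v
    rw [hbeta, ← Real.log_div (by nlinarith) (by positivity)]
    have h11 : (Real.log 2 + (1 + e) * (v + Real.log 2)) / v = 1 + (e + (2 + e) * Real.log 2 / v) := by
      field_simp
      ring
    rw [h11]
    have h12 := Real.log_le_sub_one_of_pos (show (0 : ℝ) < 1 + (e + (2 + e) * Real.log 2 / v) by positivity)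
    have h13 : (2 + e) * Real.log 2 / v ≤ 4 / v := by
      apply div_le_div_of_nonneg_right _ hv0.le
      nlinarith
    linarith
  have h12 : Real.exp (-ll (L / 2)) = 1 / v := by
    show Real.exp (-Real.log v) = 1 / v
    rw [Real.exp_neg, Real.exp_log hv0, one_div]
  rw [h12] at h9
  have h13 : (4 + C) / v ≤ e := by
    rw [div_le_iff₀ hv0]
    rw [div_le_iff₀ he] at hv2
    linarith
  have h14 : 4 / v + C * (1 / v) = (4 + C) / v := by ring
  linarith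

theorem main (ε : ℝ) (hε : 0 < ε) (hε1 : ε ≤ 1) : ∀ᶠ X : ℕ in atTop,
    ∀ y z n : ℕ, (y : ℝ) ≤ Real.log X ^ (1 + ε / 80) + 1 → Real.log X ≤ y → y ≤ z →
    Real.sqrt X ≤ n → n ≤ X →
    |∑ p ∈ (Ioc y z).filter Nat.Prime, (jacobiSym (n : ℤ) p : ℝ) / p| ≤ ε / 8 →
    (1 - ε) * ∏ q ∈ P83e.oddPr (Real.log n), (((q : ℝ) - 2) / ((q : ℝ) - 1)) ≤ SS z 1 n ∧
      SS z 1 n ≤ (1 + ε) * ∏ q ∈ P83e.oddPr (Real.log n), ((q : ℝ) / ((q : ℝ) - 1)) := by
  have hlog : Tendsto (fun X : ℕ => Real.log (X : ℝ)) atTop atTop :=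
    Real.tendsto_log_atTop.comp tendsto_natCast_atTop_atTop
  filter_upwards [hlog.eventually (mid (ε / 80) (by positivity) (by linarith)),
    hlog.eventually_ge_atTop (12 + 160 / ε), eventually_ge_atTop 1] with X hmid hL hX1 y z n hy hLy hyz hn hnX hT
  have hq : 0 < 160 / ε := by positivity
  have hX0 : (0 : ℝ) < X := by exact_mod_cast hX1
  have hs0 : 0 < Real.sqrt X := Real.sqrt_pos.2 hX0
  have hn0 : (0 : ℝ) < n := by linarith
  have hlow : Real.log X / 2 ≤ Real.log n := by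
    rw [← Real.log_sqrt hX0.le]
    exact Real.log_le_log hs0 hn
  have hup : Real.log n ≤ Real.log X := Real.log_le_log hn0 (by exact_mod_cast hnX)
  have hw5 : 5 ≤ ⌊Real.log n⌋₊ := by
    apply Nat.le_floor
    push_cast
    linarith
  have hwy : ⌊Real.log n⌋₊ ≤ y := by
    have h1 : ((⌊Real.log n⌋₊ : ℕ) : ℝ) ≤ y := (Nat.floor_le (by linarith)).trans (hup.trans hLy)
    exact_mod_cast h1
  have hy5 : 5 ≤ y := hw5.trans hwy
  have hy0 : (0 : ℝ) < y := by linarith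
  have hyε : 10 / (y : ℝ) ≤ ε / 16 := by
    rw [div_le_iff₀ hy0]
    have h1 : 160 / ε ≤ y := by linarith
    rw [div_le_iff₀ hε] at h1
    linarith
  obtain ⟨hO1, hO2⟩ := prodO n ⌊Real.log n⌋₊ (Real.log n) rfl
  obtain ⟨hT1, hT2⟩ := prodT n y z hy5 hyz (ε / 8) hT
  have hM := prodM n ((Ioc ⌊Real.log n⌋₊ y).filter Nat.Prime) (fun p hp => by
    rw [Finset.mem_filter, Finset.mem_Ioc] at hp
    exact ⟨hp.2, by omega⟩) (2 * (ε / 80)) (hmid _ fun p hp => by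
    rw [Finset.mem_filter, Finset.mem_Ioc] at hp
    refine ⟨hp.2, ?_, le_trans (by exact_mod_cast hp.1.2) hy⟩
    have h1 : Real.log n < p := (Nat.floor_lt (by linarith)).1 hp.1.1
    linarith)
  obtain ⟨hM1, hM2⟩ := hM
  rw [split n ⌊Real.log n⌋₊ y z hwy hyz]
  generalize ∏ p ∈ (Ioc 0 ⌊Real.log n⌋₊).filter Nat.Prime, (1 + gp p n) = PO at hO1 hO2 ⊢
  generalize ∏ p ∈ (Ioc ⌊Real.log n⌋₊ y).filter Nat.Prime, (1 + gp p n) = PM at hM1 hM2 ⊢
  generalize ∏ p ∈ (Ioc y z).filter Nat.Prime, (1 + gp p n) = PT at hT1 hT2 ⊢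
  have hlo0 : 0 ≤ ∏ q ∈ P83e.oddPr (Real.log n), (((q : ℝ) - 2) / ((q : ℝ) - 1)) := by
    apply Finset.prod_nonneg
    intro q hq
    rw [P83e.ProdAux.mem_oddPr] at hq
    have h3 : (3 : ℝ) ≤ q := by exact_mod_cast hq.2.2
    exact div_nonneg (by linarith) (by linarith)
  generalize ∏ q ∈ P83e.oddPr (Real.log n), (((q : ℝ) - 2) / ((q : ℝ) - 1)) = Pl at hO1 hlo0 ⊢
  generalize ∏ q ∈ P83e.oddPr (Real.log n), ((q : ℝ) / ((q : ℝ) - 1)) = Ph at hO2 ⊢
  have hE1 : 1 - ε ≤ PM * PT := by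
    have h1 : Real.exp (-(4 * (2 * (ε / 80)))) * Real.exp (-(ε / 8) - 10 / y) ≤ PM * PT :=
      mul_le_mul hM1 hT1 (Real.exp_pos _).le ((Real.exp_pos _).le.trans hM1)
    refine le_trans ?_ h1
    rw [← Real.exp_add]
    have h2 := Real.add_one_le_exp (-(4 * (2 * (ε / 80))) + (-(ε / 8) - 10 / y))
    linarith
  have hE2 : PM * PT ≤ 1 + ε := by
    have h1 : PM * PT ≤ Real.exp (2 * (2 * (ε / 80))) * Real.exp (ε / 8 + 10 / y) :=
      mul_le_mul hM2 hT2 ((Real.exp_pos _).le.trans hT1) (Real.exp_pos _).le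
    refine h1.trans ?_
    rw [← Real.exp_add]
    have h2 : Real.exp (2 * (2 * (ε / 80)) + (ε / 8 + 10 / y)) ≤ Real.exp (ε / 2) :=
      Real.exp_le_exp.2 (by linarith)
    refine h2.trans ?_
    have h3 := Real.abs_exp_sub_one_sub_id_le (x := ε / 2) (by rw [abs_of_pos (by positivity)]; linarith)
    have h4 := (abs_le.1 h3).2
    nlinarith
  have hE0 : 0 ≤ PM * PT := mul_nonneg ((Real.exp_pos _).le.trans hM1) ((Real.exp_pos _).le.trans hT1)
  constructor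
  · calc (1 - ε) * Pl ≤ (PM * PT) * Pl := mul_le_mul_of_nonneg_right hE1 hlo0
      _ = Pl * (PM * PT) := mul_comm _ _
      _ ≤ PO * (PM * PT) := mul_le_mul_of_nonneg_right hO1 hE0
  · calc PO * (PM * PT) ≤ Ph * (PM * PT) := mul_le_mul_of_nonneg_right hO2 hE0
      _ ≤ Ph * (1 + ε) := mul_le_mul_of_nonneg_left hE2 (hlo0.trans (hO1.trans hO2))
      _ = (1 + ε) * Ph := mul_comm _ _

end XPrAux

theorem xpr (ε : ℝ) (hε : 0 < ε) : ∃ ε1 η : ℝ, 0 < ε1 ∧ 0 < η ∧ ∀ᶠ X : ℕ in atTop,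
    ∀ y z n : ℕ, (y : ℝ) ≤ Real.log X ^ (1 + ε1) + 1 → Real.log X ≤ y → y ≤ z →
    Real.sqrt X ≤ n → n ≤ X →
    |∑ p ∈ (Ioc y z).filter Nat.Prime, (jacobiSym (n : ℤ) p : ℝ) / p| ≤ η →
    (1 - ε) * ∏ q ∈ P83e.oddPr (Real.log n), (((q : ℝ) - 2) / ((q : ℝ) - 1)) ≤ SS z 1 n ∧
      SS z 1 n ≤ (1 + ε) * ∏ q ∈ P83e.oddPr (Real.log n), ((q : ℝ) / ((q : ℝ) - 1)) := by
  have hm : 0 < min ε 1 := lt_min hε one_pos
  refine ⟨min ε 1 / 80, min ε 1 / 8, by positivity, by positivity, ?_⟩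
  filter_upwards [XPrAux.main (min ε 1) hm (min_le_right _ _)] with X hX y z n h1 h2 h3 h4 h5 h6
  obtain ⟨h7, h8⟩ := hX y z n h1 h2 h3 h4 h5 h6
  have hle : min ε 1 ≤ ε := min_le_left _ _
  have h3' : ∀ q ∈ P83e.oddPr (Real.log n), (3 : ℝ) ≤ q := by
    intro q hq
    rw [P83e.ProdAux.mem_oddPr] at hq
    exact_mod_cast hq.2.2
  constructor
  · refine le_trans (mul_le_mul_of_nonneg_right (by linarith) ?_) h7
    apply Finset.prod_nonneg
    intro q hq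
    have := h3' q hq
    exact div_nonneg (by linarith) (by linarith)
  · refine le_trans h8 (mul_le_mul_of_nonneg_right (by linarith) ?_)
    apply Finset.prod_nonneg
    intro q hq
    have := h3' q hq
    exact div_nonneg (by linarith) (by linarith)

end Pool.Agent.Lib.SPP
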