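import Pool.Agent.Lib.SPP.XCh
import Pool.Agent.Lib.SPP.XPr
import Pool.Agent.Lib.SPP.FinC

/-!
# SPP.XExt: the value of the product lies between the extreme values, outside a power saving set
-/

set_option autoImplicit false

open Finset Filter

namespace Pool.Agent.Lib.SPP

/-- The smallest possible product over the odd primes up to `log n`. -/
noncomputable def Pmin (n : ℕ) : ℝ := ∏ q ∈ P83e.oddPr (Real.log n), (((q : ℝ) - 2) / ((q : ℝ) - 1))

/-- The largest possible product over the odd primes up to `log n`. -/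
noncomputable def Pmax (n : ℕ) : ℝ := ∏ q ∈ P83e.oddPr (Real.log n), ((q : ℝ) / ((q : ℝ) - 1))

/-- `s` is between the extreme values. -/
def Bd (ε : ℝ) (n : ℕ) (s : ℝ) : Prop := (1 - ε) * Pmin n ≤ s ∧ s ≤ (1 + ε) * Pmax n

namespace XExtAux

lemma three_le {t : ℝ} {q : ℕ} (h : q ∈ P83e.oddPr t) : (3 : ℝ) ≤ q := by
  rw [P83e.ProdAux.mem_oddPr] at h
  exact_mod_cast h.2.2

lemma Pmin_nonneg (n : ℕ) : 0 ≤ Pmin n :=
  prod_nonneg fun q hq => by
    have := three_le hq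
    exact div_nonneg (by linarith) (by linarith)

lemma Pmax_nonneg (n : ℕ) : 0 ≤ Pmax n :=
  prod_nonneg fun q hq => by
    have := three_le hq
    exact div_nonneg (by linarith) (by linarith)

/-- Sum of two power savings. -/
lemma two_pow (δ1 δ2 : ℝ) (h1 : 0 < δ1) (h2 : 0 < δ2) : ∀ᶠ X : ℕ in atTop,
    (X : ℝ) ^ (1 - δ1) + (X : ℝ) ^ (1 - δ2) ≤ (X : ℝ) ^ (1 - min δ1 δ2 / 2) := by
  set δ := min δ1 δ2 / 2 with hδ
  have hm : 0 < min δ1 δ2 := lt_min h1 h2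
  have hδ0 : 0 < δ := by linarith
  have hT : Tendsto (fun X : ℕ => (X : ℝ) ^ δ) atTop atTop :=
    (tendsto_rpow_atTop hδ0).comp tendsto_natCast_atTop_atTop
  filter_upwards [hT.eventually_ge_atTop 2, eventually_ge_atTop 1] with X hX hX1
  have hX1' : (1 : ℝ) ≤ X := by exact_mod_cast hX1
  have hX0 : (0 : ℝ) < X := by linarith
  have e1 : (X : ℝ) ^ (1 - δ1) ≤ (X : ℝ) ^ (1 - 2 * δ) :=
    Real.rpow_le_rpow_of_exponent_le hX1' (by
      have := min_le_left δ1 δ2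
      linarith)
  have e2 : (X : ℝ) ^ (1 - δ2) ≤ (X : ℝ) ^ (1 - 2 * δ) :=
    Real.rpow_le_rpow_of_exponent_le hX1' (by
      have := min_le_right δ1 δ2
      linarith)
  have e3 : (X : ℝ) ^ (1 - δ) = (X : ℝ) ^ δ * (X : ℝ) ^ (1 - 2 * δ) := by
    rw [← Real.rpow_add hX0]
    congr 1
    ring
  rw [e3]
  have e4 : 0 ≤ (X : ℝ) ^ (1 - 2 * δ) := by positivity
  nlinarith

/-- `(log X) ^ K + 1 ≤ X` for large `X`. -/
lemma pow_log_le (K : ℕ) : ∀ᶠ X : ℕ in atTop, Real.log X ^ K + 1 ≤ X := by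
  have h1 := (isLittleO_log_rpow_atTop (r := 1 / ((K : ℝ) + 1)) (by positivity)).bound
    (by norm_num : (0 : ℝ) < 1)
  have h2 : ∀ᶠ x : ℝ in atTop, Real.log x ^ K + 1 ≤ x := by
    have h3 : Tendsto (fun x : ℝ => x ^ (1 / ((K : ℝ) + 1))) atTop atTop :=
      tendsto_rpow_atTop (by positivity)
    filter_upwards [h1, eventually_ge_atTop 1, h3.eventually_ge_atTop 2] with x hx hx1 hx2
    have hx0 : 0 < x := by linarith
    have hl : 0 ≤ Real.log x := Real.log_nonneg hx1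
    have hy : 0 ≤ x ^ (1 / ((K : ℝ) + 1)) := by positivity
    rw [one_mul, Real.norm_of_nonneg hl, Real.norm_of_nonneg hy] at hx
    set w : ℝ := x ^ (1 / ((K : ℝ) + 1)) with hw
    have e1 : w ^ (K + 1) = x := by
      rw [hw, ← Real.rpow_natCast, ← Real.rpow_mul hx0.le]
      have : (1 / ((K : ℝ) + 1)) * ((K + 1 : ℕ) : ℝ) = 1 := by
        push_cast
        field_simp
      rw [this, Real.rpow_one]
    have e2 : Real.log x ^ K ≤ w ^ K := pow_le_pow_left₀ hl hx K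
    have e3 : (1 : ℝ) ≤ w ^ K := one_le_pow₀ (by linarith)
    have e4 : w ^ K * w = x := by rw [← pow_succ, e1]
    have e5 : w ^ K * 2 ≤ w ^ K * w := mul_le_mul_of_nonneg_left hx2 (by positivity)
    linarith
  exact tendsto_natCast_atTop_atTop.eventually h2

end XExtAux

open XExtAux

theorem ext_s (ε : ℝ) (hε : 0 < ε) : ∃ δ : ℝ, 0 < δ ∧ ∃ X0 : ℕ, ∀ X : ℕ, X0 ≤ X →
    ∃ F ⊆ Icc 1 X, (F.card : ℝ) ≤ (X : ℝ) ^ (1 - δ) ∧ ∀ n ∈ Icc 1 X, n ∉ F → ¬ IsSquare n →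
      Real.sqrt X ≤ n → ∀ s : ℝ, 0 < s → Tendsto (fun N : ℕ => SS N 1 n) atTop (nhds s) →
      Bd ε n s := by
  classical
  set e : ℝ := min ε 1 with he
  have he0 : 0 < e := lt_min hε one_pos
  have he1 : e ≤ 1 := min_le_right _ _
  have heε : e ≤ ε := min_le_left _ _
  obtain ⟨ε1, η, hε1, hη, ev1⟩ := xpr (e / 4) (by linarith)
  obtain ⟨B0, hB0⟩ := serX 1
  set B : ℕ := max B0 (⌈ε1⌉₊ + 3) with hB
  have ev2 := hB0 B (le_max_left _ _)
  obtain ⟨δ1, hδ1, ev3⟩ := xch ε1 η hε1 hη (B + 1) (by omega)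
  have hlog : Tendsto (fun X : ℕ => Real.log (X : ℝ)) atTop atTop :=
    Real.tendsto_log_atTop.comp tendsto_natCast_atTop_atTop
  obtain ⟨X0, hX0⟩ := eventually_atTop.1 ((((ev1.and ev2).and ev3).and
    ((hlog.eventually_ge_atTop (max 2 (4 / e))).and (pow_log_le B))).and
    (two_pow δ1 (1 / 8) hδ1 (by norm_num)))
  refine ⟨min δ1 (1 / 8) / 2, by
    have : 0 < min δ1 (1 / 8) := lt_min hδ1 (by norm_num)
    linarith, X0, fun X hX => ?_⟩
  obtain ⟨⟨⟨⟨h1, h2⟩, h3⟩, h4, h5⟩, h6⟩ := hX0 X hX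
  set L : ℝ := Real.log X with hL
  have hL2 : 2 ≤ L := (le_max_left _ _).trans h4
  have hL4 : 4 / e ≤ L := (le_max_right _ _).trans h4
  have hL0 : 0 < L := by linarith
  -- the parameters
  set z : ℕ := ⌈L ^ B⌉₊ with hz
  set y : ℕ := ⌈L ^ (1 + ε1)⌉₊ with hy
  have hz1 : L ^ B ≤ z := Nat.le_ceil _
  have hz2 : (z : ℝ) ≤ L ^ B + 1 := (Nat.ceil_lt_add_one (by positivity)).le
  have hzX : z ≤ X := by
    have : (z : ℝ) ≤ X := hz2.trans h5
    exact_mod_cast this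
  have hy1 : L ^ (1 + ε1) ≤ y := Nat.le_ceil _
  have hy2 : (y : ℝ) ≤ L ^ (1 + ε1) + 1 := (Nat.ceil_lt_add_one (by positivity)).le
  have hyL : L ≤ y := by
    refine le_trans ?_ hy1
    have := Real.rpow_le_rpow_of_exponent_le (by linarith : 1 ≤ L) (by linarith : 1 ≤ 1 + ε1)
    rwa [Real.rpow_one] at this
  have hBε : 1 + ε1 + 1 ≤ (B : ℝ) := by
    have h7 : ((⌈ε1⌉₊ + 3 : ℕ) : ℝ) ≤ B := by exact_mod_cast le_max_right _ _
    have h8 := Nat.le_ceil ε1
    push_cast at h7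
    linarith
  have hyz : y ≤ z := by
    have h7 : (y : ℝ) ≤ z := by
      refine hy2.trans (le_trans ?_ hz1)
      have e1 : L ^ (1 + ε1) * 2 ≤ L ^ (1 + ε1) * L := mul_le_mul_of_nonneg_left hL2 (by positivity)
      have e2 : L ^ (1 + ε1) * L = L ^ (1 + ε1 + 1) := by
        rw [Real.rpow_add hL0 (1 + ε1) 1, Real.rpow_one]
      have e3 : L ^ (1 + ε1 + 1) ≤ L ^ (B : ℝ) :=
        Real.rpow_le_rpow_of_exponent_le (by linarith) hBε
      rw [Real.rpow_natCast] at e3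
      have e4 : 1 ≤ L ^ (1 + ε1) := Real.one_le_rpow (by linarith) (by linarith)
      linarith
    exact_mod_cast h7
  have hzB : (z : ℝ) ≤ L ^ (B + 1) := by
    refine hz2.trans ?_
    have e1 : (1 : ℝ) ≤ L ^ B := one_le_pow₀ (by linarith)
    rw [pow_succ]
    nlinarith
  obtain ⟨F1, hF1, hF1c, hF1p⟩ := h2 z hz1 hzX
  set F2 : Finset ℕ := (Icc 1 X).filter fun n : ℕ => η <
    |∑ p ∈ (Ioc y z).filter Nat.Prime, (jacobiSym (n : ℤ) p : ℝ) / p| with hF2
  have hF2c : (F2.card : ℝ) ≤ (X : ℝ) ^ (1 - δ1) := h3 y z hy1 hzB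
  refine ⟨F2 ∪ F1, union_subset (filter_subset _ _) hF1, ?_, ?_⟩
  · have h7 : ((F2 ∪ F1).card : ℝ) ≤ F2.card + F1.card := by exact_mod_cast card_union_le _ _
    have h8 : (7 / 8 : ℝ) = 1 - 1 / 8 := by norm_num
    rw [h8] at hF1c
    linarith
  · intro n hn hnF hsq hnX s hs ht
    have hnF1 : n ∉ F1 := fun h => hnF (mem_union_right _ h)
    have hnF2 : n ∉ F2 := fun h => hnF (mem_union_left _ h)
    obtain ⟨s', hs', ht', hss⟩ := hF1p n hn hnF1 hsq
    have hse : s = s' := tendsto_nhds_unique ht ht'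
    rw [← hse, pow_one] at hss
    have hη' : |∑ p ∈ (Ioc y z).filter Nat.Prime, (jacobiSym (n : ℤ) p : ℝ) / p| ≤ η := by
      by_contra hcon
      push Not at hcon
      exact hnF2 (mem_filter.2 ⟨hn, hcon⟩)
    obtain ⟨g1, g2⟩ := h1 y z n hy2 hyL hyz hnX (mem_Icc.1 hn).2 hη'
    have hP1 := Pmin_nonneg n
    have hP2 := Pmax_nonneg n
    have g1' : (1 - e / 4) * Pmin n ≤ SS z 1 n := g1
    have g2' : SS z 1 n ≤ (1 + e / 4) * Pmax n := g2
    set t : ℝ := 1 / L with ht0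
    have htL : s / L = s * t := by rw [ht0, mul_one_div]
    have ht1 : t ≤ e / 4 := by
      rw [ht0, div_le_div_iff₀ hL0 (by norm_num)]
      rw [div_le_iff₀ he0] at hL4
      linarith
    have ht2 : 0 < t := by positivity
    rw [htL] at hss
    obtain ⟨k1, k2⟩ := abs_le.1 hss
    constructor
    · -- lower bound
      have k3 : (1 - e / 4) * Pmin n ≤ s * (1 + t) := by linarith
      have k4 : (1 - e) * (1 + t) ≤ 1 - e / 4 := by nlinarith
      have k5 : (1 - e) * Pmin n * (1 + t) ≤ s * (1 + t) := by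
        calc (1 - e) * Pmin n * (1 + t) = (1 - e) * (1 + t) * Pmin n := by ring
          _ ≤ (1 - e / 4) * Pmin n := mul_le_mul_of_nonneg_right k4 hP1
          _ ≤ _ := k3
      have k6 : (1 - e) * Pmin n ≤ s := le_of_mul_le_mul_right k5 (by linarith)
      refine le_trans ?_ k6
      exact mul_le_mul_of_nonneg_right (by linarith) hP1
    · have k3 : s * (1 - t) ≤ (1 + e / 4) * Pmax n := by linarith
      have k4 : 1 + e / 4 ≤ (1 + e) * (1 - t) := by nlinarith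
      have k5 : s * (1 - t) ≤ (1 + e) * Pmax n * (1 - t) := by
        calc s * (1 - t) ≤ (1 + e / 4) * Pmax n := k3
          _ ≤ (1 + e) * (1 - t) * Pmax n := mul_le_mul_of_nonneg_right k4 hP2
          _ = _ := by ring
      have k6 : s ≤ (1 + e) * Pmax n := le_of_mul_le_mul_right k5 (by linarith)
      refine k6.trans ?_
      exact mul_le_mul_of_nonneg_right (by linarith) hP2

/-- Add the extreme values to a statement about almost all `n`. -/
theorem add_ext (ε : ℝ) (hε : 0 < ε) : ∃ δ : ℝ, 0 < δ ∧ ∃ X0 : ℕ, ∀ X : ℕ, X0 ≤ X →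
    ∀ (E : ℝ) (P : ℕ → ℝ → Prop), ABs X E P →
      ABs X (E + (X : ℝ) ^ (1 - δ)) fun n s => P n s ∧ (Real.sqrt X ≤ n → Bd ε n s) := by
  classical
  obtain ⟨δ, hδ, X0, h⟩ := ext_s ε hε
  refine ⟨δ, hδ, X0, fun X hX E P hAB => ?_⟩
  obtain ⟨F, hF, hFc, hFp⟩ := h X hX
  obtain ⟨F', hF', hFc', hFp'⟩ := hAB
  refine ⟨F' ∪ F, union_subset hF' hF, ?_, fun n hn hnF hsq => ?_⟩
  · have h7 : ((F' ∪ F).card : ℝ) ≤ F'.card + F.card := by exact_mod_cast card_union_le _ _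
    linarith
  · obtain ⟨s, hs, ht, hp⟩ := hFp' n hn (fun h => hnF (mem_union_left _ h)) hsq
    exact ⟨s, hs, ht, hp, fun hX' => hFp n hn (fun h => hnF (mem_union_right _ h)) hsq hX' s hs ht⟩

end Pool.Agent.Lib.SPP
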