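import Pool.Agent.Lib.SPP.XRad
import Pool.Agent.Lib.SPP.Loc
import Pool.Agent.Lib.GMV.PerMean

/-!
# SPP.XMom: moments over `n` of prime sums of Jacobi symbols (1.2 h)

PROOF. Expand the `2k`-th power: `∑_{f : Fin (2k) → P} ∏_i (1 / f i) ∑_{n ∈ [1, N]} ∏_i J(n | f i)`. With `c_p = #{i : f i = p}`: `∏_i J(n | f i) = ∏_{p ∈ P} J(n|p)^c_p`.
(a) all `c_p` even: the product is `0` or `1`, so the sum over `n` is at most `N`; the sum over these `f` of `∏ 1/f i` is bounded by `rad` (`a p = 1/p`).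
(b) some `c_q` odd: let `P' = {p ∈ P : c_p ≥ 1}`, `Dp = ∏ P' ≤ ∏_i f i ≤ D^(2k)`. `h(n) = ∏_{p ∈ P'} J(n|p)^c_p` has period `Dp`, `|h| ≤ 1`, and its mean is `∏_{p ∈ P'}` (mean of `J(.|p)^c_p` mod `p`) `= 0`
(`av_prod` with `M = 1`; `∑_{n mod q} J(n|q)^j = 0` for odd `j` and `q ≠ 2`: from `gp_odd_mean`, `gp q n = -J(n|q)/(q-1)`). So `|∑_{n ∈ [1,N]} h n| ≤ Dp ≤ D^(2k)` (whole periods vanish, the incomplete one
has fewer than `Dp` terms of absolute value `≤ 1`). The sum over `f` of `∏ 1/f i` is `(∑_{p ∈ P} 1/p)^(2k)`.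
-/

set_option autoImplicit false

open Finset Filter

namespace Pool.Agent.Lib.SPP

namespace XMomAux

open Pool.Agent.Lib.GMV Pool.Agent.Lib.GMV.PerMeanAux

/-- The Jacobi symbol as a real number. -/
noncomputable def J (p n : ℕ) : ℝ := (jacobiSym (n : ℤ) p : ℝ)

lemma abs_J (p n : ℕ) : |J p n| ≤ 1 := by
  unfold J
  rcases jacobiSym.trichotomy (n : ℤ) p with h | h | h <;> rw [h] <;> simp

lemma J_per (p n : ℕ) : J p (n + p) = J p n := by
  unfold J
  have h : jacobiSym ((n + p : ℕ) : ℤ) p = jacobiSym (n : ℤ) p := by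
    rw [jacobiSym.mod_left, jacobiSym.mod_left (n : ℤ)]
    push_cast
    rw [Int.add_emod_right]
  rw [h]

lemma J_mean {p : ℕ} (hp : p.Prime) (h2 : p ≠ 2) (j : ℕ) (hj : Odd j) : ∑ n ∈ range p, J p n ^ j = 0 := by
  have h := gp_odd_mean hp j hj
  have hp1 : (1 : ℝ) < p := by exact_mod_cast hp.one_lt
  have h1 : ∀ n, gp p n ^ j = (-1 / ((p : ℝ) - 1)) ^ j * J p n ^ j := by
    intro n
    have h3 : gp p n = (-1 / ((p : ℝ) - 1)) * J p n := by
      unfold gp J
      rw [if_neg h2]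
      ring
    rw [h3, mul_pow]
  rw [Finset.sum_congr rfl fun n _ => h1 n, ← Finset.mul_sum] at h
  rcases mul_eq_zero.1 h with h4 | h4
  · exfalso
    have h5 : (-1 / ((p : ℝ) - 1)) ≠ 0 := div_ne_zero (by norm_num) (by linarith)
    exact pow_ne_zero _ h5 h4
  · exact h4

lemma abs_prod_le (P : Finset ℕ) (c : ℕ → ℕ) (n : ℕ) : |∏ p ∈ P, J p n ^ c p| ≤ 1 := by
  rw [Finset.abs_prod]
  refine Finset.prod_le_one (fun p _ => abs_nonneg _) fun p _ => ?_
  rw [abs_pow]
  exact pow_le_one₀ (abs_nonneg _) (abs_J p n)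

/-- A sum over an interval of a product with an odd exponent. -/
lemma odd_sum (P : Finset ℕ) (hP : ∀ p ∈ P, p.Prime ∧ p ≠ 2) (c : ℕ → ℕ) (q : ℕ) (hq : q ∈ P) (hodd : Odd (c q))
    (N : ℕ) : |∑ n ∈ Icc 1 N, ∏ p ∈ P, J p n ^ c p| ≤ ((∏ p ∈ P, p : ℕ) : ℝ) := by
  set M : ℕ := ∏ p ∈ P, p with hM
  have hM0 : 0 < M := Finset.prod_pos fun p hp => (hP p hp).1.pos
  set H : ℕ → ℂ := fun n => ((∏ p ∈ P, J p n ^ c p : ℝ) : ℂ) with hH
  have hper : ∀ n, H (n + M) = H n := by
    intro n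
    rw [hH]
    simp only
    congr 1
    refine Finset.prod_congr rfl fun p hp => ?_
    obtain ⟨t, ht⟩ : p ∣ M := Finset.dvd_prod_of_mem (fun q => q) hp
    have h1 : J p (n + M) = J p n := by
      rw [ht]
      have h2 := per_mul p (fun n => (J p n : ℂ)) (fun n => by simp only [J_per]) t n
      exact_mod_cast h2
    rw [h1]
  have hav := av_prod P (fun p hp => (hP p hp).1) 1 le_rfl (fun p _ => Nat.coprime_one_left p)
    (fun _ => 1) (fun _ => rfl) (fun p n => ((J p n ^ c p : ℝ) : ℂ)) (fun p _ n => by simp only [J_per])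
  have hz : ∏ p ∈ P, av p (fun n => ((J p n ^ c p : ℝ) : ℂ)) = 0 := by
    refine Finset.prod_eq_zero hq ?_
    unfold av
    have h1 := J_mean (hP q hq).1 (hP q hq).2 (c q) hodd
    have h2 : ∑ n ∈ range q, ((J q n ^ c q : ℝ) : ℂ) = 0 := by
      rw [← Complex.ofReal_sum, h1, Complex.ofReal_zero]
    rw [h2, zero_div]
  rw [hz, mul_zero, one_mul] at hav
  have hsum : ∑ n ∈ range M, H n = 0 := by
    unfold av at hav
    have hMc : (M : ℂ) ≠ 0 := by exact_mod_cast hM0.ne'
    rw [div_eq_zero_iff] at hav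
    rcases hav with h | h
    · rw [← h]
      refine Finset.sum_congr rfl fun n _ => ?_
      rw [hH]
      simp only
      push_cast
      rw [one_mul]
    · exact absurd h hMc
  have hshift : ∀ n, H (n + M + 1) = H (n + 1) := fun n => by
    rw [show n + M + 1 = n + 1 + M by ring]
    exact hper _
  have hS : ∑ n ∈ Icc 1 N, H n = ∑ n ∈ range (N % M), H (n + 1) := by
    rw [sum_Icc_eq]
    conv_lhs => rw [← Nat.div_add_mod N M]
    rw [per_sum M (fun n => H (n + 1)) hshift, sum_shift M H hper, hsum, mul_zero, zero_add]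
  have hreal : ((∑ n ∈ Icc 1 N, ∏ p ∈ P, J p n ^ c p : ℝ) : ℂ) = ∑ n ∈ Icc 1 N, H n := by
    rw [Complex.ofReal_sum]
  have hnorm : |∑ n ∈ Icc 1 N, ∏ p ∈ P, J p n ^ c p| = ‖∑ n ∈ Icc 1 N, H n‖ := by
    rw [← hreal, Complex.norm_real, Real.norm_eq_abs]
  rw [hnorm, hS]
  refine (norm_sum_le _ _).trans ?_
  calc ∑ n ∈ range (N % M), ‖H (n + 1)‖ ≤ ∑ n ∈ range (N % M), (1 : ℝ) := by
        refine Finset.sum_le_sum fun n _ => ?_
        rw [hH]
        simp only
        rw [Complex.norm_real, Real.norm_eq_abs]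
        exact abs_prod_le P c (n + 1)
    _ = ((N % M : ℕ) : ℝ) := by simp
    _ ≤ M := by exact_mod_cast (Nat.mod_lt N hM0).le

end XMomAux

open XMomAux XRadAux in
theorem xmom (P : Finset ℕ) (k N D : ℕ) (hk : 1 ≤ k) (hP : ∀ p ∈ P, p.Prime ∧ p ≠ 2 ∧ p ≤ D) :
    ∑ n ∈ Icc 1 N, (∑ p ∈ P, (jacobiSym (n : ℤ) p : ℝ) / p) ^ (2 * k) ≤
      N * (6 * k * ∑ p ∈ P, (1 / (p : ℝ)) ^ 2) ^ k +
        (D : ℝ) ^ (2 * k) * (∑ p ∈ P, 1 / (p : ℝ)) ^ (2 * k) := by
  set c : (Fin (2 * k) → ℕ) → ℕ → ℕ := fun f p => (univ.filter fun i => f i = p).card with hc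
  set a : ℕ → ℝ := fun p => 1 / (p : ℝ) with ha
  have ha0 : ∀ p, 0 ≤ a p := fun p => by
    rw [ha]
    simp only
    positivity
  have hexp : ∀ n ∈ Icc 1 N, (∑ p ∈ P, (jacobiSym (n : ℤ) p : ℝ) / p) ^ (2 * k) =
      ∑ f ∈ Fintype.piFinset (fun _ : Fin (2 * k) => P), (∏ i, a (f i)) * ∏ p ∈ P, J p n ^ c f p := by
    intro n _
    rw [Finset.sum_pow']
    refine Finset.sum_congr rfl fun f hf => ?_
    rw [← prod_fib P f (fun i => Fintype.mem_piFinset.1 hf i) (fun p => J p n), ← Finset.prod_mul_distrib]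
    refine Finset.prod_congr rfl fun i _ => ?_
    rw [ha]
    unfold J
    simp only
    ring
  rw [Finset.sum_congr rfl hexp, Finset.sum_comm]
  have hterm : ∀ f ∈ Fintype.piFinset (fun _ : Fin (2 * k) => P),
      ∑ n ∈ Icc 1 N, (∏ i, a (f i)) * ∏ p ∈ P, J p n ^ c f p ≤
        N * (if ∀ p ∈ P, Even (univ.filter fun i => f i = p).card then ∏ i, a (f i) else 0) +
          (D : ℝ) ^ (2 * k) * ∏ i, a (f i) := by
    intro f hf
    have hA : 0 ≤ ∏ i, a (f i) := Finset.prod_nonneg fun i _ => ha0 _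
    rw [← Finset.mul_sum]
    by_cases hev : ∀ p ∈ P, Even (univ.filter fun i => f i = p).card
    · rw [if_pos hev]
      have h1 : ∑ n ∈ Icc 1 N, ∏ p ∈ P, J p n ^ c f p ≤ N := by
        calc ∑ n ∈ Icc 1 N, ∏ p ∈ P, J p n ^ c f p ≤ ∑ n ∈ Icc 1 N, (1 : ℝ) :=
              Finset.sum_le_sum fun n _ => (le_abs_self _).trans (abs_prod_le P (c f) n)
          _ = N := by simp
      have h2 : 0 ≤ (D : ℝ) ^ (2 * k) * ∏ i, a (f i) := by positivity
      have h3 := mul_le_mul_of_nonneg_left h1 hA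
      linarith
    · rw [if_neg hev, mul_zero, zero_add]
      push Not at hev
      obtain ⟨q, hq, hodd⟩ := hev
      rw [Nat.not_even_iff_odd] at hodd
      set P' : Finset ℕ := P.filter (fun p => c f p ≠ 0) with hP'
      have hqP' : q ∈ P' := by
        rw [hP', Finset.mem_filter]
        refine ⟨hq, ?_⟩
        intro h0
        have h1 : (univ.filter fun i => f i = q).card = 0 := h0
        rw [h1] at hodd
        exact absurd hodd (by decide)
      have hred : ∀ n, ∏ p ∈ P, J p n ^ c f p = ∏ p ∈ P', J p n ^ c f p := by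
        intro n
        rw [hP', Finset.prod_filter]
        refine Finset.prod_congr rfl fun p _ => ?_
        split_ifs with h
        · rfl
        · push Not at h
          rw [h, pow_zero]
      have hcard : P'.card ≤ 2 * k := by
        have h1 : P' ⊆ univ.image f := by
          intro p hp
          rw [hP', Finset.mem_filter] at hp
          have h2 : (univ.filter fun i => f i = p).Nonempty := Finset.card_pos.1 (Nat.pos_of_ne_zero hp.2)
          obtain ⟨i, hi⟩ := h2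
          rw [Finset.mem_filter] at hi
          rw [Finset.mem_image]
          exact ⟨i, Finset.mem_univ _, hi.2⟩
        have h2 := Finset.card_le_card h1
        have h3 : (univ.image f).card ≤ (univ : Finset (Fin (2 * k))).card := Finset.card_image_le
        rw [Finset.card_fin] at h3
        omega
      have hD1 : 1 ≤ D := by
        have := (hP q hq).1.pos
        have := (hP q hq).2.2
        omega
      have hprod : ((∏ p ∈ P', p : ℕ) : ℝ) ≤ (D : ℝ) ^ (2 * k) := by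
        have h1 : ∏ p ∈ P', p ≤ D ^ P'.card := by
          rw [← Finset.prod_const]
          refine Finset.prod_le_prod' fun p hp => ?_
          rw [hP', Finset.mem_filter] at hp
          exact (hP p hp.1).2.2
        have h2 : D ^ P'.card ≤ D ^ (2 * k) := Nat.pow_le_pow_right hD1 hcard
        exact_mod_cast h1.trans h2
      have hmain := odd_sum P' (fun p hp => by
        rw [hP', Finset.mem_filter] at hp
        exact ⟨(hP p hp.1).1, (hP p hp.1).2.1⟩) (c f) q hqP' hodd N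
      have h1 : ∑ n ∈ Icc 1 N, ∏ p ∈ P, J p n ^ c f p ≤ (D : ℝ) ^ (2 * k) := by
        rw [Finset.sum_congr rfl fun n _ => hred n]
        exact (le_abs_self _).trans (hmain.trans hprod)
      have h3 := mul_le_mul_of_nonneg_left h1 hA
      linarith
  refine (Finset.sum_le_sum hterm).trans ?_
  rw [Finset.sum_add_distrib, ← Finset.mul_sum, ← Finset.mul_sum]
  have h1 := rad P k hk a ha0
  have h2 : ∑ f ∈ Fintype.piFinset (fun _ : Fin (2 * k) => P), ∏ i, a (f i) = (∑ p ∈ P, a p) ^ (2 * k) := by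
    rw [Finset.sum_pow']
  rw [h2]
  have h3 := mul_le_mul_of_nonneg_left h1 (Nat.cast_nonneg (α := ℝ) N)
  linarith

end Pool.Agent.Lib.SPP
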