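import Mathlib

/-!
# SPP.XRad: moments of Rademacher sums (1.2 h)

PROOF. For `A ⊆ P` let `s_A p = 1` for `p ∈ A`, `-1` otherwise, and `X_A = ∑_{p ∈ P} s_A p * a p`. Expanding (`Finset.sum_pow'` or `Finset.prod_univ_sum`)
`∑_{A ∈ P.powerset} X_A^(2k) = ∑_f ∏_i a (f i) ∑_A ∏_i s_A (f i)`, `∏_i s_A (f i) = ∏_{p ∈ P} s_A p ^ c_p`, `c_p = #{i : f i = p}`, and `∑_A ∏_{p ∈ P} s_A p ^ c_p = ∏_{p ∈ P} (1 + (-1)^c_p)`
(`Finset.prod_add`) is `2^|P|` if all `c_p` are even and `0` otherwise. So the left side is `2^(-|P|) ∑_A X_A^(2k)`.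
For `t > 0`: `(t x)^(2k) ≤ (2k)! cosh (t x)` (one term of the power series with nonnegative terms, `Real.hasSum_cosh` and `le_hasSum`), and
`2^(-|P|) ∑_A cosh (t X_A) = ∏_{p ∈ P} cosh (t a p)` (`∑_A exp(t X_A) = ∏_p (exp(t a p) + exp(-t a p))` by `Finset.prod_add`, the same for `-t`) `≤ exp(t² σ/2)`, `σ = ∑_{p ∈ P} a p ^ 2`
(`Real.cosh_le_exp_half_sq`). If `σ = 0` then `a p = 0` on `P` and the left side is `0` (`k ≥ 1`). Otherwise `t² = 2k/σ`:
left side `≤ (2k)! t^(-2k) e^k ≤ (2k)^(2k) (σ/(2k))^k e^k = (2 e k σ)^k ≤ (6 k σ)^k` (`Nat.factorial_le_pow`).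
-/

set_option autoImplicit false

open Finset Filter

namespace Pool.Agent.Lib.SPP

namespace XRadAux

/-- the signs -/
noncomputable def sg (A : Finset ℕ) (p : ℕ) : ℝ := if p ∈ A then 1 else -1

theorem sum_prod_ite (P : Finset ℕ) (F G : ℕ → ℝ) :
    ∑ A ∈ P.powerset, ∏ p ∈ P, (if p ∈ A then F p else G p) = ∏ p ∈ P, (F p + G p) := by
  rw [Finset.prod_add]
  refine Finset.sum_congr rfl fun A hA => ?_
  have hAP := Finset.mem_powerset.1 hA
  rw [← Finset.prod_sdiff hAP, mul_comm]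
  congr 1
  · exact Finset.prod_congr rfl fun p hp => if_pos hp
  · exact Finset.prod_congr rfl fun p hp => if_neg (Finset.mem_sdiff.1 hp).2

theorem sum_sg (P : Finset ℕ) (c : ℕ → ℕ) :
    ∑ A ∈ P.powerset, ∏ p ∈ P, sg A p ^ c p = if ∀ p ∈ P, Even (c p) then (2 : ℝ) ^ P.card else 0 := by
  have h1 : ∑ A ∈ P.powerset, ∏ p ∈ P, sg A p ^ c p
      = ∑ A ∈ P.powerset, ∏ p ∈ P, (if p ∈ A then (1 : ℝ) else (-1) ^ c p) := by
    refine Finset.sum_congr rfl fun A _ => Finset.prod_congr rfl fun p _ => ?_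
    unfold sg
    split_ifs <;> simp
  rw [h1, sum_prod_ite]
  split_ifs with h
  · rw [Finset.prod_congr rfl (g := fun _ => (2 : ℝ))]
    · simp
    · intro p hp
      rw [(h p hp).neg_one_pow]; norm_num
  · push Not at h
    obtain ⟨p, hp, hodd⟩ := h
    refine Finset.prod_eq_zero hp ?_
    rw [(Nat.not_even_iff_odd.1 hodd).neg_one_pow]; norm_num

theorem prod_fib (P : Finset ℕ) {n : ℕ} (f : Fin n → ℕ) (hf : ∀ i, f i ∈ P) (s : ℕ → ℝ) :
    ∏ i, s (f i) = ∏ p ∈ P, s p ^ (univ.filter fun i => f i = p).card := by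
  rw [← Finset.prod_fiberwise_of_maps_to (s := (univ : Finset (Fin n))) (t := P) (g := f) (fun i _ => hf i)]
  refine Finset.prod_congr rfl fun p _ => ?_
  rw [Finset.prod_congr rfl (g := fun _ => s p), Finset.prod_const]
  intro i hi
  rw [(Finset.mem_filter.1 hi).2]

theorem expand (P : Finset ℕ) (n : ℕ) (a : ℕ → ℝ) :
    ∑ A ∈ P.powerset, (∑ p ∈ P, sg A p * a p) ^ n
      = 2 ^ P.card * ∑ f ∈ Fintype.piFinset (fun _ : Fin n => P),
        (if ∀ p ∈ P, Even (univ.filter fun i => f i = p).card then ∏ i, a (f i) else 0) := by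
  have h1 : ∀ A ∈ P.powerset, (∑ p ∈ P, sg A p * a p) ^ n
      = ∑ f ∈ Fintype.piFinset (fun _ : Fin n => P), (∏ p ∈ P, sg A p ^ (univ.filter fun i => f i = p).card) * ∏ i, a (f i) := by
    intro A _
    rw [Finset.sum_pow']
    refine Finset.sum_congr rfl fun f hf => ?_
    rw [Finset.prod_mul_distrib, prod_fib P f (fun i => Fintype.mem_piFinset.1 hf i)]
  rw [Finset.sum_congr rfl h1, Finset.sum_comm, Finset.mul_sum]
  refine Finset.sum_congr rfl fun f _ => ?_
  rw [← Finset.sum_mul, sum_sg]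
  split_ifs <;> simp

theorem sum_exp (P : Finset ℕ) (a : ℕ → ℝ) (t : ℝ) :
    ∑ A ∈ P.powerset, Real.exp (t * ∑ p ∈ P, sg A p * a p) = ∏ p ∈ P, (2 * Real.cosh (t * a p)) := by
  have h1 : ∀ A ∈ P.powerset, Real.exp (t * ∑ p ∈ P, sg A p * a p)
      = ∏ p ∈ P, (if p ∈ A then Real.exp (t * a p) else Real.exp (-(t * a p))) := by
    intro A _
    rw [Finset.mul_sum, Real.exp_sum]
    refine Finset.prod_congr rfl fun p _ => ?_
    unfold sg
    split_ifs
    · rw [one_mul]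
    · congr 1; ring
  rw [Finset.sum_congr rfl h1, sum_prod_ite]
  refine Finset.prod_congr rfl fun p _ => ?_
  rw [Real.cosh_eq]; ring

theorem sum_cosh (P : Finset ℕ) (a : ℕ → ℝ) (t : ℝ) :
    ∑ A ∈ P.powerset, Real.cosh (t * ∑ p ∈ P, sg A p * a p)
      ≤ 2 ^ P.card * Real.exp (t ^ 2 * (∑ p ∈ P, a p ^ 2) / 2) := by
  have h1 : ∑ A ∈ P.powerset, Real.cosh (t * ∑ p ∈ P, sg A p * a p) = ∏ p ∈ P, (2 * Real.cosh (t * a p)) := by
    have e1 := sum_exp P a t
    have e2 := sum_exp P a (-t)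
    have e3 : ∏ p ∈ P, (2 * Real.cosh (-t * a p)) = ∏ p ∈ P, (2 * Real.cosh (t * a p)) := by
      refine Finset.prod_congr rfl fun p _ => ?_
      rw [neg_mul, Real.cosh_neg]
    rw [e3] at e2
    have e4 : ∑ A ∈ P.powerset, Real.cosh (t * ∑ p ∈ P, sg A p * a p)
        = (∑ A ∈ P.powerset, Real.exp (t * ∑ p ∈ P, sg A p * a p)
          + ∑ A ∈ P.powerset, Real.exp (-t * ∑ p ∈ P, sg A p * a p)) / 2 := by
      rw [← Finset.sum_add_distrib, Finset.sum_div]
      refine Finset.sum_congr rfl fun A _ => ?_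
      rw [Real.cosh_eq, neg_mul]
    rw [e4, e1, e2]; ring
  rw [h1, Finset.prod_mul_distrib, Finset.prod_const]
  refine mul_le_mul_of_nonneg_left ?_ (by positivity)
  have h2 : Real.exp (t ^ 2 * (∑ p ∈ P, a p ^ 2) / 2) = ∏ p ∈ P, Real.exp ((t * a p) ^ 2 / 2) := by
    rw [← Real.exp_sum]
    congr 1
    rw [Finset.mul_sum, Finset.sum_div]
    exact Finset.sum_congr rfl fun p _ => by ring
  rw [h2]
  exact Finset.prod_le_prod (fun p _ => (Real.cosh_pos _).le) fun p _ => Real.cosh_le_exp_half_sq _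

theorem pow_le_cosh (x : ℝ) (k : ℕ) : x ^ (2 * k) ≤ (2 * k).factorial * Real.cosh x := by
  have h := Real.hasSum_cosh x
  have h1 : x ^ (2 * k) / ((2 * k).factorial : ℝ) ≤ Real.cosh x := by
    refine le_hasSum h k fun j _ => ?_
    have : 0 ≤ x ^ (2 * j) := (even_two_mul j).pow_nonneg x
    positivity
  have h2 : (0 : ℝ) < (2 * k).factorial := by exact_mod_cast Nat.factorial_pos _
  rw [div_le_iff₀ h2] at h1
  linarith [h1, mul_comm (Real.cosh x) ((2 * k).factorial : ℝ)]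

end XRadAux

open XRadAux in
theorem rad (P : Finset ℕ) (k : ℕ) (hk : 1 ≤ k) (a : ℕ → ℝ) (ha : ∀ p, 0 ≤ a p) :
    ∑ f ∈ Fintype.piFinset (fun _ : Fin (2 * k) => P),
      (if ∀ p ∈ P, Even (univ.filter fun i => f i = p).card then ∏ i, a (f i) else 0) ≤
      (6 * k * ∑ p ∈ P, a p ^ 2) ^ k := by
  set L := ∑ f ∈ Fintype.piFinset (fun _ : Fin (2 * k) => P),
      (if ∀ p ∈ P, Even (univ.filter fun i => f i = p).card then ∏ i, a (f i) else 0) with hL
  set σ := ∑ p ∈ P, a p ^ 2 with hσ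
  have hσ0 : 0 ≤ σ := Finset.sum_nonneg fun p _ => sq_nonneg _
  have hE := expand P (2 * k) a
  rw [← hL] at hE
  have h2P : (0 : ℝ) < 2 ^ P.card := by positivity
  rcases hσ0.eq_or_lt with h0 | hpos
  · have hz : ∀ p ∈ P, a p = 0 := by
      intro p hp
      have := (Finset.sum_eq_zero_iff_of_nonneg (fun p _ => sq_nonneg (a p))).1 (hσ ▸ h0.symm) p hp
      exact pow_eq_zero_iff (two_ne_zero) |>.1 this
    have hX : ∀ A ∈ P.powerset, (∑ p ∈ P, sg A p * a p) ^ (2 * k) = 0 := by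
      intro A _
      rw [Finset.sum_eq_zero (fun p hp => by rw [hz p hp, mul_zero])]
      exact zero_pow (by omega)
    rw [Finset.sum_eq_zero hX] at hE
    have : L = 0 := by
      rcases mul_eq_zero.1 hE.symm with h | h
      · exact absurd h h2P.ne'
      · exact h
    rw [this]
    positivity
  · have hk0 : (0 : ℝ) < k := by exact_mod_cast hk
    set t := Real.sqrt (2 * k / σ) with ht
    have ht2 : t ^ 2 = 2 * k / σ := Real.sq_sqrt (by positivity)
    have h1 : ∀ A ∈ P.powerset, t ^ (2 * k) * (∑ p ∈ P, sg A p * a p) ^ (2 * k)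
        ≤ (2 * k).factorial * Real.cosh (t * ∑ p ∈ P, sg A p * a p) := by
      intro A _
      rw [← mul_pow]
      exact pow_le_cosh _ k
    have h2 := Finset.sum_le_sum h1
    rw [← Finset.mul_sum, ← Finset.mul_sum, hE] at h2
    have h3 := sum_cosh P a t
    rw [← hσ] at h3
    have h4 : t ^ (2 * k) * (2 ^ P.card * L) ≤ (2 * k).factorial * (2 ^ P.card * Real.exp (t ^ 2 * σ / 2)) :=
      h2.trans (mul_le_mul_of_nonneg_left h3 (by positivity))
    have h5 : t ^ 2 * σ / 2 = k := by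
      rw [ht2]; field_simp
    rw [h5, pow_mul, ht2] at h4
    have h6 : (2 * k / σ) ^ k * L ≤ (2 * k).factorial * Real.exp k := by
      have : 2 ^ P.card * ((2 * k / σ) ^ k * L) ≤ 2 ^ P.card * ((2 * k).factorial * Real.exp k) := by
        calc 2 ^ P.card * ((2 * k / σ) ^ k * L) = (2 * k / σ) ^ k * (2 ^ P.card * L) := by ring
          _ ≤ _ := h4
          _ = _ := by ring
      exact le_of_mul_le_mul_left this h2P
    have h7 : ((2 * k).factorial : ℝ) ≤ (2 * k) ^ (2 * k) := by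
      have := Nat.factorial_le_pow (2 * k)
      exact_mod_cast this
    have h8 : Real.exp k ≤ 3 ^ k := by
      have : Real.exp k = Real.exp 1 ^ k := by rw [← Real.exp_nat_mul, mul_one]
      rw [this]
      exact pow_le_pow_left₀ (Real.exp_pos _).le (by linarith [Real.exp_one_lt_d9]) k
    have h9 : (2 * k / σ) ^ k * L ≤ (2 * k) ^ (2 * k) * 3 ^ k :=
      h6.trans (mul_le_mul h7 h8 (Real.exp_pos _).le (by positivity))
    have h10 : (2 * k / σ) ^ k * (6 * k * σ) ^ k = (2 * k) ^ (2 * k) * 3 ^ k := by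
      rw [← mul_pow, pow_mul, ← mul_pow]
      congr 1
      field_simp
      ring
    rw [← h10] at h9
    exact le_of_mul_le_mul_left h9 (by positivity)

end Pool.Agent.Lib.SPP
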